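import Pool.Agent.Lib.MP_230119_an.SGDef

set_option autoImplicit false

open MeasureTheory Set Filter Topology
open scoped ENNReal

namespace Pool.Agent.Lib.MP_230119_an

/-! ### The antipodal map -/

lemma ap_mem {θ : ℝ} (h : θ ∈ Ioc 0 (2 * Real.pi)) : ap θ ∈ Ioc 0 (2 * Real.pi) := by
  unfold ap
  have := Real.pi_pos
  rcases h with ⟨h1, h2⟩
  split_ifs with h3
  · constructor <;> linarith
  · push Not at h3
    constructor <;> linarith

lemma ap_ap {θ : ℝ} (h : θ ∈ Ioc 0 (2 * Real.pi)) : ap (ap θ) = θ := by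
  unfold ap
  have := Real.pi_pos
  rcases h with ⟨h1, h2⟩
  by_cases h3 : θ ≤ Real.pi
  · rw [if_pos h3, if_neg (by linarith)]
    ring
  · rw [if_neg h3, if_pos (by linarith)]
    ring

lemma measurable_ap : Measurable ap := by
  unfold ap
  exact Measurable.ite measurableSet_Iic (by fun_prop) (by fun_prop)

lemma measurePreserving_ap : MeasurePreserving ap mc mc := by
  have hpi := Real.pi_pos
  have h1 : MeasurePreserving (fun θ : ℝ => θ + Real.pi) (volume.restrict (Ioc 0 Real.pi))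
      (volume.restrict (Ioc Real.pi (2 * Real.pi))) := by
    have := (measurePreserving_add_right (volume : Measure ℝ) Real.pi).restrict_preimage
      (s := Ioc Real.pi (2 * Real.pi)) measurableSet_Ioc
    have e : (fun θ : ℝ => θ + Real.pi) ⁻¹' Ioc Real.pi (2 * Real.pi) = Ioc 0 Real.pi := by
      ext θ
      simp only [mem_preimage, mem_Ioc]
      constructor <;> rintro ⟨a, b⟩ <;> constructor <;> linarith
    rwa [e] at this
  have h2 : MeasurePreserving (fun θ : ℝ => θ - Real.pi) (volume.restrict (Ioc Real.pi (2 * Real.pi)))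
      (volume.restrict (Ioc 0 Real.pi)) := by
    have := (measurePreserving_sub_right (volume : Measure ℝ) Real.pi).restrict_preimage
      (s := Ioc 0 Real.pi) measurableSet_Ioc
    have e : (fun θ : ℝ => θ - Real.pi) ⁻¹' Ioc 0 Real.pi = Ioc Real.pi (2 * Real.pi) := by
      ext θ
      simp only [mem_preimage, mem_Ioc]
      constructor <;> rintro ⟨a, b⟩ <;> constructor <;> linarith
    rwa [e] at this
  have hmc : mc = volume.restrict (Ioc 0 Real.pi) + volume.restrict (Ioc Real.pi (2 * Real.pi)) := by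
    unfold mc
    rw [← Measure.restrict_union (Set.disjoint_left.2 fun x hx hy => by
      simp only [mem_Ioc] at hx hy; linarith) measurableSet_Ioc,
      Ioc_union_Ioc_eq_Ioc hpi.le (by linarith)]
  have h1' : MeasurePreserving ap (volume.restrict (Ioc 0 Real.pi))
      (volume.restrict (Ioc Real.pi (2 * Real.pi))) := by
    refine ⟨measurable_ap, ?_⟩
    rw [← h1.map_eq]
    refine Measure.map_congr ?_
    filter_upwards [ae_restrict_mem measurableSet_Ioc] with θ hθ
    simp [ap, hθ.2]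
  have h2' : MeasurePreserving ap (volume.restrict (Ioc Real.pi (2 * Real.pi)))
      (volume.restrict (Ioc 0 Real.pi)) := by
    refine ⟨measurable_ap, ?_⟩
    rw [← h2.map_eq]
    refine Measure.map_congr ?_
    filter_upwards [ae_restrict_mem measurableSet_Ioc] with θ hθ
    simp [ap, hθ.1]
  refine ⟨measurable_ap, ?_⟩
  rw [hmc, Measure.map_add _ _ measurable_ap, h1'.map_eq, h2'.map_eq, add_comm]

/-! ### Symmetrisation -/

/-- the six functions `|f|, |f|, |f|, |f∘ap|, |f∘ap|, |f∘ap|` -/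
noncomputable def six (f : ℝ → ℂ) (i : Fin 6) (θ : ℝ) : ℝ≥0∞ :=
  if i.1 < 3 then ‖f θ‖ₑ else ‖f (ap θ)‖ₑ

/-- the antipodal symmetrisation of `|f|` -/
noncomputable def sharp (f : ℝ → ℂ) (θ : ℝ) : ℝ :=
  Real.sqrt ((‖f θ‖ ^ 2 + ‖f (ap θ)‖ ^ 2) / 2)

/-! ### Blocks, buffers and cells -/

/-- blocks: `Blk M L s j` is a union of `L-1` consecutive cells of length `π/(ML)` -/
def Blk (M L : ℕ) (s j : ℤ) : Set ℝ :=
  {θ | ∃ z : ℤ, ((j + 2 * M * z) * L + 1 : ℝ) < θ * (M * L) / Real.pi - s ∧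
    θ * (M * L) / Real.pi - s ≤ ((j + 2 * M * z + 1) * L : ℝ)}

/-- buffers -/
def Buf (M L : ℕ) (s : ℤ) : Set ℝ :=
  {θ | ∃ z : ℤ, ((z * L : ℝ)) < θ * (M * L) / Real.pi - s ∧
    θ * (M * L) / Real.pi - s ≤ (z * L + 1 : ℝ)}

/-- cells -/
def Cell (M L : ℕ) (i : ℕ) : Set ℝ :=
  Ioc (Real.pi * i / (M * L)) (Real.pi * (i + 1) / (M * L))

/-! ### The Hilbert space -/

/-- the Hilbert space `L²` of the circle -/
abbrev HS : Type := Lp ℂ 2 mc

/-- the sixth power of the `L⁶` norm of the extension, as a real number -/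
noncomputable def Jr (g : HS) : ℝ := (J (g : ℝ → ℂ)).toReal

/-- weak convergence -/
def WeakTo (g : ℕ → HS) (φ : HS) : Prop :=
  ∀ v : HS, Tendsto (fun n => inner ℂ v (g n)) atTop (𝓝 (inner ℂ v φ))

theorem memLp_mul_ph (y : ℝ × ℝ) (g : HS) : MemLp (fun θ => ph y (om θ) * g θ) 2 mc := by
  refine (Lp.memLp g).of_le ?_ (Eventually.of_forall fun θ => ?_)
  · exact (((continuous_ph_right y).comp continuous_om).aestronglyMeasurable).mul
      (Lp.memLp g).aestronglyMeasurable
  · rw [norm_mul, norm_ph, one_mul]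

/-- multiplication by the character `e^{-i y·ω}` -/
noncomputable def Ty (y : ℝ × ℝ) (g : HS) : HS := (memLp_mul_ph y g).toLp _

theorem coeFn_Ty (y : ℝ × ℝ) (g : HS) : (Ty y g : ℝ → ℂ) =ᵐ[mc] fun θ => ph y (om θ) * g θ :=
  (memLp_mul_ph y g).coeFn_toLp

/-- a real-linear isometric involution which turns translations around -/
structure Sym (τ : HS → HS) : Prop where
  add : ∀ g h, τ (g + h) = τ g + τ h
  smul : ∀ (t : ℝ) g, τ ((t : ℂ) • g) = (t : ℂ) • τ g
  norm : ∀ g, ‖τ g‖ = ‖g‖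
  invol : ∀ g, τ (τ g) = g
  anti : ∀ y g, τ (Ty y g) = Ty (-y) (τ g)

/-- the constant function `1` -/
noncomputable def oneH : HS := (memLp_const (1 : ℂ)).toLp (fun _ : ℝ => (1 : ℂ))

/-- `∫ |σ^|⁶` -/
noncomputable def Lam : ℝ := (J fun _ => (1 : ℂ)).toReal

/-- the conjectured value of the sixth power of the best constant -/
noncomputable def Cc : ℝ := Lam / (2 * Real.pi) ^ 3

/-- no Fourier modes of degree `< N` -/
def GapH (N : ℕ) (g : HS) : Prop :=
  ∀ n : ℤ, |n| < N → ∫ θ, g θ * Complex.exp (-(Complex.I * n * θ)) ∂mc = 0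

end Pool.Agent.Lib.MP_230119_an
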