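import Pool.Agent.Lib.MP_230119_an.SGDef2
import Pool.Agent.Lib.MP_230119_an.Mg.G014

set_option autoImplicit false

open MeasureTheory Set Filter Topology
open scoped ENNReal

namespace Pool.Agent.Lib.MP_230119_an

lemma sg10_cos {x : ℝ} (hx : |x| ≤ Real.pi / 3) : 1 / 2 ≤ Real.cos x := by
  rw [← Real.cos_abs, ← Real.cos_pi_div_three]
  exact Real.cos_le_cos_of_nonneg_of_le_pi (abs_nonneg _) (by linarith [Real.pi_pos]) hx

lemma sg10_arc {l a b c : ℝ} (ha : a ∈ Ioc l (l + Real.pi / 3)) (hb : b ∈ Ioc l (l + Real.pi / 3))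
    (hc : c ∈ Ioc l (l + Real.pi / 3)) : 5 ≤ sq (om a + om b + om c) - 1 := by
  obtain ⟨a1, a2⟩ := ha
  obtain ⟨b1, b2⟩ := hb
  obtain ⟨c1, c2⟩ := hc
  have h1 : 1 / 2 ≤ Real.cos (a - b) := sg10_cos (abs_le.2 ⟨by linarith, by linarith⟩)
  have h2 : 1 / 2 ≤ Real.cos (b - c) := sg10_cos (abs_le.2 ⟨by linarith, by linarith⟩)
  have h3 : 1 / 2 ≤ Real.cos (a - c) := sg10_cos (abs_le.2 ⟨by linarith, by linarith⟩)
  rw [Real.cos_sub] at h1 h2 h3
  have ea := Real.sin_sq_add_cos_sq a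
  have eb := Real.sin_sq_add_cos_sq b
  have ec := Real.sin_sq_add_cos_sq c
  simp only [sq, om, Prod.fst_add, Prod.snd_add]
  nlinarith

lemma sg10_sum (f : ℝ → ℂ) {δ : ℝ} (hδ : 0 ≤ δ) (n : ℕ) (θ : ℝ) :
    ∑ i ∈ Finset.range n, (Ioc (i * δ) (i * δ + δ)).indicator f θ =
      (Ioc 0 (n * δ)).indicator f θ := by
  induction n with
  | zero => simp
  | succ n ih =>
    have hn : (0 : ℝ) ≤ n * δ := by positivity
    have e : ((n + 1 : ℕ) : ℝ) * δ = n * δ + δ := by push_cast; ring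
    rw [Finset.sum_range_succ, ih, e, ← Ioc_union_Ioc_eq_Ioc hn (by linarith : n * δ ≤ n * δ + δ),
      indicator_union_of_disjoint]
    rw [Set.disjoint_left]
    rintro x ⟨_, hx⟩ ⟨hx', _⟩
    exact absurd hx' (not_lt.2 hx)

lemma sg10_pow (s : Finset ℕ) (a : ℕ → ℝ≥0∞) :
    (∑ i ∈ s, a i) ^ 6 ≤ (s.card : ℝ≥0∞) ^ 5 * ∑ i ∈ s, a i ^ 6 := by
  have h := ENNReal.rpow_sum_le_const_mul_sum_rpow s a (p := 6) (by norm_num)
  have e1 : (6 : ℝ) - 1 = ((5 : ℕ) : ℝ) := by norm_num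
  have e2 : (6 : ℝ) = ((6 : ℕ) : ℝ) := by norm_num
  rw [e1, e2] at h
  simp only [ENNReal.rpow_natCast] at h
  exact h

lemma sg10_arcs {f : ℝ → ℂ} (hf : MemLp f 2 mc) (l : ℝ) :
    J ((Ioc l (l + Real.pi / 3)).indicator f) ≤
      ENNReal.ofReal ((2 * Real.pi) ^ 2 * (pm / 5)) * N2 f ^ 3 := by
  set S : Set ℝ := Ioc l (l + Real.pi / 3) with hS
  have hm : MemLp (S.indicator f) 2 mc := hf.indicator measurableSet_Ioc
  have hz : ∀ θ, θ ∉ S → S.indicator f θ = 0 := fun θ hθ => indicator_of_notMem hθ f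
  have h := near_triple (S := S) measurableSet_Ioc (w := 5) (by norm_num)
    (fun a ha b hb c hc => sg10_arc ha hb hc) hm hm hm hz hz hz
  have hN : N2 (S.indicator f) ≤ N2 f := by
    unfold N2
    refine lintegral_mono fun θ => ?_
    refine pow_le_pow_left' ?_ 2
    by_cases hθ : θ ∈ S
    · rw [indicator_of_mem hθ]
    · rw [indicator_of_notMem hθ]
      simp
  unfold J
  have e : ∀ x : ℝ × ℝ, ‖ex (S.indicator f) x‖ₑ ^ 6 = (‖ex (S.indicator f) x‖ₑ *
      ‖ex (S.indicator f) x‖ₑ * ‖ex (S.indicator f) x‖ₑ) ^ 2 := fun x => by ring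
  simp only [e]
  refine h.trans ?_
  gcongr
  calc N2 (S.indicator f) * N2 (S.indicator f) * N2 (S.indicator f)
      ≤ N2 f * N2 f * N2 f := by gcongr
    _ = N2 f ^ 3 := by ring

theorem crude : ∃ C : ℝ, 0 < C ∧
    ∀ f : ℝ → ℂ, MemLp f 2 mc → J f ≤ ENNReal.ofReal C * N2 f ^ 3 := by
  have hpm := pm_pos
  refine ⟨6 ^ 6 * ((2 * Real.pi) ^ 2 * (pm / 5)), by positivity, fun f hf => ?_⟩
  set F : ℕ → ℝ → ℂ := fun i =>
    (Ioc (i * (Real.pi / 3)) (i * (Real.pi / 3) + Real.pi / 3)).indicator f with hF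
  have hint : ∀ i, Integrable (F i) mc := fun i =>
    integrable_of_memLp (hf.indicator measurableSet_Ioc)
  have hae : f =ᵐ[mc] fun θ => ∑ i ∈ Finset.range 6, F i θ := by
    unfold mc
    filter_upwards [ae_restrict_mem measurableSet_Ioc] with θ hθ
    have h1 := sg10_sum f (δ := Real.pi / 3) (by positivity) 6 θ
    rw [hF]
    simp only
    rw [h1, indicator_of_mem]
    constructor
    · exact hθ.1
    · refine hθ.2.trans (le_of_eq ?_)
      push_cast
      ring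
  have hex : ∀ x, ex f x = ∑ i ∈ Finset.range 6, ex (F i) x := fun x => by
    rw [ex_congr hae, ex_sum _ _ (fun i _ => hint i)]
  calc J f = ∫⁻ x, ‖∑ i ∈ Finset.range 6, ex (F i) x‖ₑ ^ 6 := by
        unfold J
        simp only [hex]
    _ ≤ ∫⁻ x, (6 : ℝ≥0∞) ^ 5 * ∑ i ∈ Finset.range 6, ‖ex (F i) x‖ₑ ^ 6 := by
        refine lintegral_mono fun x => ?_
        refine le_trans (pow_le_pow_left' (enorm_sum_le _ _) 6) ?_
        have h2 := sg10_pow (Finset.range 6) fun i => ‖ex (F i) x‖ₑ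
        rw [Finset.card_range] at h2
        exact_mod_cast h2
    _ = (6 : ℝ≥0∞) ^ 5 * ∑ i ∈ Finset.range 6, J (F i) := by
        rw [lintegral_const_mul' _ _ (by finiteness), lintegral_finsetSum']
        · rfl
        · intro i _
          exact ((continuous_ex (hint i)).enorm.measurable.pow_const 6).aemeasurable
    _ ≤ (6 : ℝ≥0∞) ^ 5 * ∑ i ∈ Finset.range 6,
          ENNReal.ofReal ((2 * Real.pi) ^ 2 * (pm / 5)) * N2 f ^ 3 := by
        gcongr with i _
        exact sg10_arcs hf _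
    _ = ENNReal.ofReal (6 ^ 6 * ((2 * Real.pi) ^ 2 * (pm / 5))) * N2 f ^ 3 := by
        rw [Finset.sum_const, Finset.card_range, nsmul_eq_mul,
          ENNReal.ofReal_mul (p := 6 ^ 6) (by positivity)]
        have e6 : ENNReal.ofReal (6 ^ 6) = (6 : ℝ≥0∞) ^ 6 := by
          rw [ENNReal.ofReal_pow (by norm_num)]
          norm_num
        rw [e6]
        push_cast
        ring

end Pool.Agent.Lib.MP_230119_an
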