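import Pool.Agent.Lib.MP_230119_an.SGDef2

/-!
# Definitions for the sharp endpoint Stein-Tomas inequality on the circle
-/

set_option autoImplicit false

open MeasureTheory Set Filter Topology
open scoped ENNReal

namespace Pool.Agent.Lib.MP_230119_an

/-- `|om a + om b + om c|² - 1` -/
noncomputable def rho (a b c : ℝ) : ℝ :=
  2 + 2 * (Real.cos (a - b) + Real.cos (b - c) + Real.cos (c - a))

noncomputable def chi (a b c : ℝ) : ℝ :=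
  Real.cos (2 * a - b - c) + Real.cos (2 * b - c - a) + Real.cos (2 * c - a - b)

noncomputable def DD (a b c : ℝ) : ℝ :=
  (Real.sin (a - b) + Real.sin (b - c) + Real.sin (c - a)) ^ 2

def p3 (s : ℝ) : ℝ := s ^ 3 - 23 * s ^ 2 + 123 * s + 219

/-- the weight of the triple `(a, b, c)` with complementary triple `(a', b', c')` -/
noncomputable def wT (a b c a' b' c' : ℝ) : ℝ :=
  rho a b c ^ 2 / 36864 *
    (3 * p3 (1 + rho a b c) + 10 * (8 - rho a b c) * (DD a b c + DD a' b' c'))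

/-- the ten splits of six points in two triples -/
def spl : Fin 10 → Fin 6 → Fin 6 :=
  ![![0, 1, 2, 3, 4, 5], ![0, 1, 3, 2, 4, 5], ![0, 1, 4, 2, 3, 5], ![0, 1, 5, 2, 3, 4],
    ![0, 2, 3, 1, 4, 5], ![0, 2, 4, 1, 3, 5], ![0, 2, 5, 1, 3, 4], ![0, 3, 4, 1, 2, 5],
    ![0, 3, 5, 1, 2, 4], ![0, 4, 5, 1, 2, 3]]

/-- the weight of the `k`-th split -/
noncomputable def wk (θ : Fin 6 → ℝ) (k : Fin 10) : ℝ :=
  wT (θ (spl k 0)) (θ (spl k 1)) (θ (spl k 2)) (θ (spl k 3)) (θ (spl k 4)) (θ (spl k 5))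

/-- the six-fold integral with the Gaussian approximation of `δ(Σ om)` -/
noncomputable def I6 (R : ℝ) (φ : (Fin 6 → ℝ) → ℝ) : ℝ :=
  ∫ θ : Fin 6 → ℝ, φ θ * gk R (∑ i, om (θ i)) ∂(Measure.pi fun _ => mc)

/-- the triple product measure -/
noncomputable def m3 : Measure (ℝ × ℝ × ℝ) := mc.prod (mc.prod mc)

instance : IsFiniteMeasure m3 := by unfold m3; infer_instance

/-- the polynomial `x (x+1) (x-8)` -/
def pp (x : ℝ) : ℝ := x * (x + 1) * (x - 8)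

/-- the kernel -/
noncomputable def KK (G u : ℝ → ℝ) (a b c : ℝ) : ℝ :=
  rho a b c ^ 2 * ((560 - 90 * rho a b c + 15 * rho a b c ^ 2 - rho a b c ^ 3 +
    10 * (8 - rho a b c) * chi a b c) * G (rho a b c) + 5 * (8 - rho a b c) * u (rho a b c))

/-- the cubic form of the kernel -/
noncomputable def TK (G u : ℝ → ℝ) (h : ℝ → ℝ) : ℝ :=
  ∫ p : ℝ × ℝ × ℝ, KK G u p.1 p.2.1 p.2.2 * (h p.1 * h p.2.1 * h p.2.2) ∂m3

/-- the law of `rho` (properties of `G` and `u` used in the reduction) -/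
structure LawData (G u : ℝ → ℝ) (c0 : ℝ) : Prop where
  c0_pos : 0 < c0
  contG : ∀ x ∈ Ioo (-1 : ℝ) 8, x ≠ 0 → ContinuousAt G x
  contu : ∀ x ∈ Ioo (-1 : ℝ) 8, x ≠ 0 → ContinuousAt u x
  measG : Measurable G
  measu : Measurable u
  bdG : ∃ C : ℝ, ∀ x ∈ Icc (-1 : ℝ) 8, x ≠ 0 → |G x| ≤ C * (1 + |Real.log x|)
  bdu : ∃ C : ℝ, ∀ x ∈ Icc (-1 : ℝ) 8, |u x| ≤ C
  nonneg : ∀ x ∈ Icc (-1 : ℝ) 8, 0 ≤ G x
  law1 : ∀ φ : ℝ → ℝ, Continuous φ →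
    ∫ p : ℝ × ℝ × ℝ, φ (rho p.1 p.2.1 p.2.2) ∂m3 = c0 * ∫ x in Icc (-1 : ℝ) 8, φ x * G x
  law2 : ∀ φ : ℝ → ℝ, Continuous φ →
    ∫ p : ℝ × ℝ × ℝ, DD p.1 p.2.1 p.2.2 * φ (rho p.1 p.2.1 p.2.2) ∂m3 =
      c0 * ∫ x in Icc (-1 : ℝ) 8, φ x * (u x + 3 / 4 * x * (x - 8) * G x)

/-- the main inequality for squares of real even trigonometric polynomials -/
def Star (G u : ℝ → ℝ) : Prop :=
  ∀ (N : ℕ) (a : ℤ → ℂ) (h : ℝ → ℝ),
    (∀ θ, (h θ : ℂ) = ∑ k ∈ Finset.Icc (-(N : ℤ)) N, a k * Complex.exp (2 * k * θ * Complex.I)) →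
    (∀ θ, 0 ≤ h θ) →
    TK G u h ≤ TK G u (fun _ => 1) * ((∫ θ, h θ ∂mc) / (2 * Real.pi)) ^ 3

/-- LEMMA W -/
def LemmaW : Prop :=
  ∀ θ : Fin 6 → ℝ, ∑ i, om (θ i) = 0 → ∑ k, wk θ k = 1

end Pool.Agent.Lib.MP_230119_an
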