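import Pool.Agent.Lib.MP_230119_an.ST04c

/-!
# The limit of the weighted six-fold integral
-/

set_option autoImplicit false

open MeasureTheory Set Filter Topology
open scoped ENNReal

namespace Pool.Agent.Lib.MP_230119_an

theorem DD_poly (cx sx cy sy : ℝ) (hx : cx ^ 2 + sx ^ 2 = 1) (hy : cy ^ 2 + sy ^ 2 = 1) :
    (sx + sy - (sx * cy + cx * sy)) ^ 2 =
      2 + (2 + 2 * (cx + cy + (cx * cy - sx * sy))) - (2 + 2 * (cx + cy + (cx * cy - sx * sy))) ^ 2 / 4 +
      2 * (((cx ^ 2 - sx ^ 2) * cy - 2 * sx * cx * sy) + (cy * cx + sy * sx) +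
        (cx * (cy ^ 2 - sy ^ 2) - sx * (2 * sy * cy))) := by
  grind

theorem DD_eq (a b c : ℝ) :
    DD a b c = 2 + rho a b c - rho a b c ^ 2 / 4 + 2 * chi a b c := by
  have h := DD_poly (Real.cos (a - b)) (Real.sin (a - b)) (Real.cos (b - c)) (Real.sin (b - c))
    (Real.cos_sq_add_sin_sq _) (Real.cos_sq_add_sin_sq _)
  have e1 : Real.sin (c - a) = -(Real.sin (a - b) * Real.cos (b - c) +
      Real.cos (a - b) * Real.sin (b - c)) := by
    rw [← Real.sin_add, ← Real.sin_neg]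
    congr 1
    ring
  have e2 : Real.cos (c - a) = Real.cos (a - b) * Real.cos (b - c) -
      Real.sin (a - b) * Real.sin (b - c) := by
    rw [← Real.cos_add, ← Real.cos_neg]
    congr 1
    ring
  have e3 : Real.cos (2 * a - b - c) = (Real.cos (a - b) ^ 2 - Real.sin (a - b) ^ 2) *
      Real.cos (b - c) - 2 * Real.sin (a - b) * Real.cos (a - b) * Real.sin (b - c) := by
    have : 2 * a - b - c = 2 * (a - b) + (b - c) := by ring
    rw [this, Real.cos_add, Real.cos_two_mul', Real.sin_two_mul]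
  have e4 : Real.cos (2 * b - c - a) = Real.cos (b - c) * Real.cos (a - b) +
      Real.sin (b - c) * Real.sin (a - b) := by
    rw [← Real.cos_sub]
    congr 1
    ring
  have e5 : Real.cos (2 * c - a - b) = Real.cos (a - b) * (Real.cos (b - c) ^ 2 -
      Real.sin (b - c) ^ 2) - Real.sin (a - b) * (2 * Real.sin (b - c) * Real.cos (b - c)) := by
    rw [← Real.cos_two_mul', ← Real.sin_two_mul, ← Real.cos_add, ← Real.cos_neg]
    congr 1
    ring
  unfold DD rho chi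
  rw [e1, e2, e3, e4, e5]
  linear_combination h

theorem DD_le (a b c : ℝ) : DD a b c ≤ 9 := by
  unfold DD
  have h1 := Real.sin_le_one (a - b)
  have h2 := Real.sin_le_one (b - c)
  have h3 := Real.sin_le_one (c - a)
  have h4 := Real.neg_one_le_sin (a - b)
  have h5 := Real.neg_one_le_sin (b - c)
  have h6 := Real.neg_one_le_sin (c - a)
  have : |Real.sin (a - b) + Real.sin (b - c) + Real.sin (c - a)| ≤ 3 :=
    abs_le.2 ⟨by linarith, by linarith⟩
  rw [← sq_abs]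
  nlinarith [abs_nonneg (Real.sin (a - b) + Real.sin (b - c) + Real.sin (c - a))]

section
variable {G u : ℝ → ℝ} {c0 : ℝ}

theorem null_rho (h : LawData G u c0) (x0 : ℝ) :
    ∀ᵐ p ∂m3, rho p.1 p.2.1 p.2.2 ≠ x0 := by
  have hS : MeasurableSet {p : ℝ × ℝ × ℝ | rho p.1 p.2.1 p.2.2 = x0} :=
    (isClosed_eq continuous_rho continuous_const).measurableSet
  have hlim : Tendsto (fun n : ℕ => c0 * ∫ x in Icc (-1 : ℝ) 8, max 0 (1 - (n : ℝ) * |x - x0|) * G x)
      atTop (𝓝 (c0 * ∫ x in Icc (-1 : ℝ) 8, (0 : ℝ))) := by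
    refine Tendsto.const_mul _ ?_
    have hGi := integrable_G h
    refine tendsto_integral_of_dominated_convergence (fun x => |G x|) (fun n => ?_) hGi.abs
      (fun n => ?_) ?_
    · have hc : Continuous fun x : ℝ => max 0 (1 - (n : ℝ) * |x - x0|) := by fun_prop
      exact hc.aestronglyMeasurable.mul hGi.aestronglyMeasurable
    · refine Eventually.of_forall fun x => ?_
      rw [norm_mul, Real.norm_eq_abs, Real.norm_eq_abs]
      have h1 : |max 0 (1 - (n : ℝ) * |x - x0|)| ≤ 1 := by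
        rw [abs_of_nonneg (le_max_left _ _)]
        refine max_le zero_le_one ?_
        have : 0 ≤ (n : ℝ) * |x - x0| := by positivity
        linarith
      calc _ ≤ 1 * |G x| := mul_le_mul_of_nonneg_right h1 (abs_nonneg _)
        _ = |G x| := one_mul _
    · have h0 : ∀ᵐ x : ℝ, x ≠ x0 := by
        rw [ae_iff]
        simp
      filter_upwards [ae_restrict_of_ae h0] with x hx
      have hd : 0 < |x - x0| := abs_pos.2 (sub_ne_zero.2 hx)
      have h1 : ∀ᶠ n : ℕ in atTop, max 0 (1 - (n : ℝ) * |x - x0|) * G x = 0 := by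
        have h2 := tendsto_natCast_atTop_atTop.eventually (eventually_ge_atTop (1 / |x - x0|))
        filter_upwards [h2] with n hn
        rw [div_le_iff₀ hd] at hn
        rw [max_eq_left (by linarith), zero_mul]
      exact tendsto_const_nhds.congr' (h1.mono fun n hn => hn.symm)
  rw [integral_zero, mul_zero] at hlim
  have hle : ∀ n : ℕ, m3.real {p : ℝ × ℝ × ℝ | rho p.1 p.2.1 p.2.2 = x0} ≤
      c0 * ∫ x in Icc (-1 : ℝ) 8, max 0 (1 - (n : ℝ) * |x - x0|) * G x := by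
    intro n
    rw [← h.law1 _ (by fun_prop)]
    have h1 : m3.real {p : ℝ × ℝ × ℝ | rho p.1 p.2.1 p.2.2 = x0} =
        ∫ p, ({p : ℝ × ℝ × ℝ | rho p.1 p.2.1 p.2.2 = x0}).indicator (fun _ => (1 : ℝ)) p ∂m3 := by
      rw [integral_indicator hS]
      simp [Measure.real]
    rw [h1]
    refine integral_mono_of_nonneg (Eventually.of_forall fun p => ?_) (m3_integrable ?_)
      (Eventually.of_forall fun p => ?_)
    · exact indicator_nonneg (fun _ _ => zero_le_one) _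
    · have := continuous_rho
      fun_prop
    · by_cases hp : rho p.1 p.2.1 p.2.2 = x0
      · simp only
        rw [indicator_of_mem (by exact hp), hp, sub_self, abs_zero, mul_zero, sub_zero]
        exact le_max_right _ _
      · simp only
        rw [indicator_of_notMem (by exact hp)]
        exact le_max_left _ _
  have h0 : m3.real {p : ℝ × ℝ × ℝ | rho p.1 p.2.1 p.2.2 = x0} ≤ 0 :=
    ge_of_tendsto' hlim hle
  have h1 : m3 {p : ℝ × ℝ × ℝ | rho p.1 p.2.1 p.2.2 = x0} = 0 := by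
    have h2 := le_antisymm h0 measureReal_nonneg
    rw [measureReal_eq_zero_iff] at h2
    exact h2
  rw [ae_iff]
  simp only [ne_eq, not_not]
  exact h1

/-- three coordinates -/
theorem st_three : MeasurePreserving
    (⇑((MeasurableEquiv.piFinSuccAbove (fun _ : Fin 3 => ℝ) 0).trans
      ((MeasurableEquiv.refl ℝ).prodCongr (MeasurableEquiv.piFinTwo (fun _ : Fin 2 => ℝ)))))
    (Measure.pi fun _ : Fin 3 => mc) m3 := by
  have h1 := measurePreserving_piFinSuccAbove (fun _ : Fin 3 => mc) 0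
  have h2 := measurePreserving_piFinTwo (fun _ : Fin 2 => mc)
  have h3 := (MeasurePreserving.id mc).prod h2
  exact h3.comp h1

theorem st_split : ∃ e : (Fin 6 → ℝ) ≃ᵐ (ℝ × ℝ × ℝ) × (ℝ × ℝ × ℝ),
    MeasurePreserving e (Measure.pi fun _ : Fin 6 => mc) (m3.prod m3) ∧
    ∀ θ, e θ = ((θ 0, θ 1, θ 2), (θ 3, θ 4, θ 5)) := by
  have h1 := measurePreserving_sumPiEquivProdPi (X := fun _ : Fin 3 ⊕ Fin 3 => ℝ) (fun _ => mc)
  have h2 := (measurePreserving_piCongrLeft (α := fun _ : Fin 6 => ℝ) (fun _ => mc)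
    (finSumFinEquiv : Fin 3 ⊕ Fin 3 ≃ Fin 6)).symm
  have h3 := (st_three.prod st_three).comp (h1.comp h2)
  exact ⟨(((MeasurableEquiv.piCongrLeft (fun _ : Fin 6 => ℝ)
      (finSumFinEquiv : Fin 3 ⊕ Fin 3 ≃ Fin 6)).symm.trans
      (MeasurableEquiv.sumPiEquivProdPi (fun _ : Fin 3 ⊕ Fin 3 => ℝ))).trans
      (((MeasurableEquiv.piFinSuccAbove (fun _ : Fin 3 => ℝ) 0).trans
      ((MeasurableEquiv.refl ℝ).prodCongr (MeasurableEquiv.piFinTwo (fun _ : Fin 2 => ℝ)))).prodCongr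
      ((MeasurableEquiv.piFinSuccAbove (fun _ : Fin 3 => ℝ) 0).trans
      ((MeasurableEquiv.refl ℝ).prodCongr (MeasurableEquiv.piFinTwo (fun _ : Fin 2 => ℝ)))))),
    h3, fun θ => rfl⟩

/-- the coefficient functions -/
noncomputable def ca (p : ℝ × ℝ × ℝ) : ℝ :=
  (3 * p3 (1 + rho p.1 p.2.1 p.2.2) + 10 * (8 - rho p.1 p.2.1 p.2.2) * DD p.1 p.2.1 p.2.2) / 36864

noncomputable def cb (p : ℝ × ℝ × ℝ) : ℝ := 10 * (8 - rho p.1 p.2.1 p.2.2) / 36864

def h3 (h : ℝ → ℝ) (p : ℝ × ℝ × ℝ) : ℝ := h p.1 * h p.2.1 * h p.2.2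

theorem continuous_ca : Continuous ca := by
  unfold ca p3
  have := continuous_rho
  have := continuous_DD
  fun_prop

theorem continuous_cb : Continuous cb := by
  unfold cb
  have := continuous_rho
  fun_prop

theorem continuous_h3 {h : ℝ → ℝ} (hh : Continuous h) : Continuous (h3 h) := by
  unfold h3
  fun_prop

/-- the reduced integrand -/
noncomputable def FR (h : ℝ → ℝ) (R : ℝ) (p : ℝ × ℝ × ℝ) : ℝ :=
  h3 h p * (ca p * (rho p.1 p.2.1 p.2.2 ^ 2 * Ga (fun _ => 1) R (SS p)) +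
    cb p * (rho p.1 p.2.1 p.2.2 ^ 2 * Ga (fun q => DD q.1 q.2.1 q.2.2) R (SS p)))

theorem i6_reduce {h : ℝ → ℝ} (hh : Continuous h) (R : ℝ) :
    I6 R (fun θ => w0 θ * hA h θ) = ∫ p, FR h R p ∂m3 ∧ Integrable (FR h R) m3 := by
  obtain ⟨e, he, he2⟩ := st_split
  have hF : Integrable (fun z : (ℝ × ℝ × ℝ) × (ℝ × ℝ × ℝ) =>
      wT z.1.1 z.1.2.1 z.1.2.2 z.2.1 z.2.2.1 z.2.2.2 * h3 h z.1 * gk R (SS z.1 + SS z.2))
      (m3.prod m3) := by
    rw [← he.integrable_comp_emb e.measurableEmbedding]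
    have h1 := i6_integrable (continuous_w0.mul (continuous_hA hh)) R
    refine h1.congr (Eventually.of_forall fun θ => ?_)
    simp only [Function.comp, he2]
    congr 2
    unfold SS
    rw [Fin.sum_univ_six]
    abel
  have h1 : I6 R (fun θ => w0 θ * hA h θ) = ∫ z : (ℝ × ℝ × ℝ) × (ℝ × ℝ × ℝ),
      wT z.1.1 z.1.2.1 z.1.2.2 z.2.1 z.2.2.1 z.2.2.2 * h3 h z.1 * gk R (SS z.1 + SS z.2)
      ∂(m3.prod m3) := by
    rw [← he.integral_comp e.measurableEmbedding]
    unfold I6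
    refine integral_congr_ae (Eventually.of_forall fun θ => ?_)
    simp only [he2]
    congr 2
    unfold SS
    rw [Fin.sum_univ_six]
    abel
  have h2 : ∀ p : ℝ × ℝ × ℝ, ∫ q : ℝ × ℝ × ℝ, wT p.1 p.2.1 p.2.2 q.1 q.2.1 q.2.2 * h3 h p *
      gk R (SS p + SS q) ∂m3 = FR h R p := by
    intro p
    have hcS : Continuous fun q : ℝ × ℝ × ℝ => gk R (SS p + SS q) :=
      (continuous_gk R).comp (continuous_const.add continuous_SS)
    have e1 : ∀ q : ℝ × ℝ × ℝ, wT p.1 p.2.1 p.2.2 q.1 q.2.1 q.2.2 * h3 h p * gk R (SS p + SS q) =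
        h3 h p * ca p * rho p.1 p.2.1 p.2.2 ^ 2 * (1 * gk R (SS p + SS q)) +
        h3 h p * cb p * rho p.1 p.2.1 p.2.2 ^ 2 * (DD q.1 q.2.1 q.2.2 * gk R (SS p + SS q)) := by
      intro q
      unfold wT ca cb
      ring
    simp only [e1]
    have i1 : Integrable (fun q : ℝ × ℝ × ℝ => h3 h p * ca p * rho p.1 p.2.1 p.2.2 ^ 2 *
        (1 * gk R (SS p + SS q))) m3 :=
      m3_integrable (continuous_const.mul (continuous_const.mul hcS))
    have i2 : Integrable (fun q : ℝ × ℝ × ℝ => h3 h p * cb p * rho p.1 p.2.1 p.2.2 ^ 2 *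
        (DD q.1 q.2.1 q.2.2 * gk R (SS p + SS q))) m3 :=
      m3_integrable (continuous_const.mul (continuous_DD.mul hcS))
    have j1 : ∫ q : ℝ × ℝ × ℝ, h3 h p * ca p * rho p.1 p.2.1 p.2.2 ^ 2 *
        (1 * gk R (SS p + SS q)) ∂m3 =
        h3 h p * ca p * rho p.1 p.2.1 p.2.2 ^ 2 * Ga (fun _ => 1) R (SS p) := by
      unfold Ga
      exact integral_const_mul _ _
    have j2 : ∫ q : ℝ × ℝ × ℝ, h3 h p * cb p * rho p.1 p.2.1 p.2.2 ^ 2 *
        (DD q.1 q.2.1 q.2.2 * gk R (SS p + SS q)) ∂m3 =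
        h3 h p * cb p * rho p.1 p.2.1 p.2.2 ^ 2 * Ga (fun q => DD q.1 q.2.1 q.2.2) R (SS p) := by
      unfold Ga
      exact integral_const_mul _ _
    rw [integral_add i1 i2, j1, j2]
    unfold FR
    ring
  constructor
  · rw [h1, integral_prod _ hF]
    exact integral_congr_ae (Eventually.of_forall h2)
  · exact hF.integral_prod_left.congr (Eventually.of_forall h2)

theorem Ga_D_le (R : ℝ) (v : ℝ × ℝ) :
    Ga (fun q => DD q.1 q.2.1 q.2.2) R v ≤ 9 * Ga (fun _ => 1) R v := by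
  unfold Ga
  rw [← integral_const_mul]
  have hcS : Continuous fun q : ℝ × ℝ × ℝ => gk R (v + SS q) :=
    (continuous_gk R).comp (continuous_const.add continuous_SS)
  refine integral_mono (m3_integrable (continuous_DD.mul hcS))
    (m3_integrable (continuous_const.mul (continuous_const.mul hcS))) fun q => ?_
  simp only [one_mul]
  exact mul_le_mul_of_nonneg_right (DD_le _ _ _) (gk_nonneg _ _)

/-- LIM -/
theorem lim_main (hl : LawData G u c0) {h : ℝ → ℝ} (hh : Continuous h) :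
    Tendsto (fun n : ℕ => I6 ((n : ℝ) + 1) (fun θ => w0 θ * hA h θ)) atTop
      (𝓝 (2 * c0 / 18432 * TK G u h)) := by
  have hK : IsCompact (Icc (0 : ℝ) (2 * Real.pi) ×ˢ (Icc (0 : ℝ) (2 * Real.pi) ×ˢ
    Icc (0 : ℝ) (2 * Real.pi))) := isCompact_Icc.prod (isCompact_Icc.prod isCompact_Icc)
  obtain ⟨Ca, hCa⟩ := hK.exists_bound_of_continuousOn
    ((continuous_h3 hh).mul continuous_ca).continuousOn
  obtain ⟨Cb, hCb⟩ := hK.exists_bound_of_continuousOn
    ((continuous_h3 hh).mul continuous_cb).continuousOn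
  obtain ⟨B, hB0, hB⟩ := Ga_bound hl
  have e1 : ∀ n : ℕ, I6 ((n : ℝ) + 1) (fun θ => w0 θ * hA h θ) = ∫ p, FR h ((n : ℝ) + 1) p ∂m3 :=
    fun n => (i6_reduce hh _).1
  simp only [e1]
  have e2 : 2 * c0 / 18432 * TK G u h = ∫ p : ℝ × ℝ × ℝ, 2 * c0 / 18432 *
      (KK G u p.1 p.2.1 p.2.2 * (h p.1 * h p.2.1 * h p.2.2)) ∂m3 := by
    unfold TK
    rw [integral_const_mul]
  rw [e2]
  refine tendsto_integral_of_dominated_convergence (fun _ => |Ca| * B + |Cb| * (9 * B))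
    (fun n => (i6_reduce hh _).2.aestronglyMeasurable) (integrable_const _) (fun n => ?_) ?_
  · filter_upwards [m3_ae_cube] with p hp
    have hR : (0 : ℝ) < (n : ℝ) + 1 := by positivity
    have hv : sq (SS p) ≤ 9 := by
      rw [sq_SS]
      linarith [rho_le p.1 p.2.1 p.2.2]
    have hr : sq (SS p) - 1 = rho p.1 p.2.1 p.2.2 := by
      rw [sq_SS]
      ring
    have h1 := hB _ hR (SS p) hv
    rw [hr] at h1
    have h2 : 0 ≤ Ga (fun _ => 1) ((n : ℝ) + 1) (SS p) := Ga_nonneg (fun _ => zero_le_one) _ _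
    have h3' : 0 ≤ Ga (fun q => DD q.1 q.2.1 q.2.2) ((n : ℝ) + 1) (SS p) :=
      Ga_nonneg (fun q => DD_nonneg _ _ _) _ _
    have h4 := Ga_D_le ((n : ℝ) + 1) (SS p)
    have h5 : rho p.1 p.2.1 p.2.2 ^ 2 * Ga (fun q => DD q.1 q.2.1 q.2.2) ((n : ℝ) + 1) (SS p) ≤
        9 * B := by
      have := mul_le_mul_of_nonneg_left h4 (sq_nonneg (rho p.1 p.2.1 p.2.2))
      linarith
    have ha := (hCa p hp).trans (le_abs_self Ca)
    have hb := (hCb p hp).trans (le_abs_self Cb)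
    have e3 : FR h ((n : ℝ) + 1) p =
        (h3 h p * ca p) * (rho p.1 p.2.1 p.2.2 ^ 2 * Ga (fun _ => 1) ((n : ℝ) + 1) (SS p)) +
        (h3 h p * cb p) * (rho p.1 p.2.1 p.2.2 ^ 2 *
          Ga (fun q => DD q.1 q.2.1 q.2.2) ((n : ℝ) + 1) (SS p)) := by
      unfold FR
      ring
    rw [e3]
    refine (norm_add_le _ _).trans ?_
    rw [norm_mul, norm_mul (h3 h p * cb p)]
    have n1 : ‖rho p.1 p.2.1 p.2.2 ^ 2 * Ga (fun _ => 1) ((n : ℝ) + 1) (SS p)‖ ≤ B := by
      rw [Real.norm_of_nonneg (mul_nonneg (sq_nonneg _) h2)]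
      exact h1
    have n2 : ‖rho p.1 p.2.1 p.2.2 ^ 2 *
        Ga (fun q => DD q.1 q.2.1 q.2.2) ((n : ℝ) + 1) (SS p)‖ ≤ 9 * B := by
      rw [Real.norm_of_nonneg (mul_nonneg (sq_nonneg _) h3')]
      exact h5
    gcongr
    · exact ha
    · exact hb
  · filter_upwards [null_rho hl (-1), null_rho hl 0, null_rho hl 8] with p hp1 hp2 hp3
    have hx : rho p.1 p.2.1 p.2.2 ∈ Ioo (-1 : ℝ) 8 :=
      ⟨lt_of_le_of_ne (rho_ge _ _ _) hp1.symm, lt_of_le_of_ne (rho_le _ _ _) hp3⟩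
    have t1 := Ga_tendsto hl (sq_SS p) hx hp2
    have t2 := GaD_tendsto hl (sq_SS p) hx hp2
    have t3 := (((t1.const_mul (rho p.1 p.2.1 p.2.2 ^ 2)).const_mul (ca p)).add
      ((t2.const_mul (rho p.1 p.2.1 p.2.2 ^ 2)).const_mul (cb p))).const_mul (h3 h p)
    refine t3.congr' (Eventually.of_forall fun n => rfl) |>.trans (le_of_eq ?_)
    congr 1
    unfold KK h3 ca cb gD p3
    rw [DD_eq]
    ring

end

end Pool.Agent.Lib.MP_230119_an
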