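import Mathlib

/-!
# The density `G` of `|e^{ia}+e^{ib}+e^{ic}|² - 1`: definition and differential equation
-/

set_option autoImplicit false

open MeasureTheory Set Filter Topology

namespace Pool.Agent.Lib.MP_230119_an.LA

/-- the discriminant -/
noncomputable def DT (t x : ℝ) : ℝ :=
  4 * Real.sinh t ^ 2 + 4 * x * (Real.cosh t - 1) + x ^ 2

noncomputable def rT (t x : ℝ) : ℝ := Real.sqrt (DT t x)

noncomputable def cT (t x : ℝ) : ℝ := 2 * Real.cosh t + x - 2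

/-- the cubic -/
def pL (x : ℝ) : ℝ := x * (x + 1) * (x - 8)

/-- the density -/
noncomputable def Gf (x : ℝ) : ℝ := ∫ t in Ioi (0 : ℝ), 2 / rT t x

noncomputable def Vf (x : ℝ) : ℝ := ∫ t in Ioi (0 : ℝ), cT t x / rT t x ^ 3

noncomputable def uf (x : ℝ) : ℝ := -(2 * pL x * Vf x)

theorem cosh_sub_one_le (t : ℝ) : 2 * (Real.cosh t - 1) ≤ Real.sinh t ^ 2 := by
  have h1 := Real.cosh_sq t
  have h2 := Real.one_le_cosh t
  nlinarith

theorem DT_ge {t x : ℝ} (hx : -1 ≤ x) : 2 * Real.sinh t ^ 2 + x ^ 2 ≤ DT t x := by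
  unfold DT
  have h1 := cosh_sub_one_le t
  have h2 := Real.one_le_cosh t
  nlinarith [mul_nonneg (by linarith : 0 ≤ x + 1) (by linarith : 0 ≤ Real.cosh t - 1)]

theorem DT_ge2 {t x δ : ℝ} (hx : -1 ≤ x) (hδ0 : 0 ≤ δ) (hδ1 : δ ≤ 1) (hδ : δ ≤ |x|) :
    (δ * Real.cosh t) ^ 2 ≤ DT t x := by
  have h1 := DT_ge (t := t) hx
  have h2 := Real.cosh_sq t
  have h3 : δ ^ 2 ≤ x ^ 2 := by
    rw [← sq_abs x]
    exact pow_le_pow_left₀ hδ0 hδ 2
  have h4 : δ ^ 2 ≤ 1 := by nlinarith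
  have h5 := sq_nonneg (Real.sinh t)
  rw [mul_pow, h2]
  nlinarith

theorem DT_pos {t x : ℝ} (hx : -1 ≤ x) (hx0 : x ≠ 0) : 0 < DT t x := by
  have h1 := DT_ge (t := t) hx
  have h2 : 0 < x ^ 2 := by positivity
  have h3 := sq_nonneg (Real.sinh t)
  linarith

theorem rT_ge {t x δ : ℝ} (hx : -1 ≤ x) (hδ0 : 0 ≤ δ) (hδ1 : δ ≤ 1) (hδ : δ ≤ |x|) :
    δ * Real.cosh t ≤ rT t x := by
  have h := DT_ge2 (t := t) hx hδ0 hδ1 hδ
  unfold rT
  exact Real.le_sqrt_of_sq_le h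

theorem rT_pos {t x : ℝ} (hx : -1 ≤ x) (hx0 : x ≠ 0) : 0 < rT t x :=
  Real.sqrt_pos.2 (DT_pos hx hx0)

theorem rT_sq {t x : ℝ} (hx : -1 ≤ x) (hx0 : x ≠ 0) : rT t x ^ 2 = DT t x :=
  Real.sq_sqrt (DT_pos hx hx0).le

theorem cT_abs {t x : ℝ} (hx : -1 ≤ x) (hx9 : x ≤ 9) : |cT t x| ≤ 9 * Real.cosh t := by
  have h := Real.one_le_cosh t
  unfold cT
  rw [abs_le]
  constructor <;> linarith

theorem integrable_inv_cosh (K : ℝ) : IntegrableOn (fun t => K / Real.cosh t) (Ioi (0 : ℝ)) := by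
  have h1 : IntegrableOn (fun t : ℝ => |K| * (2 * Real.exp (-t))) (Ioi (0 : ℝ)) :=
    ((integrableOn_exp_neg_Ioi 0).const_mul 2).const_mul _
  refine Integrable.mono' h1 ?_ (Eventually.of_forall fun t => ?_)
  · exact (continuous_const.div Real.continuous_cosh fun t => (Real.cosh_pos t).ne').aestronglyMeasurable
  · rw [norm_div, Real.norm_eq_abs, Real.norm_of_nonneg (Real.cosh_pos t).le, div_eq_mul_inv]
    refine mul_le_mul_of_nonneg_left ?_ (abs_nonneg _)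
    rw [Real.exp_neg]
    have h2 : Real.exp t / 2 ≤ Real.cosh t := by
      rw [Real.cosh_eq]
      have := Real.exp_pos (-t)
      linarith
    have h3 := Real.exp_pos t
    calc (Real.cosh t)⁻¹ ≤ (Real.exp t / 2)⁻¹ := by
          apply inv_anti₀ (by positivity) h2
      _ = 2 * (Real.exp t)⁻¹ := by field_simp

theorem hasDerivAt_DT (t x : ℝ) : HasDerivAt (fun x => DT t x) (2 * cT t x) x := by
  unfold DT cT
  have h := (((hasDerivAt_id x).const_mul 4).mul_const (Real.cosh t - 1)).const_add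
    (4 * Real.sinh t ^ 2) |>.add ((hasDerivAt_id x).pow 2)
  refine h.congr_deriv ?_
  simp only [id]
  ring

theorem hasDerivAt_rT {t x : ℝ} (hx : -1 ≤ x) (hx0 : x ≠ 0) :
    HasDerivAt (fun x => rT t x) (cT t x / rT t x) x := by
  have h := (hasDerivAt_DT t x).sqrt (DT_pos hx hx0).ne'
  refine h.congr_deriv ?_
  have h1 : Real.sqrt (DT t x) = rT t x := rfl
  rw [h1]
  have := (rT_pos (t := t) hx hx0).ne'
  field_simp

theorem hasDerivAt_f0 {t x : ℝ} (hx : -1 ≤ x) (hx0 : x ≠ 0) :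
    HasDerivAt (fun x => 2 / rT t x) (-(2 * cT t x) / rT t x ^ 3) x := by
  have h0 := (rT_pos (t := t) hx hx0).ne'
  have h := (hasDerivAt_rT (t := t) hx hx0).inv h0 |>.const_mul 2
  have e : (fun x => 2 / rT t x) = fun x => 2 * (rT t x)⁻¹ := by
    funext x
    rw [div_eq_mul_inv]
  rw [e]
  refine h.congr_deriv ?_
  field_simp

theorem hasDerivAt_f1 {t x : ℝ} (hx : -1 ≤ x) (hx0 : x ≠ 0) :
    HasDerivAt (fun x => cT t x / rT t x ^ 3)
      (1 / rT t x ^ 3 - 3 * cT t x ^ 2 / rT t x ^ 5) x := by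
  have h0 := (rT_pos (t := t) hx hx0).ne'
  have h1 : HasDerivAt (fun x => cT t x) 1 x := by
    unfold cT
    exact ((hasDerivAt_id x).const_add (2 * Real.cosh t)).sub_const 2
  have h := h1.div ((hasDerivAt_rT (t := t) hx hx0).pow 3) (pow_ne_zero 3 h0)
  refine h.congr_deriv ?_
  simp only [Pi.pow_apply, Nat.cast_ofNat, Nat.add_one_sub_one]
  field_simp

theorem continuous_DT : Continuous fun q : ℝ × ℝ => DT q.1 q.2 := by
  unfold DT
  have := Real.continuous_sinh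
  have := Real.continuous_cosh
  fun_prop

theorem continuous_rT : Continuous fun q : ℝ × ℝ => rT q.1 q.2 := by
  unfold rT
  exact Real.continuous_sqrt.comp continuous_DT

theorem continuous_cT : Continuous fun q : ℝ × ℝ => cT q.1 q.2 := by
  unfold cT
  have := Real.continuous_cosh
  fun_prop

theorem meas_rT : Measurable fun q : ℝ × ℝ => rT q.1 q.2 := continuous_rT.measurable

theorem meas_cT : Measurable fun q : ℝ × ℝ => cT q.1 q.2 := continuous_cT.measurable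

theorem meas_f0 : Measurable fun q : ℝ × ℝ => 2 / rT q.1 q.2 := by
  have := meas_rT
  fun_prop

theorem meas_f1 : Measurable fun q : ℝ × ℝ => cT q.1 q.2 / rT q.1 q.2 ^ 3 := by
  have := meas_rT
  have := meas_cT
  fun_prop

theorem meas_f2 : Measurable fun q : ℝ × ℝ =>
    1 / rT q.1 q.2 ^ 3 - 3 * cT q.1 q.2 ^ 2 / rT q.1 q.2 ^ 5 := by
  have := meas_rT
  have := meas_cT
  fun_prop

theorem sm0 (x : ℝ) : AEStronglyMeasurable (fun t => 2 / rT t x) (volume.restrict (Ioi 0)) :=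
  (meas_f0.comp (measurable_id.prodMk measurable_const)).aestronglyMeasurable

theorem sm1 (x : ℝ) : AEStronglyMeasurable (fun t => cT t x / rT t x ^ 3)
    (volume.restrict (Ioi 0)) :=
  (meas_f1.comp (measurable_id.prodMk measurable_const)).aestronglyMeasurable

theorem sm2 (x : ℝ) : AEStronglyMeasurable (fun t => 1 / rT t x ^ 3 - 3 * cT t x ^ 2 / rT t x ^ 5)
    (volume.restrict (Ioi 0)) :=
  (meas_f2.comp (measurable_id.prodMk measurable_const)).aestronglyMeasurable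

theorem measurable_Gf : Measurable Gf := by
  have h : StronglyMeasurable (Function.uncurry fun x t : ℝ => 2 / rT t x) :=
    (meas_f0.comp (measurable_snd.prodMk measurable_fst)).stronglyMeasurable
  exact (h.integral_prod_right (ν := volume.restrict (Ioi 0))).measurable

theorem measurable_Vf : Measurable Vf := by
  have h : StronglyMeasurable (Function.uncurry fun x t : ℝ => cT t x / rT t x ^ 3) :=
    (meas_f1.comp (measurable_snd.prodMk measurable_fst)).stronglyMeasurable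
  exact (h.integral_prod_right (ν := volume.restrict (Ioi 0))).measurable

theorem measurable_uf : Measurable uf := by
  have := measurable_Vf
  unfold uf pL
  fun_prop

/-- bounds -/
theorem bd0 {t x δ : ℝ} (hx : -1 ≤ x) (hδ0 : 0 < δ) (hδ1 : δ ≤ 1) (hδ : δ ≤ |x|) :
    ‖2 / rT t x‖ ≤ (2 / δ) / Real.cosh t := by
  have h := rT_ge (t := t) hx hδ0.le hδ1 hδ
  have hc := Real.cosh_pos t
  have hp : 0 < δ * Real.cosh t := by positivity
  rw [norm_div, Real.norm_of_nonneg (by norm_num : (0 : ℝ) ≤ 2), Real.norm_of_nonneg (hp.le.trans h)]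
  calc 2 / rT t x ≤ 2 / (δ * Real.cosh t) := by gcongr
    _ = (2 / δ) / Real.cosh t := by field_simp

theorem bd1 {t x δ : ℝ} (hx : -1 ≤ x) (hx9 : x ≤ 9) (hδ0 : 0 < δ) (hδ1 : δ ≤ 1) (hδ : δ ≤ |x|) :
    ‖cT t x / rT t x ^ 3‖ ≤ (9 / δ ^ 3) / Real.cosh t := by
  have h := rT_ge (t := t) hx hδ0.le hδ1 hδ
  have hc := Real.one_le_cosh t
  have hc0 := Real.cosh_pos t
  have hp : 0 < δ * Real.cosh t := by positivity
  have hr : 0 < rT t x := lt_of_lt_of_le hp h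
  rw [norm_div, Real.norm_eq_abs, Real.norm_of_nonneg (by positivity : 0 ≤ rT t x ^ 3)]
  have h1 := cT_abs (t := t) hx hx9
  calc |cT t x| / rT t x ^ 3 ≤ (9 * Real.cosh t) / (δ * Real.cosh t) ^ 3 := by gcongr
    _ = (9 / δ ^ 3) / (Real.cosh t * Real.cosh t) := by field_simp
    _ ≤ (9 / δ ^ 3) / (Real.cosh t * 1) := by gcongr
    _ = (9 / δ ^ 3) / Real.cosh t := by rw [mul_one]

theorem bd2 {t x δ : ℝ} (hx : -1 ≤ x) (hx9 : x ≤ 9) (hδ0 : 0 < δ) (hδ1 : δ ≤ 1) (hδ : δ ≤ |x|) :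
    ‖1 / rT t x ^ 3 - 3 * cT t x ^ 2 / rT t x ^ 5‖ ≤ (1 / δ ^ 3 + 243 / δ ^ 5) / Real.cosh t := by
  have h := rT_ge (t := t) hx hδ0.le hδ1 hδ
  have hc := Real.one_le_cosh t
  have hc0 := Real.cosh_pos t
  have hp : 0 < δ * Real.cosh t := by positivity
  have hr : 0 < rT t x := lt_of_lt_of_le hp h
  have h1 := cT_abs (t := t) hx hx9
  refine (norm_sub_le _ _).trans ?_
  rw [Real.norm_of_nonneg (by positivity : 0 ≤ 1 / rT t x ^ 3),
    Real.norm_of_nonneg (by positivity : 0 ≤ 3 * cT t x ^ 2 / rT t x ^ 5), ← sq_abs (cT t x)]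
  have e1 : 1 / rT t x ^ 3 ≤ (1 / δ ^ 3) / Real.cosh t := by
    calc 1 / rT t x ^ 3 ≤ 1 / (δ * Real.cosh t) ^ 3 := by gcongr
      _ = (1 / δ ^ 3) / (Real.cosh t * (Real.cosh t * Real.cosh t)) := by field_simp
      _ ≤ (1 / δ ^ 3) / (Real.cosh t * (1 * 1)) := by gcongr
      _ = (1 / δ ^ 3) / Real.cosh t := by ring_nf
  have e2 : 3 * |cT t x| ^ 2 / rT t x ^ 5 ≤ (243 / δ ^ 5) / Real.cosh t := by
    calc 3 * |cT t x| ^ 2 / rT t x ^ 5 ≤ 3 * (9 * Real.cosh t) ^ 2 / (δ * Real.cosh t) ^ 5 := by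
          gcongr
      _ = (243 / δ ^ 5) / (Real.cosh t * (Real.cosh t * Real.cosh t)) := by
          field_simp
          ring
      _ ≤ (243 / δ ^ 5) / (Real.cosh t * (1 * 1)) := by gcongr
      _ = (243 / δ ^ 5) / Real.cosh t := by ring_nf
  rw [add_div]
  exact add_le_add e1 e2

theorem int0 {x : ℝ} (hx : -1 ≤ x) (hx0 : x ≠ 0) :
    IntegrableOn (fun t => 2 / rT t x) (Ioi 0) := by
  have h0 : 0 < min 1 |x| := lt_min one_pos (abs_pos.2 hx0)
  exact Integrable.mono' (integrable_inv_cosh _) (sm0 x) (Eventually.of_forall fun t =>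
    bd0 hx h0 (min_le_left _ _) (min_le_right _ _))

theorem int1 {x : ℝ} (hx : -1 ≤ x) (hx9 : x ≤ 9) (hx0 : x ≠ 0) :
    IntegrableOn (fun t => cT t x / rT t x ^ 3) (Ioi 0) := by
  have h0 : 0 < min 1 |x| := lt_min one_pos (abs_pos.2 hx0)
  exact Integrable.mono' (integrable_inv_cosh _) (sm1 x) (Eventually.of_forall fun t =>
    bd1 hx hx9 h0 (min_le_left _ _) (min_le_right _ _))

/-- a neighbourhood -/
theorem nbhd {x : ℝ} (hx : x ∈ Ioo (-1 : ℝ) 8) (hx0 : x ≠ 0) :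
    ∃ δ : ℝ, 0 < δ ∧ δ ≤ 1 ∧ {y : ℝ | -1 ≤ y ∧ y ≤ 9 ∧ δ ≤ |y|} ∈ 𝓝 x := by
  have h0 := abs_pos.2 hx0
  refine ⟨min 1 (|x| / 2), lt_min one_pos (by positivity), min_le_left _ _, ?_⟩
  have h1 : ∀ᶠ y in 𝓝 x, -1 < y := lt_mem_nhds hx.1
  have h2 : ∀ᶠ y in 𝓝 x, y < 9 := gt_mem_nhds (by linarith [hx.2])
  have h3 : ∀ᶠ y in 𝓝 x, |x| / 2 < |y| :=
    (continuous_abs.tendsto x).eventually (lt_mem_nhds (by linarith))
  filter_upwards [h1, h2, h3] with y hy1 hy2 hy3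
  exact ⟨hy1.le, hy2.le, (min_le_right _ _).trans hy3.le⟩

theorem ne_of_nbhd {δ y : ℝ} (hδ : 0 < δ) (h : δ ≤ |y|) : y ≠ 0 := by
  intro hy
  rw [hy, abs_zero] at h
  linarith

theorem hasDerivAt_Gf {x : ℝ} (hx : x ∈ Ioo (-1 : ℝ) 8) (hx0 : x ≠ 0) :
    HasDerivAt Gf (-(2 * Vf x)) x := by
  obtain ⟨δ, hδ0, hδ1, hs⟩ := nbhd hx hx0
  have h := hasDerivAt_integral_of_dominated_loc_of_deriv_le (μ := volume.restrict (Ioi (0 : ℝ)))
    (F := fun x t => 2 / rT t x) (F' := fun x t => -(2 * cT t x) / rT t x ^ 3) (x₀ := x)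
    (bound := fun t => 2 * ((9 / δ ^ 3) / Real.cosh t)) hs
    (Eventually.of_forall fun y => sm0 y) (int0 hx.1.le hx0) ?_ ?_
    ((integrable_inv_cosh _).const_mul 2) ?_
  · refine h.2.congr_deriv ?_
    unfold Vf
    rw [← integral_const_mul, ← integral_neg]
    refine integral_congr_ae (Eventually.of_forall fun t => ?_)
    simp only
    ring
  · have := (sm1 x).const_mul (-2)
    refine this.congr (Eventually.of_forall fun t => ?_)
    simp only
    ring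
  · refine Eventually.of_forall fun t y hy => ?_
    have h1 := bd1 (t := t) hy.1 hy.2.1 hδ0 hδ1 hy.2.2
    have e : -(2 * cT t y) / rT t y ^ 3 = -(2 * (cT t y / rT t y ^ 3)) := by ring
    rw [e, norm_neg, norm_mul, Real.norm_of_nonneg (by norm_num : (0 : ℝ) ≤ 2)]
    exact mul_le_mul_of_nonneg_left h1 (by norm_num)
  · exact Eventually.of_forall fun t y hy => hasDerivAt_f0 hy.1 (ne_of_nbhd hδ0 hy.2.2)

theorem hasDerivAt_Vf {x : ℝ} (hx : x ∈ Ioo (-1 : ℝ) 8) (hx0 : x ≠ 0) :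
    IntegrableOn (fun t => 1 / rT t x ^ 3 - 3 * cT t x ^ 2 / rT t x ^ 5) (Ioi 0) ∧
    HasDerivAt Vf (∫ t in Ioi (0 : ℝ), (1 / rT t x ^ 3 - 3 * cT t x ^ 2 / rT t x ^ 5)) x := by
  obtain ⟨δ, hδ0, hδ1, hs⟩ := nbhd hx hx0
  exact hasDerivAt_integral_of_dominated_loc_of_deriv_le (μ := volume.restrict (Ioi (0 : ℝ)))
    (F := fun x t => cT t x / rT t x ^ 3)
    (F' := fun x t => 1 / rT t x ^ 3 - 3 * cT t x ^ 2 / rT t x ^ 5) (x₀ := x)
    (bound := fun t => (1 / δ ^ 3 + 243 / δ ^ 5) / Real.cosh t) hs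
    (Eventually.of_forall fun y => sm1 y) (int1 hx.1.le (by linarith [hx.2]) hx0) (sm2 x)
    (Eventually.of_forall fun t y hy => bd2 hy.1 hy.2.1 hδ0 hδ1 hy.2.2)
    (integrable_inv_cosh _)
    (Eventually.of_forall fun t y hy => hasDerivAt_f1 hy.1 (ne_of_nbhd hδ0 hy.2.2))

/-- the certificate function -/
noncomputable def Wc (x t : ℝ) : ℝ :=
  ((2 - x) * (2 * Real.cosh t) - (x ^ 2 + 2 * x + 4)) * (2 * Real.sinh t) / rT t x ^ 3

theorem hasDerivAt_DTt (t x : ℝ) : HasDerivAt (fun t => DT t x)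
    (4 * Real.sinh t * (2 * Real.cosh t + x)) t := by
  unfold DT
  have h := (((Real.hasDerivAt_sinh t).pow 2).const_mul 4).add
    (((Real.hasDerivAt_cosh t).sub_const 1).const_mul (4 * x)) |>.add_const (x ^ 2)
  refine h.congr_deriv ?_
  simp only [Nat.cast_ofNat, Nat.add_one_sub_one, pow_one]
  ring

theorem hasDerivAt_rTt {x : ℝ} (t : ℝ) (hx : -1 ≤ x) (hx0 : x ≠ 0) :
    HasDerivAt (fun t => rT t x) (2 * Real.sinh t * (2 * Real.cosh t + x) / rT t x) t := by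
  have h := (hasDerivAt_DTt t x).sqrt (DT_pos hx hx0).ne'
  refine h.congr_deriv ?_
  have h1 : Real.sqrt (DT t x) = rT t x := rfl
  rw [h1]
  have := (rT_pos (t := t) hx hx0).ne'
  field_simp
  ring

/-- the derivative of the certificate function -/
theorem hasDerivAt_Wc {x : ℝ} (t : ℝ) (hx : -1 ≤ x) (hx0 : x ≠ 0) :
    HasDerivAt (Wc x) (-((3 * x ^ 2 - 14 * x - 8) * (cT t x / rT t x ^ 3) +
      pL x * (1 / rT t x ^ 3 - 3 * cT t x ^ 2 / rT t x ^ 5)) - (2 - x) * (1 / rT t x)) t := by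
  have h0 := rT_pos (t := t) hx hx0
  have hr2 := rT_sq (t := t) hx hx0
  have h1 : HasDerivAt (fun t => ((2 - x) * (2 * Real.cosh t) - (x ^ 2 + 2 * x + 4)) *
      (2 * Real.sinh t)) (((2 - x) * (2 * Real.sinh t)) * (2 * Real.sinh t) +
      ((2 - x) * (2 * Real.cosh t) - (x ^ 2 + 2 * x + 4)) * (2 * Real.cosh t)) t :=
    ((((Real.hasDerivAt_cosh t).const_mul 2).const_mul (2 - x)).sub_const _).mul
      ((Real.hasDerivAt_sinh t).const_mul 2)
  have h := h1.div ((hasDerivAt_rTt t hx hx0).pow 3) (pow_ne_zero 3 h0.ne')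
  refine h.congr_deriv ?_
  have hs := Real.cosh_sq t
  have hs' : Real.sinh t ^ 2 = Real.cosh t ^ 2 - 1 := by linarith
  simp only [Pi.pow_apply]
  have hne := h0.ne'
  rw [div_eq_iff (by positivity)]
  unfold DT at hr2
  unfold cT pL
  obtain ⟨r, hr⟩ : ∃ r, r = rT t x := ⟨_, rfl⟩
  obtain ⟨C, hC⟩ : ∃ C, C = Real.cosh t := ⟨_, rfl⟩
  obtain ⟨S, hS⟩ : ∃ S, S = Real.sinh t := ⟨_, rfl⟩
  rw [← hr] at hr2 hne h0
  rw [← hS, ← hC] at hs'
  rw [← hS, ← hC] at hr2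
  rw [← hr, ← hC, ← hS]
  field_simp
  simp only [Nat.cast_ofNat, Nat.add_one_sub_one]
  have hr2' : r ^ 2 = 4 * (C ^ 2 - 1) + 4 * x * (C - 1) + x ^ 2 := by rw [hr2, hs']
  have key : 2 * ((2 * (2 - x) * S ^ 2 + C * (2 * (2 - x) * C - (x * (x + 2) + 4))) * r ^ 2 -
      6 * S ^ 2 * (2 * (2 - x) * C - (x * (x + 2) + 4)) * (2 * C + x)) =
      (-(r ^ 2 * (x * (x * 3 - 14) - 8) * (2 * C + x - 2) +
        x * (x + 1) * (x - 8) * (r ^ 2 - 3 * (2 * C + x - 2) ^ 2)) - (2 - x) * (r ^ 2) ^ 2) := by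
    rw [hr2', hs']
    ring
  linear_combination r ^ 2 * key

theorem tendsto_inv_cosh (K : ℝ) : Tendsto (fun t => K / Real.cosh t) atTop (𝓝 0) := by
  have h1 : Tendsto Real.cosh atTop atTop := by
    have h2 : Tendsto (fun t : ℝ => Real.exp t / 2) atTop atTop :=
      Real.tendsto_exp_atTop.atTop_div_const (by norm_num)
    refine tendsto_atTop_mono (fun t => ?_) h2
    rw [Real.cosh_eq]
    have := Real.exp_pos (-t)
    linarith
  exact h1.const_div_atTop K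

theorem Wc_bound {x : ℝ} (hx : -1 ≤ x) (hx0 : x ≠ 0) : ∃ K : ℝ, ∀ t : ℝ, 0 ≤ t →
    ‖Wc x t‖ ≤ K / Real.cosh t := by
  obtain ⟨δ, hδ⟩ : ∃ δ, δ = min 1 |x| := ⟨_, rfl⟩
  have h0 : 0 < δ := by rw [hδ]; exact lt_min one_pos (abs_pos.2 hx0)
  have h1 : δ ≤ 1 := by rw [hδ]; exact min_le_left _ _
  have h2 : δ ≤ |x| := by rw [hδ]; exact min_le_right _ _
  refine ⟨(2 * |2 - x| + |x ^ 2 + 2 * x + 4|) * 2 / δ ^ 3, fun t ht => ?_⟩
  have h := rT_ge (t := t) hx h0.le h1 h2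
  have hc := Real.one_le_cosh t
  have hc0 := Real.cosh_pos t
  have hp : 0 < δ * Real.cosh t := by positivity
  have hr : 0 < rT t x := lt_of_lt_of_le hp h
  have hs : 0 ≤ Real.sinh t := Real.sinh_nonneg_iff.2 ht
  have hsc : Real.sinh t ≤ Real.cosh t := (Real.sinh_lt_cosh t).le
  unfold Wc
  rw [norm_div, norm_mul, Real.norm_of_nonneg (by positivity : 0 ≤ 2 * Real.sinh t),
    Real.norm_of_nonneg (by positivity : 0 ≤ rT t x ^ 3), Real.norm_eq_abs]
  have e1 : |(2 - x) * (2 * Real.cosh t) - (x ^ 2 + 2 * x + 4)| ≤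
      (2 * |2 - x| + |x ^ 2 + 2 * x + 4|) * Real.cosh t := by
    refine (abs_sub _ _).trans ?_
    rw [abs_mul, abs_of_nonneg (by positivity : 0 ≤ 2 * Real.cosh t)]
    have := abs_nonneg (x ^ 2 + 2 * x + 4)
    nlinarith
  calc |(2 - x) * (2 * Real.cosh t) - (x ^ 2 + 2 * x + 4)| * (2 * Real.sinh t) / rT t x ^ 3
      ≤ ((2 * |2 - x| + |x ^ 2 + 2 * x + 4|) * Real.cosh t) * (2 * Real.cosh t) /
        (δ * Real.cosh t) ^ 3 := by gcongr
    _ = _ := by field_simp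

theorem int_lin {μ : Measure ℝ} {A B C : ℝ → ℝ} (hA : Integrable A μ) (hB : Integrable B μ)
    (hC : Integrable C μ) (a b c : ℝ) : ∫ t, (-(a * A t + b * B t) - c * C t) ∂μ =
      -(a * ∫ t, A t ∂μ + b * ∫ t, B t ∂μ) - c * ∫ t, C t ∂μ := by
  have h1 : Integrable (fun t => a * A t + b * B t) μ := (hA.const_mul a).add (hB.const_mul b)
  have h2 : Integrable (fun t => -(a * A t + b * B t)) μ := h1.neg
  rw [integral_sub h2 (hC.const_mul c), integral_neg,
    integral_add (hA.const_mul a) (hB.const_mul b), integral_const_mul, integral_const_mul,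
    integral_const_mul]

theorem hasDerivAt_uf {x : ℝ} (hx : x ∈ Ioo (-1 : ℝ) 8) (hx0 : x ≠ 0) :
    HasDerivAt uf ((2 - x) * Gf x) x := by
  have hx1 := hx.1.le
  have hx9 : x ≤ 9 := by linarith [hx.2]
  obtain ⟨hint, hV⟩ := hasDerivAt_Vf hx hx0
  have hp : HasDerivAt pL (3 * x ^ 2 - 14 * x - 8) x := by
    unfold pL
    have h := (((hasDerivAt_id x).mul ((hasDerivAt_id x).add_const 1)).mul
      ((hasDerivAt_id x).sub_const 8))
    refine h.congr_deriv ?_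
    simp only [id, Pi.mul_apply]
    ring
  have h := ((hp.const_mul 2).mul hV).neg
  have e : uf = fun y => -(2 * pL y * Vf y) := rfl
  rw [e]
  refine h.congr_deriv ?_
  have i0 := (int0 hx1 hx0)
  have i1 := (int1 hx1 hx9 hx0)
  have hW : ∫ t in Ioi (0 : ℝ), (-((3 * x ^ 2 - 14 * x - 8) * (cT t x / rT t x ^ 3) +
      pL x * (1 / rT t x ^ 3 - 3 * cT t x ^ 2 / rT t x ^ 5)) - (2 - x) * (1 / rT t x)) = 0 := by
    have i0' : IntegrableOn (fun t => 1 / rT t x) (Ioi 0) := by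
      have := i0.const_mul (1 / 2)
      refine this.congr (Eventually.of_forall fun t => ?_)
      simp only
      ring
    have h1 := integral_Ioi_of_hasDerivAt_of_tendsto' (a := (0 : ℝ)) (f := Wc x) (m := 0)
      (fun t _ => hasDerivAt_Wc t hx1 hx0)
      ((((i1.const_mul _).add (hint.const_mul _)).neg).sub (i0'.const_mul _)) ?_
    · rw [h1]
      unfold Wc
      simp
    · obtain ⟨K, hK⟩ := Wc_bound hx1 hx0
      refine squeeze_zero_norm' ?_ (tendsto_inv_cosh K)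
      filter_upwards [eventually_ge_atTop 0] with t ht
      exact hK t ht
  have i0' : IntegrableOn (fun t => 1 / rT t x) (Ioi 0) := by
    have := i0.const_mul (1 / 2)
    refine this.congr (Eventually.of_forall fun t => ?_)
    simp only
    ring
  rw [int_lin i1 hint i0'] at hW
  have e1 : ∫ t in Ioi (0 : ℝ), 1 / rT t x = Gf x / 2 := by
    unfold Gf
    rw [← integral_div]
    refine integral_congr_ae (Eventually.of_forall fun t => ?_)
    simp only
    ring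
  rw [e1] at hW
  have e2 : ∫ t in Ioi (0 : ℝ), cT t x / rT t x ^ 3 = Vf x := rfl
  rw [e2] at hW
  linear_combination 2 * hW

end Pool.Agent.Lib.MP_230119_an.LA
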