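import Pool.Agent.Lib.MP_230119_an.LA1

/-!
# The density `G`: limits
-/

set_option autoImplicit false

open MeasureTheory Set Filter Topology

namespace Pool.Agent.Lib.MP_230119_an.LA

theorem Gf_bound {δ : ℝ} (h0 : 0 < δ) (h1 : δ ≤ 1) : ∃ C : ℝ, ∀ x : ℝ, -1 ≤ x → x ≤ 9 → δ ≤ |x| →
    |Gf x| ≤ C ∧ |Vf x| ≤ C := by
  refine ⟨max (∫ t in Ioi (0 : ℝ), (2 / δ) / Real.cosh t)
    (∫ t in Ioi (0 : ℝ), (9 / δ ^ 3) / Real.cosh t), fun x hx hx9 hδ => ⟨?_, ?_⟩⟩
  · refine le_trans ?_ (le_max_left _ _)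
    rw [← Real.norm_eq_abs]
    exact norm_integral_le_of_norm_le (integrable_inv_cosh _)
      (Eventually.of_forall fun t => bd0 hx h0 h1 hδ)
  · refine le_trans ?_ (le_max_right _ _)
    rw [← Real.norm_eq_abs]
    exact norm_integral_le_of_norm_le (integrable_inv_cosh _)
      (Eventually.of_forall fun t => bd1 hx hx9 h0 h1 hδ)

theorem continuous_pL : Continuous pL := by
  unfold pL
  fun_prop

theorem uf_end {x0 : ℝ} {s : Set ℝ} (hx0 : pL x0 = 0)
    (hs : ∀ᶠ x in 𝓝[s] x0, -1 ≤ x ∧ x ≤ 9 ∧ 1 / 2 ≤ |x|) : Tendsto uf (𝓝[s] x0) (𝓝 0) := by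
  obtain ⟨C, hC⟩ := Gf_bound (δ := 1 / 2) (by norm_num) (by norm_num)
  have h1 : Tendsto (fun x => 2 * |pL x| * C) (𝓝[s] x0) (𝓝 (2 * |pL x0| * C)) := by
    have : Continuous fun x => 2 * |pL x| * C := by
      have := continuous_pL
      fun_prop
    exact this.continuousAt.continuousWithinAt
  rw [hx0, abs_zero, mul_zero, zero_mul] at h1
  refine squeeze_zero_norm' ?_ h1
  filter_upwards [hs] with x hx
  unfold uf
  rw [norm_neg, norm_mul, norm_mul, Real.norm_of_nonneg (by norm_num : (0 : ℝ) ≤ 2),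
    Real.norm_eq_abs, Real.norm_eq_abs]
  have := (hC x hx.1 hx.2.1 hx.2.2).2
  gcongr

theorem uf_lim_left : Tendsto uf (𝓝[>] (-1)) (𝓝 0) := by
  refine uf_end (by unfold pL; norm_num) ?_
  have h1 : ∀ᶠ x : ℝ in 𝓝[>] (-1 : ℝ), x ∈ Ioo (-1 : ℝ) (-(1 / 2)) :=
    Ioo_mem_nhdsGT (by norm_num)
  filter_upwards [h1] with x hx
  refine ⟨hx.1.le, by linarith [hx.2], ?_⟩
  rw [abs_of_neg (by linarith [hx.2])]
  linarith [hx.2]

theorem uf_lim_right : Tendsto uf (𝓝[<] 8) (𝓝 0) := by
  refine uf_end (by unfold pL; norm_num) ?_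
  have h1 : ∀ᶠ x : ℝ in 𝓝[<] (8 : ℝ), x ∈ Ioo (1 : ℝ) 8 := Ioo_mem_nhdsLT (by norm_num)
  filter_upwards [h1] with x hx
  refine ⟨by linarith [hx.1], by linarith [hx.2], ?_⟩
  rw [abs_of_pos (by linarith [hx.1])]
  linarith [hx.1]

theorem Gf_pos {x : ℝ} (hx : -1 ≤ x) (hx0 : x ≠ 0) : 0 < Gf x := by
  unfold Gf
  rw [setIntegral_pos_iff_support_of_nonneg_ae (Eventually.of_forall fun t => by
    simp only [Pi.zero_apply]
    exact div_nonneg (by norm_num) (Real.sqrt_nonneg _)) (int0 hx hx0)]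
  have : (Function.support fun t => 2 / rT t x) ∩ Ioi 0 = Ioi 0 := by
    ext t
    simp only [mem_inter_iff, Function.mem_support, ne_eq, and_iff_right_iff_imp]
    intro _
    exact div_ne_zero (by norm_num) (rT_pos hx hx0).ne'
  rw [this]
  simp

/-- the comparison root -/
noncomputable def rk (k t x : ℝ) : ℝ := Real.sqrt (k * Real.sinh t ^ 2 + x ^ 2)

theorem rk_pos {k t x : ℝ} (hk : 0 ≤ k) (hx0 : x ≠ 0) : 0 < rk k t x := by
  unfold rk
  apply Real.sqrt_pos.2
  have : 0 < x ^ 2 := by positivity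
  have := mul_nonneg hk (sq_nonneg (Real.sinh t))
  linarith

theorem rk_sq {k : ℝ} (t x : ℝ) (hk : 0 ≤ k) : rk k t x ^ 2 = k * Real.sinh t ^ 2 + x ^ 2 := by
  unfold rk
  rw [Real.sq_sqrt]
  positivity

theorem rk_le {k l : ℝ} (t x : ℝ) (hkl : k ≤ l) : rk k t x ≤ rk l t x := by
  unfold rk
  apply Real.sqrt_le_sqrt
  have := mul_le_mul_of_nonneg_right hkl (sq_nonneg (Real.sinh t))
  linarith

theorem r2_le {t x : ℝ} (hx : -1 ≤ x) : rk 2 t x ≤ rT t x := by
  unfold rk rT
  exact Real.sqrt_le_sqrt (DT_ge hx)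

theorem sinh_le_r2 {t : ℝ} (x : ℝ) (ht : 0 ≤ t) : Real.sinh t ≤ rk 2 t x := by
  unfold rk
  apply Real.le_sqrt_of_sq_le
  have := sq_nonneg (Real.sinh t)
  have := sq_nonneg x
  linarith

theorem abs_le_rk {k : ℝ} (t x : ℝ) (hk : 0 ≤ k) : |x| ≤ rk k t x := by
  unfold rk
  apply Real.le_sqrt_of_sq_le
  rw [sq_abs]
  have := mul_nonneg hk (sq_nonneg (Real.sinh t))
  linarith

theorem diff_inv {t x : ℝ} (ht : 0 < t) (hx : -1 ≤ x) (hx0 : x ≠ 0) :
    |1 / rT t x - 1 / rk 4 t x| ≤ |x| / rk 2 t x := by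
  have hr := rT_pos (t := t) hx hx0
  have hr0 := rk_pos (k := 4) (t := t) (by norm_num) hx0
  have hm := rk_pos (k := 2) (t := t) (by norm_num) hx0
  have h1 := r2_le (t := t) hx
  have h2 := rk_le (k := 2) (l := 4) t x (by norm_num)
  have hs : 0 < Real.sinh t := Real.sinh_pos_iff.2 ht
  have h3 := sinh_le_r2 x ht.le
  have e1 := rT_sq (t := t) hx hx0
  have e2 := rk_sq (k := 4) t x (by norm_num)
  unfold DT at e1
  have h4 := cosh_sub_one_le t
  have h5 := Real.one_le_cosh t
  have e3 : 1 / rT t x - 1 / rk 4 t x = (-(4 * x * (Real.cosh t - 1))) /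
      (rT t x * rk 4 t x * (rT t x + rk 4 t x)) := by
    have : -(4 * x * (Real.cosh t - 1)) = rk 4 t x ^ 2 - rT t x ^ 2 := by rw [e1, e2]; ring
    rw [this]
    field_simp
    ring
  rw [e3, abs_div, abs_neg, abs_mul, abs_mul, abs_of_pos (by positivity : (0 : ℝ) < 4),
    abs_of_nonneg (by linarith : 0 ≤ Real.cosh t - 1),
    abs_of_pos (by positivity : 0 < rT t x * rk 4 t x * (rT t x + rk 4 t x))]
  rw [div_le_div_iff₀ (by positivity) hm]
  have h6 : 4 * |x| * (Real.cosh t - 1) * rk 2 t x ≤ |x| * (2 * Real.sinh t ^ 2) * rk 2 t x := by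
    have : 4 * |x| * (Real.cosh t - 1) ≤ |x| * (2 * Real.sinh t ^ 2) := by
      nlinarith [abs_nonneg x]
    exact mul_le_mul_of_nonneg_right this hm.le
  refine h6.trans ?_
  have h7 : 2 * Real.sinh t ^ 2 * rk 2 t x ≤ rT t x * rk 4 t x * (rT t x + rk 4 t x) := by
    have g1 : Real.sinh t * Real.sinh t ≤ rT t x * rk 4 t x :=
      mul_le_mul (h3.trans h1) (h3.trans h2) hs.le hr.le
    have g2 : 2 * rk 2 t x ≤ rT t x + rk 4 t x := by linarith
    calc 2 * Real.sinh t ^ 2 * rk 2 t x = (Real.sinh t * Real.sinh t) * (2 * rk 2 t x) := by ring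
      _ ≤ (rT t x * rk 4 t x) * (rT t x + rk 4 t x) := by
          apply mul_le_mul g1 g2 (by positivity) (by positivity)
  calc |x| * (2 * Real.sinh t ^ 2) * rk 2 t x = |x| * (2 * Real.sinh t ^ 2 * rk 2 t x) := by ring
    _ ≤ |x| * (rT t x * rk 4 t x * (rT t x + rk 4 t x)) :=
      mul_le_mul_of_nonneg_left h7 (abs_nonneg _)

/-! ### The logarithmic limit -/

/-- the comparison integrand -/
noncomputable def kT (t x : ℝ) : ℝ := if t < 1 then 2 * Real.cosh t / rk 4 t x else 0

theorem meas_kT (x : ℝ) : Measurable fun t => kT t x := by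
  unfold kT rk
  refine Measurable.ite measurableSet_Iio ?_ measurable_const
  have := Real.measurable_cosh
  have := Real.measurable_sinh
  fun_prop

theorem int_kT {x : ℝ} (hx0 : x ≠ 0) : IntegrableOn (fun t => kT t x) (Ioi 0) ∧
    ∫ t in Ioi (0 : ℝ), kT t x = Real.arsinh (2 * Real.sinh 1 / |x|) := by
  have hax := abs_pos.2 hx0
  have hd : ∀ t : ℝ, HasDerivAt (fun t => Real.arsinh (2 * Real.sinh t / |x|))
      (2 * Real.cosh t / rk 4 t x) t := by
    intro t
    have h1 : HasDerivAt (fun t => 2 * Real.sinh t / |x|) (2 * Real.cosh t / |x|) t :=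
      ((Real.hasDerivAt_sinh t).const_mul 2).div_const _
    have h2 := h1.arsinh
    refine h2.congr_deriv ?_
    have e : Real.sqrt (1 + (2 * Real.sinh t / |x|) ^ 2) = rk 4 t x / |x| := by
      rw [← Real.sqrt_sq hax.le, sq_abs, rk, ← Real.sqrt_div' _ (sq_nonneg x)]
      congr 1
      rw [div_pow, Real.sq_sqrt (sq_nonneg x)]
      field_simp
      ring
    rw [e, smul_eq_mul]
    have := rk_pos (k := 4) (t := t) (by norm_num) hx0
    field_simp
  have hcont : Continuous fun t => 2 * Real.cosh t / rk 4 t x := by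
    refine (continuous_const.mul Real.continuous_cosh).div ?_ fun t =>
      (rk_pos (k := 4) (t := t) (by norm_num) hx0).ne'
    unfold rk
    have := Real.continuous_sinh
    fun_prop
  have hI : IntegrableOn (fun t => 2 * Real.cosh t / rk 4 t x) (Ioo 0 1) :=
    (hcont.integrableOn_Icc (a := 0) (b := 1)).mono_set Ioo_subset_Icc_self
  have e1 : (fun t => kT t x) = (Iio (1 : ℝ)).indicator (fun t => 2 * Real.cosh t / rk 4 t x) := by
    funext t
    unfold kT
    by_cases ht : t < 1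
    · rw [if_pos ht, indicator_of_mem (by exact ht)]
    · rw [if_neg ht, indicator_of_notMem (by exact ht)]
  constructor
  · rw [e1]
    unfold IntegrableOn
    rw [integrable_indicator_iff measurableSet_Iio]
    unfold IntegrableOn
    rw [Measure.restrict_restrict measurableSet_Iio]
    have : Iio (1 : ℝ) ∩ Ioi 0 = Ioo 0 1 := by
      ext t
      simp only [mem_inter_iff, mem_Iio, mem_Ioi, mem_Ioo]
      tauto
    rw [this]
    exact hI
  · rw [e1, setIntegral_indicator measurableSet_Iio]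
    have : Ioi (0 : ℝ) ∩ Iio 1 = Ioo 0 1 := rfl
    rw [this, ← integral_Ioc_eq_integral_Ioo, ← intervalIntegral.integral_of_le (by norm_num)]
    rw [intervalIntegral.integral_eq_sub_of_hasDerivAt (fun t _ => hd t)
      (hcont.intervalIntegrable _ _)]
    simp

theorem kT_bound {t x : ℝ} (ht : 0 < t) (hx : -1 ≤ x) (hx1 : |x| ≤ 1) (hx0 : x ≠ 0) :
    ‖2 / rT t x - kT t x‖ ≤ (if t < 1 then 4 else 0) + 4 / Real.cosh t := by
  have hr := rT_pos (t := t) hx hx0
  have hr0 := rk_pos (k := 4) (t := t) (by norm_num) hx0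
  have hm := rk_pos (k := 2) (t := t) (by norm_num) hx0
  have h1 := r2_le (t := t) hx
  have h2 := rk_le (k := 2) (l := 4) t x (by norm_num)
  have hs : 0 < Real.sinh t := Real.sinh_pos_iff.2 ht
  have h3 := sinh_le_r2 x ht.le
  have h4 := cosh_sub_one_le t
  have h5 := Real.one_le_cosh t
  have hc := Real.cosh_pos t
  unfold kT
  by_cases h : t < 1
  · rw [if_pos h, if_pos h]
    have h6 := diff_inv ht hx hx0
    have h7 : |x| / rk 2 t x ≤ 1 := by
      rw [div_le_one hm]
      exact abs_le_rk t x (by norm_num)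
    have e : 2 / rT t x - 2 * Real.cosh t / rk 4 t x = 2 * (1 / rT t x - 1 / rk 4 t x) -
        2 * ((Real.cosh t - 1) / rk 4 t x) := by
      field_simp
      ring
    rw [e]
    refine (norm_sub_le _ _).trans ?_
    rw [norm_mul, norm_mul, Real.norm_of_nonneg (by norm_num : (0 : ℝ) ≤ 2), Real.norm_eq_abs,
      Real.norm_of_nonneg (div_nonneg (by linarith) hr0.le)]
    have h8 : (Real.cosh t - 1) / rk 4 t x ≤ 1 := by
      rw [div_le_one hr0]
      have h9 : Real.sinh t ^ 2 ≤ 2 * Real.sinh t := by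
        have h10 : Real.sinh t ≤ 2 := by
          have h11 : Real.sinh t ≤ Real.sinh 1 := Real.sinh_le_sinh.2 h.le
          have h12 : Real.sinh 1 ≤ 2 := by
            rw [Real.sinh_eq]
            have := Real.exp_one_lt_d9
            have := Real.exp_pos (-1)
            linarith
          linarith
        nlinarith
      linarith
    have : 0 ≤ 4 / Real.cosh t := by positivity
    linarith
  · rw [if_neg h, if_neg h, sub_zero, zero_add]
    push Not at h
    rw [norm_div, Real.norm_of_nonneg (by norm_num : (0 : ℝ) ≤ 2), Real.norm_of_nonneg hr.le]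
    have h6 : Real.cosh t ≤ 2 * Real.sinh t := by
      have h7 : t ≤ Real.sinh t := Real.self_le_sinh_iff.2 ht.le
      have h8 := Real.cosh_sq t
      have h9 : 1 ≤ Real.sinh t := h.trans h7
      nlinarith
    have h7 : Real.cosh t / 2 ≤ rT t x := by linarith
    calc 2 / rT t x ≤ 2 / (Real.cosh t / 2) := by gcongr
      _ = 4 / Real.cosh t := by field_simp; norm_num

theorem integrable_dom : IntegrableOn (fun t : ℝ => (if t < 1 then (4 : ℝ) else 0) +
    4 / Real.cosh t) (Ioi 0) := by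
  refine Integrable.add ?_ (integrable_inv_cosh 4)
  have e1 : (fun t : ℝ => if t < 1 then (4 : ℝ) else 0) = (Iio (1 : ℝ)).indicator (fun _ => 4) := by
    funext t
    by_cases ht : t < 1
    · rw [if_pos ht, indicator_of_mem (by exact ht)]
    · rw [if_neg ht, indicator_of_notMem (by exact ht)]
  rw [e1, integrable_indicator_iff measurableSet_Iio]
  unfold IntegrableOn
  rw [Measure.restrict_restrict measurableSet_Iio]
  have : Iio (1 : ℝ) ∩ Ioi 0 = Ioo 0 1 := by
    ext t
    simp only [mem_inter_iff, mem_Iio, mem_Ioi, mem_Ioo]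
    tauto
  rw [this]
  exact integrable_const _

theorem near_zero : ∀ᶠ x : ℝ in 𝓝[≠] (0 : ℝ), x ≠ 0 ∧ |x| ≤ 1 ∧ -1 ≤ x := by
  have h1 : ∀ᶠ x : ℝ in 𝓝 (0 : ℝ), |x| ≤ 1 := by
    have : ∀ᶠ x : ℝ in 𝓝 (0 : ℝ), |x| < 1 :=
      (continuous_abs.tendsto (0 : ℝ)).eventually (gt_mem_nhds (by simp))
    exact this.mono fun x hx => hx.le
  filter_upwards [self_mem_nhdsWithin, mem_nhdsWithin_of_mem_nhds h1] with x hx hx1
  exact ⟨hx, hx1, by linarith [(abs_le.1 hx1).1]⟩

/-- the logarithmic limit -/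
theorem Gf_log : ∃ L : ℝ, Tendsto (fun x => Gf x + Real.log |x|) (𝓝[≠] 0) (𝓝 L) := by
  have h1 : Tendsto (fun x => ∫ t in Ioi (0 : ℝ), (2 / rT t x - kT t x)) (𝓝[≠] 0)
      (𝓝 (∫ t in Ioi (0 : ℝ), (2 / rT t 0 - kT t 0))) := by
    refine tendsto_integral_filter_of_dominated_convergence
      (fun t : ℝ => (if t < 1 then (4 : ℝ) else 0) + 4 / Real.cosh t) ?_ ?_ integrable_dom ?_
    · exact Eventually.of_forall fun x => (sm0 x).sub (meas_kT x).aestronglyMeasurable
    · filter_upwards [near_zero] with x hx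
      filter_upwards [ae_restrict_mem measurableSet_Ioi] with t ht
      exact kT_bound ht hx.2.2 hx.2.1 hx.1
    · filter_upwards [ae_restrict_mem measurableSet_Ioi] with t ht
      have hs : 0 < Real.sinh t := Real.sinh_pos_iff.2 ht
      have c1 : ContinuousAt (fun x => 2 / rT t x) 0 := by
        refine continuousAt_const.div (continuous_rT.comp (by fun_prop : Continuous fun x : ℝ =>
          ((t, x) : ℝ × ℝ))).continuousAt ?_
        unfold rT DT
        apply (Real.sqrt_pos.2 _).ne'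
        simp
        positivity
      have c2 : ContinuousAt (fun x => kT t x) 0 := by
        unfold kT
        by_cases h : t < 1
        · simp only [if_pos h]
          refine continuousAt_const.div ?_ ?_
          · unfold rk
            fun_prop
          · unfold rk
            apply (Real.sqrt_pos.2 _).ne'
            simp
            positivity
        · simp only [if_neg h]
          exact continuousAt_const
      exact (c1.sub c2).tendsto.mono_left nhdsWithin_le_nhds
  have hs1 : 0 < Real.sinh 1 := Real.sinh_pos_iff.2 one_pos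
  have h2 : Tendsto (fun x : ℝ => Real.log (2 * Real.sinh 1 + Real.sqrt ((2 * Real.sinh 1) ^ 2 + x ^ 2)))
      (𝓝[≠] 0) (𝓝 (Real.log (2 * Real.sinh 1 + Real.sqrt ((2 * Real.sinh 1) ^ 2 + 0 ^ 2)))) := by
    have : ContinuousAt (fun x : ℝ => Real.log (2 * Real.sinh 1 +
        Real.sqrt ((2 * Real.sinh 1) ^ 2 + x ^ 2))) 0 := by
      refine ContinuousAt.log (by fun_prop) ?_
      positivity
    exact this.tendsto.mono_left nhdsWithin_le_nhds
  refine ⟨_, (h1.add h2).congr' ?_⟩
  filter_upwards [near_zero] with x hx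
  have i0 := int0 hx.2.2 hx.1
  obtain ⟨i1, e1⟩ := int_kT hx.1
  have hax := abs_pos.2 hx.1
  rw [integral_sub i0 i1, e1]
  have e2 : Real.arsinh (2 * Real.sinh 1 / |x|) + Real.log |x| =
      Real.log (2 * Real.sinh 1 + Real.sqrt ((2 * Real.sinh 1) ^ 2 + x ^ 2)) := by
    unfold Real.arsinh
    rw [← Real.log_mul (by positivity) hax.ne']
    congr 1
    have e : Real.sqrt (1 + (2 * Real.sinh 1 / |x|) ^ 2) =
        Real.sqrt ((2 * Real.sinh 1) ^ 2 + x ^ 2) / |x| := by
      rw [← Real.sqrt_sq hax.le, sq_abs, ← Real.sqrt_div' _ (sq_nonneg x)]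
      congr 1
      rw [div_pow, Real.sq_sqrt (sq_nonneg x)]
      have := hx.1
      field_simp
      ring
    rw [e]
    field_simp
  have e3 : ∫ t in Ioi (0 : ℝ), 2 / rT t x = Gf x := rfl
  rw [e3, ← e2]
  ring

end Pool.Agent.Lib.MP_230119_an.LA
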