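import Pool.Agent.Lib.MP_230119_an.LA2

/-!
# The density `G`: the flux at `0` and global bounds
-/

set_option autoImplicit false

open MeasureTheory Set Filter Topology

namespace Pool.Agent.Lib.MP_230119_an.LA

theorem hasDerivAt_rk {k x : ℝ} (t : ℝ) (hk : 0 ≤ k) (hx0 : x ≠ 0) :
    HasDerivAt (fun t => rk k t x) (k * Real.sinh t * Real.cosh t / rk k t x) t := by
  have h1 : HasDerivAt (fun t => k * Real.sinh t ^ 2 + x ^ 2) (k * (2 * Real.sinh t * Real.cosh t)) t := by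
    have := (((Real.hasDerivAt_sinh t).pow 2).const_mul k).add_const (x ^ 2)
    refine this.congr_deriv ?_
    simp only [Nat.cast_ofNat, Nat.add_one_sub_one, pow_one]
  have h2 : 0 < k * Real.sinh t ^ 2 + x ^ 2 := by
    have : 0 < x ^ 2 := by positivity
    have := mul_nonneg hk (sq_nonneg (Real.sinh t))
    linarith
  have h := h1.sqrt h2.ne'
  refine h.congr_deriv ?_
  have h3 : Real.sqrt (k * Real.sinh t ^ 2 + x ^ 2) = rk k t x := rfl
  rw [h3]
  have := (rk_pos (t := t) hk hx0).ne'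
  field_simp

theorem tendsto_sinh : Tendsto Real.sinh atTop atTop := by
  refine tendsto_atTop_mono' _ ?_ tendsto_id
  filter_upwards [eventually_ge_atTop 0] with t ht
  exact Real.self_le_sinh_iff.2 ht

/-- an explicit integral -/
theorem int_rk {k x : ℝ} (hk : 0 < k) (hx0 : x ≠ 0) :
    IntegrableOn (fun t => Real.cosh t / rk k t x ^ 3) (Ioi 0) ∧
    ∫ t in Ioi (0 : ℝ), Real.cosh t / rk k t x ^ 3 = 1 / (Real.sqrt k * x ^ 2) := by
  have hx2 : 0 < x ^ 2 := by positivity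
  have hk' := Real.sqrt_pos.2 hk
  have hd : ∀ t ∈ Ici (0 : ℝ), HasDerivAt (fun t => Real.sinh t / (x ^ 2 * rk k t x))
      (Real.cosh t / rk k t x ^ 3) t := by
    intro t _
    have h0 := rk_pos (t := t) hk.le hx0
    have h1 := (Real.hasDerivAt_sinh t).div ((hasDerivAt_rk t hk.le hx0).const_mul (x ^ 2))
      (by positivity)
    refine h1.congr_deriv ?_
    have h2 := rk_sq (k := k) t x hk.le
    have hne := h0.ne'
    rw [div_eq_div_iff (by positivity) (by positivity)]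
    field_simp
    linear_combination h2
  have hlim : Tendsto (fun t => Real.sinh t / (x ^ 2 * rk k t x)) atTop
      (𝓝 (1 / (Real.sqrt k * x ^ 2))) := by
    have h1 : Tendsto (fun t => x / Real.sinh t) atTop (𝓝 0) := tendsto_sinh.const_div_atTop x
    have h2 : Tendsto (fun t => 1 / (Real.sqrt (k + (x / Real.sinh t) ^ 2) * x ^ 2)) atTop
        (𝓝 (1 / (Real.sqrt (k + 0 ^ 2) * x ^ 2))) := by
      refine tendsto_const_nhds.div ?_ ?_
      · exact ((Real.continuous_sqrt.tendsto _).comp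
          (tendsto_const_nhds.add (h1.pow 2))).mul_const _
      · have : 0 < Real.sqrt (k + 0 ^ 2) := by
          apply Real.sqrt_pos.2
          simpa using hk
        positivity
    have e0 : k + (0 : ℝ) ^ 2 = k := by norm_num
    rw [e0] at h2
    refine h2.congr' ?_
    filter_upwards [eventually_gt_atTop 0] with t ht
    have hs : 0 < Real.sinh t := Real.sinh_pos_iff.2 ht
    have e : Real.sqrt (k + (x / Real.sinh t) ^ 2) = rk k t x / Real.sinh t := by
      unfold rk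
      rw [← Real.sqrt_sq hs.le, ← Real.sqrt_div' _ (sq_nonneg _)]
      congr 1
      rw [Real.sqrt_sq hs.le]
      field_simp
    rw [e]
    have := rk_pos (t := t) hk.le hx0
    field_simp
  have hpos : ∀ t ∈ Ioi (0 : ℝ), 0 ≤ Real.cosh t / rk k t x ^ 3 := fun t _ => by
    have := rk_pos (t := t) hk.le hx0
    have := Real.cosh_pos t
    positivity
  refine ⟨integrableOn_Ioi_deriv_of_nonneg' hd hpos hlim, ?_⟩
  rw [integral_Ioi_of_hasDerivAt_of_nonneg' hd hpos hlim]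
  simp

theorem rT_le {t x : ℝ} (hx1 : |x| ≤ 1) : rT t x ≤ 2 * rk 4 t x := by
  unfold rT rk
  rw [show (2 : ℝ) = Real.sqrt 4 by
    rw [show (4 : ℝ) = 2 ^ 2 by norm_num, Real.sqrt_sq (by norm_num)], ← Real.sqrt_mul (by norm_num)]
  apply Real.sqrt_le_sqrt
  unfold DT
  have h4 := cosh_sub_one_le t
  have h5 := Real.one_le_cosh t
  have h6 := (abs_le.1 hx1).2
  have h7 := sq_nonneg x
  have h8 := sq_nonneg (Real.sinh t)
  nlinarith [mul_le_mul_of_nonneg_right h6 (by linarith : 0 ≤ Real.cosh t - 1)]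

theorem flux_pt {t x : ℝ} (ht : 0 < t) (hx : -1 ≤ x) (hx1 : |x| ≤ 1) (hx0 : x ≠ 0) :
    |x * (cT t x / rT t x ^ 3) - x ^ 2 * (Real.cosh t / rk 4 t x ^ 3)| ≤
      |x| * (2 / rT t x) + 3 * |x| * (x ^ 2 * (Real.cosh t / rk 2 t x ^ 3)) := by
  have hr := rT_pos (t := t) hx hx0
  have hr0 := rk_pos (k := 4) (t := t) (by norm_num) hx0
  have hm := rk_pos (k := 2) (t := t) (by norm_num) hx0
  have h1 := r2_le (t := t) hx
  have h2 := rk_le (k := 2) (l := 4) t x (by norm_num)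
  have hs : 0 < Real.sinh t := Real.sinh_pos_iff.2 ht
  have h3 := sinh_le_r2 x ht.le
  have h4 := cosh_sub_one_le t
  have h5 := Real.one_le_cosh t
  have hax := abs_nonneg x
  have h6 := rT_le (t := t) hx1
  have h7 := diff_inv ht hx hx0
  have e : x * (cT t x / rT t x ^ 3) - x ^ 2 * (Real.cosh t / rk 4 t x ^ 3) =
      x * (2 * (Real.cosh t - 1) / rT t x ^ 3) + x ^ 2 * (1 / rT t x ^ 3 - 1 / rk 4 t x ^ 3) -
      x ^ 2 * ((Real.cosh t - 1) / rk 4 t x ^ 3) := by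
    unfold cT
    field_simp
    ring
  have b1 : |x * (2 * (Real.cosh t - 1) / rT t x ^ 3)| ≤ |x| * (1 / rT t x) := by
    rw [abs_mul, abs_of_nonneg (by
      have : 0 ≤ Real.cosh t - 1 := by linarith
      positivity : 0 ≤ 2 * (Real.cosh t - 1) / rT t x ^ 3)]
    refine mul_le_mul_of_nonneg_left ?_ hax
    rw [div_le_div_iff₀ (by positivity) hr]
    have g1 : Real.sinh t ^ 2 ≤ rT t x ^ 2 := pow_le_pow_left₀ hs.le (h3.trans h1) 2
    nlinarith
  have b3 : |x ^ 2 * ((Real.cosh t - 1) / rk 4 t x ^ 3)| ≤ |x| * (1 / rT t x) := by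
    rw [abs_mul, abs_of_nonneg (div_nonneg (by linarith) (by positivity) :
      0 ≤ (Real.cosh t - 1) / rk 4 t x ^ 3), abs_of_nonneg (sq_nonneg x)]
    have g1 : x ^ 2 ≤ |x| := by
      rw [← sq_abs]
      nlinarith
    have g2 : (Real.cosh t - 1) / rk 4 t x ^ 3 ≤ 1 / rT t x := by
      rw [div_le_div_iff₀ (by positivity) hr]
      have g3 : Real.sinh t ^ 2 ≤ rk 4 t x ^ 2 := pow_le_pow_left₀ hs.le (h3.trans h2) 2
      have g4 : 2 * (Real.cosh t - 1) ≤ rk 4 t x ^ 2 := h4.trans g3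
      calc (Real.cosh t - 1) * rT t x ≤ (Real.cosh t - 1) * (2 * rk 4 t x) := by
            apply mul_le_mul_of_nonneg_left h6
            linarith
        _ = (2 * (Real.cosh t - 1)) * rk 4 t x := by ring
        _ ≤ rk 4 t x ^ 2 * rk 4 t x := mul_le_mul_of_nonneg_right g4 hr0.le
        _ = 1 * rk 4 t x ^ 3 := by ring
    have : 0 ≤ 1 / rT t x := by positivity
    calc x ^ 2 * ((Real.cosh t - 1) / rk 4 t x ^ 3) ≤ |x| * ((Real.cosh t - 1) / rk 4 t x ^ 3) := by
          apply mul_le_mul_of_nonneg_right g1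
          exact div_nonneg (by linarith) (by positivity)
      _ ≤ |x| * (1 / rT t x) := mul_le_mul_of_nonneg_left g2 hax
  have b2 : |x ^ 2 * (1 / rT t x ^ 3 - 1 / rk 4 t x ^ 3)| ≤
      3 * |x| * (x ^ 2 * (Real.cosh t / rk 2 t x ^ 3)) := by
    have f : 1 / rT t x ^ 3 - 1 / rk 4 t x ^ 3 = (1 / rT t x - 1 / rk 4 t x) *
        (1 / rT t x ^ 2 + 1 / (rT t x * rk 4 t x) + 1 / rk 4 t x ^ 2) := by
      field_simp
      ring
    have g1 : 1 / rT t x ^ 2 ≤ 1 / rk 2 t x ^ 2 := by gcongr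
    have g2 : 1 / (rT t x * rk 4 t x) ≤ 1 / rk 2 t x ^ 2 := by
      apply one_div_le_one_div_of_le (by positivity)
      rw [pow_two]
      exact mul_le_mul h1 h2 hm.le hr.le
    have g3 : 1 / rk 4 t x ^ 2 ≤ 1 / rk 2 t x ^ 2 := by gcongr
    rw [abs_mul, abs_of_nonneg (sq_nonneg x), f, abs_mul,
      abs_of_nonneg (by positivity : 0 ≤ 1 / rT t x ^ 2 + 1 / (rT t x * rk 4 t x) + 1 / rk 4 t x ^ 2)]
    calc x ^ 2 * (|1 / rT t x - 1 / rk 4 t x| *
          (1 / rT t x ^ 2 + 1 / (rT t x * rk 4 t x) + 1 / rk 4 t x ^ 2))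
        ≤ x ^ 2 * ((|x| / rk 2 t x) * (3 * (1 / rk 2 t x ^ 2))) := by
          gcongr
          linarith
      _ = 3 * |x| * (x ^ 2 * (1 / rk 2 t x ^ 3)) := by
          field_simp
      _ ≤ 3 * |x| * (x ^ 2 * (Real.cosh t / rk 2 t x ^ 3)) := by gcongr
  rw [e]
  calc _ ≤ |x * (2 * (Real.cosh t - 1) / rT t x ^ 3)| + |x ^ 2 * (1 / rT t x ^ 3 - 1 / rk 4 t x ^ 3)| +
        |x ^ 2 * ((Real.cosh t - 1) / rk 4 t x ^ 3)| := by
        refine (abs_sub _ _).trans ?_
        gcongr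
        exact abs_add_le _ _
    _ ≤ |x| * (1 / rT t x) + 3 * |x| * (x ^ 2 * (Real.cosh t / rk 2 t x ^ 3)) +
        |x| * (1 / rT t x) := by gcongr
    _ = _ := by ring

theorem flux_bound {x : ℝ} (hx : -1 ≤ x) (hx1 : |x| ≤ 1) (hx0 : x ≠ 0) :
    |x * Vf x - 1 / 2| ≤ |x| * Gf x + 3 * |x| := by
  have hx9 : x ≤ 9 := by linarith [(abs_le.1 hx1).2]
  obtain ⟨i4, e4⟩ := int_rk (k := 4) (x := x) (by norm_num) hx0
  obtain ⟨i2, e2⟩ := int_rk (k := 2) (x := x) (by norm_num) hx0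
  have i1 := int1 hx hx9 hx0
  have i0 := int0 hx hx0
  have hx2 : 0 < x ^ 2 := by positivity
  have s4 : Real.sqrt 4 = 2 := by
    rw [show (4 : ℝ) = 2 ^ 2 by norm_num, Real.sqrt_sq (by norm_num)]
  have h1 : x * Vf x - 1 / 2 = ∫ t in Ioi (0 : ℝ), (x * (cT t x / rT t x ^ 3) -
      x ^ 2 * (Real.cosh t / rk 4 t x ^ 3)) := by
    rw [integral_sub (i1.const_mul x) (i4.const_mul (x ^ 2)), integral_const_mul,
      integral_const_mul, e4, s4]
    unfold Vf
    congr 1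
    field_simp
  rw [h1, ← Real.norm_eq_abs]
  have h2 : ‖∫ t in Ioi (0 : ℝ), (x * (cT t x / rT t x ^ 3) -
      x ^ 2 * (Real.cosh t / rk 4 t x ^ 3))‖ ≤ ∫ t in Ioi (0 : ℝ), (|x| * (2 / rT t x) +
      3 * |x| * (x ^ 2 * (Real.cosh t / rk 2 t x ^ 3))) := by
    refine norm_integral_le_of_norm_le ((i0.const_mul _).add
      ((i2.const_mul (x ^ 2)).const_mul (3 * |x|))) ?_
    filter_upwards [ae_restrict_mem measurableSet_Ioi] with t ht
    exact flux_pt ht hx hx1 hx0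
  refine h2.trans ?_
  rw [integral_add (i0.const_mul _) ((i2.const_mul (x ^ 2)).const_mul (3 * |x|)),
    integral_const_mul, integral_const_mul, integral_const_mul, e2]
  have s2 : 1 ≤ Real.sqrt 2 := Real.one_le_sqrt.2 (by norm_num)
  have h3 : x ^ 2 * (1 / (Real.sqrt 2 * x ^ 2)) ≤ 1 := by
    have : x ^ 2 * (1 / (Real.sqrt 2 * x ^ 2)) = 1 / Real.sqrt 2 := by field_simp
    rw [this, div_le_one (by positivity)]
    exact s2
  have h4 : 3 * |x| * (x ^ 2 * (1 / (Real.sqrt 2 * x ^ 2))) ≤ 3 * |x| * 1 := by gcongr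
  have e : ∫ t in Ioi (0 : ℝ), 2 / rT t x = Gf x := rfl
  rw [e]
  linarith

theorem absG_zero : Tendsto (fun x => |x| * Gf x) (𝓝[≠] 0) (𝓝 0) := by
  obtain ⟨L, hL⟩ := Gf_log
  have h1 : Tendsto (fun x : ℝ => |x|) (𝓝[≠] 0) (𝓝 0) := by
    have := (continuous_abs.tendsto (0 : ℝ)).mono_left (nhdsWithin_le_nhds (s := {0}ᶜ))
    rwa [abs_zero] at this
  have h2 : Tendsto (fun x : ℝ => |x| * Real.log |x|) (𝓝[≠] 0) (𝓝 0) := by
    have h3 : Continuous fun x : ℝ => |x| * Real.log |x| := Real.continuous_mul_log.comp continuous_abs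
    have := (h3.tendsto 0).mono_left (nhdsWithin_le_nhds (s := {0}ᶜ))
    simpa using this
  have h3 := (h1.mul hL).sub h2
  rw [zero_mul, zero_sub, neg_zero] at h3
  refine h3.congr fun x => ?_
  ring

/-- the flux at `0` -/
theorem uf_lim_zero : Tendsto uf (𝓝[≠] 0) (𝓝 8) := by
  have h1 : Tendsto (fun x => x * Vf x) (𝓝[≠] 0) (𝓝 (1 / 2)) := by
    rw [tendsto_iff_norm_sub_tendsto_zero]
    have h2 : Tendsto (fun x : ℝ => |x| * Gf x + 3 * |x|) (𝓝[≠] 0) (𝓝 0) := by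
      have h3 : Tendsto (fun x : ℝ => 3 * |x|) (𝓝[≠] 0) (𝓝 0) := by
        have h4 : Continuous fun x : ℝ => 3 * |x| := by fun_prop
        have := (h4.tendsto 0).mono_left (nhdsWithin_le_nhds (s := {0}ᶜ))
        simpa using this
      simpa using absG_zero.add h3
    refine squeeze_zero' (Eventually.of_forall fun x => norm_nonneg _) ?_ h2
    filter_upwards [near_zero] with x hx
    exact flux_bound hx.2.2 hx.2.1 hx.1
  have h2 : Tendsto (fun x : ℝ => -(2 * ((x + 1) * (x - 8)))) (𝓝[≠] 0) (𝓝 16) := by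
    have h4 : Continuous fun x : ℝ => -(2 * ((x + 1) * (x - 8))) := by fun_prop
    have := (h4.tendsto 0).mono_left (nhdsWithin_le_nhds (s := {0}ᶜ))
    have e : -(2 * (((0 : ℝ) + 1) * (0 - 8))) = 16 := by norm_num
    rwa [e] at this
  have h3 := h2.mul h1
  have e : (16 : ℝ) * (1 / 2) = 8 := by norm_num
  rw [e] at h3
  refine h3.congr fun x => ?_
  unfold uf pL
  ring

theorem Gf_nonneg (x : ℝ) : 0 ≤ Gf x :=
  integral_nonneg fun t => div_nonneg (by norm_num) (Real.sqrt_nonneg _)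

/-- the global bound of `G` -/
theorem Gf_log_bound : ∃ C : ℝ, 0 ≤ C ∧ ∀ x ∈ Icc (-1 : ℝ) 8, x ≠ 0 →
    |Gf x| ≤ C * (1 + |Real.log x|) := by
  obtain ⟨L, hL⟩ := Gf_log
  have h1 := (tendsto_order.1 hL).2 (|L| + 1) (by linarith [le_abs_self L])
  rw [eventually_nhdsWithin_iff, Metric.eventually_nhds_iff] at h1
  obtain ⟨δ, hδ, h2⟩ := h1
  obtain ⟨C, hC⟩ := Gf_bound (δ := min 1 δ) (lt_min one_pos hδ) (min_le_left _ _)
  refine ⟨max C (|L| + 1), le_max_of_le_right (by positivity), fun x hx hx0 => ?_⟩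
  have hlog : 0 ≤ |Real.log x| := abs_nonneg _
  rcases le_or_gt (min 1 δ) |x| with h | h
  · have h3 := (hC x hx.1 (by linarith [hx.2]) h).1
    have h4 : C ≤ max C (|L| + 1) := le_max_left _ _
    have h5 : 0 ≤ max C (|L| + 1) := le_max_of_le_right (by positivity)
    nlinarith
  · have h3 := h2 (y := x) (by
      rw [Real.dist_eq, sub_zero]
      exact lt_of_lt_of_le h (min_le_right _ _)) hx0
    rw [abs_of_nonneg (Gf_nonneg x)]
    have h4 : |L| + 1 ≤ max C (|L| + 1) := le_max_right _ _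
    have h5 : -Real.log |x| ≤ |Real.log x| := by
      rw [Real.log_abs]
      exact neg_le_abs _
    have h6 : 0 ≤ |L| := abs_nonneg _
    nlinarith

/-- the global bound of `u` -/
theorem uf_bound : ∃ C : ℝ, ∀ x ∈ Icc (-1 : ℝ) 8, |uf x| ≤ C := by
  have h1 := uf_lim_zero.abs
  have h2 := (tendsto_order.1 h1).2 9 (by norm_num)
  rw [eventually_nhdsWithin_iff, Metric.eventually_nhds_iff] at h2
  obtain ⟨δ, hδ, h3⟩ := h2
  obtain ⟨C, hC⟩ := Gf_bound (δ := min 1 δ) (lt_min one_pos hδ) (min_le_left _ _)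
  refine ⟨max 9 (2 * 720 * C), fun x hx => ?_⟩
  rcases eq_or_ne x 0 with h0 | h0
  · rw [h0]
    unfold uf pL
    simp
  rcases le_or_gt (min 1 δ) |x| with h | h
  · refine le_trans ?_ (le_max_right _ _)
    have h4 := (hC x hx.1 (by linarith [hx.2]) h).2
    unfold uf
    rw [abs_neg, abs_mul, abs_mul, abs_of_pos (by norm_num : (0 : ℝ) < 2)]
    have h5 : |pL x| ≤ 720 := by
      unfold pL
      rw [abs_mul, abs_mul]
      have g1 : |x| ≤ 8 := abs_le.2 ⟨by linarith [hx.1], hx.2⟩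
      have g2 : |x + 1| ≤ 9 := abs_le.2 ⟨by linarith [hx.1], by linarith [hx.2]⟩
      have g3 : |x - 8| ≤ 9 := abs_le.2 ⟨by linarith [hx.1], by linarith [hx.2]⟩
      calc |x| * |x + 1| * |x - 8| ≤ 8 * 9 * 9 := by gcongr
        _ ≤ 720 := by norm_num
    have : 0 ≤ |Vf x| := abs_nonneg _
    gcongr
  · refine le_trans ?_ (le_max_left _ _)
    exact (h3 (y := x) (by
      rw [Real.dist_eq, sub_zero]
      exact lt_of_lt_of_le h (min_le_right _ _)) h0).le

end Pool.Agent.Lib.MP_230119_an.LA
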