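import Pool.Agent.Lib.MP_230119_an.Mg.G015
import Pool.Agent.Lib.MP_230119_an.STDef

/-!
# LEMMA W
-/

set_option autoImplicit false

open MeasureTheory Set Filter Topology
open scoped ENNReal

namespace Pool.Agent.Lib.MP_230119_an

namespace LW

/-- the complex version of `rho` -/
def rC (z Z : Fin 6 → ℂ) : ℂ := (z 0 + z 1 + z 2) * (Z 0 + Z 1 + Z 2) - 1

/-- the complex version of `DD` -/
noncomputable def dC (a b c A B C : ℂ) : ℂ :=
  -(a * B - b * A + b * C - c * B + c * A - a * C) ^ 2 / 4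

/-- the complex version of the weight -/
noncomputable def wC (z Z : Fin 6 → ℂ) : ℂ :=
  rC z Z ^ 2 / 36864 * (3 * ((1 + rC z Z) ^ 3 - 23 * (1 + rC z Z) ^ 2 + 123 * (1 + rC z Z) + 219) +
    10 * (8 - rC z Z) * (dC (z 0) (z 1) (z 2) (Z 0) (Z 1) (Z 2) +
      dC (z 3) (z 4) (z 5) (Z 3) (Z 4) (Z 5)))

/-- second elementary symmetric function -/
def E2 (z : Fin 6 → ℂ) : ℂ :=
  (z 0 * z 1 + z 1 * z 2 + z 2 * z 0) + (z 0 + z 1 + z 2) * (z 3 + z 4 + z 5) +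
    (z 3 * z 4 + z 4 * z 5 + z 5 * z 3)

/-- third elementary symmetric function -/
def E3 (z : Fin 6 → ℂ) : ℂ :=
  z 0 * z 1 * z 2 + z 3 * z 4 * z 5 + (z 0 * z 1 + z 1 * z 2 + z 2 * z 0) * (z 3 + z 4 + z 5) +
    (z 0 + z 1 + z 2) * (z 3 * z 4 + z 4 * z 5 + z 5 * z 3)

/-- the polynomial of the split density -/
def Phi (r P Q : ℂ) : ℂ :=
  -r ^ 5 + 10 * r ^ 4 + (5 * P - 85) * r ^ 3 + (840 - 40 * P + 5 * Q) * r ^ 2 - 35 * Q * r - 40 * Q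

section
variable {x1 x2 x3 X1 X2 X3 v V b B : ℂ}

theorem Tri.disc (t : Tri x1 x2 x3 X1 X2 X3 v V b B) :
    dC x1 x2 x3 X1 X2 X3 = (27 - 18 * (v * V) + 4 * (V ^ 3 * b + v ^ 3 * B) - (v * V) ^ 2) / 4 := by
  obtain ⟨h1, h2, h3, rfl, rfl, rfl, rfl⟩ := t
  have n1 : x1 ≠ 0 := left_ne_zero_of_mul_eq_one h1
  have n2 : x2 ≠ 0 := left_ne_zero_of_mul_eq_one h2
  have n3 : x3 ≠ 0 := left_ne_zero_of_mul_eq_one h3
  obtain rfl : X1 = x1⁻¹ := eq_inv_of_mul_eq_one_right h1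
  obtain rfl : X2 = x2⁻¹ := eq_inv_of_mul_eq_one_right h2
  obtain rfl : X3 = x3⁻¹ := eq_inv_of_mul_eq_one_right h3
  unfold dC
  field_simp
  ring

end

theorem tri_x {z Z : Fin 6 → ℂ} (hz : ∀ i, z i * Z i = 1) :
    Tri (z 0) (z 1) (z 2) (Z 0) (Z 1) (Z 2) (z 0 + z 1 + z 2) (Z 0 + Z 1 + Z 2)
      (z 0 * z 1 * z 2) (Z 0 * Z 1 * Z 2) :=
  ⟨hz 0, hz 1, hz 2, rfl, rfl, rfl, rfl⟩

theorem tri_y {z Z : Fin 6 → ℂ} (hz : ∀ i, z i * Z i = 1) (h : ∑ i, z i = 0) (H : ∑ i, Z i = 0) :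
    Tri (z 3) (z 4) (z 5) (Z 3) (Z 4) (Z 5) (-(z 0 + z 1 + z 2)) (-(Z 0 + Z 1 + Z 2))
      (z 3 * z 4 * z 5) (Z 3 * Z 4 * Z 5) := by
  rw [Fin.sum_univ_six] at h H
  exact ⟨hz 3, hz 4, hz 5, by linear_combination h, by linear_combination H, rfl, rfl⟩

theorem E2_eq {x1 x2 x3 X1 X2 X3 y1 y2 y3 Y1 Y2 Y3 v V b B c C : ℂ}
    (tx : Tri x1 x2 x3 X1 X2 X3 v V b B) (ty : Tri y1 y2 y3 Y1 Y2 Y3 (-v) (-V) c C) :
    (x1 * x2 + x2 * x3 + x3 * x1) + (x1 + x2 + x3) * (y1 + y2 + y3) +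
      (y1 * y2 + y2 * y3 + y3 * y1) = V * (b - c) - v ^ 2 := by
  rw [tx.e2, ty.e2, tx.hv, ty.hv]
  ring

theorem E2_eq' {x1 x2 x3 X1 X2 X3 y1 y2 y3 Y1 Y2 Y3 v V b B c C : ℂ}
    (tx : Tri x1 x2 x3 X1 X2 X3 v V b B) (ty : Tri y1 y2 y3 Y1 Y2 Y3 (-v) (-V) c C) :
    (X1 * X2 + X2 * X3 + X3 * X1) + (X1 + X2 + X3) * (Y1 + Y2 + Y3) +
      (Y1 * Y2 + Y2 * Y3 + Y3 * Y1) = v * (B - C) - V ^ 2 := by
  rw [tx.E2, ty.E2, tx.hV, ty.hV]
  ring

theorem E3_eq {x1 x2 x3 X1 X2 X3 y1 y2 y3 Y1 Y2 Y3 v V b B c C : ℂ}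
    (tx : Tri x1 x2 x3 X1 X2 X3 v V b B) (ty : Tri y1 y2 y3 Y1 Y2 Y3 (-v) (-V) c C) :
    x1 * x2 * x3 + y1 * y2 * y3 + (x1 * x2 + x2 * x3 + x3 * x1) * (y1 + y2 + y3) +
      (x1 + x2 + x3) * (y1 * y2 + y2 * y3 + y3 * y1) = -((b + c) * (v * V - 1)) := by
  rw [tx.e2, ty.e2, tx.hv, ty.hv, tx.hb, ty.hb]
  ring

theorem E3_eq' {x1 x2 x3 X1 X2 X3 y1 y2 y3 Y1 Y2 Y3 v V b B c C : ℂ}
    (tx : Tri x1 x2 x3 X1 X2 X3 v V b B) (ty : Tri y1 y2 y3 Y1 Y2 Y3 (-v) (-V) c C) :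
    X1 * X2 * X3 + Y1 * Y2 * Y3 + (X1 * X2 + X2 * X3 + X3 * X1) * (Y1 + Y2 + Y3) +
      (X1 + X2 + X3) * (Y1 * Y2 + Y2 * Y3 + Y3 * Y1) = -((B + C) * (v * V - 1)) := by
  rw [tx.E2, ty.E2, tx.hV, ty.hV, tx.hB, ty.hB]
  ring

theorem wform {z Z : Fin 6 → ℂ} (hz : ∀ i, z i * Z i = 1) (h : ∑ i, z i = 0)
    (H : ∑ i, Z i = 0) :
    18432 * wC z Z = Phi (rC z Z) (E2 z * E2 Z) (E3 z * E3 Z) := by
  have tx := tri_x hz
  have ty := tri_y hz h H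
  have d1 := tx.disc
  have d2 := ty.disc
  have a1 := E2_eq tx ty
  have a2 := E2_eq' tx ty
  have a3 := E3_eq tx ty
  have a4 := E3_eq' tx ty
  have hb := tx.bB
  have hc := ty.bB
  unfold wC E2 E3 Phi rC
  rw [a1, a2, a3, a4, d1, d2]
  obtain ⟨v, hv⟩ : ∃ a, a = z 0 + z 1 + z 2 := ⟨_, rfl⟩
  obtain ⟨V, hV⟩ : ∃ a, a = Z 0 + Z 1 + Z 2 := ⟨_, rfl⟩
  obtain ⟨b, hbb⟩ : ∃ a, a = z 0 * z 1 * z 2 := ⟨_, rfl⟩
  obtain ⟨B, hBB⟩ : ∃ a, a = Z 0 * Z 1 * Z 2 := ⟨_, rfl⟩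
  obtain ⟨c, hcc⟩ : ∃ a, a = z 3 * z 4 * z 5 := ⟨_, rfl⟩
  obtain ⟨C, hCC⟩ : ∃ a, a = Z 3 * Z 4 * Z 5 := ⟨_, rfl⟩
  rw [← hbb, ← hBB] at hb
  rw [← hcc, ← hCC] at hc
  rw [← hv, ← hV, ← hbb, ← hBB, ← hcc, ← hCC]
  linear_combination (-10 * v ^ 4 * V ^ 4 + 110 * v ^ 3 * V ^ 3 - 190 * v ^ 2 * V ^ 2 +
    90 * v * V) * hb + (-10 * v ^ 4 * V ^ 4 + 110 * v ^ 3 * V ^ 3 - 190 * v ^ 2 * V ^ 2 +
    90 * v * V) * hc

theorem sum_ten (f : Fin 10 → ℂ) : ∑ k, f k =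
    f 0 + f 1 + f 2 + f 3 + f 4 + f 5 + f 6 + f 7 + f 8 + f 9 := by
  rw [Fin.sum_univ_castSucc, Fin.sum_univ_castSucc, Fin.sum_univ_eight]
  rfl

/-- the sum of the ten weights -/
theorem sum_wC {z Z : Fin 6 → ℂ} (hz : ∀ i, z i * Z i = 1) (h : ∑ i, z i = 0)
    (H : ∑ i, Z i = 0) :
    ∑ k : Fin 10, wC (fun i => z (spl k i)) (fun i => Z (spl k i)) = 1 := by
  have tx := tri_x hz
  have ty := tri_y hz h H
  have r1 := R1 tx ty
  have r2 := R2 tx ty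
  have r3 := R3 tx ty
  have r4 := R4 tx ty
  have r5 := R5 tx ty
  have a1 := E2_eq tx ty
  have a2 := E2_eq' tx ty
  have a3 := E3_eq tx ty
  have a4 := E3_eq' tx ty
  have hs : ∀ k : Fin 10, 18432 * wC (fun i => z (spl k i)) (fun i => Z (spl k i)) =
      Phi (rC (fun i => z (spl k i)) (fun i => Z (spl k i))) (E2 z * E2 Z) (E3 z * E3 Z) := by
    intro k
    have hk : ∑ i, z (spl k i) = 0 := by
      rw [Fin.sum_univ_six] at h ⊢
      rw [← h]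
      fin_cases k <;> simp [spl] <;> ring
    have Hk : ∑ i, Z (spl k i) = 0 := by
      rw [Fin.sum_univ_six] at H ⊢
      rw [← H]
      fin_cases k <;> simp [spl] <;> ring
    have h1 := wform (z := fun i => z (spl k i)) (Z := fun i => Z (spl k i))
      (fun i => hz _) hk Hk
    have e2 : ∀ z : Fin 6 → ℂ, E2 (fun i => z (spl k i)) = E2 z := by
      intro z
      unfold E2
      fin_cases k <;> simp [spl] <;> ring
    have e3 : ∀ z : Fin 6 → ℂ, E3 (fun i => z (spl k i)) = E3 z := by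
      intro z
      unfold E3
      fin_cases k <;> simp [spl] <;> ring
    rw [h1, e2, e2, e3, e3]
  have hP : E2 z * E2 Z = ((Z 0 + Z 1 + Z 2) * (z 0 * z 1 * z 2 - z 3 * z 4 * z 5) -
      (z 0 + z 1 + z 2) ^ 2) * ((z 0 + z 1 + z 2) * (Z 0 * Z 1 * Z 2 - Z 3 * Z 4 * Z 5) -
      (Z 0 + Z 1 + Z 2) ^ 2) := by
    unfold E2
    rw [a1, a2]
  have hQ : E3 z * E3 Z = (z 0 * z 1 * z 2 + z 3 * z 4 * z 5) *
      (Z 0 * Z 1 * Z 2 + Z 3 * Z 4 * Z 5) * ((z 0 + z 1 + z 2) * (Z 0 + Z 1 + Z 2) - 1) ^ 2 := by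
    unfold E3
    rw [a3, a4]
    ring
  rw [← hP] at r2 r3 r4 r5
  rw [← hQ] at r3 r4 r5
  obtain ⟨P, hPP⟩ : ∃ a, a = E2 z * E2 Z := ⟨_, rfl⟩
  obtain ⟨Q, hQQ⟩ : ∃ a, a = E3 z * E3 Z := ⟨_, rfl⟩
  rw [← hPP] at r2 r3 r4 r5
  rw [← hQQ] at r3 r4 r5
  rw [← hPP, ← hQQ] at hs
  have hsum : 18432 * ∑ k : Fin 10, wC (fun i => z (spl k i)) (fun i => Z (spl k i)) = 18432 := by
    rw [Finset.mul_sum, Finset.sum_congr rfl fun k _ => hs k]
    rw [sum_ten]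
    rw [Fin.sum_univ_six] at h H
    have q0 : rC (fun i => z (spl 0 i)) (fun i => Z (spl 0 i)) =
        (z 0 + z 1 + z 2) * (Z 0 + Z 1 + Z 2) - 1 := rfl
    have q1 : rC (fun i => z (spl 1 i)) (fun i => Z (spl 1 i)) =
        (z 0 + z 1 + z 2 + z 3 - z 2) * (Z 0 + Z 1 + Z 2 + Z 3 - Z 2) - 1 := by
      show (z 0 + z 1 + z 3) * (Z 0 + Z 1 + Z 3) - 1 = _
      ring
    have q2 : rC (fun i => z (spl 2 i)) (fun i => Z (spl 2 i)) =
        (z 0 + z 1 + z 2 + z 4 - z 2) * (Z 0 + Z 1 + Z 2 + Z 4 - Z 2) - 1 := by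
      show (z 0 + z 1 + z 4) * (Z 0 + Z 1 + Z 4) - 1 = _
      ring
    have q3 : rC (fun i => z (spl 3 i)) (fun i => Z (spl 3 i)) =
        (z 0 + z 1 + z 2 + z 5 - z 2) * (Z 0 + Z 1 + Z 2 + Z 5 - Z 2) - 1 := by
      show (z 0 + z 1 + z 5) * (Z 0 + Z 1 + Z 5) - 1 = _
      ring
    have q4 : rC (fun i => z (spl 4 i)) (fun i => Z (spl 4 i)) =
        (z 0 + z 1 + z 2 + z 3 - z 1) * (Z 0 + Z 1 + Z 2 + Z 3 - Z 1) - 1 := by
      show (z 0 + z 2 + z 3) * (Z 0 + Z 2 + Z 3) - 1 = _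
      ring
    have q5 : rC (fun i => z (spl 5 i)) (fun i => Z (spl 5 i)) =
        (z 0 + z 1 + z 2 + z 4 - z 1) * (Z 0 + Z 1 + Z 2 + Z 4 - Z 1) - 1 := by
      show (z 0 + z 2 + z 4) * (Z 0 + Z 2 + Z 4) - 1 = _
      ring
    have q6 : rC (fun i => z (spl 6 i)) (fun i => Z (spl 6 i)) =
        (z 0 + z 1 + z 2 + z 5 - z 1) * (Z 0 + Z 1 + Z 2 + Z 5 - Z 1) - 1 := by
      show (z 0 + z 2 + z 5) * (Z 0 + Z 2 + Z 5) - 1 = _
      ring
    have q7 : rC (fun i => z (spl 7 i)) (fun i => Z (spl 7 i)) =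
        (z 0 + z 1 + z 2 + z 5 - z 0) * (Z 0 + Z 1 + Z 2 + Z 5 - Z 0) - 1 := by
      show (z 0 + z 3 + z 4) * (Z 0 + Z 3 + Z 4) - 1 = _
      have g1 : z 0 + z 3 + z 4 = -(z 1 + z 2 + z 5) := by linear_combination h
      have g2 : Z 0 + Z 3 + Z 4 = -(Z 1 + Z 2 + Z 5) := by linear_combination H
      rw [g1, g2]
      ring
    have q8 : rC (fun i => z (spl 8 i)) (fun i => Z (spl 8 i)) =
        (z 0 + z 1 + z 2 + z 4 - z 0) * (Z 0 + Z 1 + Z 2 + Z 4 - Z 0) - 1 := by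
      show (z 0 + z 3 + z 5) * (Z 0 + Z 3 + Z 5) - 1 = _
      have g1 : z 0 + z 3 + z 5 = -(z 1 + z 2 + z 4) := by linear_combination h
      have g2 : Z 0 + Z 3 + Z 5 = -(Z 1 + Z 2 + Z 4) := by linear_combination H
      rw [g1, g2]
      ring
    have q9 : rC (fun i => z (spl 9 i)) (fun i => Z (spl 9 i)) =
        (z 0 + z 1 + z 2 + z 3 - z 0) * (Z 0 + Z 1 + Z 2 + Z 3 - Z 0) - 1 := by
      show (z 0 + z 4 + z 5) * (Z 0 + Z 4 + Z 5) - 1 = _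
      have g1 : z 0 + z 4 + z 5 = -(z 1 + z 2 + z 3) := by linear_combination h
      have g2 : Z 0 + Z 4 + Z 5 = -(Z 1 + Z 2 + Z 3) := by linear_combination H
      rw [g1, g2]
      ring
    have c1 : ∀ a b c : ℂ, a - c + b = a + b - c := fun a b c => by ring
    simp only [c1] at r1 r2 r3 r4 r5
    rw [← q0, ← q1, ← q2, ← q3, ← q4, ← q5, ← q6, ← q7, ← q8, ← q9] at r1 r2 r3 r4 r5
    unfold Phi
    linear_combination (-1 : ℂ) * r5 + 10 * r4 + (5 * P - 85) * r3 + (840 - 40 * P + 5 * Q) * r2 -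
      35 * Q * r1
  have h2 : (18432 : ℂ) ≠ 0 := by norm_num
  exact mul_left_cancel₀ h2 (hsum.trans (mul_one _).symm)

/-- exponentials -/
theorem cos_c (a b : ℝ) : ((Real.cos (a - b) : ℝ) : ℂ) =
    (Complex.exp (a * Complex.I) * Complex.exp (-(b * Complex.I)) +
      Complex.exp (b * Complex.I) * Complex.exp (-(a * Complex.I))) / 2 := by
  rw [Complex.ofReal_cos, Complex.cos, ← Complex.exp_add, ← Complex.exp_add]
  congr 2
  · congr 1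
    push_cast
    ring
  · congr 1
    push_cast
    ring

theorem sin_c (a b : ℝ) : ((Real.sin (a - b) : ℝ) : ℂ) =
    (Complex.exp (b * Complex.I) * Complex.exp (-(a * Complex.I)) -
      Complex.exp (a * Complex.I) * Complex.exp (-(b * Complex.I))) * Complex.I / 2 := by
  rw [Complex.ofReal_sin, Complex.sin, ← Complex.exp_add, ← Complex.exp_add]
  congr 3
  · congr 1
    push_cast
    ring
  · congr 1
    push_cast
    ring

end LW

open LW in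
/-- LEMMA W -/
theorem lemmaW : LemmaW := by
  intro θ hθ
  obtain ⟨z, hz⟩ : ∃ z : Fin 6 → ℂ, z = fun i => Complex.exp (θ i * Complex.I) := ⟨_, rfl⟩
  obtain ⟨Z, hZ⟩ : ∃ Z : Fin 6 → ℂ, Z = fun i => Complex.exp (-(θ i * Complex.I)) := ⟨_, rfl⟩
  have h1 : ∀ i, z i * Z i = 1 := by
    intro i
    rw [hz, hZ]
    simp only
    rw [← Complex.exp_add, add_neg_cancel, Complex.exp_zero]
  have hc : ∑ i, Real.cos (θ i) = 0 := by
    have := congrArg Prod.fst hθ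
    rw [Prod.fst_sum] at this
    simpa [om] using this
  have hs : ∑ i, Real.sin (θ i) = 0 := by
    have := congrArg Prod.snd hθ
    rw [Prod.snd_sum] at this
    simpa [om] using this
  have hcc : ∑ i, Complex.cos (θ i) = 0 := by
    have : ((∑ i, Real.cos (θ i) : ℝ) : ℂ) = 0 := by rw [hc]; simp
    push_cast at this
    exact this
  have hss : ∑ i, Complex.sin (θ i) = 0 := by
    have : ((∑ i, Real.sin (θ i) : ℝ) : ℂ) = 0 := by rw [hs]; simp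
    push_cast at this
    exact this
  have h2 : ∑ i, z i = 0 := by
    rw [hz]
    simp only [Complex.exp_mul_I]
    rw [Finset.sum_add_distrib, ← Finset.sum_mul, hcc, hss]
    simp
  have h3 : ∑ i, Z i = 0 := by
    rw [hZ]
    simp only [← neg_mul, Complex.exp_mul_I, Complex.cos_neg, Complex.sin_neg]
    rw [Finset.sum_add_distrib]
    simp only [neg_mul, Finset.sum_neg_distrib]
    rw [← Finset.sum_mul, hcc, hss]
    simp
  have key := sum_wC h1 h2 h3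
  have hk : ∀ k : Fin 10, ((wk θ k : ℝ) : ℂ) = wC (fun i => z (spl k i)) (fun i => Z (spl k i)) := by
    intro k
    have hr : ∀ a b c : ℝ, ((rho a b c : ℝ) : ℂ) =
        (Complex.exp (a * Complex.I) + Complex.exp (b * Complex.I) + Complex.exp (c * Complex.I)) *
        (Complex.exp (-(a * Complex.I)) + Complex.exp (-(b * Complex.I)) +
          Complex.exp (-(c * Complex.I))) - 1 := by
      intro a b c
      have ha : Complex.exp (a * Complex.I) * Complex.exp (-(a * Complex.I)) = 1 := by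
        rw [← Complex.exp_add, add_neg_cancel, Complex.exp_zero]
      have hb : Complex.exp (b * Complex.I) * Complex.exp (-(b * Complex.I)) = 1 := by
        rw [← Complex.exp_add, add_neg_cancel, Complex.exp_zero]
      have hc : Complex.exp (c * Complex.I) * Complex.exp (-(c * Complex.I)) = 1 := by
        rw [← Complex.exp_add, add_neg_cancel, Complex.exp_zero]
      unfold rho
      rw [Complex.ofReal_add, Complex.ofReal_mul, Complex.ofReal_add, Complex.ofReal_add,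
        cos_c, cos_c, cos_c, Complex.ofReal_ofNat]
      linear_combination (-1 : ℂ) * ha - hb - hc
    have hd : ∀ a b c : ℝ, ((DD a b c : ℝ) : ℂ) =
        dC (Complex.exp (a * Complex.I)) (Complex.exp (b * Complex.I)) (Complex.exp (c * Complex.I))
          (Complex.exp (-(a * Complex.I))) (Complex.exp (-(b * Complex.I)))
          (Complex.exp (-(c * Complex.I))) := by
      intro a b c
      unfold DD dC
      rw [Complex.ofReal_pow, Complex.ofReal_add, Complex.ofReal_add, sin_c, sin_c, sin_c]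
      obtain ⟨ea, hea⟩ : ∃ e, e = Complex.exp (a * Complex.I) := ⟨_, rfl⟩
      obtain ⟨eb, heb⟩ : ∃ e, e = Complex.exp (b * Complex.I) := ⟨_, rfl⟩
      obtain ⟨ec, hec⟩ : ∃ e, e = Complex.exp (c * Complex.I) := ⟨_, rfl⟩
      obtain ⟨fa, hfa⟩ : ∃ e, e = Complex.exp (-(a * Complex.I)) := ⟨_, rfl⟩
      obtain ⟨fb, hfb⟩ : ∃ e, e = Complex.exp (-(b * Complex.I)) := ⟨_, rfl⟩
      obtain ⟨fc, hfc⟩ : ∃ e, e = Complex.exp (-(c * Complex.I)) := ⟨_, rfl⟩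
      rw [← hea, ← heb, ← hec, ← hfa, ← hfb, ← hfc]
      linear_combination ((eb * fa - ea * fb + (ec * fb - eb * fc) + (ea * fc - ec * fa)) ^ 2 / 4) *
        Complex.I_sq
    unfold wk wT wC rC
    rw [hz, hZ]
    simp only
    rw [← hr, ← hd, ← hd]
    unfold p3
    push_cast
    ring
  have h4 : ((∑ k, wk θ k : ℝ) : ℂ) = 1 := by
    rw [Complex.ofReal_sum, Finset.sum_congr rfl fun k _ => hk k, key]
  exact_mod_cast h4

end Pool.Agent.Lib.MP_230119_an
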