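import Pool.Agent.Lib.MP_230119_an.Mg.G012
import Pool.Agent.Lib.MP_230119_an.LW3
import Pool.Agent.Lib.MP_230119_an.EX.Def

/-!
# The interface with the main inequality
-/

set_option autoImplicit false

open MeasureTheory Set Filter Topology
open scoped ENNReal

namespace Pool.Agent.Lib.MP_230119_an.LA

open Pool.Agent.Lib.MP_230119_an

/-- the facts about `G` used in the main inequality -/
theorem gf : EX.GF Gf uf where
  measG := measurable_Gf
  measU := measurable_uf
  hG := fun x hx hx0 => hasDerivAt_Gf' hx hx0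
  hu := fun x hx hx0 => hasDerivAt_uf hx hx0
  pos := fun x hx hx0 => Gf_pos hx.1.le hx0
  bdd := by
    obtain ⟨C, hC⟩ := Gf_bound (δ := 1 / 2) (by norm_num) (by norm_num)
    refine ⟨C, fun x hx h => ?_⟩
    have h1 : 1 / 2 ≤ |x| := by
      rcases h with h | h
      · rw [abs_of_neg (by linarith)]
        linarith
      · rw [abs_of_pos (by linarith)]
        linarith
    exact (le_abs_self _).trans (hC x hx.1.le (by linarith [hx.2]) h1).1
  lim0 := uf_lim_zero
  lim1 := uf_lim_left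
  lim8 := uf_lim_right
  limL := Gf_log

theorem mc_one : ∫ _θ : ℝ, (1 : ℝ) ∂mc = 2 * Real.pi := by
  rw [mc_eq]
  simp

/-- from the main inequality in the form `EX.Star` -/
theorem star_of {G u : ℝ → ℝ} (h : EX.Star G u) : Star G u := by
  intro N a f hf h0
  have h1 := h N a f hf h0
  have e : ∀ g : ℝ → ℝ, EX.TK G u g = TK G u g := fun g => rfl
  rw [e, e] at h1
  have hpi : (0 : ℝ) < (2 * Real.pi) ^ 3 := by positivity
  rw [div_pow, ← mul_div_assoc, le_div_iff₀ hpi]
  exact h1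

/-- the statement S04055 from the main inequality -/
theorem S04055_of_star (h : EX.GF Gf uf → EX.Star Gf uf) :
    ∀ f : ℝ → ℂ, MemLp f 2 (volume.restrict (Set.Ioc 0 (2 * Real.pi))) →
    (∫⁻ x : ℝ × ℝ, ‖∫ θ in Set.Ioc 0 (2 * Real.pi),
        f θ * Complex.exp (-(Complex.I * (((x.1 * Real.cos θ + x.2 * Real.sin θ : ℝ)) : ℂ)))‖ₑ ^ 6)
      ≤ (∫⁻ x : ℝ × ℝ, ‖∫ θ in Set.Ioc 0 (2 * Real.pi),
          Complex.exp (-(Complex.I * (((x.1 * Real.cos θ + x.2 * Real.sin θ : ℝ)) : ℂ)))‖ₑ ^ 6)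
        * ((∫⁻ θ in Set.Ioc 0 (2 * Real.pi), ‖f θ‖ₑ ^ 2) / ENNReal.ofReal (2 * Real.pi)) ^ 3 :=
  S04055_of lawData lemmaW (star_of (h gf))

end Pool.Agent.Lib.MP_230119_an.LA
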