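import Pool.Agent.Lib.MP_230119_an.SGDef2

set_option autoImplicit false

open MeasureTheory Set Filter Topology
open scoped ENNReal

namespace Pool.Agent.Lib.MP_230119_an

private theorem sg14a_perm_mp (σ : Equiv.Perm (Fin 6)) (g : (Fin 6 → ℝ) → ℝ) :
    ∫ θ : Fin 6 → ℝ, g (fun i => θ (σ i)) ∂(Measure.pi fun _ => mc) =
      ∫ θ : Fin 6 → ℝ, g θ ∂(Measure.pi fun _ => mc) := by
  have h := measurePreserving_piCongrLeft (α := fun _ : Fin 6 => ℝ) (fun _ => mc) σ.symm
  have e : (⇑(MeasurableEquiv.piCongrLeft (fun _ : Fin 6 => ℝ) σ.symm)) =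
      fun (θ : Fin 6 → ℝ) i => θ (σ i) := by
    funext θ i
    have := MeasurableEquiv.piCongrLeft_apply_apply (β := fun _ => ℝ) σ.symm θ (σ i)
    simpa using this
  have h2 := h.integral_comp' g
  rw [← h2]
  refine integral_congr_ae (Eventually.of_forall fun θ => ?_)
  have h3 := congrFun e θ
  show g _ = g _
  rw [h3]

private theorem sg14a_sq_sum (θ : Fin 6 → ℝ) :
    sq (∑ i, om (θ i)) = ∑ i : Fin 6, ∑ j : Fin 6, Real.cos (θ i - θ j) := by
  have h1 : (∑ i, om (θ i)) = (∑ i, Real.cos (θ i), ∑ i, Real.sin (θ i)) := by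
    refine Prod.ext ?_ ?_
    · rw [Prod.fst_sum]
      rfl
    · rw [Prod.snd_sum]
      rfl
  rw [h1]
  simp only [sq]
  rw [pow_two, pow_two, Finset.sum_mul_sum, Finset.sum_mul_sum, ← Finset.sum_add_distrib]
  refine Finset.sum_congr rfl fun i _ => ?_
  rw [← Finset.sum_add_distrib]
  refine Finset.sum_congr rfl fun j _ => ?_
  rw [Real.cos_sub]

private theorem sg14a_sq3 (a b c : ℝ) : sq (om a + om b + om c) =
    3 + 2 * (Real.cos (a - b) + Real.cos (a - c) + Real.cos (b - c)) := by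
  simp only [sq, om, Prod.fst_add, Prod.snd_add, Real.cos_sub]
  have h1 := Real.cos_sq_add_sin_sq a
  have h2 := Real.cos_sq_add_sin_sq b
  have h3 := Real.cos_sq_add_sin_sq c
  linear_combination h1 + h2 + h3

private theorem sg14a_add7 {α : Type*} [MeasurableSpace α] {μ : Measure α}
    {f0 f1 f2 f3 f4 f5 f6 : α → ℝ} (h0 : Integrable f0 μ) (h1 : Integrable f1 μ)
    (h2 : Integrable f2 μ) (h3 : Integrable f3 μ) (h4 : Integrable f4 μ) (h5 : Integrable f5 μ)
    (h6 : Integrable f6 μ) :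
    ∫ a, (2 * f0 a + (f1 a + f2 a + f3 a + f4 a + f5 a + f6 a)) ∂μ =
      2 * ∫ a, f0 a ∂μ + (∫ a, f1 a ∂μ + ∫ a, f2 a ∂μ + ∫ a, f3 a ∂μ + ∫ a, f4 a ∂μ +
        ∫ a, f5 a ∂μ + ∫ a, f6 a ∂μ) := by
  have i2 : Integrable (fun a => f1 a + f2 a) μ := h1.add h2
  have i3 : Integrable (fun a => f1 a + f2 a + f3 a) μ := i2.add h3
  have i4 : Integrable (fun a => f1 a + f2 a + f3 a + f4 a) μ := i3.add h4
  have i5 : Integrable (fun a => f1 a + f2 a + f3 a + f4 a + f5 a) μ := i4.add h5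
  have i6 : Integrable (fun a => f1 a + f2 a + f3 a + f4 a + f5 a + f6 a) μ := i5.add h6
  rw [integral_add (h0.const_mul 2) i6, integral_const_mul, integral_add i5 h6,
    integral_add i4 h5, integral_add i3 h4, integral_add i2 h3, integral_add h1 h2]

theorem pair_identity {u : ℝ → ℝ} (hu0 : ∀ θ, 0 ≤ u θ) (hu : Integrable u mc)
    {G : ℝ × ℝ → ℝ} (hG : Measurable G) (hG0 : ∀ v, 0 ≤ G v) {B : ℝ} (hGB : ∀ v, G v ≤ B) :
    4 / 5 * ∫ θ : Fin 6 → ℝ, (∏ i, u (θ i)) * G (∑ i, om (θ i)) ∂(Measure.pi fun _ => mc) ≤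
      ∫ θ : Fin 6 → ℝ, (∏ i, u (θ i)) * (((sq (om (θ 0) + om (θ 1) + om (θ 2)) +
        sq (om (θ 3) + om (θ 4) + om (θ 5))) / 2 - 1) * G (∑ i, om (θ i)))
        ∂(Measure.pi fun _ => mc) := by
  classical
  set μ : Measure (Fin 6 → ℝ) := Measure.pi fun _ => mc with hμ
  have hW : Integrable (fun θ : Fin 6 → ℝ => ∏ i, u (θ i)) μ :=
    Integrable.fintype_prod (f := fun _ => u) (fun _ => hu)
  have hGm : Measurable fun θ : Fin 6 → ℝ => G (∑ i, om (θ i)) := by
    refine hG.comp ?_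
    have : Continuous fun θ : Fin 6 → ℝ => ∑ i, om (θ i) := by fun_prop
    exact this.measurable
  have hGn : ∀ v, ‖G v‖ ≤ B := fun v => by
    rw [Real.norm_eq_abs, abs_of_nonneg (hG0 v)]
    exact hGB v
  have hB : 0 ≤ B := (hG0 0).trans (hGB 0)
  have hint : ∀ i j : Fin 6, Integrable (fun θ : Fin 6 → ℝ =>
      (∏ k, u (θ k)) * (Real.cos (θ i - θ j) * G (∑ k, om (θ k)))) μ := by
    intro i j
    refine hW.mul_bdd (c := B) ?_ (Eventually.of_forall fun θ => ?_)
    · refine (Measurable.mul ?_ hGm).aestronglyMeasurable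
      have : Continuous fun θ : Fin 6 → ℝ => Real.cos (θ i - θ j) := by fun_prop
      exact this.measurable
    · rw [norm_mul]
      calc ‖Real.cos (θ i - θ j)‖ * ‖G (∑ k, om (θ k))‖ ≤ 1 * B :=
            mul_le_mul (Real.abs_cos_le_one _) (hGn _) (norm_nonneg _) zero_le_one
        _ = B := one_mul B
  have hint0 : Integrable (fun θ : Fin 6 → ℝ => (∏ k, u (θ k)) * G (∑ k, om (θ k))) μ := by
    refine hW.mul_bdd (c := B) hGm.aestronglyMeasurable (Eventually.of_forall fun θ => hGn _)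
  set X : Fin 6 → Fin 6 → ℝ := fun i j => ∫ θ : Fin 6 → ℝ,
      (∏ k, u (θ k)) * (Real.cos (θ i - θ j) * G (∑ k, om (θ k))) ∂μ with hX
  set L : ℝ := ∫ θ : Fin 6 → ℝ, (∏ k, u (θ k)) * G (∑ k, om (θ k)) ∂μ with hL
  have hXii : ∀ i, X i i = L := by
    intro i
    rw [hX, hL]
    simp only [sub_self, Real.cos_zero, one_mul]
  have hXσ : ∀ σ : Equiv.Perm (Fin 6), X (σ 0) (σ 1) = X 0 1 := by
    intro σ
    have h := sg14a_perm_mp σ (fun θ => (∏ k, u (θ k)) *
      (Real.cos (θ 0 - θ 1) * G (∑ k, om (θ k))))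
    simp only [hX]
    rw [hμ, ← h]
    refine integral_congr_ae (Eventually.of_forall fun θ => ?_)
    simp only
    rw [Equiv.prod_comp σ (fun k => u (θ k)), Equiv.sum_comp σ (fun k => om (θ k))]
  have hperm : ∀ i j : Fin 6, i ≠ j →
      (Equiv.swap 0 i * Equiv.swap 1 (Equiv.swap 0 i j) : Equiv.Perm (Fin 6)) 0 = i ∧
      (Equiv.swap 0 i * Equiv.swap 1 (Equiv.swap 0 i j) : Equiv.Perm (Fin 6)) 1 = j := by
    decide
  have hXij : ∀ i j, i ≠ j → X i j = X 0 1 := by
    intro i j hij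
    have h := hXσ (Equiv.swap 0 i * Equiv.swap 1 (Equiv.swap 0 i j))
    rw [(hperm i j hij).1, (hperm i j hij).2] at h
    exact h
  have hX01 : 0 ≤ 6 * L + 30 * X 0 1 := by
    have h1 : ∑ i : Fin 6, ∑ j : Fin 6, X i j = 6 * L + 30 * X 0 1 := by
      have h2 : ∀ i j, X i j = if i = j then L else X 0 1 := by
        intro i j
        split_ifs with h
        · rw [h]
          exact hXii j
        · exact hXij i j h
      rw [Finset.sum_congr rfl fun i _ => Finset.sum_congr rfl fun j _ => h2 i j]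
      have h3 : ∀ i : Fin 6, ∑ j : Fin 6, (if i = j then L else X 0 1) = L + 5 * X 0 1 := by
        intro i
        have h4 : ∀ j : Fin 6, (if i = j then L else X 0 1) =
            X 0 1 + (if i = j then L - X 0 1 else 0) := by
          intro j
          split_ifs <;> ring
        rw [Finset.sum_congr rfl fun j _ => h4 j, Finset.sum_add_distrib,
          Finset.sum_ite_eq, if_pos (Finset.mem_univ i), Finset.sum_const, Finset.card_univ,
          Fintype.card_fin, nsmul_eq_mul]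
        push_cast
        ring
      rw [Finset.sum_congr rfl fun i _ => h3 i, Finset.sum_const, Finset.card_univ,
          Fintype.card_fin, nsmul_eq_mul]
      push_cast
      ring
    rw [← h1]
    have h3 : ∑ i : Fin 6, ∑ j : Fin 6, X i j = ∫ θ : Fin 6 → ℝ,
        (∏ k, u (θ k)) * (sq (∑ k, om (θ k)) * G (∑ k, om (θ k))) ∂μ := by
      simp only [hX]
      rw [← Finset.sum_congr rfl fun i _ => integral_finsetSum Finset.univ fun j _ => hint i j,
        ← integral_finsetSum Finset.univ fun i _ =>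
          integrable_finsetSum Finset.univ fun j _ => hint i j]
      refine integral_congr_ae (Eventually.of_forall fun θ => ?_)
      simp only
      rw [sg14a_sq_sum, Finset.sum_mul, Finset.mul_sum]
      refine Finset.sum_congr rfl fun i _ => ?_
      rw [Finset.sum_mul, Finset.mul_sum]
    rw [h3]
    refine integral_nonneg fun θ => ?_
    exact mul_nonneg (Finset.prod_nonneg fun k _ => hu0 _) (mul_nonneg (sq_nonneg' _) (hG0 _))
  have hR : ∫ θ : Fin 6 → ℝ, (∏ i, u (θ i)) * (((sq (om (θ 0) + om (θ 1) + om (θ 2)) +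
        sq (om (θ 3) + om (θ 4) + om (θ 5))) / 2 - 1) * G (∑ i, om (θ i))) ∂μ =
      2 * L + (X 0 1 + X 0 2 + X 1 2 + X 3 4 + X 3 5 + X 4 5) := by
    rw [hL, ← sg14a_add7 hint0 (hint 0 1) (hint 0 2) (hint 1 2) (hint 3 4) (hint 3 5) (hint 4 5)]
    refine integral_congr_ae (Eventually.of_forall fun θ => ?_)
    simp only
    rw [sg14a_sq3, sg14a_sq3]
    ring
  rw [hR, hXij 0 2 (by decide), hXij 1 2 (by decide), hXij 3 4 (by decide),
    hXij 3 5 (by decide), hXij 4 5 (by decide)]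
  linarith

end Pool.Agent.Lib.MP_230119_an
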