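import Pool.Agent.Lib.MP_230119_an.SGDef2
import Pool.Agent.Lib.MP_230119_an.SG14a
import Pool.Agent.Lib.MP_230119_an.Mg.G013
import Pool.Agent.Lib.MP_230119_an.Mg.G014

set_option autoImplicit false

open MeasureTheory Set Filter Topology
open scoped ENNReal

namespace Pool.Agent.Lib.MP_230119_an

private noncomputable def sg14c_m3 : Measure (ℝ × ℝ × ℝ) := mc.prod (mc.prod mc)

private instance : IsFiniteMeasure sg14c_m3 := by unfold sg14c_m3; infer_instance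

/-- three coordinates -/
private theorem sg14c_three : MeasurePreserving
    (⇑((MeasurableEquiv.piFinSuccAbove (fun _ : Fin 3 => ℝ) 0).trans
      ((MeasurableEquiv.refl ℝ).prodCongr (MeasurableEquiv.piFinTwo (fun _ : Fin 2 => ℝ)))))
    (Measure.pi fun _ : Fin 3 => mc) sg14c_m3 := by
  have h1 := measurePreserving_piFinSuccAbove (fun _ : Fin 3 => mc) 0
  have h2 := measurePreserving_piFinTwo (fun _ : Fin 2 => mc)
  have h3 := (MeasurePreserving.id mc).prod h2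
  exact h3.comp h1

private theorem sg14c_split (F : (ℝ × ℝ × ℝ) × (ℝ × ℝ × ℝ) → ℝ≥0∞) :
    ∫⁻ θ : Fin 6 → ℝ, F ((θ 0, θ 1, θ 2), (θ 3, θ 4, θ 5)) ∂(Measure.pi fun _ => mc) =
      ∫⁻ p, F p ∂(sg14c_m3.prod sg14c_m3) := by
  have h1 := measurePreserving_sumPiEquivProdPi (X := fun _ : Fin 3 ⊕ Fin 3 => ℝ) (fun _ => mc)
  have h2 := (measurePreserving_piCongrLeft (α := fun _ : Fin 6 => ℝ) (fun _ => mc)
    (finSumFinEquiv : Fin 3 ⊕ Fin 3 ≃ Fin 6)).symm
  have h3 := (sg14c_three.prod sg14c_three).comp (h1.comp h2)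
  have h4 : MeasurePreserving (⇑(((MeasurableEquiv.piCongrLeft (fun _ : Fin 6 => ℝ)
      (finSumFinEquiv : Fin 3 ⊕ Fin 3 ≃ Fin 6)).symm.trans
      (MeasurableEquiv.sumPiEquivProdPi (fun _ : Fin 3 ⊕ Fin 3 => ℝ))).trans
      (((MeasurableEquiv.piFinSuccAbove (fun _ : Fin 3 => ℝ) 0).trans
      ((MeasurableEquiv.refl ℝ).prodCongr (MeasurableEquiv.piFinTwo (fun _ : Fin 2 => ℝ)))).prodCongr
      ((MeasurableEquiv.piFinSuccAbove (fun _ : Fin 3 => ℝ) 0).trans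
      ((MeasurableEquiv.refl ℝ).prodCongr (MeasurableEquiv.piFinTwo (fun _ : Fin 2 => ℝ)))))))
      (Measure.pi fun _ => mc) (sg14c_m3.prod sg14c_m3) := h3
  have h5 := h4.lintegral_comp_emb (MeasurableEquiv.measurableEmbedding _) F
  rw [← h5]
  refine lintegral_congr fun θ => ?_
  congr 1

private noncomputable def sg14c_S (t : ℝ × ℝ × ℝ) : ℝ × ℝ := om t.1 + om t.2.1 + om t.2.2

private noncomputable def sg14c_U (u : ℝ → ℝ) (t : ℝ × ℝ × ℝ) : ℝ := u t.1 * u t.2.1 * u t.2.2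

private theorem sg14c_sq_le (a b c : ℝ) : sq (om a + om b + om c) ≤ 9 := by
  have h : sq (om a + om b + om c) =
      3 + 2 * (Real.cos (a - b) + Real.cos (a - c) + Real.cos (b - c)) := by
    simp only [sq, om, Prod.fst_add, Prod.snd_add, Real.cos_sub]
    have h1 := Real.cos_sq_add_sin_sq a
    have h2 := Real.cos_sq_add_sin_sq b
    have h3 := Real.cos_sq_add_sin_sq c
    linear_combination h1 + h2 + h3
  rw [h]
  have h1 := Real.cos_le_one (a - b)
  have h2 := Real.cos_le_one (a - c)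
  have h3 := Real.cos_le_one (b - c)
  linarith

private theorem sg14c_U2 {u : ℝ → ℝ} (hu0 : ∀ θ, 0 ≤ u θ)
    (hu : MemLp (fun θ => (u θ : ℂ)) 2 mc) :
    ∫⁻ t, ENNReal.ofReal (sg14c_U u t) ^ 2 ∂sg14c_m3 = N2 (fun θ => (u θ : ℂ)) ^ 3 := by
  have hm : AEMeasurable (fun θ => ENNReal.ofReal (u θ) ^ 2) mc := by
    have h1 := (integrable_of_memLp hu).aestronglyMeasurable.re
    have h2 : AEMeasurable u mc := h1.aemeasurable
    exact h2.ennreal_ofReal.pow_const 2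
  have h1 : ∀ t : ℝ × ℝ × ℝ, ENNReal.ofReal (sg14c_U u t) ^ 2 =
      ENNReal.ofReal (u t.1) ^ 2 * (ENNReal.ofReal (u t.2.1) ^ 2 * ENNReal.ofReal (u t.2.2) ^ 2) := by
    intro t
    unfold sg14c_U
    rw [ENNReal.ofReal_mul (mul_nonneg (hu0 _) (hu0 _)), ENNReal.ofReal_mul (hu0 _)]
    ring
  have h2 : N2 (fun θ => (u θ : ℂ)) = ∫⁻ θ, ENNReal.ofReal (u θ) ^ 2 ∂mc := by
    unfold N2
    refine lintegral_congr fun θ => ?_
    rw [← ofReal_norm, Complex.norm_real, Real.norm_of_nonneg (hu0 _)]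
  rw [h2, lintegral_congr h1]
  unfold sg14c_m3
  have h3 : AEMeasurable (fun q : ℝ × ℝ => ENNReal.ofReal (u q.1) ^ 2 * ENNReal.ofReal (u q.2) ^ 2)
      (mc.prod mc) :=
    (hm.comp_quasiMeasurePreserving Measure.quasiMeasurePreserving_fst).mul
      (hm.comp_quasiMeasurePreserving Measure.quasiMeasurePreserving_snd)
  rw [lintegral_prod_mul (f := fun θ => ENNReal.ofReal (u θ) ^ 2)
    (g := fun q : ℝ × ℝ => ENNReal.ofReal (u q.1) ^ 2 * ENNReal.ofReal (u q.2) ^ 2) hm h3,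
    lintegral_prod_mul (f := fun θ => ENNReal.ofReal (u θ) ^ 2)
    (g := fun θ => ENNReal.ofReal (u θ) ^ 2) hm hm]
  ring

private theorem sg14c_half {u : ℝ → ℝ} (hu0 : ∀ θ, 0 ≤ u θ)
    (hu : MemLp (fun θ => (u θ : ℂ)) 2 mc) {R : ℝ} (hR : 0 < R) :
    ∫⁻ p : (ℝ × ℝ × ℝ) × (ℝ × ℝ × ℝ), ENNReal.ofReal (sg14c_U u p.1) ^ 2 *
      (ENNReal.ofReal (sq (sg14c_S p.2) - 1) * ENNReal.ofReal (gk R (sg14c_S p.1 + sg14c_S p.2)))
        ∂(sg14c_m3.prod sg14c_m3) ≤
      ENNReal.ofReal (2 * Real.pi * pm) * N2 (fun θ => (u θ : ℂ)) ^ 3 := by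
  refine (lintegral_prod_le _).trans ?_
  have h1 : ∀ x : ℝ × ℝ × ℝ, ∫⁻ y, ENNReal.ofReal (sg14c_U u x) ^ 2 *
      (ENNReal.ofReal (sq (sg14c_S y) - 1) * ENNReal.ofReal (gk R (sg14c_S x + sg14c_S y)))
        ∂sg14c_m3 ≤ ENNReal.ofReal (sg14c_U u x) ^ 2 * ENNReal.ofReal (2 * Real.pi * pm) := by
    intro x
    rw [lintegral_const_mul' _ _ (ENNReal.pow_ne_top ENNReal.ofReal_ne_top)]
    gcongr
    have h2 := triple_density hR (-(sg14c_S x))
    refine le_trans (le_of_eq ?_) h2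
    unfold sg14c_m3
    refine lintegral_congr fun y => ?_
    congr 2
    rw [← gk_neg]
    congr 1
    simp only [sg14c_S]
    abel
  refine (lintegral_mono fun x => h1 x).trans ?_
  rw [lintegral_mul_const' _ _ ENNReal.ofReal_ne_top, sg14c_U2 hu0 hu, mul_comm]

private theorem sg14c_amgm {A B w w' k : ℝ} (hA : 0 ≤ A) (hB : 0 ≤ B) (hk : 0 ≤ k) :
    ENNReal.ofReal (A * B * (Real.sqrt (max w 0 * max w' 0) * k)) ≤
      2⁻¹ * (ENNReal.ofReal A ^ 2 * (ENNReal.ofReal w' * ENNReal.ofReal k) +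
        ENNReal.ofReal B ^ 2 * (ENNReal.ofReal w * ENNReal.ofReal k)) := by
  have hw : 0 ≤ max w 0 := le_max_right _ _
  have hw' : 0 ≤ max w' 0 := le_max_right _ _
  have h1 : A * B * (Real.sqrt (max w 0 * max w' 0) * k) ≤
      (1 / 2) * (A ^ 2 * (max w' 0 * k) + B ^ 2 * (max w 0 * k)) := by
    have h2 : A * B * Real.sqrt (max w 0 * max w' 0) ≤
        (1 / 2) * (A ^ 2 * max w' 0 + B ^ 2 * max w 0) := by
      rw [Real.sqrt_mul hw]
      have h3 := two_mul_le_add_sq (A * Real.sqrt (max w' 0)) (B * Real.sqrt (max w 0))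
      have h4 : (A * Real.sqrt (max w' 0)) ^ 2 = A ^ 2 * max w' 0 := by
        rw [mul_pow, Real.sq_sqrt hw']
      have h5 : (B * Real.sqrt (max w 0)) ^ 2 = B ^ 2 * max w 0 := by
        rw [mul_pow, Real.sq_sqrt hw]
      rw [h4, h5] at h3
      nlinarith [h3]
    have := mul_le_mul_of_nonneg_right h2 hk
    calc A * B * (Real.sqrt (max w 0 * max w' 0) * k)
        = A * B * Real.sqrt (max w 0 * max w' 0) * k := by ring
      _ ≤ (1 / 2) * (A ^ 2 * max w' 0 + B ^ 2 * max w 0) * k := this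
      _ = _ := by ring
  refine (ENNReal.ofReal_le_ofReal h1).trans (le_of_eq ?_)
  have e0 : ∀ x : ℝ, ENNReal.ofReal (max x 0) = ENNReal.ofReal x := by
    intro x
    rcases le_total x 0 with h | h
    · rw [max_eq_right h, ENNReal.ofReal_zero, ENNReal.ofReal_of_nonpos h]
    · rw [max_eq_left h]
  rw [ENNReal.ofReal_mul (by norm_num), ENNReal.ofReal_add (by positivity) (by positivity),
    ENNReal.ofReal_mul (by positivity : (0 : ℝ) ≤ A ^ 2), ENNReal.ofReal_mul hw',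
    ENNReal.ofReal_mul (by positivity : (0 : ℝ) ≤ B ^ 2),
    ENNReal.ofReal_mul hw, e0, e0, ENNReal.ofReal_pow hA,
    ENNReal.ofReal_pow hB, one_div, ENNReal.ofReal_inv_of_pos (by norm_num)]
  norm_num

private theorem sg14c_gk_le (R : ℝ) (v : ℝ × ℝ) : gk R v ≤ R ^ 2 := by
  unfold gk
  have h1 : Real.exp (-(R ^ 2 * sq v / 2)) ≤ 1 := by
    rw [Real.exp_le_one_iff]
    have := mul_nonneg (pow_two_nonneg R) (sq_nonneg' v)
    linarith
  nlinarith [pow_two_nonneg R]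

private theorem sg14c_bdd {g : (Fin 6 → ℝ) → ℝ} (hg : Continuous g) :
    ∃ C : ℝ, ∀ᵐ θ ∂(Measure.pi fun _ : Fin 6 => mc), ‖g θ‖ ≤ C := by
  have hK : IsCompact (Set.pi univ fun _ : Fin 6 => Icc (0 : ℝ) (2 * Real.pi)) :=
    isCompact_univ_pi fun _ => isCompact_Icc
  obtain ⟨C, hC⟩ := hK.exists_bound_of_continuousOn hg.continuousOn
  refine ⟨C, ?_⟩
  have h2 : ∀ᵐ θ : Fin 6 → ℝ ∂(Measure.pi fun _ => mc), ∀ i, θ i ∈ Ioc 0 (2 * Real.pi) := by
    rw [ae_all_iff]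
    intro i
    have h3 : ∀ᵐ t ∂mc, t ∈ Ioc 0 (2 * Real.pi) := by
      unfold mc
      exact ae_restrict_mem measurableSet_Ioc
    exact (Measure.quasiMeasurePreserving_eval (μ := fun _ : Fin 6 => mc) i).ae h3
  filter_upwards [h2] with θ hθ
  exact hC θ fun i _ => Ioc_subset_Icc_self (hθ i)

theorem group_bound {u : ℝ → ℝ} (hu0 : ∀ θ, 0 ≤ u θ) (hu : MemLp (fun θ => (u θ : ℂ)) 2 mc)
    {R : ℝ} (hR : 1 ≤ R) :
    ENNReal.ofReal (4 / 5) * L6 R (fun _ θ => ENNReal.ofReal (u θ)) ≤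
      ENNReal.ofReal (2 * Real.pi * pm) * N2 (fun θ => (u θ : ℂ)) ^ 3 +
      ENNReal.ofReal (8 / R) * L6 (R / Real.sqrt 2) (fun _ θ => ENNReal.ofReal (u θ)) := by
  have hR0 : 0 < R := by linarith
  set μ : Measure (Fin 6 → ℝ) := Measure.pi fun _ => mc with hμ
  have hui : Integrable u mc := (integrable_of_memLp hu).re
  have hW : Integrable (fun θ : Fin 6 → ℝ => ∏ i, u (θ i)) μ :=
    Integrable.fintype_prod (f := fun _ => u) (fun _ => hui)
  have hP0 : ∀ θ : Fin 6 → ℝ, 0 ≤ ∏ i, u (θ i) := fun θ => Finset.prod_nonneg fun _ _ => hu0 _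
  have hmulint : ∀ g : (Fin 6 → ℝ) → ℝ, Continuous g →
      Integrable (fun θ : Fin 6 → ℝ => (∏ i, u (θ i)) * g θ) μ := by
    intro g hg
    obtain ⟨C, hC⟩ := sg14c_bdd hg
    exact hW.mul_bdd (c := C) hg.aestronglyMeasurable hC
  have hgkc : ∀ R : ℝ, Continuous fun θ : Fin 6 → ℝ => gk R (∑ i, om (θ i)) := by
    intro R
    have := continuous_gk R
    fun_prop
  have hL6 : ∀ R : ℝ, L6 R (fun _ θ => ENNReal.ofReal (u θ)) =
      ∫⁻ θ : Fin 6 → ℝ, ENNReal.ofReal ((∏ i, u (θ i)) * gk R (∑ i, om (θ i))) ∂μ := by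
    intro R
    unfold L6
    refine lintegral_congr fun θ => ?_
    rw [ENNReal.ofReal_mul (hP0 θ), ENNReal.ofReal_prod_of_nonneg fun i _ => hu0 _]
  -- the two pieces
  have hYc : Continuous fun θ : Fin 6 → ℝ => sq (om (θ 0) + om (θ 1) + om (θ 2)) := by fun_prop
  have hZc : Continuous fun θ : Fin 6 → ℝ => sq (om (θ 3) + om (θ 4) + om (θ 5)) := by fun_prop
  set G1 : (Fin 6 → ℝ) → ℝ := fun θ => Real.sqrt (max (sq (om (θ 0) + om (θ 1) + om (θ 2)) - 1) 0 *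
    max (sq (om (θ 3) + om (θ 4) + om (θ 5)) - 1) 0) * gk R (∑ i, om (θ i)) with hG1
  set G2 : (Fin 6 → ℝ) → ℝ := fun θ => 4 * Real.sqrt (sq (∑ i, om (θ i))) *
    gk R (∑ i, om (θ i)) with hG2
  have hG1c : Continuous G1 := by
    have := hgkc R
    fun_prop
  have hG2c : Continuous G2 := by
    have := hgkc R
    fun_prop
  have hG10 : ∀ θ, 0 ≤ G1 θ := fun θ => mul_nonneg (Real.sqrt_nonneg _) (gk_nonneg _ _)
  have hG20 : ∀ θ, 0 ≤ G2 θ := fun θ =>
    mul_nonneg (mul_nonneg (by norm_num) (Real.sqrt_nonneg _)) (gk_nonneg _ _)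
  have hi1 := hmulint G1 hG1c
  have hi2 := hmulint G2 hG2c
  have hreal : 4 / 5 * ∫ θ : Fin 6 → ℝ, (∏ i, u (θ i)) * gk R (∑ i, om (θ i)) ∂μ ≤
      ∫ θ : Fin 6 → ℝ, (∏ i, u (θ i)) * G1 θ ∂μ + ∫ θ : Fin 6 → ℝ, (∏ i, u (θ i)) * G2 θ ∂μ := by
    refine (pair_identity hu0 hui (continuous_gk R).measurable (gk_nonneg R)
      (sg14c_gk_le R)).trans ?_
    rw [← integral_add hi1 hi2]
    refine integral_mono (hmulint _ ?_) (hi1.add hi2) fun θ => ?_
    · have := hgkc R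
      fun_prop
    · simp only
      rw [← mul_add]
      refine mul_le_mul_of_nonneg_left ?_ (hP0 θ)
      simp only [hG1, hG2]
      rw [← add_mul]
      refine mul_le_mul_of_nonneg_right ?_ (gk_nonneg _ _)
      have h1 := weight_pointwise (om (θ 0) + om (θ 1) + om (θ 2)) (om (θ 3) + om (θ 4) + om (θ 5))
        (sg14c_sq_le _ _ _) (sg14c_sq_le _ _ _)
      have h2 : (om (θ 0) + om (θ 1) + om (θ 2)) + (om (θ 3) + om (θ 4) + om (θ 5)) =
          ∑ i, om (θ i) := by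
        rw [Fin.sum_univ_six]
        abel
      rw [h2] at h1
      exact h1
  have hmain : ENNReal.ofReal (4 / 5) * L6 R (fun _ θ => ENNReal.ofReal (u θ)) ≤
      ∫⁻ θ, ENNReal.ofReal ((∏ i, u (θ i)) * G1 θ) ∂μ +
      ∫⁻ θ, ENNReal.ofReal ((∏ i, u (θ i)) * G2 θ) ∂μ := by
    rw [hL6, ← ofReal_integral_eq_lintegral_ofReal (hmulint _ (hgkc R))
      (Eventually.of_forall fun θ => mul_nonneg (hP0 θ) (gk_nonneg _ _)),
      ← ofReal_integral_eq_lintegral_ofReal hi1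
      (Eventually.of_forall fun θ => mul_nonneg (hP0 θ) (hG10 θ)),
      ← ofReal_integral_eq_lintegral_ofReal hi2
      (Eventually.of_forall fun θ => mul_nonneg (hP0 θ) (hG20 θ)),
      ← ENNReal.ofReal_mul (by norm_num), ← ENNReal.ofReal_add
      (integral_nonneg fun θ => mul_nonneg (hP0 θ) (hG10 θ))
      (integral_nonneg fun θ => mul_nonneg (hP0 θ) (hG20 θ))]
    exact ENNReal.ofReal_le_ofReal hreal
  refine hmain.trans (add_le_add ?_ ?_)
  · -- the main part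
    let Q : (ℝ × ℝ × ℝ) × (ℝ × ℝ × ℝ) → ℝ≥0∞ := fun p => 2⁻¹ *
          (ENNReal.ofReal (sg14c_U u p.1) ^ 2 *
          (ENNReal.ofReal (sq (sg14c_S p.2) - 1) *
            ENNReal.ofReal (gk R (sg14c_S p.1 + sg14c_S p.2))) +
          ENNReal.ofReal (sg14c_U u p.2) ^ 2 * (ENNReal.ofReal (sq (sg14c_S p.1) - 1) *
            ENNReal.ofReal (gk R (sg14c_S p.1 + sg14c_S p.2))))
    have h1 : ∀ θ : Fin 6 → ℝ, ENNReal.ofReal ((∏ i, u (θ i)) * G1 θ) ≤
        Q ((θ 0, θ 1, θ 2), (θ 3, θ 4, θ 5)) := by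
      intro θ
      have e1 : (∏ i, u (θ i)) = sg14c_U u (θ 0, θ 1, θ 2) * sg14c_U u (θ 3, θ 4, θ 5) := by
        rw [Fin.prod_univ_six]
        simp only [sg14c_U]
        ring
      have e2 : (∑ i, om (θ i)) = sg14c_S (θ 0, θ 1, θ 2) + sg14c_S (θ 3, θ 4, θ 5) := by
        rw [Fin.sum_univ_six]
        simp only [sg14c_S]
        abel
      have hU : ∀ t, 0 ≤ sg14c_U u t := fun t =>
        mul_nonneg (mul_nonneg (hu0 _) (hu0 _)) (hu0 _)
      simp only [hG1]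
      rw [e1, e2]
      exact sg14c_amgm (hU _) (hU _) (gk_nonneg _ _)
    refine (lintegral_mono h1).trans ((le_of_eq (sg14c_split Q)).trans ?_)
    show ∫⁻ p : (ℝ × ℝ × ℝ) × (ℝ × ℝ × ℝ), 2⁻¹ *
          (ENNReal.ofReal (sg14c_U u p.1) ^ 2 *
          (ENNReal.ofReal (sq (sg14c_S p.2) - 1) *
            ENNReal.ofReal (gk R (sg14c_S p.1 + sg14c_S p.2))) +
          ENNReal.ofReal (sg14c_U u p.2) ^ 2 * (ENNReal.ofReal (sq (sg14c_S p.1) - 1) *
            ENNReal.ofReal (gk R (sg14c_S p.1 + sg14c_S p.2)))) ∂(sg14c_m3.prod sg14c_m3) ≤ _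
    rw [lintegral_const_mul' _ _ (by norm_num)]
    have hUm : AEMeasurable (fun p : (ℝ × ℝ × ℝ) × (ℝ × ℝ × ℝ) =>
        ENNReal.ofReal (sg14c_U u p.1) ^ 2 *
          (ENNReal.ofReal (sq (sg14c_S p.2) - 1) *
            ENNReal.ofReal (gk R (sg14c_S p.1 + sg14c_S p.2)))) (sg14c_m3.prod sg14c_m3) := by
      have hum : AEMeasurable u mc := hui.aemeasurable
      have h2 : AEMeasurable (sg14c_U u) sg14c_m3 := by
        unfold sg14c_U sg14c_m3
        refine (AEMeasurable.mul ?_ ?_).mul ?_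
        · exact hum.comp_quasiMeasurePreserving Measure.quasiMeasurePreserving_fst
        · exact (hum.comp_quasiMeasurePreserving Measure.quasiMeasurePreserving_fst
            (ν := mc)).comp_quasiMeasurePreserving Measure.quasiMeasurePreserving_snd
        · exact (hum.comp_quasiMeasurePreserving (Measure.quasiMeasurePreserving_snd
            (μ := mc))).comp_quasiMeasurePreserving Measure.quasiMeasurePreserving_snd
      have h3 : AEMeasurable (fun p : (ℝ × ℝ × ℝ) × (ℝ × ℝ × ℝ) =>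
          ENNReal.ofReal (sg14c_U u p.1) ^ 2) (sg14c_m3.prod sg14c_m3) :=
        (h2.ennreal_ofReal.pow_const 2).comp_quasiMeasurePreserving
          Measure.quasiMeasurePreserving_fst
      have hSc : Continuous sg14c_S := by unfold sg14c_S; fun_prop
      refine h3.mul (Measurable.aemeasurable ?_)
      have h4 : Continuous fun p : (ℝ × ℝ × ℝ) × (ℝ × ℝ × ℝ) => sq (sg14c_S p.2) - 1 := by
        fun_prop
      have h5 : Continuous fun p : (ℝ × ℝ × ℝ) × (ℝ × ℝ × ℝ) =>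
          gk R (sg14c_S p.1 + sg14c_S p.2) := by
        have := continuous_gk R
        fun_prop
      exact h4.measurable.ennreal_ofReal.mul h5.measurable.ennreal_ofReal
    rw [lintegral_add_left' hUm]
    have h6 := sg14c_half hu0 hu hR0
    have h7 : ∫⁻ p : (ℝ × ℝ × ℝ) × (ℝ × ℝ × ℝ), ENNReal.ofReal (sg14c_U u p.2) ^ 2 *
        (ENNReal.ofReal (sq (sg14c_S p.1) - 1) *
            ENNReal.ofReal (gk R (sg14c_S p.1 + sg14c_S p.2))) ∂(sg14c_m3.prod sg14c_m3) =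
        ∫⁻ p : (ℝ × ℝ × ℝ) × (ℝ × ℝ × ℝ), ENNReal.ofReal (sg14c_U u p.1) ^ 2 *
        (ENNReal.ofReal (sq (sg14c_S p.2) - 1) *
            ENNReal.ofReal (gk R (sg14c_S p.1 + sg14c_S p.2))) ∂(sg14c_m3.prod sg14c_m3) := by
      rw [← lintegral_prod_swap]
      refine lintegral_congr fun p => ?_
      simp only [Prod.fst_swap, Prod.snd_swap]
      rw [add_comm (sg14c_S p.2)]
    rw [h7]
    refine (mul_le_mul_right (add_le_add h6 h6) _).trans (le_of_eq ?_)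
    rw [← two_mul, ← mul_assoc, ENNReal.inv_mul_cancel (by norm_num) (by norm_num), one_mul]
  · -- the error part
    rw [hL6, ← lintegral_const_mul' _ _ ENNReal.ofReal_ne_top]
    refine lintegral_mono fun θ => ?_
    rw [← ENNReal.ofReal_mul (by positivity)]
    refine ENNReal.ofReal_le_ofReal ?_
    have h1 := mul_le_mul_of_nonneg_left (gk_mul_le hR0 (∑ i, om (θ i))) (hP0 θ)
    simp only [hG2]
    calc (∏ i, u (θ i)) * (4 * Real.sqrt (sq (∑ i, om (θ i))) * gk R (∑ i, om (θ i)))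
        ≤ _ := h1
      _ = _ := by ring

end Pool.Agent.Lib.MP_230119_an
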