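import Pool.Agent.Lib.MP_230119_an.SGDef2
import Pool.Agent.Lib.MP_230119_an.SG10
import Pool.Agent.Lib.MP_230119_an.Mg.G016
import Pool.Agent.Lib.MP_230119_an.SG14c
import Pool.Agent.Lib.MP_230119_an.Mg.G013

set_option autoImplicit false

open MeasureTheory Set Filter Topology
open scoped ENNReal

namespace Pool.Agent.Lib.MP_230119_an

theorem sg15_const : 5 / 4 * ((2 * Real.pi) * (2 * Real.pi * pm)) = 4 * Kst := by
  unfold pm Kst
  ring

theorem sg15_step {f : ℝ → ℂ} (hf : MemLp f 2 mc) {C : ℝ} (hC : 0 < C)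
    (hcr : ∀ f : ℝ → ℂ, MemLp f 2 mc → J f ≤ ENNReal.ofReal C * N2 f ^ 3) {R : ℝ} (hR : 1 ≤ R) :
    ∫⁻ x, ‖ex f x‖ₑ ^ 6 * ENNReal.ofReal (gw R x) ≤
      ENNReal.ofReal (4 * Kst + 10 * C / R) * N2 f ^ 3 := by
  have hR0 : 0 < R := by linarith
  have hpi := Real.pi_pos
  have hpm := pm_pos
  set U : ℝ → ℂ := fun θ => (sharp f θ : ℂ) with hU
  have mU : MemLp U 2 mc := memLp_sharp hf
  have u0 : ∀ θ, 0 ≤ sharp f θ := fun θ => Real.sqrt_nonneg _
  have hN : N2 U = N2 f := N2_sharp hf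
  have h1 := expand_le hf hR0
  have h2 := symm_le hf R
  have h3 := group_bound u0 mU hR
  have h4 := expand_ge u0 mU (fun θ hθ => sharp_ap f hθ) (R := R / Real.sqrt 2) (by positivity)
  have h5 := hcr U mU
  set V := L6 R (fun _ θ => ENNReal.ofReal (sharp f θ)) with hV
  set W := L6 (R / Real.sqrt 2) (fun _ θ => ENNReal.ofReal (sharp f θ)) with hW
  have h6 : ENNReal.ofReal (2 * Real.pi) * W ≤ ENNReal.ofReal C * N2 f ^ 3 := by
    rw [← hN]
    exact h4.trans h5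
  have h7 : N2 (fun θ => (sharp f θ : ℂ)) = N2 f := hN
  rw [h7] at h3
  calc ∫⁻ x, ‖ex f x‖ₑ ^ 6 * ENNReal.ofReal (gw R x)
      ≤ ENNReal.ofReal (2 * Real.pi) * L6 R (six f) := h1
    _ ≤ ENNReal.ofReal (2 * Real.pi) * V := mul_le_mul_right h2 _
    _ = ENNReal.ofReal (2 * Real.pi) * (ENNReal.ofReal (5 / 4) * (ENNReal.ofReal (4 / 5) * V)) := by
        rw [← mul_assoc (ENNReal.ofReal (5 / 4)), ← ENNReal.ofReal_mul (by norm_num)]
        norm_num
    _ ≤ ENNReal.ofReal (2 * Real.pi) * (ENNReal.ofReal (5 / 4) *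
          (ENNReal.ofReal (2 * Real.pi * pm) * N2 f ^ 3 + ENNReal.ofReal (8 / R) * W)) := by
        exact mul_le_mul_right (mul_le_mul_right h3 _) _
    _ = ENNReal.ofReal (5 / 4 * ((2 * Real.pi) * (2 * Real.pi * pm))) * N2 f ^ 3 +
          ENNReal.ofReal (5 / 4 * (8 / R)) * (ENNReal.ofReal (2 * Real.pi) * W) := by
        have e1 : ENNReal.ofReal (5 / 4 * ((2 * Real.pi) * (2 * Real.pi * pm))) =
            ENNReal.ofReal (5 / 4) * (ENNReal.ofReal (2 * Real.pi) *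
              ENNReal.ofReal (2 * Real.pi * pm)) := by
          rw [ENNReal.ofReal_mul (by norm_num), ENNReal.ofReal_mul (by positivity)]
        have e2 : ENNReal.ofReal (5 / 4 * (8 / R)) =
            ENNReal.ofReal (5 / 4) * ENNReal.ofReal (8 / R) :=
          ENNReal.ofReal_mul (by norm_num)
        rw [e1, e2]
        ring
    _ ≤ ENNReal.ofReal (5 / 4 * ((2 * Real.pi) * (2 * Real.pi * pm))) * N2 f ^ 3 +
          ENNReal.ofReal (5 / 4 * (8 / R)) * (ENNReal.ofReal C * N2 f ^ 3) :=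
        add_le_add_right (mul_le_mul_right h6 _) _
    _ = ENNReal.ofReal (4 * Kst + 10 * C / R) * N2 f ^ 3 := by
        rw [sg15_const, ← mul_assoc, ← ENNReal.ofReal_mul (by positivity), ← add_mul,
          ← ENNReal.ofReal_add (by have := Kst_pos; positivity) (by positivity)]
        congr 3
        ring

theorem sg15_gw_tendsto (x : ℝ × ℝ) :
    Tendsto (fun n : ℕ => gw ((n : ℝ) + 1) x) atTop (𝓝 1) := by
  unfold gw
  have h1 : Tendsto (fun n : ℕ => ((n : ℝ) + 1)) atTop atTop :=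
    tendsto_atTop_add_const_right _ _ tendsto_natCast_atTop_atTop
  have h2 : Tendsto (fun n : ℕ => 2 * ((n : ℝ) + 1) ^ 2) atTop atTop :=
    Tendsto.const_mul_atTop (by norm_num) ((tendsto_pow_atTop (by norm_num)).comp h1)
  have h3 : Tendsto (fun n : ℕ => sq x / (2 * ((n : ℝ) + 1) ^ 2)) atTop (𝓝 0) :=
    tendsto_const_nhds.div_atTop h2
  have h4 := (Real.continuous_exp.tendsto (-0)).comp h3.neg
  simp only [neg_zero, Real.exp_zero] at h4
  exact h4

theorem global_bound {f : ℝ → ℂ} (hf : MemLp f 2 mc) :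
    J f ≤ ENNReal.ofReal (4 * Kst) * N2 f ^ 3 := by
  obtain ⟨C, hC, hcr⟩ := crude
  have hN : N2 f ^ 3 ≠ ∞ := ENNReal.pow_ne_top (N2_ne_top hf)
  have hcont := continuous_ex (integrable_of_memLp hf)
  have h1 : J f ≤ liminf (fun n : ℕ => ∫⁻ x, ‖ex f x‖ₑ ^ 6 *
      ENNReal.ofReal (gw ((n : ℝ) + 1) x)) atTop := by
    have h2 := lintegral_liminf_le (μ := (volume : Measure (ℝ × ℝ)))
      (f := fun (n : ℕ) x => ‖ex f x‖ₑ ^ 6 * ENNReal.ofReal (gw ((n : ℝ) + 1) x)) (u := atTop)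
      (fun n => by
        exact ((hcont.enorm.measurable).pow_const 6).mul
          (ENNReal.measurable_ofReal.comp (continuous_gw _).measurable))
    refine le_trans (le_of_eq ?_) h2
    unfold J
    refine lintegral_congr fun x => ?_
    have h3 : Tendsto (fun n : ℕ => ‖ex f x‖ₑ ^ 6 * ENNReal.ofReal (gw ((n : ℝ) + 1) x)) atTop
        (𝓝 (‖ex f x‖ₑ ^ 6 * ENNReal.ofReal 1)) :=
      ENNReal.Tendsto.const_mul (ENNReal.tendsto_ofReal (sg15_gw_tendsto x))
        (Or.inr (ENNReal.pow_ne_top enorm_ne_top))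
    rw [h3.liminf_eq, ENNReal.ofReal_one, mul_one]
  refine h1.trans ?_
  have h4 : Tendsto (fun n : ℕ => ENNReal.ofReal (4 * Kst + 10 * C / ((n : ℝ) + 1)) * N2 f ^ 3)
      atTop (𝓝 (ENNReal.ofReal (4 * Kst) * N2 f ^ 3)) := by
    refine ENNReal.Tendsto.mul_const (ENNReal.tendsto_ofReal ?_) (Or.inr hN)
    have h5 : Tendsto (fun n : ℕ => ((n : ℝ) + 1)) atTop atTop :=
      tendsto_atTop_add_const_right _ _ tendsto_natCast_atTop_atTop
    have h6 : Tendsto (fun n : ℕ => 10 * C / ((n : ℝ) + 1)) atTop (𝓝 0) :=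
      tendsto_const_nhds.div_atTop h5
    simpa using h6.const_add (4 * Kst)
  rw [← h4.liminf_eq]
  refine liminf_le_liminf (Eventually.of_forall fun n => ?_)
  exact sg15_step hf hC hcr (by linarith [(Nat.cast_nonneg n : (0 : ℝ) ≤ n)])

end Pool.Agent.Lib.MP_230119_an
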