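import Pool.Agent.Lib.MP_230119_an.SGDef2
import Pool.Agent.Lib.MP_230119_an.SG15

set_option autoImplicit false

open MeasureTheory Set Filter Topology
open scoped ENNReal

namespace Pool.Agent.Lib.MP_230119_an

theorem ex_Ty (y x : ℝ × ℝ) (g : HS) : ex (Ty y g) x = ex g (x + y) := by
  rw [ex_congr (coeFn_Ty y g) x]
  unfold ex tr
  refine integral_congr_ae (Eventually.of_forall fun θ => ?_)
  simp only
  rw [ph_add_left]
  ring

theorem norm_Ty (y : ℝ × ℝ) (g : HS) : ‖Ty y g‖ = ‖g‖ := by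
  rw [Lp.norm_def, Lp.norm_def]
  congr 1
  refine eLpNorm_congr_norm_ae ?_
  filter_upwards [coeFn_Ty y g] with θ hθ
  rw [hθ, norm_mul, norm_ph, one_mul]

theorem Ty_add (y : ℝ × ℝ) (g h : HS) : Ty y (g + h) = Ty y g + Ty y h := by
  refine Lp.ext ?_
  filter_upwards [coeFn_Ty y (g + h), Lp.coeFn_add g h, Lp.coeFn_add (Ty y g) (Ty y h),
    coeFn_Ty y g, coeFn_Ty y h] with θ h1 h2 h3 h4 h5
  rw [h1, h3, h2, Pi.add_apply, Pi.add_apply, h4, h5, mul_add]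

theorem Ty_neg (y : ℝ × ℝ) (g : HS) : Ty y (-g) = - Ty y g := by
  refine Lp.ext ?_
  filter_upwards [coeFn_Ty y (-g), Lp.coeFn_neg g, Lp.coeFn_neg (Ty y g),
    coeFn_Ty y g] with θ h1 h2 h3 h4
  rw [h1, h3, h2, Pi.neg_apply, Pi.neg_apply, h4, mul_neg]

theorem Ty_sub (y : ℝ × ℝ) (g h : HS) : Ty y (g - h) = Ty y g - Ty y h := by
  rw [sub_eq_add_neg, Ty_add, Ty_neg, ← sub_eq_add_neg]

theorem Ty_Ty (y z : ℝ × ℝ) (g : HS) : Ty y (Ty z g) = Ty (y + z) g := by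
  refine Lp.ext ?_
  filter_upwards [coeFn_Ty y (Ty z g), coeFn_Ty z g, coeFn_Ty (y + z) g] with θ h1 h2 h3
  rw [h1, h3, h2, ph_add_left, mul_assoc]

theorem Ty_zero (g : HS) : Ty 0 g = g := by
  refine Lp.ext ?_
  filter_upwards [coeFn_Ty 0 g] with θ h1
  rw [h1, ph_zero_left, one_mul]

theorem inner_Ty (y : ℝ × ℝ) (u v : HS) : inner ℂ (Ty y u) v = inner ℂ u (Ty (-y) v) := by
  rw [L2.inner_def, L2.inner_def]
  refine integral_congr_ae ?_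
  filter_upwards [coeFn_Ty y u, coeFn_Ty (-y) v] with θ h1 h2
  simp only [RCLike.inner_apply]
  rw [h1, h2, ph_neg_left, map_mul]
  ring

theorem ex_add_HS (g h : HS) (x : ℝ × ℝ) : ex ((g + h : HS) : ℝ → ℂ) x = ex g x + ex h x := by
  rw [ex_congr (Lp.coeFn_add g h) x]
  exact ex_add (integrable_of_memLp (Lp.memLp g)) (integrable_of_memLp (Lp.memLp h)) x

theorem ex_smul_HS (c : ℂ) (g : HS) (x : ℝ × ℝ) :
    ex ((c • g : HS) : ℝ → ℂ) x = c * ex g x := by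
  rw [ex_congr (Lp.coeFn_smul c g) x]
  exact ex_smul c g x

theorem ex_sub_HS (g h : HS) (x : ℝ × ℝ) : ex ((g - h : HS) : ℝ → ℂ) x = ex g x - ex h x := by
  have h1 : g - h = g + (-1 : ℂ) • h := by
    rw [neg_smul, one_smul, sub_eq_add_neg]
  rw [h1, ex_add_HS, ex_smul_HS]
  ring

theorem continuous_ex_HS (g : HS) : Continuous (ex (g : ℝ → ℂ)) :=
  continuous_ex (integrable_of_memLp (Lp.memLp g))

theorem N2_HS (g : HS) : N2 g = ENNReal.ofReal (‖g‖ ^ 2) := by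
  have h2 : eLpNorm (g : ℝ → ℂ) 2 mc ^ (2 : ℝ) = ∫⁻ θ, ‖g θ‖ₑ ^ (2 : ℝ) ∂mc := by
    rw [eLpNorm_eq_lintegral_rpow_enorm_toReal (by norm_num) (by norm_num)]
    rw [← ENNReal.rpow_mul]
    norm_num
  have h3 : ∫⁻ θ, ‖g θ‖ₑ ^ 2 ∂mc = eLpNorm (g : ℝ → ℂ) 2 mc ^ (2 : ℝ) := by
    rw [h2]
    refine lintegral_congr fun θ => ?_
    norm_cast
  unfold N2
  rw [h3, Lp.norm_def, ENNReal.ofReal_pow ENNReal.toReal_nonneg,
    ENNReal.ofReal_toReal (Lp.eLpNorm_ne_top g)]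
  norm_cast

theorem sg21_J_ne_top (g : HS) : J (g : ℝ → ℂ) ≠ ∞ := by
  have h1 := global_bound (Lp.memLp g)
  refine ne_top_of_le_ne_top ?_ h1
  exact ENNReal.mul_ne_top ENNReal.ofReal_ne_top (ENNReal.pow_ne_top (N2_ne_top (Lp.memLp g)))

theorem Jr_Ty (y : ℝ × ℝ) (g : HS) : Jr (Ty y g) = Jr g := by
  unfold Jr
  congr 1
  unfold J
  simp only [ex_Ty]
  exact lintegral_add_right_eq_self (fun x => ‖ex (g : ℝ → ℂ) x‖ₑ ^ 6) y

theorem Jr_smul (c : ℂ) (g : HS) : Jr (c • g) = ‖c‖ ^ 6 * Jr g := by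
  unfold Jr
  have h1 : J ((c • g : HS) : ℝ → ℂ) = ‖c‖ₑ ^ 6 * J (g : ℝ → ℂ) := by
    unfold J
    rw [← lintegral_const_mul]
    · refine lintegral_congr fun x => ?_
      rw [ex_smul_HS, enorm_mul, mul_pow]
    · exact ((continuous_ex_HS g).enorm.measurable).pow_const 6
  rw [h1, ENNReal.toReal_mul, ENNReal.toReal_pow, toReal_enorm]

theorem Jr_nonneg (g : HS) : 0 ≤ Jr g := ENNReal.toReal_nonneg

theorem J_HS (g : HS) : J g = ENNReal.ofReal (Jr g) := by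
  unfold Jr
  rw [ENNReal.ofReal_toReal (sg21_J_ne_top g)]

theorem Jr_le (g : HS) : Jr g ≤ 4 * Kst * ‖g‖ ^ 6 := by
  have h1 := global_bound (Lp.memLp g)
  have h0 : 0 ≤ 4 * Kst := by have := Kst_pos; positivity
  rw [N2_HS, J_HS, ← ENNReal.ofReal_pow (by positivity), ← ENNReal.ofReal_mul h0] at h1
  have h2 := (ENNReal.ofReal_le_ofReal_iff (by positivity)).1 h1
  calc Jr g ≤ 4 * Kst * (‖g‖ ^ 2) ^ 3 := h2
    _ = 4 * Kst * ‖g‖ ^ 6 := by ring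

theorem Jr_eq_integral (g : HS) : Integrable (fun x => ‖ex g x‖ ^ 6) ∧
    Jr g = ∫ x, ‖ex g x‖ ^ 6 := by
  have hc : Continuous (fun x => ‖ex (g : ℝ → ℂ) x‖ ^ 6) := (continuous_ex_HS g).norm.pow 6
  have h1 : ∫⁻ x, ENNReal.ofReal (‖ex (g : ℝ → ℂ) x‖ ^ 6) = J (g : ℝ → ℂ) := by
    unfold J
    refine lintegral_congr fun x => ?_
    rw [ENNReal.ofReal_pow (norm_nonneg _), ofReal_norm]
  constructor
  · refine ⟨hc.aestronglyMeasurable, ?_⟩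
    rw [hasFiniteIntegral_iff_ofReal (Eventually.of_forall fun x => by positivity), h1]
    exact lt_top_iff_ne_top.2 (sg21_J_ne_top g)
  · rw [integral_eq_lintegral_of_nonneg_ae (Eventually.of_forall fun x => by positivity)
      hc.aestronglyMeasurable, h1]
    rfl

theorem sg21_mc_univ : mc univ = ENNReal.ofReal (2 * Real.pi) := by
  unfold mc
  rw [Measure.restrict_apply_univ, Real.volume_Ioc, sub_zero]

theorem norm_ex_le (g : HS) (x : ℝ × ℝ) : ‖ex g x‖ ≤ 3 * ‖g‖ := by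
  have h1 : ‖ex (g : ℝ → ℂ) x‖ ≤ ∫ θ, ‖g θ‖ ∂mc := norm_tr_le x
  refine h1.trans ?_
  have hm := Lp.memLp g
  have h2 : ∫ θ, ‖g θ‖ ∂mc = (eLpNorm (g : ℝ → ℂ) 1 mc).toReal := by
    rw [eLpNorm_one_eq_lintegral_enorm, integral_norm_eq_lintegral_enorm hm.aestronglyMeasurable]
  have h3 := eLpNorm_le_eLpNorm_mul_rpow_measure_univ (p := 1) (q := 2) (μ := mc)
    (f := (g : ℝ → ℂ)) (by norm_num) hm.aestronglyMeasurable
  have h4 : mc univ ^ (1 / (1 : ℝ≥0∞).toReal - 1 / (2 : ℝ≥0∞).toReal) ≤ ENNReal.ofReal 3 := by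
    rw [sg21_mc_univ]
    have h5 : (1 / (1 : ℝ≥0∞).toReal - 1 / (2 : ℝ≥0∞).toReal) = (1 / 2 : ℝ) := by norm_num
    rw [h5, ENNReal.ofReal_rpow_of_pos (by positivity)]
    refine ENNReal.ofReal_le_ofReal ?_
    rw [← Real.sqrt_eq_rpow]
    rw [Real.sqrt_le_left (by norm_num)]
    have := Real.pi_le_four
    nlinarith
  have h6 : eLpNorm (g : ℝ → ℂ) 1 mc ≤ eLpNorm (g : ℝ → ℂ) 2 mc * ENNReal.ofReal 3 :=
    h3.trans (mul_le_mul_right h4 _)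
  rw [h2]
  have h7 := ENNReal.toReal_mono (ENNReal.mul_ne_top hm.eLpNorm_ne_top ENNReal.ofReal_ne_top) h6
  rw [ENNReal.toReal_mul, ENNReal.toReal_ofReal (by norm_num)] at h7
  rw [Lp.norm_def]
  linarith

end Pool.Agent.Lib.MP_230119_an
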