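import Pool.Agent.Lib.MP_230119_an.SGDef2

set_option autoImplicit false

open MeasureTheory Set Filter Topology
open scoped ENNReal

namespace Pool.Agent.Lib.MP_230119_an

private lemma sg19_real {x y z δ : ℝ} (hx : 0 ≤ x) (hy : 0 ≤ y) (hz : 0 ≤ z) (h1 : z ≤ x + y)
    (h2 : x ≤ z + y) (hδ : 0 < δ) (hδ1 : δ ≤ 1) :
    |z ^ 6 - x ^ 6 - y ^ 6| ≤ 192 * δ * x ^ 6 + (6 * (1 / δ + 1) ^ 5 + 1) * y ^ 6 := by
  have hxy : 0 ≤ x + y := by linarith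
  have e : z ^ 6 - x ^ 6 = (z - x) * (z ^ 5 + z ^ 4 * x + z ^ 3 * x ^ 2 + z ^ 2 * x ^ 3 + z * x ^ 4
      + x ^ 5) := by ring
  have hxx : x ≤ x + y := by linarith
  have t : z ^ 5 + z ^ 4 * x + z ^ 3 * x ^ 2 + z ^ 2 * x ^ 3 + z * x ^ 4 + x ^ 5
      ≤ 6 * (x + y) ^ 5 := by
    have a1 : z ^ 5 ≤ (x + y) ^ 5 := pow_le_pow_left₀ hz h1 5
    have a2 : z ^ 4 * x ≤ (x + y) ^ 4 * (x + y) := by gcongr
    have a3 : z ^ 3 * x ^ 2 ≤ (x + y) ^ 3 * (x + y) ^ 2 := by gcongr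
    have a4 : z ^ 2 * x ^ 3 ≤ (x + y) ^ 2 * (x + y) ^ 3 := by gcongr
    have a5 : z * x ^ 4 ≤ (x + y) * (x + y) ^ 4 := by gcongr
    have a6 : x ^ 5 ≤ (x + y) ^ 5 := by gcongr
    nlinarith [a1, a2, a3, a4, a5, a6]
  have t0 : 0 ≤ z ^ 5 + z ^ 4 * x + z ^ 3 * x ^ 2 + z ^ 2 * x ^ 3 + z * x ^ 4 + x ^ 5 := by positivity
  have k : |z ^ 6 - x ^ 6| ≤ 6 * (y * (x + y) ^ 5) := by
    rw [e, abs_mul, abs_of_nonneg t0]
    have : |z - x| ≤ y := by rw [abs_le]; constructor <;> linarith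
    calc |z - x| * _ ≤ y * (6 * (x + y) ^ 5) := mul_le_mul this t t0 hy
      _ = _ := by ring
  have k2 : y * (x + y) ^ 5 ≤ 32 * δ * x ^ 6 + (1 / δ + 1) ^ 5 * y ^ 6 := by
    rcases le_total y (δ * x) with h | h
    · have hyx : y ≤ x := h.trans (by nlinarith)
      have : y * (x + y) ^ 5 ≤ (δ * x) * (x + x) ^ 5 := by gcongr
      have h3 : 0 ≤ (1 / δ + 1) ^ 5 * y ^ 6 := by positivity
      nlinarith [this]
    · have hx2 : x ≤ 1 / δ * y := by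
        rw [one_div, inv_mul_eq_div, le_div_iff₀ hδ]; linarith
      have : y * (x + y) ^ 5 ≤ y * (1 / δ * y + y) ^ 5 := by gcongr
      have h3 : 0 ≤ 32 * δ * x ^ 6 := by positivity
      have h4 : y * (1 / δ * y + y) ^ 5 = (1 / δ + 1) ^ 5 * y ^ 6 := by ring
      linarith
  have hy6 : 0 ≤ y ^ 6 := by positivity
  calc |z ^ 6 - x ^ 6 - y ^ 6| ≤ |z ^ 6 - x ^ 6| + |y ^ 6| := abs_sub _ _
    _ ≤ 6 * (y * (x + y) ^ 5) + y ^ 6 := by rw [abs_of_nonneg hy6]; linarith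
    _ ≤ 6 * (32 * δ * x ^ 6 + (1 / δ + 1) ^ 5 * y ^ 6) + y ^ 6 := by linarith
    _ = _ := by ring

private lemma sg19_cpx {ε : ℝ} (hε : 0 < ε) : ∃ C : ℝ, 0 < C ∧ ∀ a b : ℂ,
    |‖a‖ ^ 6 - ‖a - b‖ ^ 6 - ‖b‖ ^ 6| ≤ ε * ‖a - b‖ ^ 6 + C * ‖b‖ ^ 6 := by
  set δ : ℝ := min 1 (ε / 192) with hδd
  have hδ : 0 < δ := by positivity
  refine ⟨6 * (1 / δ + 1) ^ 5 + 1, by positivity, fun a b => ?_⟩
  have h1 : ‖a‖ ≤ ‖a - b‖ + ‖b‖ := by simpa using norm_add_le (a - b) b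
  have h2 : ‖a - b‖ ≤ ‖a‖ + ‖b‖ := norm_sub_le a b
  have := sg19_real (norm_nonneg (a - b)) (norm_nonneg b) (norm_nonneg a) h1 h2 hδ (min_le_left _ _)
  refine this.trans ?_
  have h3 : 192 * δ ≤ ε := by
    have : δ ≤ ε / 192 := min_le_right _ _
    linarith
  gcongr

theorem brezis_lieb {F : ℕ → ℝ × ℝ → ℂ} {f : ℝ × ℝ → ℂ} (hF : ∀ n, Continuous (F n))
    (hf : Continuous f) (hlim : ∀ x, Tendsto (fun n => F n x) atTop (𝓝 (f x))) {B : ℝ≥0∞}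
    (hB : B ≠ ∞) (hb : ∀ n, ∫⁻ x, ‖F n x‖ₑ ^ 6 ≤ B) :
    Tendsto (fun n => (∫⁻ x, ‖F n x‖ₑ ^ 6).toReal - (∫⁻ x, ‖F n x - f x‖ₑ ^ 6).toReal) atTop
      (𝓝 (∫⁻ x, ‖f x‖ₑ ^ 6).toReal) := by
  -- Fatou
  have hfB : ∫⁻ x, ‖f x‖ₑ ^ 6 ≤ B := by
    have e : ∀ x, ‖f x‖ₑ ^ 6 = liminf (fun n => ‖F n x‖ₑ ^ 6) atTop := fun x =>
      ((((ENNReal.continuous_pow 6).tendsto _).comp ((hlim x).enorm)).liminf_eq).symm
    calc ∫⁻ x, ‖f x‖ₑ ^ 6 = ∫⁻ x, liminf (fun n => ‖F n x‖ₑ ^ 6) atTop := lintegral_congr e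
      _ ≤ liminf (fun n => ∫⁻ x, ‖F n x‖ₑ ^ 6) atTop :=
        lintegral_liminf_le fun n => ((hF n).enorm.measurable).pow_const 6
      _ ≤ liminf (fun _ : ℕ => B) atTop := liminf_le_liminf (Eventually.of_forall hb)
      _ = B := by simp
  have key : ∀ g : ℝ × ℝ → ℂ, Continuous g → ∫⁻ x, ‖g x‖ₑ ^ 6 ≠ ∞ →
      Integrable (fun x => ‖g x‖ ^ 6) ∧ (∫⁻ x, ‖g x‖ₑ ^ 6).toReal = ∫ x, ‖g x‖ ^ 6 := by
    intro g hg hfin
    have e1 : ∀ x, ‖g x‖ₑ ^ 6 = ENNReal.ofReal (‖g x‖ ^ 6) := fun x => by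
      rw [ENNReal.ofReal_pow (norm_nonneg _), ofReal_norm]
    have hm : AEStronglyMeasurable (fun x => ‖g x‖ ^ 6) volume :=
      (hg.norm.pow 6).aestronglyMeasurable
    refine ⟨⟨hm, ?_⟩, ?_⟩
    · rw [hasFiniteIntegral_iff_ofReal (Eventually.of_forall fun x => by positivity)]
      rw [← lintegral_congr e1]
      exact hfin.lt_top
    · rw [integral_eq_lintegral_of_nonneg_ae (Eventually.of_forall fun x => by positivity) hm,
        ← lintegral_congr e1]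
  have hdiff : ∀ n, ∫⁻ x, ‖F n x - f x‖ₑ ^ 6 ≤ 64 * B := by
    intro n
    have p : ∀ x, ‖F n x - f x‖ₑ ^ 6 ≤ 32 * ‖F n x‖ₑ ^ 6 + 32 * ‖f x‖ₑ ^ 6 := by
      intro x
      have h1 : ‖F n x - f x‖ₑ ≤ ‖F n x‖ₑ + ‖f x‖ₑ := enorm_sub_le
      have e1 : ∀ z : ℂ, ‖z‖ₑ ^ 6 = ENNReal.ofReal (‖z‖ ^ 6) := fun z => by
        rw [ENNReal.ofReal_pow (norm_nonneg _), ofReal_norm]
      rw [e1, e1, e1]
      have h32 : (32 : ℝ≥0∞) = ENNReal.ofReal 32 := by norm_num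
      rw [h32, ← ENNReal.ofReal_mul (by norm_num), ← ENNReal.ofReal_mul (by norm_num),
        ← ENNReal.ofReal_add (by positivity) (by positivity)]
      refine ENNReal.ofReal_le_ofReal ?_
      have h2 : ‖F n x - f x‖ ≤ ‖F n x‖ + ‖f x‖ := norm_sub_le _ _
      have h3 : (‖F n x‖ + ‖f x‖) ^ 6 ≤ 2 ^ 5 * (‖F n x‖ ^ 6 + ‖f x‖ ^ 6) := by
        have := add_pow_le (norm_nonneg (F n x)) (norm_nonneg (f x)) 6
        simpa using this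
      have h4 : ‖F n x - f x‖ ^ 6 ≤ (‖F n x‖ + ‖f x‖) ^ 6 := by gcongr
      linarith
    calc ∫⁻ x, ‖F n x - f x‖ₑ ^ 6 ≤ ∫⁻ x, (32 * ‖F n x‖ₑ ^ 6 + 32 * ‖f x‖ₑ ^ 6) := lintegral_mono p
      _ = 32 * (∫⁻ x, ‖F n x‖ₑ ^ 6) + 32 * ∫⁻ x, ‖f x‖ₑ ^ 6 := by
        rw [lintegral_add_left (((hF n).enorm.measurable.pow_const 6).const_mul 32),
          lintegral_const_mul _ ((hF n).enorm.measurable.pow_const 6),
          lintegral_const_mul _ (hf.enorm.measurable.pow_const 6)]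
      _ ≤ 32 * B + 32 * B := by gcongr; exact hb n
      _ = 64 * B := by rw [← add_mul]; norm_num
  have hB64 : 64 * B ≠ ∞ := ENNReal.mul_ne_top (by norm_num) hB
  have kF := fun n => key (F n) (hF n) (ne_top_of_le_ne_top hB (hb n))
  have kf := key f hf (ne_top_of_le_ne_top hB hfB)
  have kD := fun n => key (fun x => F n x - f x) ((hF n).sub hf) (ne_top_of_le_ne_top hB64 (hdiff n))
  have hQ : ∀ n, ∫ x, ‖F n x - f x‖ ^ 6 ≤ (64 * B).toReal := fun n => by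
    rw [← (kD n).2]
    exact ENNReal.toReal_mono hB64 (hdiff n)
  simp only [(kF _).2, kf.2]
  have e2 : ∀ n, (∫⁻ x, ‖F n x - f x‖ₑ ^ 6).toReal = ∫ x, ‖F n x - f x‖ ^ 6 := fun n => (kD n).2
  simp only [e2]
  set K : ℝ := (64 * B).toReal with hK
  have hK0 : 0 ≤ K := ENNReal.toReal_nonneg
  rw [Metric.tendsto_atTop]
  intro ε hε
  obtain ⟨C, hC, hCe⟩ := sg19_cpx (ε := ε / (2 * (K + 1))) (by positivity)
  set e : ℝ := ε / (2 * (K + 1)) with he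
  have he0 : 0 < e := by positivity
  have heK : e * K < ε / 2 := by
    rw [he]
    have : ε / (2 * (K + 1)) * K = ε / 2 * (K / (K + 1)) := by field_simp
    rw [this]
    have h1 : K / (K + 1) < 1 := by rw [div_lt_one (by linarith)]; linarith
    nlinarith
  set W : ℕ → ℝ × ℝ → ℝ := fun n x =>
    max (|‖F n x‖ ^ 6 - ‖F n x - f x‖ ^ 6 - ‖f x‖ ^ 6| - e * ‖F n x - f x‖ ^ 6) 0 with hW
  have hWc : ∀ n, Continuous (W n) := by
    intro n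
    have := hF n
    simp only [hW]
    fun_prop
  have hWle : ∀ n x, ‖W n x‖ ≤ C * ‖f x‖ ^ 6 := by
    intro n x
    rw [Real.norm_eq_abs, abs_of_nonneg (le_max_right _ _)]
    refine max_le ?_ (by positivity)
    linarith [hCe (F n x) (f x)]
  have hW0 : Tendsto (fun n => ∫ x, W n x) atTop (𝓝 (∫ _x : ℝ × ℝ, (0 : ℝ))) := by
    refine tendsto_integral_of_dominated_convergence (fun x => C * ‖f x‖ ^ 6)
      (fun n => (hWc n).aestronglyMeasurable) (kf.1.const_mul C)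
      (fun n => Eventually.of_forall (hWle n)) (Eventually.of_forall fun x => ?_)
    have h1 : Tendsto (fun n => ‖F n x‖ ^ 6) atTop (𝓝 (‖f x‖ ^ 6)) := ((hlim x).norm).pow 6
    have h2 : Tendsto (fun n => ‖F n x - f x‖ ^ 6) atTop (𝓝 0) := by
      have := (((hlim x).sub_const (f x)).norm).pow 6
      simpa using this
    have h3 : Tendsto (fun n => max (|‖F n x‖ ^ 6 - ‖F n x - f x‖ ^ 6 - ‖f x‖ ^ 6|
        - e * ‖F n x - f x‖ ^ 6) 0) atTop (𝓝 (max (|‖f x‖ ^ 6 - 0 - ‖f x‖ ^ 6| - e * 0) 0)) :=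
      ((((h1.sub h2).sub_const _).abs).sub (h2.const_mul e)).max tendsto_const_nhds
    simpa using h3
  rw [integral_zero] at hW0
  obtain ⟨N, hN⟩ := (Metric.tendsto_atTop.1 hW0) (ε / 2) (by positivity)
  refine ⟨N, fun n hn => ?_⟩
  have hNn := hN n hn
  rw [Real.dist_eq, sub_zero] at hNn
  have hWn := (abs_lt.1 hNn).2
  have es : (∫ x, ‖F n x‖ ^ 6) - (∫ x, ‖F n x - f x‖ ^ 6) - ∫ x, ‖f x‖ ^ 6 =
      ∫ x, (‖F n x‖ ^ 6 - ‖F n x - f x‖ ^ 6 - ‖f x‖ ^ 6) := by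
    have h1 := integral_sub (kF n).1 (kD n).1
    have h2 := integral_sub ((kF n).1.sub (kD n).1) kf.1
    simp only [Pi.sub_apply] at h2
    rw [← h1]
    exact h2.symm
  rw [Real.dist_eq, es]
  have hWi : Integrable (W n) :=
    (kf.1.const_mul C).mono' (hWc n).aestronglyMeasurable (Eventually.of_forall (hWle n))
  calc |∫ x, (‖F n x‖ ^ 6 - ‖F n x - f x‖ ^ 6 - ‖f x‖ ^ 6)|
      ≤ ∫ x, |‖F n x‖ ^ 6 - ‖F n x - f x‖ ^ 6 - ‖f x‖ ^ 6| := abs_integral_le_integral_abs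
    _ ≤ ∫ x, (W n x + e * ‖F n x - f x‖ ^ 6) := by
      refine integral_mono (((kF n).1.sub (kD n).1).sub kf.1).abs (hWi.add ((kD n).1.const_mul e))
        fun x => ?_
      have : |‖F n x‖ ^ 6 - ‖F n x - f x‖ ^ 6 - ‖f x‖ ^ 6| - e * ‖F n x - f x‖ ^ 6 ≤ W n x :=
        le_max_left _ _
      linarith
    _ = (∫ x, W n x) + e * ∫ x, ‖F n x - f x‖ ^ 6 := by
      rw [integral_add hWi ((kD n).1.const_mul e), integral_const_mul]
    _ < ε := by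
      have := mul_le_mul_of_nonneg_left (hQ n) he0.le
      linarith

end Pool.Agent.Lib.MP_230119_an
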