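import Pool.Agent.Lib.MP_230119_an.SGDef2
import Pool.Agent.Lib.MP_230119_an.SG10

set_option autoImplicit false

open MeasureTheory Set Filter Topology
open scoped ENNReal

namespace Pool.Agent.Lib.MP_230119_an

theorem sg20_dt (z : ℝ × ℝ) (θ : ℝ) : |dt z (om θ)| ≤ 2 * ‖z‖ := by
  unfold dt om
  have h1 : |z.1| ≤ ‖z‖ := norm_fst_le z
  have h2 : |z.2| ≤ ‖z‖ := norm_snd_le z
  have h3 := Real.abs_cos_le_one θ
  have h4 := Real.abs_sin_le_one θ
  calc |z.1 * Real.cos θ + z.2 * Real.sin θ| ≤ |z.1 * Real.cos θ| + |z.2 * Real.sin θ| :=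
        abs_add_le _ _
    _ = |z.1| * |Real.cos θ| + |z.2| * |Real.sin θ| := by rw [abs_mul, abs_mul]
    _ ≤ ‖z‖ * 1 + ‖z‖ * 1 := by gcongr
    _ = 2 * ‖z‖ := by ring

theorem sg20_ph (x y : ℝ × ℝ) (θ : ℝ) : ‖ph x (om θ) - ph y (om θ)‖ ≤ 2 * ‖x - y‖ := by
  have h1 : ph x (om θ) - ph y (om θ) = ph y (om θ) * (ph (x - y) (om θ) - 1) := by
    rw [mul_sub, mul_one, mul_comm (ph y (om θ)), ← ph_add_left, sub_add_cancel]
  rw [h1, norm_mul, norm_ph, one_mul]
  have h2 : ph (x - y) (om θ) = Complex.exp (Complex.I * ((-(dt (x - y) (om θ)) : ℝ) : ℂ)) := by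
    unfold ph
    push_cast
    rw [mul_neg]
  rw [h2]
  refine Real.norm_exp_I_mul_ofReal_sub_one_le.trans ?_
  rw [norm_neg, Real.norm_eq_abs]
  exact sg20_dt _ _

theorem sg20_lip {u : ℝ → ℂ} (hu : Integrable u mc) (x y : ℝ × ℝ) :
    ‖ex u x - ex u y‖ ≤ (2 * ∫ θ, ‖u θ‖ ∂mc) * ‖x - y‖ := by
  unfold ex tr
  rw [← integral_sub (integrable_tr continuous_om.measurable hu x)
    (integrable_tr continuous_om.measurable hu y)]
  calc ‖∫ θ, (u θ * ph x (om θ) - u θ * ph y (om θ)) ∂mc‖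
      ≤ ∫ θ, ‖u θ‖ * (2 * ‖x - y‖) ∂mc := by
        refine norm_integral_le_of_norm_le (hu.norm.mul_const _) (Eventually.of_forall fun θ => ?_)
        rw [← mul_sub, norm_mul]
        gcongr
        exact sg20_ph x y θ
    _ = (2 * ∫ θ, ‖u θ‖ ∂mc) * ‖x - y‖ := by
        rw [integral_mul_const]
        ring

theorem ex_decay {u : ℝ → ℂ} (hu : MemLp u 2 mc) :
    Tendsto (ex u) (cocompact (ℝ × ℝ)) (𝓝 0) := by
  have hint := integrable_of_memLp hu
  have hcont := continuous_ex hint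
  have hmeas : Measurable fun x => ‖ex u x‖ₑ ^ 6 := hcont.measurable.enorm.pow_const 6
  have hfin : ∫⁻ x, ‖ex u x‖ₑ ^ 6 ≠ ∞ := by
    obtain ⟨C, -, hC⟩ := crude
    have h1 := hC u hu
    refine ne_top_of_le_ne_top ?_ h1
    exact ENNReal.mul_ne_top ENNReal.ofReal_ne_top (ENNReal.pow_ne_top (N2_ne_top hu))
  set L : ℝ := 2 * (∫ θ, ‖u θ‖ ∂mc) + 1 with hL
  have hI0 : 0 ≤ ∫ θ, ‖u θ‖ ∂mc := integral_nonneg fun _ => norm_nonneg _
  have hLpos : 0 < L := by positivity
  have hlip : ∀ x y, ‖ex u x - ex u y‖ ≤ L * ‖x - y‖ := by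
    intro x y
    refine (sg20_lip hint x y).trans ?_
    gcongr
    rw [hL]; linarith
  -- the finite measure
  set ν : Measure (ℝ × ℝ) := volume.withDensity fun x => ‖ex u x‖ₑ ^ 6 with hν
  have hνfin : ν univ ≠ ∞ := by
    rw [hν, withDensity_apply _ MeasurableSet.univ, Measure.restrict_univ]
    exact hfin
  have htail : Tendsto (fun n : ℕ => ν (Metric.closedBall (0 : ℝ × ℝ) n)ᶜ) atTop (𝓝 0) := by
    have h1 := tendsto_measure_iInter_atTop (μ := ν)
      (s := fun n : ℕ => (Metric.closedBall (0 : ℝ × ℝ) n)ᶜ)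
      (fun n => Metric.isClosed_closedBall.measurableSet.compl.nullMeasurableSet)
      (fun m n hmn => compl_subset_compl.mpr (Metric.closedBall_subset_closedBall
        (by exact_mod_cast hmn)))
      ⟨0, ne_top_of_le_ne_top hνfin (measure_mono (subset_univ _))⟩
    have h2 : (⋂ n : ℕ, (Metric.closedBall (0 : ℝ × ℝ) n)ᶜ) = ∅ := by
      rw [← compl_iUnion, Metric.iUnion_closedBall_nat, compl_univ]
    rw [h2, measure_empty] at h1
    exact h1
  rw [Metric.tendsto_nhds]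
  intro ε hε
  set r : ℝ := ε / (2 * L) with hr
  have hr0 : 0 < r := by positivity
  have hc : 0 < ENNReal.ofReal ((ε / 2) ^ 6) * volume (Metric.ball (0 : ℝ × ℝ) r) := by
    refine ENNReal.mul_pos ?_ (Metric.measure_ball_pos volume 0 hr0).ne'
    exact (ENNReal.ofReal_pos.mpr (by positivity)).ne'
  obtain ⟨n, hn⟩ := (htail.eventually (gt_mem_nhds hc)).exists
  have hmem : (Metric.closedBall (0 : ℝ × ℝ) (n + r))ᶜ ∈ cocompact (ℝ × ℝ) :=
    (isCompact_closedBall _ _).compl_mem_cocompact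
  filter_upwards [hmem] with x hx
  rw [dist_zero_right]
  by_contra hcon
  push Not at hcon
  rw [mem_compl_iff, Metric.mem_closedBall, dist_zero_right, not_le] at hx
  have hsub : Metric.ball x r ⊆ (Metric.closedBall (0 : ℝ × ℝ) n)ᶜ := by
    intro y hy
    rw [Metric.mem_ball, dist_eq_norm] at hy
    rw [mem_compl_iff, Metric.mem_closedBall, dist_zero_right, not_le]
    have : ‖x‖ ≤ ‖y‖ + ‖y - x‖ := by
      have h3 := norm_sub_norm_le x y
      rw [norm_sub_rev] at h3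
      linarith
    linarith
  have hlow : ENNReal.ofReal ((ε / 2) ^ 6) * volume (Metric.ball (0 : ℝ × ℝ) r) ≤
      ν (Metric.ball x r) := by
    rw [hν, withDensity_apply _ Metric.isOpen_ball.measurableSet]
    have h4 : volume (Metric.ball (0 : ℝ × ℝ) r) = volume (Metric.ball x r) :=
      (Measure.addHaar_ball_center volume x r).symm
    rw [h4, ← setLIntegral_const]
    refine setLIntegral_mono hmeas ?_
    intro y hy
    rw [Metric.mem_ball, dist_eq_norm] at hy
    have h5 : ε / 2 ≤ ‖ex u y‖ := by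
      have h6 := hlip x y
      have h7 := norm_sub_norm_le (ex u x) (ex u y)
      rw [norm_sub_rev] at hy
      have h8 : L * ‖x - y‖ ≤ L * r := by gcongr
      have h9 : L * r = ε / 2 := by rw [hr]; field_simp
      linarith
    rw [ENNReal.ofReal_pow (by positivity), ← ofReal_norm]
    gcongr
  have := hlow.trans (measure_mono hsub)
  exact absurd hn (not_lt.mpr this)

end Pool.Agent.Lib.MP_230119_an
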