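import Pool.Agent.Lib.MP_230119_an.SGDef2
import Pool.Agent.Lib.MP_230119_an.SG20
import Pool.Agent.Lib.MP_230119_an.SG21

set_option autoImplicit false

open MeasureTheory Set Filter Topology
open scoped ENNReal

namespace Pool.Agent.Lib.MP_230119_an

theorem sg23_ex_eq_inner (g : HS) (x : ℝ × ℝ) :
    ex (g : ℝ → ℂ) x = inner ℂ (Ty (-x) oneH) g := by
  rw [L2.inner_def]
  unfold ex tr
  refine integral_congr_ae ?_
  filter_upwards [coeFn_Ty (-x) oneH, (memLp_const (1 : ℂ) (p := 2) (μ := mc)).coeFn_toLp]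
    with θ h1 h2
  have h3 : (oneH : ℝ → ℂ) θ = 1 := h2
  simp only [RCLike.inner_apply]
  rw [h1, h3, mul_one, ph_neg_left, Complex.conj_conj]

theorem weak_ex {g : ℕ → HS} {φ : HS} (h : WeakTo g φ) (x : ℝ × ℝ) :
    Tendsto (fun n => ex (g n) x) atTop (𝓝 (ex φ x)) := by
  simp only [sg23_ex_eq_inner]
  exact h _

theorem sg23_decay {u : ℝ → ℂ} (hu : Integrable u mc) :
    Tendsto (ex u) (cocompact (ℝ × ℝ)) (𝓝 0) := by
  rw [Metric.tendsto_nhds]
  intro ε hε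
  have hu1 : MemLp u 1 mc := memLp_one_iff_integrable.2 hu
  obtain ⟨g, hg, hg1⟩ := hu1.exists_simpleFunc_eLpNorm_sub_lt (by norm_num)
    (ε := ENNReal.ofReal (ε / 2)) (by
      rw [ne_eq, ENNReal.ofReal_eq_zero, not_le]
      positivity)
  have hg2 : MemLp (g : ℝ → ℂ) 2 mc := SimpleFunc.memLp_of_isFiniteMeasure g 2 mc
  have h1 := (Metric.tendsto_nhds.1 (ex_decay hg2)) (ε / 2) (by positivity)
  filter_upwards [h1] with x hx
  rw [dist_zero_right] at hx ⊢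
  have hgi : Integrable (g : ℝ → ℂ) mc := memLp_one_iff_integrable.1 hg1
  have h2 : ex u x = ex (u - (g : ℝ → ℂ)) x + ex (g : ℝ → ℂ) x := by
    rw [← ex_add (hu.sub hgi) hgi]
    congr 1
    simp
  have h3 : ‖ex (u - (g : ℝ → ℂ)) x‖ < ε / 2 := by
    have h4 : ‖ex (u - (g : ℝ → ℂ)) x‖ ≤ ∫ θ, ‖(u - (g : ℝ → ℂ)) θ‖ ∂mc := norm_tr_le x
    have h5 : ∫ θ, ‖(u - (g : ℝ → ℂ)) θ‖ ∂mc = (eLpNorm (u - (g : ℝ → ℂ)) 1 mc).toReal := by
      rw [eLpNorm_one_eq_lintegral_enorm,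
        integral_norm_eq_lintegral_enorm (hu.sub hgi).aestronglyMeasurable]
    rw [h5] at h4
    refine h4.trans_lt ?_
    have h6 := (ENNReal.toReal_lt_toReal (ne_top_of_lt hg) ENNReal.ofReal_ne_top).2 hg
    rwa [ENNReal.toReal_ofReal (by positivity)] at h6
  rw [h2]
  calc ‖ex (u - (g : ℝ → ℂ)) x + ex (g : ℝ → ℂ) x‖
      ≤ ‖ex (u - (g : ℝ → ℂ)) x‖ + ‖ex (g : ℝ → ℂ) x‖ := norm_add_le _ _
    _ < ε / 2 + ε / 2 := add_lt_add h3 hx
    _ = ε := by ring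

theorem weak_Ty_zero {x : ℕ → ℝ × ℝ} (hx : Tendsto x atTop (cocompact (ℝ × ℝ))) (v : HS) :
    WeakTo (fun n => Ty (x n) v) 0 := by
  intro w
  have h1 : Integrable (fun θ => v θ * (starRingEnd ℂ) (w θ)) mc := by
    have h2 : MemLp (fun θ => (starRingEnd ℂ) (w θ)) 2 mc := (Lp.memLp w).star
    exact (Lp.memLp v).integrable_mul h2
  have h3 : ∀ n, inner ℂ w (Ty (x n) v) = ex (fun θ => v θ * (starRingEnd ℂ) (w θ)) (x n) := by
    intro n
    rw [L2.inner_def]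
    unfold ex tr
    refine integral_congr_ae ?_
    filter_upwards [coeFn_Ty (x n) v] with θ h4
    simp only [RCLike.inner_apply]
    rw [h4]
    ring
  rw [inner_zero_right]
  simp only [h3]
  exact (sg23_decay h1).comp hx

theorem sg23_ph_sub (x y : ℝ × ℝ) (θ : ℝ) :
    ‖ph x (om θ) - ph y (om θ)‖ ≤ 2 * ‖x - y‖ := by
  have h1 : ph x (om θ) = ph y (om θ) * ph (x - y) (om θ) := by
    rw [← ph_add_left]
    congr 1
    abel
  have h2 : ph x (om θ) - ph y (om θ) = ph y (om θ) * (ph (x - y) (om θ) - 1) := by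
    rw [mul_sub, ← h1, mul_one]
  rw [h2, norm_mul, norm_ph, one_mul]
  have h3 : ph (x - y) (om θ) = Complex.exp (Complex.I * ((-(dt (x - y) (om θ)) : ℝ) : ℂ)) := by
    unfold ph
    congr 1
    push_cast
    ring
  rw [h3]
  refine (Real.norm_exp_I_mul_ofReal_sub_one_le).trans ?_
  rw [Real.norm_eq_abs, abs_neg]
  have h4 : |(x - y).1| ≤ ‖x - y‖ := norm_fst_le (x - y)
  have h5 : |(x - y).2| ≤ ‖x - y‖ := norm_snd_le (x - y)
  unfold dt om
  simp only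
  calc |(x - y).1 * Real.cos θ + (x - y).2 * Real.sin θ|
      ≤ |(x - y).1 * Real.cos θ| + |(x - y).2 * Real.sin θ| := abs_add_le _ _
    _ = |(x - y).1| * |Real.cos θ| + |(x - y).2| * |Real.sin θ| := by rw [abs_mul, abs_mul]
    _ ≤ ‖x - y‖ * 1 + ‖x - y‖ * 1 := by
        refine add_le_add (mul_le_mul h4 (Real.abs_cos_le_one θ) (abs_nonneg _) (norm_nonneg _))
          (mul_le_mul h5 (Real.abs_sin_le_one θ) (abs_nonneg _) (norm_nonneg _))
    _ = 2 * ‖x - y‖ := by ring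

theorem sg23_Ty_sub (x y : ℝ × ℝ) (v : HS) : ‖Ty x v - Ty y v‖ ≤ 2 * ‖x - y‖ * ‖v‖ := by
  refine Lp.norm_le_mul_norm_of_ae_le_mul ?_
  filter_upwards [Lp.coeFn_sub (Ty x v) (Ty y v), coeFn_Ty x v, coeFn_Ty y v] with θ h1 h2 h3
  rw [h1, Pi.sub_apply, h2, h3, ← sub_mul, norm_mul]
  exact mul_le_mul_of_nonneg_right (sg23_ph_sub x y θ) (norm_nonneg _)

theorem weak_shift {x : ℕ → ℝ × ℝ} {y : ℝ × ℝ} (hx : Tendsto x atTop (𝓝 y)) {g : ℕ → HS}
    (hg : WeakTo g 0) {B : ℝ} (hB : ∀ n, ‖g n‖ ≤ B) : WeakTo (fun n => Ty (x n) (g n)) 0 := by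
  intro v
  rw [inner_zero_right]
  have hB0 : 0 ≤ B := (norm_nonneg _).trans (hB 0)
  have h1 : ∀ n, inner ℂ v (Ty (x n) (g n)) =
      inner ℂ (Ty (-(x n)) v - Ty (-y) v) (g n) + inner ℂ (Ty (-y) v) (g n) := by
    intro n
    rw [← inner_add_left, sub_add_cancel, inner_Ty, neg_neg]
  simp only [h1]
  have h2 : Tendsto (fun n => inner ℂ (Ty (-y) v) (g n)) atTop (𝓝 0) := by
    have h3 := hg (Ty (-y) v)
    rwa [inner_zero_right] at h3
  have h4 : Tendsto (fun n => inner ℂ (Ty (-(x n)) v - Ty (-y) v) (g n)) atTop (𝓝 0) := by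
    have h5 : Tendsto (fun n => 2 * ‖(-(x n)) - (-y)‖ * ‖v‖ * B) atTop (𝓝 0) := by
      have h6 : Tendsto (fun n => ‖(-(x n)) - (-y)‖) atTop (𝓝 0) := by
        rw [← tendsto_iff_norm_sub_tendsto_zero]
        exact hx.neg
      have h7 := ((h6.const_mul 2).mul_const ‖v‖).mul_const B
      simpa using h7
    refine squeeze_zero_norm (fun n => ?_) h5
    refine (norm_inner_le_norm _ _).trans ?_
    exact mul_le_mul (sg23_Ty_sub _ _ _) (hB n) (norm_nonneg _) (by positivity)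
  simpa using h4.add h2

theorem ex_indicator_inner {S : Set ℝ} (hS : MeasurableSet S) :
    ∃ w : HS, ∀ (g : HS) (x : ℝ × ℝ), ex (S.indicator (g : ℝ → ℂ)) x = inner ℂ w (Ty x g) := by
  refine ⟨indicatorConstLp 2 hS (measure_ne_top mc S) (1 : ℂ), fun g x => ?_⟩
  rw [L2.inner_def]
  unfold ex tr
  refine integral_congr_ae ?_
  filter_upwards [indicatorConstLp_coeFn (p := 2) (hs := hS) (hμs := measure_ne_top mc S)
    (c := (1 : ℂ)), coeFn_Ty x g] with θ h1 h2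
  simp only [RCLike.inner_apply]
  rw [h1, h2]
  by_cases hθ : θ ∈ S
  · simp [Set.indicator_of_mem hθ, mul_comm]
  · simp [Set.indicator_of_notMem hθ]

end Pool.Agent.Lib.MP_230119_an
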