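import Pool.Agent.Lib.MP_230119_an.SGDef2
import Pool.Agent.Lib.MP_230119_an.SG19
import Pool.Agent.Lib.MP_230119_an.SG21
import Pool.Agent.Lib.MP_230119_an.SG23

set_option autoImplicit false

open MeasureTheory Set Filter Topology
open scoped ENNReal

namespace Pool.Agent.Lib.MP_230119_an

theorem BL_Ty {x : ℕ → ℝ × ℝ} {g : ℕ → HS} {φ : HS} {B : ℝ} (hB : ∀ n, ‖g n‖ ≤ B)
    (h : WeakTo (fun n => Ty (x n) (g n)) φ) :
    Tendsto (fun n => Jr (g n) - Jr (g n - Ty (-(x n)) φ)) atTop (𝓝 (Jr φ)) := by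
  have hb : ∀ n, ∫⁻ y, ‖ex (Ty (x n) (g n)) y‖ₑ ^ 6 ≤ ENNReal.ofReal (4 * Kst * B ^ 6) := by
    intro n
    have h1 : ∫⁻ y, ‖ex (Ty (x n) (g n)) y‖ₑ ^ 6 = J (Ty (x n) (g n)) := rfl
    rw [h1, J_HS, Jr_Ty]
    refine ENNReal.ofReal_le_ofReal ((Jr_le (g n)).trans ?_)
    have hK := Kst_pos
    exact mul_le_mul_of_nonneg_left (pow_le_pow_left₀ (norm_nonneg _) (hB n) 6) (by positivity)
  have key := brezis_lieb (F := fun n => ex (Ty (x n) (g n))) (f := ex φ)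
    (fun n => continuous_ex_HS _) (continuous_ex_HS _) (fun y => weak_ex h y)
    (B := ENNReal.ofReal (4 * Kst * B ^ 6)) ENNReal.ofReal_ne_top hb
  refine key.congr fun n => ?_
  have e1 : (∫⁻ y, ‖ex (Ty (x n) (g n)) y‖ₑ ^ 6).toReal = Jr (g n) := by
    rw [← Jr_Ty (x n) (g n)]
    rfl
  have e2 : (∫⁻ y, ‖ex (Ty (x n) (g n)) y - ex φ y‖ₑ ^ 6).toReal
      = Jr (g n - Ty (-(x n)) φ) := by
    rw [← Jr_Ty (x n) (g n - Ty (-(x n)) φ), Ty_sub, Ty_Ty, add_neg_cancel, Ty_zero]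
    have e3 : ∀ y, ex (Ty (x n) (g n)) y - ex φ y
        = ex ((Ty (x n) (g n) - φ : HS) : ℝ → ℂ) y := fun y => (ex_sub_HS _ _ y).symm
    simp only [e3]
    rfl
  rw [e1, e2]

/-- the `L⁶` norm of the extension -/
noncomputable def sg24_a (g : HS) : ℝ := (eLpNorm (ex (g : ℝ → ℂ)) 6 volume).toReal

lemma sg24_eLp_pow (g : HS) : eLpNorm (ex (g : ℝ → ℂ)) 6 volume ^ 6 = J (g : ℝ → ℂ) := by
  rw [eLpNorm_eq_lintegral_rpow_enorm_toReal (by norm_num) (by norm_num)]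
  rw [← ENNReal.rpow_natCast, ← ENNReal.rpow_mul]
  have h6 : (6 : ℝ≥0∞).toReal = 6 := by norm_num
  rw [h6]
  norm_num
  unfold J
  refine lintegral_congr fun θ => ?_
  norm_cast

lemma sg24_eLp_ne_top (g : HS) : eLpNorm (ex (g : ℝ → ℂ)) 6 volume ≠ ∞ := by
  intro h
  have h1 := sg24_eLp_pow g
  rw [h, J_HS] at h1
  simp at h1

lemma sg24_a_pow (g : HS) : sg24_a g ^ 6 = Jr g := by
  unfold sg24_a Jr
  rw [← ENNReal.toReal_pow, sg24_eLp_pow]

lemma sg24_a_nonneg (g : HS) : 0 ≤ sg24_a g := ENNReal.toReal_nonneg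

lemma sg24_a_add_le (g h : HS) : sg24_a (g + h) ≤ sg24_a g + sg24_a h := by
  unfold sg24_a
  rw [← ENNReal.toReal_add (sg24_eLp_ne_top g) (sg24_eLp_ne_top h)]
  refine ENNReal.toReal_mono (ENNReal.add_ne_top.2 ⟨sg24_eLp_ne_top g, sg24_eLp_ne_top h⟩) ?_
  have e : ex ((g + h : HS) : ℝ → ℂ) = ex (g : ℝ → ℂ) + ex (h : ℝ → ℂ) := by
    funext x
    exact ex_add_HS g h x
  rw [e]
  exact eLpNorm_add_le (continuous_ex_HS g).aestronglyMeasurable
    (continuous_ex_HS h).aestronglyMeasurable (by norm_num)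

lemma sg24_a_neg (g : HS) : sg24_a (-g) = sg24_a g := by
  have h : Jr (-g) = Jr g := by
    have := Jr_smul (-1) g
    simpa using this
  rw [← sg24_a_pow, ← sg24_a_pow] at h
  exact (pow_left_inj₀ (sg24_a_nonneg _) (sg24_a_nonneg _) (by norm_num)).1 h

theorem Jr_perturb {g e : ℕ → HS} {B : ℝ} (hB : ∀ n, ‖g n‖ ≤ B)
    (he : Tendsto (fun n => ‖e n‖) atTop (𝓝 0)) {L : ℝ}
    (hL : Tendsto (fun n => Jr (g n)) atTop (𝓝 L)) :
    Tendsto (fun n => Jr (g n + e n)) atTop (𝓝 L) := by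
  have hinv : ∀ g : HS, sg24_a g = Jr g ^ ((6 : ℕ) : ℝ)⁻¹ := by
    intro g
    rw [← sg24_a_pow g]
    exact (Real.pow_rpow_inv_natCast (sg24_a_nonneg g) (by norm_num)).symm
  -- `a (g n)` converges
  have h1 : Tendsto (fun n => sg24_a (g n)) atTop (𝓝 (L ^ ((6 : ℕ) : ℝ)⁻¹)) := by
    simp only [hinv]
    exact hL.rpow_const (Or.inr (by positivity))
  have hL0 : 0 ≤ L := ge_of_tendsto' hL fun n => Jr_nonneg _
  -- `a (e n) → 0`
  have hJe : Tendsto (fun n => Jr (e n)) atTop (𝓝 0) := by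
    have h2 : Tendsto (fun n => 4 * Kst * ‖e n‖ ^ 6) atTop (𝓝 (4 * Kst * 0 ^ 6)) :=
      (he.pow 6).const_mul _
    rw [zero_pow (by norm_num), mul_zero] at h2
    exact squeeze_zero (fun n => Jr_nonneg _) (fun n => Jr_le _) h2
  have h3 : Tendsto (fun n => sg24_a (e n)) atTop (𝓝 0) := by
    simp only [hinv]
    have := hJe.rpow_const (p := ((6 : ℕ) : ℝ)⁻¹) (Or.inr (by positivity))
    rwa [Real.zero_rpow (by positivity)] at this
  have h4 : Tendsto (fun n => sg24_a (g n + e n)) atTop (𝓝 (L ^ ((6 : ℕ) : ℝ)⁻¹)) := by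
    refine tendsto_of_tendsto_of_tendsto_of_le_of_le
      (g := fun n => sg24_a (g n) - sg24_a (e n)) (h := fun n => sg24_a (g n) + sg24_a (e n))
      ?_ ?_ (fun n => ?_) (fun n => ?_)
    · simpa using h1.sub h3
    · simpa using h1.add h3
    · have h5 := sg24_a_add_le (g n + e n) (-(e n))
      rw [add_neg_cancel_right, sg24_a_neg] at h5
      show sg24_a (g n) - sg24_a (e n) ≤ sg24_a (g n + e n)
      linarith
    · exact sg24_a_add_le (g n) (e n)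
  have h6 := h4.pow 6
  have h7 : (L ^ ((6 : ℕ) : ℝ)⁻¹) ^ 6 = L := Real.rpow_inv_natCast_pow hL0 (by norm_num)
  rw [h7] at h6
  refine h6.congr fun n => ?_
  exact sg24_a_pow _

end Pool.Agent.Lib.MP_230119_an
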