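import Pool.Agent.Lib.MP_230119_an.SGDef2
import Pool.Agent.Lib.MP_230119_an.SG24
import Pool.Agent.Lib.MP_230119_an.Mg.G010

set_option autoImplicit false

open MeasureTheory Set Filter Topology
open scoped ENNReal

namespace Pool.Agent.Lib.MP_230119_an

private lemma sg33_coe : (oneH : ℝ → ℂ) =ᵐ[mc] fun _ => (1 : ℂ) :=
  (memLp_const (1 : ℂ)).coeFn_toLp

private lemma sg33_J : J (oneH : ℝ → ℂ) = J fun _ => (1 : ℂ) := by
  unfold J
  refine lintegral_congr fun x => ?_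
  rw [ex_congr sg33_coe x]

theorem Jr_oneH (c : ℂ) : Jr (c • oneH) = ‖c‖ ^ 6 * Lam := by
  rw [Jr_smul]
  congr 1
  unfold Jr Lam
  rw [sg33_J]

theorem norm_oneH : ‖oneH‖ ^ 2 = 2 * Real.pi := by
  have h1 := N2_HS oneH
  have h2 : N2 (oneH : ℝ → ℂ) = ENNReal.ofReal (2 * Real.pi) := by
    unfold N2
    have : ∫⁻ θ, ‖(oneH : ℝ → ℂ) θ‖ₑ ^ 2 ∂mc = ∫⁻ _, (1 : ℝ≥0∞) ∂mc := by
      refine lintegral_congr_ae ?_
      filter_upwards [sg33_coe] with θ hθ
      rw [hθ]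
      simp
    rw [this, lintegral_const, one_mul]
    unfold mc
    rw [Measure.restrict_apply_univ, Real.volume_Ioc, sub_zero]
  rw [h2] at h1
  have hpi := Real.pi_pos
  have h3 := (ENNReal.ofReal_eq_ofReal_iff (by positivity) (by positivity)).1 h1
  exact h3.symm

theorem limit_pos {c : ℕ → ℂ} {c₀ : ℂ} (hc : Tendsto c atTop (𝓝 c₀)) {g : ℕ → HS}
    (hg : WeakTo g 0) {B : ℝ} (hB : ∀ n, ‖g n‖ ≤ B) {L : ℝ}
    (hL : Tendsto (fun n => Jr (g n)) atTop (𝓝 L)) :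
    Tendsto (fun n => Jr (c n • oneH + g n)) atTop (𝓝 (‖c₀‖ ^ 6 * Lam + L)) := by
  -- bound for the coefficients
  obtain ⟨C, hC⟩ : ∃ C : ℝ, ∀ n, ‖c n‖ ≤ C := by
    obtain ⟨C, hC⟩ := (hc.norm).bddAbove_range
    exact ⟨C, fun n => hC ⟨n, rfl⟩⟩
  have hBG : ∀ n, ‖c n • oneH + g n‖ ≤ C * ‖oneH‖ + B := by
    intro n
    refine (norm_add_le _ _).trans (add_le_add ?_ (hB n))
    rw [norm_smul]
    exact mul_le_mul_of_nonneg_right (hC n) (norm_nonneg _)
  have hw : WeakTo (fun n => Ty ((fun _ => (0 : ℝ × ℝ)) n) (c n • oneH + g n)) (c₀ • oneH) := by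
    intro v
    simp only [Ty_zero, inner_add_right, inner_smul_right]
    have h1 : Tendsto (fun n => c n * inner ℂ v oneH + inner ℂ v (g n)) atTop
        (𝓝 (c₀ * inner ℂ v oneH + inner ℂ v (0 : HS))) := (hc.mul_const _).add (hg v)
    simpa using h1
  have hBL := BL_Ty (x := fun _ => (0 : ℝ × ℝ)) (g := fun n => c n • oneH + g n)
    (φ := c₀ • oneH) hBG hw
  have he : Tendsto (fun n => ‖(c n - c₀) • oneH‖) atTop (𝓝 0) := by
    simp only [norm_smul]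
    have h1 : Tendsto (fun n => ‖c n - c₀‖ * ‖oneH‖) atTop (𝓝 (0 * ‖oneH‖)) := by
      refine Tendsto.mul_const _ ?_
      exact tendsto_iff_norm_sub_tendsto_zero.1 hc
    simpa using h1
  have hP := Jr_perturb (g := g) (e := fun n => (c n - c₀) • oneH) hB he hL
  have hsum := hBL.add hP
  rw [Jr_oneH] at hsum
  refine hsum.congr fun n => ?_
  have e1 : c n • oneH + g n - Ty (-(0 : ℝ × ℝ)) (c₀ • oneH) = g n + (c n - c₀) • oneH := by
    rw [neg_zero, Ty_zero, sub_smul]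
    abel
  simp only [e1]
  ring

end Pool.Agent.Lib.MP_230119_an
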