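import Pool.Agent.Lib.MP_230119_an.SGDef2
import Pool.Agent.Lib.MP_230119_an.Mg.G013

set_option autoImplicit false

open MeasureTheory Set Filter Topology
open scoped ENNReal

namespace Pool.Agent.Lib.MP_230119_an

theorem orth {α β : Type*} [MeasurableSpace α] [MeasurableSpace β] {μ : Measure α}
    {ν : Measure β} [SFinite μ] [SFinite ν] {Φ : α → ℝ × ℝ} {Ψ : β → ℝ × ℝ}
    (hΦ : Measurable Φ) (hΨ : Measurable Ψ) {H : α → ℂ} {K : β → ℂ}
    (hH : Integrable H μ) (hK : Integrable K ν)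
    (h1 : MemLp (tr μ Φ H) 2 volume) (h2 : MemLp (tr ν Ψ K) 2 volume) {d : ℝ} (hd : 0 < d)
    (hsep : ∀ a b, H a ≠ 0 → K b ≠ 0 → d ≤ sq (Φ a - Ψ b)) :
    ∫ x, tr μ Φ H x * (starRingEnd ℂ) (tr ν Ψ K x) = 0 := by
  have h2' : MemLp (fun x => (starRingEnd ℂ) (tr ν Ψ K x)) 2 volume := by
    refine MemLp.of_le h2 ?_ (Eventually.of_forall fun x => by simp)
    exact Complex.continuous_conj.comp_aestronglyMeasurable h2.aestronglyMeasurable
  have hint : Integrable (fun x => tr μ Φ H x * (starRingEnd ℂ) (tr ν Ψ K x)) volume :=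
    h1.integrable_mul h2'
  -- limit of the left side
  have hgw : ∀ x : ℝ × ℝ, Tendsto (fun n : ℕ => (gw ((n : ℝ) + 1) x : ℂ)) atTop (𝓝 1) := by
    intro x
    have hR : Tendsto (fun n : ℕ => (n : ℝ) + 1) atTop atTop :=
      tendsto_atTop_add_const_right _ _ tendsto_natCast_atTop_atTop
    have hR2 : Tendsto (fun n : ℕ => 2 * ((n : ℝ) + 1) ^ 2) atTop atTop :=
      Tendsto.const_mul_atTop (by norm_num) ((tendsto_pow_atTop (by norm_num)).comp hR)
    have h0 : Tendsto (fun n : ℕ => -(sq x / (2 * ((n : ℝ) + 1) ^ 2))) atTop (𝓝 (-0)) :=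
      (hR2.const_div_atTop (sq x)).neg
    have h3 : Tendsto (fun n : ℕ => gw ((n : ℝ) + 1) x) atTop (𝓝 1) := by
      have := (Real.continuous_exp.tendsto (-0)).comp h0
      simpa [gw, Function.comp_def] using this
    have := (Complex.continuous_ofReal.tendsto 1).comp h3
    simpa [Function.comp_def] using this
  have hL : Tendsto (fun n : ℕ => ∫ x, tr μ Φ H x * (starRingEnd ℂ) (tr ν Ψ K x) *
      (gw ((n : ℝ) + 1) x : ℂ)) atTop
      (𝓝 (∫ x, tr μ Φ H x * (starRingEnd ℂ) (tr ν Ψ K x))) := by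
    refine tendsto_integral_of_dominated_convergence
      (fun x => ‖tr μ Φ H x * (starRingEnd ℂ) (tr ν Ψ K x)‖) (fun n => ?_) hint.norm
      (fun n => Eventually.of_forall fun x => ?_) (Eventually.of_forall fun x => ?_)
    · exact hint.aestronglyMeasurable.mul
        (Complex.continuous_ofReal.comp (continuous_gw _)).aestronglyMeasurable
    · rw [norm_mul]
      refine mul_le_of_le_one_right (norm_nonneg _) ?_
      rw [Complex.norm_real, Real.norm_eq_abs, abs_of_pos (gw_pos _ _)]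
      unfold gw
      refine Real.exp_le_one_iff.2 ?_
      have : 0 ≤ sq x := sq_nonneg' x
      rw [neg_nonpos]
      positivity
    · simpa using (tendsto_const_nhds (x := tr μ Φ H x * (starRingEnd ℂ) (tr ν Ψ K x))).mul
        (hgw x)
  -- the right side
  set A : ℝ := ∫ y, ‖H y‖ ∂μ with hA
  set B : ℝ := ∫ y, ‖K y‖ ∂ν with hB
  have hbound : ∀ n : ℕ, ‖∫ x, tr μ Φ H x * (starRingEnd ℂ) (tr ν Ψ K x) *
      (gw ((n : ℝ) + 1) x : ℂ)‖ ≤
      2 * Real.pi * (((n : ℝ) + 1) ^ 2 * Real.exp (-(((n : ℝ) + 1) ^ 2 * d / 2)) * (A * B)) := by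
    intro n
    rw [gauss_bil hΦ hΨ hH hK (by positivity : (0 : ℝ) < (n : ℝ) + 1), norm_mul,
      Complex.norm_real, Real.norm_eq_abs, abs_of_pos (by positivity : (0:ℝ) < 2 * Real.pi)]
    refine mul_le_mul_of_nonneg_left ?_ (by positivity)
    have hAB : A * B = ∫ p : α × β, ‖H p.1‖ * ‖K p.2‖ ∂(μ.prod ν) := by
      exact (integral_prod_mul (fun y => ‖H y‖) (fun y => ‖K y‖)).symm
    rw [hAB, ← integral_const_mul]
    refine (norm_integral_le_integral_norm _).trans ?_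
    have hi : Integrable (fun p : α × β => ((n : ℝ) + 1) ^ 2 *
        Real.exp (-(((n : ℝ) + 1) ^ 2 * d / 2)) * (‖H p.1‖ * ‖K p.2‖)) (μ.prod ν) :=
      (hH.norm.mul_prod hK.norm).const_mul _
    refine integral_mono_of_nonneg (Eventually.of_forall fun p => norm_nonneg _) hi
      (Eventually.of_forall fun p => ?_)
    simp only [norm_mul, RCLike.norm_conj, Complex.norm_real, Real.norm_eq_abs,
      abs_of_nonneg (gk_nonneg _ _)]
    rw [mul_comm]
    by_cases hp : H p.1 = 0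
    · simp [hp]
    by_cases hq : K p.2 = 0
    · simp [hq]
    refine mul_le_mul_of_nonneg_right ?_ (by positivity)
    unfold gk
    refine mul_le_mul_of_nonneg_left ?_ (by positivity)
    refine Real.exp_le_exp.2 ?_
    have := hsep _ _ hp hq
    have h3 : ((n : ℝ) + 1) ^ 2 * d ≤ ((n : ℝ) + 1) ^ 2 * sq (Φ p.1 - Ψ p.2) :=
      mul_le_mul_of_nonneg_left this (by positivity)
    linarith
  have hRlim : Tendsto (fun n : ℕ => 2 * Real.pi * (((n : ℝ) + 1) ^ 2 *
      Real.exp (-(((n : ℝ) + 1) ^ 2 * d / 2)) * (A * B))) atTop (𝓝 0) := by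
    have hR : Tendsto (fun n : ℕ => (n : ℝ) + 1) atTop atTop :=
      tendsto_atTop_add_const_right _ _ tendsto_natCast_atTop_atTop
    have hR2 : Tendsto (fun n : ℕ => ((n : ℝ) + 1) ^ 2 * (d / 2)) atTop atTop :=
      Tendsto.atTop_mul_const (by positivity) ((tendsto_pow_atTop (by norm_num)).comp hR)
    have h4 := (Real.tendsto_pow_mul_exp_neg_atTop_nhds_zero 1).comp hR2
    have h5 : Tendsto (fun n : ℕ => (2 * Real.pi * (A * B) * (2 / d)) *
        ((((n : ℝ) + 1) ^ 2 * (d / 2)) ^ 1 * Real.exp (-(((n : ℝ) + 1) ^ 2 * (d / 2)))))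
        atTop (𝓝 ((2 * Real.pi * (A * B) * (2 / d)) * 0)) := h4.const_mul _
    rw [mul_zero] at h5
    refine h5.congr fun n => ?_
    rw [show ((n : ℝ) + 1) ^ 2 * (d / 2) = ((n : ℝ) + 1) ^ 2 * d / 2 by ring]
    field_simp
  have hz : Tendsto (fun n : ℕ => ∫ x, tr μ Φ H x * (starRingEnd ℂ) (tr ν Ψ K x) *
      (gw ((n : ℝ) + 1) x : ℂ)) atTop (𝓝 0) :=
    squeeze_zero_norm hbound hRlim
  exact tendsto_nhds_unique hL hz

end Pool.Agent.Lib.MP_230119_an
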