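import Pool.Agent.Lib.MP_230119_an.SGDef2
import Pool.Agent.Lib.MP_230119_an.Mg.G014
import Pool.Agent.Lib.MP_230119_an.SG04

set_option autoImplicit false

open MeasureTheory Set Filter Topology
open scoped ENNReal

namespace Pool.Agent.Lib.MP_230119_an

private noncomputable def sg16_Phi (p : ℝ × ℝ × ℝ) : ℝ × ℝ := om p.1 + (om p.2.1 + om p.2.2)

private theorem sg16_measurable : Measurable sg16_Phi := by
  unfold sg16_Phi
  have := continuous_om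
  exact Continuous.measurable (by fun_prop)

private noncomputable def sg16_pr (h k l : ℝ → ℂ) (x : ℝ × ℝ) : ℂ := ex h x * (ex k x * ex l x)

private theorem sg16_tr (h k l : ℝ → ℂ) (x : ℝ × ℝ) :
    tr (mc.prod (mc.prod mc)) sg16_Phi (fun p => h p.1 * (k p.2.1 * l p.2.2)) x =
      sg16_pr h k l x := by
  unfold sg16_pr ex tr
  rw [← integral_prod_mul, ← integral_prod_mul]
  refine integral_congr_ae (Eventually.of_forall fun p => ?_)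
  simp only [sg16_Phi, ph_add_right]
  ring

private theorem sg16_dt_sub (u v w : ℝ × ℝ) : dt (u - v) w = dt u w - dt v w := by
  simp only [dt, Prod.fst_sub, Prod.snd_sub]
  ring

private theorem sg16_dt_add (u v w : ℝ × ℝ) : dt (u + v) w = dt u w + dt v w := by
  simp only [dt, Prod.fst_add, Prod.snd_add]
  ring

private theorem sg16_dt_self (a : ℝ) : dt (om a) (om a) = 1 := by
  simp only [dt, om]
  nlinarith [Real.cos_sq_add_sin_sq a]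

private theorem sg16_dt_le (a b : ℝ) : dt (om a) (om b) ≤ 1 := by
  have h1 := sq_om a
  have h2 := sq_om b
  have h3 := sq_nonneg' (om a - om b)
  simp only [sq, dt, Prod.fst_sub, Prod.snd_sub] at *
  nlinarith

private theorem sg16_le_dt (a b : ℝ) : -1 ≤ dt (om a) (om b) := by
  have h1 := sq_om a
  have h2 := sq_om b
  have h3 := sq_nonneg' (om a + om b)
  simp only [sq, dt, Prod.fst_add, Prod.snd_add] at *
  nlinarith

private theorem sg16_dt_near {a b : ℝ} (h : sq (om a - om b) ≤ 1 / 4) :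
    7 / 8 ≤ dt (om a) (om b) := by
  have h1 := sq_om a
  have h2 := sq_om b
  simp only [sq, dt, Prod.fst_sub, Prod.snd_sub] at *
  nlinarith

private theorem sg16_dt_far {a b : ℝ} (h : sq (om a + om b) ≤ 1 / 4) :
    dt (om b) (om a) ≤ -(7 / 8) := by
  have h1 := sq_om a
  have h2 := sq_om b
  simp only [sq, dt, Prod.fst_add, Prod.snd_add] at *
  nlinarith

private theorem sg16_sq_ge {v : ℝ × ℝ} {a : ℝ} (h : 1 ≤ dt v (om a)) : 1 ≤ sq v := by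
  have h2 := sq_om a
  have h3 : dt v (om a) ^ 2 ≤ sq v * sq (om a) := by
    simp only [dt, sq]
    nlinarith [sq_nonneg (v.1 * (om a).2 - v.2 * (om a).1)]
  rw [h2, mul_one] at h3
  nlinarith

private theorem sg16_orth {h k l h' k' l' : ℝ → ℂ} (ih : Integrable h mc) (ik : Integrable k mc)
    (il : Integrable l mc) (ih' : Integrable h' mc) (ik' : Integrable k' mc)
    (il' : Integrable l' mc) (m : MemLp (sg16_pr h k l) 2 volume)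
    (m' : MemLp (sg16_pr h' k' l') 2 volume)
    (hsep : ∀ a b c a' b' c', h a ≠ 0 → k b ≠ 0 → l c ≠ 0 → h' a' ≠ 0 → k' b' ≠ 0 → l' c' ≠ 0 →
      1 ≤ dt (om a) (om a) + (dt (om b) (om a) + dt (om c) (om a)) -
        (dt (om a') (om a) + (dt (om b') (om a) + dt (om c') (om a)))) :
    ∫ x, sg16_pr h k l x * (starRingEnd ℂ) (sg16_pr h' k' l' x) = 0 := by
  have e1 : sg16_pr h k l = tr (mc.prod (mc.prod mc)) sg16_Phi
      (fun p => h p.1 * (k p.2.1 * l p.2.2)) := funext fun x => (sg16_tr h k l x).symm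
  have e2 : sg16_pr h' k' l' = tr (mc.prod (mc.prod mc)) sg16_Phi
      (fun p => h' p.1 * (k' p.2.1 * l' p.2.2)) := funext fun x => (sg16_tr h' k' l' x).symm
  rw [e1] at m ⊢
  rw [e2] at m' ⊢
  refine orth sg16_measurable sg16_measurable (ih.mul_prod (ik.mul_prod il))
    (ih'.mul_prod (ik'.mul_prod il')) m m' (d := 1) one_pos ?_
  rintro ⟨a, b, c⟩ ⟨a', b', c'⟩ hn hn'
  simp only [ne_eq, mul_eq_zero, not_or] at hn hn'
  refine sg16_sq_ge (a := a) ?_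
  simp only [sg16_Phi, sg16_dt_sub, sg16_dt_add]
  exact hsep a b c a' b' c' hn.1 hn.2.1 hn.2.2 hn'.1 hn'.2.1 hn'.2.2

private theorem sg16_memLp {F : ℝ × ℝ → ℂ} (hF : Continuous F) (h : ∫⁻ x, ‖F x‖ₑ ^ 2 ≠ ∞) :
    MemLp F 2 volume := by
  rw [memLp_two_iff_integrable_sq_norm hF.aestronglyMeasurable]
  refine ⟨(hF.norm.pow 2).aestronglyMeasurable, ?_⟩
  have e : ∀ x, ‖‖F x‖ ^ 2‖ₑ = ‖F x‖ₑ ^ 2 := fun x => by
    rw [enorm_pow, enorm_norm]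
  unfold HasFiniteIntegral
  simp only [e]
  exact lt_top_iff_ne_top.mpr h

private theorem sg16_ofReal {F : ℝ × ℝ → ℂ} (hF : MemLp F 2 volume) :
    ENNReal.ofReal (∫ x, ‖F x‖ ^ 2) = ∫⁻ x, ‖F x‖ₑ ^ 2 := by
  rw [ofReal_integral_eq_lintegral_ofReal
    ((memLp_two_iff_integrable_sq_norm hF.aestronglyMeasurable).mp hF)
    (Eventually.of_forall fun x => by positivity)]
  refine lintegral_congr fun x => ?_
  rw [ENNReal.ofReal_pow (norm_nonneg _), ofReal_norm]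

private theorem sg16_holder {u v : ℝ × ℝ → ℝ≥0∞} (hu : Measurable u) (hv : Measurable v)
    {C α β : ℝ≥0∞} (h1 : ∫⁻ x, u x ^ 6 ≤ C * α ^ 3) (h2 : ∫⁻ x, v x ^ 6 ≤ C * β ^ 3) :
    ∫⁻ x, u x ^ 4 * v x ^ 2 ≤ C * α ^ 2 * β := by
  have hpq : Real.HolderConjugate (3 / 2) 3 := by
    rw [Real.holderConjugate_iff]
    norm_num
  have h3 := ENNReal.lintegral_mul_le_Lp_mul_Lq volume hpq (f := fun x => u x ^ 4)
    (g := fun x => v x ^ 2) (hu.pow_const 4).aemeasurable (hv.pow_const 2).aemeasurable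
  have e1 : ∀ x, (u x ^ 4) ^ (3 / 2 : ℝ) = u x ^ 6 := by
    intro x
    rw [← ENNReal.rpow_natCast, ← ENNReal.rpow_mul, ← ENNReal.rpow_natCast]
    norm_num
  have e2 : ∀ x, (v x ^ 2) ^ (3 : ℝ) = v x ^ 6 := by
    intro x
    rw [← ENNReal.rpow_natCast, ← ENNReal.rpow_mul, ← ENNReal.rpow_natCast]
    norm_num
  simp only [Pi.mul_apply, e1, e2] at h3
  refine h3.trans ?_
  calc (∫⁻ x, u x ^ 6) ^ (1 / (3 / 2) : ℝ) * (∫⁻ x, v x ^ 6) ^ (1 / 3 : ℝ)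
      ≤ (C * α ^ 3) ^ (1 / (3 / 2) : ℝ) * (C * β ^ 3) ^ (1 / 3 : ℝ) := by
        gcongr
    _ = C * α ^ 2 * β := by
        have e3 : (C * α ^ 3) ^ (1 / (3 / 2) : ℝ) = C ^ (2 / 3 : ℝ) * α ^ 2 := by
          rw [ENNReal.mul_rpow_of_nonneg _ _ (by norm_num), ← ENNReal.rpow_natCast α 3,
            ← ENNReal.rpow_mul, ← ENNReal.rpow_natCast α 2]
          norm_num
        have e4 : (C * β ^ 3) ^ (1 / 3 : ℝ) = C ^ (1 / 3 : ℝ) * β := by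
          rw [ENNReal.mul_rpow_of_nonneg _ _ (by norm_num), ← ENNReal.rpow_natCast β 3,
            ← ENNReal.rpow_mul]
          norm_num
        have e5 : C ^ (2 / 3 : ℝ) * C ^ (1 / 3 : ℝ) = C := by
          rw [← ENNReal.rpow_add_of_nonneg _ _ (by norm_num) (by norm_num)]
          norm_num
        rw [e3, e4]
        calc C ^ (2 / 3 : ℝ) * α ^ 2 * (C ^ (1 / 3 : ℝ) * β)
            = (C ^ (2 / 3 : ℝ) * C ^ (1 / 3 : ℝ)) * α ^ 2 * β := by ring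
          _ = C * α ^ 2 * β := by rw [e5]

private theorem sg16_expand (z₀ z₁ z₂ z₃ : ℂ) :
    ‖z₀ + 3 * z₁ + 3 * z₂ + z₃‖ ^ 2 = ‖z₀‖ ^ 2 + 9 * ‖z₁‖ ^ 2 + 9 * ‖z₂‖ ^ 2 + ‖z₃‖ ^ 2 +
      (6 * (z₀ * (starRingEnd ℂ) z₁).re + 6 * (z₀ * (starRingEnd ℂ) z₂).re +
        2 * (z₀ * (starRingEnd ℂ) z₃).re + 18 * (z₁ * (starRingEnd ℂ) z₂).re +
        6 * (z₁ * (starRingEnd ℂ) z₃).re + 6 * (z₂ * (starRingEnd ℂ) z₃).re) := by
  simp only [← Complex.normSq_eq_norm_sq, Complex.normSq_apply, Complex.add_re, Complex.add_im,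
    Complex.mul_re, Complex.mul_im, Complex.conj_re, Complex.conj_im, Complex.re_ofNat,
    Complex.im_ofNat]
  ring

private theorem sg16_sum {F₀ F₁ F₂ F₃ : ℝ × ℝ → ℂ} (m₀ : MemLp F₀ 2 volume)
    (m₁ : MemLp F₁ 2 volume) (m₂ : MemLp F₂ 2 volume) (m₃ : MemLp F₃ 2 volume)
    (h01 : ∫ x, F₀ x * (starRingEnd ℂ) (F₁ x) = 0) (h02 : ∫ x, F₀ x * (starRingEnd ℂ) (F₂ x) = 0)
    (h03 : ∫ x, F₀ x * (starRingEnd ℂ) (F₃ x) = 0) (h12 : ∫ x, F₁ x * (starRingEnd ℂ) (F₂ x) = 0)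
    (h13 : ∫ x, F₁ x * (starRingEnd ℂ) (F₃ x) = 0) (h23 : ∫ x, F₂ x * (starRingEnd ℂ) (F₃ x) = 0) :
    ∫⁻ x, ‖F₀ x + 3 * F₁ x + 3 * F₂ x + F₃ x‖ₑ ^ 2 =
      (∫⁻ x, ‖F₀ x‖ₑ ^ 2) + 9 * (∫⁻ x, ‖F₁ x‖ₑ ^ 2) + 9 * (∫⁻ x, ‖F₂ x‖ₑ ^ 2) +
        (∫⁻ x, ‖F₃ x‖ₑ ^ 2) := by
  have hG : MemLp (fun x => F₀ x + 3 * F₁ x + 3 * F₂ x + F₃ x) 2 volume :=
    ((m₀.add (m₁.const_mul 3)).add (m₂.const_mul 3)).add m₃
  have hint : ∀ {F F' : ℝ × ℝ → ℂ}, MemLp F 2 volume → MemLp F' 2 volume →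
      Integrable (fun x => F x * (starRingEnd ℂ) (F' x)) := by
    intro F F' h h'
    have h'' : MemLp (fun x => (starRingEnd ℂ) (F' x)) 2 volume :=
      h'.of_le (Complex.continuous_conj.comp_aestronglyMeasurable h'.aestronglyMeasurable)
        (Eventually.of_forall fun x => (RCLike.norm_conj _).le)
    exact h.integrable_mul h''
  have hn : ∀ {F : ℝ × ℝ → ℂ}, MemLp F 2 volume → Integrable (fun x => ‖F x‖ ^ 2) :=
    fun h => (memLp_two_iff_integrable_sq_norm h.aestronglyMeasurable).mp h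
  have i01 := (hint m₀ m₁).const_mul (6 : ℂ)
  have i02 := (hint m₀ m₂).const_mul (6 : ℂ)
  have i03 := (hint m₀ m₃).const_mul (2 : ℂ)
  have i12 := (hint m₁ m₂).const_mul (18 : ℂ)
  have i13 := (hint m₁ m₃).const_mul (6 : ℂ)
  have i23 := (hint m₂ m₃).const_mul (6 : ℂ)
  have ic := ((((i01.add i02).add i03).add i12).add i13).add i23
  have hc : ∫ x, (6 * (F₀ x * (starRingEnd ℂ) (F₁ x)) + 6 * (F₀ x * (starRingEnd ℂ) (F₂ x)) +
      2 * (F₀ x * (starRingEnd ℂ) (F₃ x)) + 18 * (F₁ x * (starRingEnd ℂ) (F₂ x)) +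
      6 * (F₁ x * (starRingEnd ℂ) (F₃ x)) + 6 * (F₂ x * (starRingEnd ℂ) (F₃ x))) = 0 := by
    have e1 := integral_add ((((i01.add i02).add i03).add i12).add i13) i23
    have e2 := integral_add (((i01.add i02).add i03).add i12) i13
    have e3 := integral_add ((i01.add i02).add i03) i12
    have e4 := integral_add (i01.add i02) i03
    have e5 := integral_add i01 i02
    simp only [Pi.add_apply] at e1 e2 e3 e4 e5
    rw [e1, e2, e3, e4, e5]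
    simp only [integral_const_mul, h01, h02, h03, h12, h13, h23]
    simp
  have hcre : ∫ x, (6 * (F₀ x * (starRingEnd ℂ) (F₁ x)) + 6 * (F₀ x * (starRingEnd ℂ) (F₂ x)) +
      2 * (F₀ x * (starRingEnd ℂ) (F₃ x)) + 18 * (F₁ x * (starRingEnd ℂ) (F₂ x)) +
      6 * (F₁ x * (starRingEnd ℂ) (F₃ x)) + 6 * (F₂ x * (starRingEnd ℂ) (F₃ x))).re = 0 := by
    have h1 := integral_re (𝕜 := ℂ) ic
    simp only [Pi.add_apply] at h1
    have h2 : ∀ z : ℂ, RCLike.re z = z.re := fun z => rfl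
    simp only [h2] at h1
    rw [h1, hc]
    rfl
  have hreal : ∫ x, ‖F₀ x + 3 * F₁ x + 3 * F₂ x + F₃ x‖ ^ 2 = (∫ x, ‖F₀ x‖ ^ 2) +
      9 * (∫ x, ‖F₁ x‖ ^ 2) + 9 * (∫ x, ‖F₂ x‖ ^ 2) + (∫ x, ‖F₃ x‖ ^ 2) := by
    have j0 := hn m₀
    have j1 := (hn m₁).const_mul (9 : ℝ)
    have j2 := (hn m₂).const_mul (9 : ℝ)
    have j3 := hn m₃
    have icr := ic.re
    have e0 : ∀ x, ‖F₀ x + 3 * F₁ x + 3 * F₂ x + F₃ x‖ ^ 2 = ‖F₀ x‖ ^ 2 + 9 * ‖F₁ x‖ ^ 2 +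
        9 * ‖F₂ x‖ ^ 2 + ‖F₃ x‖ ^ 2 + (6 * (F₀ x * (starRingEnd ℂ) (F₁ x)) +
        6 * (F₀ x * (starRingEnd ℂ) (F₂ x)) + 2 * (F₀ x * (starRingEnd ℂ) (F₃ x)) +
        18 * (F₁ x * (starRingEnd ℂ) (F₂ x)) + 6 * (F₁ x * (starRingEnd ℂ) (F₃ x)) +
        6 * (F₂ x * (starRingEnd ℂ) (F₃ x))).re := by
      intro x
      have q6 : ∀ z : ℂ, (6 * z).re = 6 * z.re := fun z => by simp
      have q2 : ∀ z : ℂ, (2 * z).re = 2 * z.re := fun z => by simp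
      have q18 : ∀ z : ℂ, (18 * z).re = 18 * z.re := fun z => by simp
      rw [sg16_expand]
      simp only [Complex.add_re, q6, q2, q18]
    simp only [e0]
    have e1 := integral_add (((j0.add j1).add j2).add j3) icr
    have e2 := integral_add ((j0.add j1).add j2) j3
    have e3 := integral_add (j0.add j1) j2
    have e4 := integral_add j0 j1
    simp only [Pi.add_apply] at e1 e2 e3 e4
    have h2 : ∀ z : ℂ, RCLike.re z = z.re := fun z => rfl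
    simp only [h2] at e1
    rw [e1, e2, e3, e4, hcre, integral_const_mul, integral_const_mul, add_zero]
  rw [← sg16_ofReal hG, hreal, ← sg16_ofReal m₀, ← sg16_ofReal m₁, ← sg16_ofReal m₂,
    ← sg16_ofReal m₃]
  have p0 : 0 ≤ ∫ x, ‖F₀ x‖ ^ 2 := integral_nonneg fun x => by positivity
  have p1 : 0 ≤ ∫ x, ‖F₁ x‖ ^ 2 := integral_nonneg fun x => by positivity
  have p2 : 0 ≤ ∫ x, ‖F₂ x‖ ^ 2 := integral_nonneg fun x => by positivity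
  have p3 : 0 ≤ ∫ x, ‖F₃ x‖ ^ 2 := integral_nonneg fun x => by positivity
  rw [ENNReal.ofReal_add (by positivity) p3, ENNReal.ofReal_add (by positivity) (by positivity),
    ENNReal.ofReal_add p0 (by positivity), ENNReal.ofReal_mul (by norm_num),
    ENNReal.ofReal_mul (by norm_num)]
  norm_num

theorem pair_arc {S T : Set ℝ} (hS : MeasurableSet S) (hT : MeasurableSet T) {w : ℝ} (hw : 0 < w)
    (hcS : ∀ a ∈ S, ∀ b ∈ S, ∀ c ∈ S, w ≤ sq (om a + om b + om c) - 1)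
    (hcT : ∀ a ∈ T, ∀ b ∈ T, ∀ c ∈ T, w ≤ sq (om a + om b + om c) - 1)
    (hSS : ∀ a ∈ S, ∀ b ∈ S, sq (om a - om b) ≤ 1 / 4)
    (hTT : ∀ a ∈ T, ∀ b ∈ T, sq (om a - om b) ≤ 1 / 4)
    (hST : ∀ a ∈ S, ∀ b ∈ T, sq (om a + om b) ≤ 1 / 4)
    {h₁ h₂ : ℝ → ℂ} (m₁ : MemLp h₁ 2 mc) (m₂ : MemLp h₂ 2 mc)
    (s₁ : ∀ θ, θ ∉ S → h₁ θ = 0) (s₂ : ∀ θ, θ ∉ T → h₂ θ = 0) :
    J (h₁ + h₂) ≤
      ENNReal.ofReal (5 / 2 * ((2 * Real.pi) ^ 2 * (pm / w))) * (N2 h₁ + N2 h₂) ^ 3 := by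
  have i₁ := integrable_of_memLp m₁
  have i₂ := integrable_of_memLp m₂
  have c₁ := continuous_ex i₁
  have c₂ := continuous_ex i₂
  set C : ℝ≥0∞ := ENNReal.ofReal ((2 * Real.pi) ^ 2 * (pm / w)) with hC
  have hα : N2 h₁ ≠ ∞ := N2_ne_top m₁
  have hβ : N2 h₂ ≠ ∞ := N2_ne_top m₂
  -- the bounds
  have hA6 : ∫⁻ x, ‖ex h₁ x‖ₑ ^ 6 ≤ C * N2 h₁ ^ 3 := by
    have h1 := near_triple hS hw hcS m₁ m₁ m₁ s₁ s₁ s₁
    have e : ∀ x, (‖ex h₁ x‖ₑ * ‖ex h₁ x‖ₑ * ‖ex h₁ x‖ₑ) ^ 2 = ‖ex h₁ x‖ₑ ^ 6 := fun x => by ring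
    simp only [e] at h1
    refine h1.trans (le_of_eq ?_)
    ring
  have hB6 : ∫⁻ x, ‖ex h₂ x‖ₑ ^ 6 ≤ C * N2 h₂ ^ 3 := by
    have h1 := near_triple hT hw hcT m₂ m₂ m₂ s₂ s₂ s₂
    have e : ∀ x, (‖ex h₂ x‖ₑ * ‖ex h₂ x‖ₑ * ‖ex h₂ x‖ₑ) ^ 2 = ‖ex h₂ x‖ₑ ^ 6 := fun x => by ring
    simp only [e] at h1
    refine h1.trans (le_of_eq ?_)
    ring
  have hAB := sg16_holder c₁.enorm.measurable c₂.enorm.measurable hA6 hB6
  have hBA := sg16_holder c₂.enorm.measurable c₁.enorm.measurable hB6 hA6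
  -- the four functions
  have n0 : ∫⁻ x, ‖sg16_pr h₁ h₁ h₁ x‖ₑ ^ 2 ≤ C * N2 h₁ ^ 3 := by
    refine (le_of_eq (lintegral_congr fun x => ?_)).trans hA6
    simp only [sg16_pr, enorm_mul]
    ring
  have n1 : ∫⁻ x, ‖sg16_pr h₁ h₁ h₂ x‖ₑ ^ 2 ≤ C * N2 h₁ ^ 2 * N2 h₂ := by
    refine (le_of_eq (lintegral_congr fun x => ?_)).trans hAB
    simp only [sg16_pr, enorm_mul]
    ring
  have n2 : ∫⁻ x, ‖sg16_pr h₁ h₂ h₂ x‖ₑ ^ 2 ≤ C * N2 h₂ ^ 2 * N2 h₁ := by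
    refine (le_of_eq (lintegral_congr fun x => ?_)).trans hBA
    simp only [sg16_pr, enorm_mul]
    ring
  have n3 : ∫⁻ x, ‖sg16_pr h₂ h₂ h₂ x‖ₑ ^ 2 ≤ C * N2 h₂ ^ 3 := by
    refine (le_of_eq (lintegral_congr fun x => ?_)).trans hB6
    simp only [sg16_pr, enorm_mul]
    ring
  have hCt : C ≠ ∞ := ENNReal.ofReal_ne_top
  have M0 : MemLp (sg16_pr h₁ h₁ h₁) 2 volume := sg16_memLp (c₁.mul (c₁.mul c₁))
    (ne_top_of_le_ne_top (ENNReal.mul_ne_top hCt (ENNReal.pow_ne_top hα)) n0)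
  have M1 : MemLp (sg16_pr h₁ h₁ h₂) 2 volume := sg16_memLp (c₁.mul (c₁.mul c₂))
    (ne_top_of_le_ne_top (ENNReal.mul_ne_top (ENNReal.mul_ne_top hCt (ENNReal.pow_ne_top hα)) hβ)
      n1)
  have M2 : MemLp (sg16_pr h₁ h₂ h₂) 2 volume := sg16_memLp (c₁.mul (c₂.mul c₂))
    (ne_top_of_le_ne_top (ENNReal.mul_ne_top (ENNReal.mul_ne_top hCt (ENNReal.pow_ne_top hβ)) hα)
      n2)
  have M3 : MemLp (sg16_pr h₂ h₂ h₂) 2 volume := sg16_memLp (c₂.mul (c₂.mul c₂))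
    (ne_top_of_le_ne_top (ENNReal.mul_ne_top hCt (ENNReal.pow_ne_top hβ)) n3)
  -- geometry
  have k₁ : ∀ θ, h₁ θ ≠ 0 → θ ∈ S := fun θ h => by
    by_contra hcon
    exact h (s₁ θ hcon)
  have k₂ : ∀ θ, h₂ θ ≠ 0 → θ ∈ T := fun θ h => by
    by_contra hcon
    exact h (s₂ θ hcon)
  have near : ∀ a b, h₁ a ≠ 0 → h₁ b ≠ 0 → 7 / 8 ≤ dt (om b) (om a) := fun a b ha hb =>
    sg16_dt_near (hSS b (k₁ b hb) a (k₁ a ha))
  have far : ∀ a b, h₁ a ≠ 0 → h₂ b ≠ 0 → dt (om b) (om a) ≤ -(7 / 8) := fun a b ha hb =>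
    sg16_dt_far (hST a (k₁ a ha) b (k₂ b hb))
  have o01 : ∫ x, sg16_pr h₁ h₁ h₁ x * (starRingEnd ℂ) (sg16_pr h₁ h₁ h₂ x) = 0 := by
    refine sg16_orth i₁ i₁ i₁ i₁ i₁ i₂ M0 M1 fun a b c a' b' c' ha hb hc ha' hb' hc' => ?_
    linarith [near a a ha ha, near a b ha hb, near a c ha hc, sg16_dt_le a' a, sg16_dt_le b' a,
      far a c' ha hc']
  have o02 : ∫ x, sg16_pr h₁ h₁ h₁ x * (starRingEnd ℂ) (sg16_pr h₁ h₂ h₂ x) = 0 := by
    refine sg16_orth i₁ i₁ i₁ i₁ i₂ i₂ M0 M2 fun a b c a' b' c' ha hb hc ha' hb' hc' => ?_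
    linarith [near a a ha ha, near a b ha hb, near a c ha hc, sg16_dt_le a' a, far a b' ha hb',
      far a c' ha hc']
  have o03 : ∫ x, sg16_pr h₁ h₁ h₁ x * (starRingEnd ℂ) (sg16_pr h₂ h₂ h₂ x) = 0 := by
    refine sg16_orth i₁ i₁ i₁ i₂ i₂ i₂ M0 M3 fun a b c a' b' c' ha hb hc ha' hb' hc' => ?_
    linarith [near a a ha ha, near a b ha hb, near a c ha hc, far a a' ha ha', far a b' ha hb',
      far a c' ha hc']
  have o12 : ∫ x, sg16_pr h₁ h₁ h₂ x * (starRingEnd ℂ) (sg16_pr h₁ h₂ h₂ x) = 0 := by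
    refine sg16_orth i₁ i₁ i₂ i₁ i₂ i₂ M1 M2 fun a b c a' b' c' ha hb hc ha' hb' hc' => ?_
    linarith [near a a ha ha, near a b ha hb, sg16_le_dt c a, sg16_dt_le a' a, far a b' ha hb',
      far a c' ha hc']
  have o13 : ∫ x, sg16_pr h₁ h₁ h₂ x * (starRingEnd ℂ) (sg16_pr h₂ h₂ h₂ x) = 0 := by
    refine sg16_orth i₁ i₁ i₂ i₂ i₂ i₂ M1 M3 fun a b c a' b' c' ha hb hc ha' hb' hc' => ?_
    linarith [near a a ha ha, near a b ha hb, sg16_le_dt c a, far a a' ha ha', far a b' ha hb',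
      far a c' ha hc']
  have o23 : ∫ x, sg16_pr h₁ h₂ h₂ x * (starRingEnd ℂ) (sg16_pr h₂ h₂ h₂ x) = 0 := by
    refine sg16_orth i₁ i₂ i₂ i₂ i₂ i₂ M2 M3 fun a b c a' b' c' ha hb hc ha' hb' hc' => ?_
    linarith [near a a ha ha, sg16_le_dt b a, sg16_le_dt c a, far a a' ha ha', far a b' ha hb',
      far a c' ha hc']
  have hsum := sg16_sum M0 M1 M2 M3 o01 o02 o03 o12 o13 o23
  have hJ : J (h₁ + h₂) = ∫⁻ x, ‖sg16_pr h₁ h₁ h₁ x + 3 * sg16_pr h₁ h₁ h₂ x +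
      3 * sg16_pr h₁ h₂ h₂ x + sg16_pr h₂ h₂ h₂ x‖ₑ ^ 2 := by
    unfold J
    refine lintegral_congr fun x => ?_
    rw [ex_add i₁ i₂]
    have e : sg16_pr h₁ h₁ h₁ x + 3 * sg16_pr h₁ h₁ h₂ x + 3 * sg16_pr h₁ h₂ h₂ x +
        sg16_pr h₂ h₂ h₂ x = (ex h₁ x + ex h₂ x) ^ 3 := by
      simp only [sg16_pr]
      ring
    rw [e, enorm_pow]
    ring
  rw [hJ, hsum]
  have hfin : C * N2 h₁ ^ 3 + 9 * (C * N2 h₁ ^ 2 * N2 h₂) + 9 * (C * N2 h₂ ^ 2 * N2 h₁) +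
      C * N2 h₂ ^ 3 ≤ ENNReal.ofReal (5 / 2 * ((2 * Real.pi) ^ 2 * (pm / w))) *
        (N2 h₁ + N2 h₂) ^ 3 := by
    rw [ENNReal.ofReal_mul (by norm_num), ← hC]
    lift N2 h₁ to NNReal using hα with α
    lift N2 h₂ to NNReal using hβ with β
    have key : α ^ 3 + 9 * (α ^ 2 * β) + 9 * (β ^ 2 * α) + β ^ 3 ≤
        (5 / 2 : NNReal) * (α + β) ^ 3 := by
      rw [← NNReal.coe_le_coe]
      push_cast
      nlinarith [mul_nonneg (sq_nonneg ((α : ℝ) - β)) (add_nonneg α.coe_nonneg β.coe_nonneg)]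
    have key2 : ((α ^ 3 + 9 * (α ^ 2 * β) + 9 * (β ^ 2 * α) + β ^ 3 : NNReal) : ℝ≥0∞) ≤
        (((5 / 2 : NNReal) * (α + β) ^ 3 : NNReal) : ℝ≥0∞) := ENNReal.coe_le_coe.mpr key
    have e52 : ENNReal.ofReal (5 / 2) = ((5 / 2 : NNReal) : ℝ≥0∞) := by
      rw [ENNReal.ofReal]
      congr 1
      ext
      rw [Real.coe_toNNReal _ (by norm_num)]
      push_cast
      rfl
    rw [e52]
    calc C * (α : ℝ≥0∞) ^ 3 + 9 * (C * (α : ℝ≥0∞) ^ 2 * β) + 9 * (C * (β : ℝ≥0∞) ^ 2 * α) +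
        C * (β : ℝ≥0∞) ^ 3
        = C * ((α ^ 3 + 9 * (α ^ 2 * β) + 9 * (β ^ 2 * α) + β ^ 3 : NNReal) : ℝ≥0∞) := by
          push_cast
          ring
      _ ≤ C * (((5 / 2 : NNReal) * (α + β) ^ 3 : NNReal) : ℝ≥0∞) := by gcongr
      _ = ((5 / 2 : NNReal) : ℝ≥0∞) * C * ((α : ℝ≥0∞) + β) ^ 3 := by
          push_cast
          ring
  refine le_trans ?_ hfin
  gcongr

end Pool.Agent.Lib.MP_230119_an
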