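import Pool.Agent.Lib.MP_230119_an.SGDef2
import Pool.Agent.Lib.MP_230119_an.Mg.G013

set_option autoImplicit false

open MeasureTheory Set Filter Topology
open scoped ENNReal

namespace Pool.Agent.Lib.MP_230119_an

lemma sg09_ex_eq {S : Set ℝ} {h : ℝ → ℂ} (s : ∀ θ, θ ∉ S → h θ = 0)
    (x : ℝ × ℝ) : ex h x = ∫ θ, h θ * ph x (om θ) ∂(mc.restrict S) := by
  unfold ex tr
  rw [setIntegral_eq_integral_of_forall_compl_eq_zero]
  intro θ hθ
  rw [s θ hθ, zero_mul]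

lemma sg09_tr_eq (μ ν : Measure ℝ) [SFinite μ] [SFinite ν] (h₁ h₂ : ℝ → ℂ) (x : ℝ × ℝ) :
    tr (μ.prod ν) (fun p => om p.1 + om p.2) (fun p => h₁ p.1 * h₂ p.2) x =
      (∫ θ, h₁ θ * ph x (om θ) ∂μ) * (∫ θ, h₂ θ * ph x (om θ) ∂ν) := by
  unfold tr
  rw [← integral_prod_mul (fun θ => h₁ θ * ph x (om θ)) (fun θ => h₂ θ * ph x (om θ))]
  refine integral_congr_ae (Eventually.of_forall fun p => ?_)
  simp only [ph_add_right]
  ring

lemma sg09_meas : Measurable fun p : ℝ × ℝ => om p.1 + om p.2 := by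
  have := continuous_om
  exact (by fun_prop : Continuous fun p : ℝ × ℝ => om p.1 + om p.2).measurable

theorem far_pair {S T : Set ℝ} (hS : MeasurableSet S) (hT : MeasurableSet T) {s : ℝ} (hs : 0 < s)
    (hc : ∀ a ∈ S, ∀ b ∈ T, s ≤ |Real.sin (a - b)|) {h₁ h₂ : ℝ → ℂ}
    (m₁ : MemLp h₁ 2 mc) (m₂ : MemLp h₂ 2 mc)
    (s₁ : ∀ θ, θ ∉ S → h₁ θ = 0) (s₂ : ∀ θ, θ ∉ T → h₂ θ = 0) :
    ∫⁻ x, (‖ex h₁ x‖ₑ * ‖ex h₂ x‖ₑ) ^ 2 ≤
      ENNReal.ofReal ((2 * Real.pi) ^ 2 * (2 / s)) * (N2 h₁ * N2 h₂) := by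
  set μ : Measure ℝ := mc.restrict S with hμ
  set ν : Measure ℝ := mc.restrict T with hν
  have i₁ : Integrable h₁ μ := (integrable_of_memLp m₁).restrict
  have i₂ : Integrable h₂ ν := (integrable_of_memLp m₂).restrict
  have hH : Integrable (fun p : ℝ × ℝ => h₁ p.1 * h₂ p.2) (μ.prod ν) := i₁.mul_prod i₂
  have hB : ∀ R : ℝ, 1 ≤ R → ∀ Y : ℝ × ℝ,
      ∫⁻ p : ℝ × ℝ, ENNReal.ofReal (gk R (Y - (om p.1 + om p.2))) ∂(μ.prod ν) ≤
        ENNReal.ofReal (1 / s) * (2 * ENNReal.ofReal (2 * Real.pi)) := by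
    intro R hR Y
    have hR0 : 0 < R := by linarith
    rw [hμ, hν, Measure.prod_restrict]
    have hΨ : Measurable fun Z : ℝ × ℝ => ENNReal.ofReal (gk R (Y - Z)) := by
      have := continuous_gk R
      exact (by fun_prop : Continuous fun Z : ℝ × ℝ => gk R (Y - Z)).measurable.ennreal_ofReal
    calc ∫⁻ p : ℝ × ℝ in S ×ˢ T,
          ENNReal.ofReal (gk R (Y - (om p.1 + om p.2))) ∂(mc.prod mc)
        ≤ ∫⁻ p : ℝ × ℝ in S ×ˢ T, ENNReal.ofReal (1 / s) *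
          (ENNReal.ofReal (gk R (Y - (om p.1 + om p.2))) *
            ENNReal.ofReal |Real.sin (p.1 - p.2)|) ∂(mc.prod mc) := by
          refine setLIntegral_mono' (hS.prod hT) ?_
          rintro ⟨a, b⟩ ⟨ha, hb⟩
          simp only at ha hb ⊢
          have h1 := hc a ha b hb
          have h3 := gk_nonneg R (Y - (om a + om b))
          rw [← ENNReal.ofReal_mul h3, ← ENNReal.ofReal_mul (by positivity)]
          refine ENNReal.ofReal_le_ofReal ?_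
          have h2 : 1 ≤ 1 / s * |Real.sin (a - b)| := by
            rw [one_div, inv_mul_eq_div, le_div_iff₀ hs]
            linarith
          nlinarith
      _ = ENNReal.ofReal (1 / s) * ∫⁻ p : ℝ × ℝ in S ×ˢ T,
          (ENNReal.ofReal (gk R (Y - (om p.1 + om p.2))) *
            ENNReal.ofReal |Real.sin (p.1 - p.2)|) ∂(mc.prod mc) := by
          rw [lintegral_const_mul' _ _ ENNReal.ofReal_ne_top]
      _ ≤ ENNReal.ofReal (1 / s) * (2 * ENNReal.ofReal (2 * Real.pi)) := by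
          gcongr
          refine (setLIntegral_le_lintegral _ _).trans ((pair_cov_sin hΨ).trans ?_)
          gcongr
          refine (setLIntegral_le_lintegral _ _).trans ?_
          rw [lintegral_sub_left_eq_self (fun Z : ℝ × ℝ => ENNReal.ofReal (gk R Z)) Y,
            lintegral_gk hR0]
  have key := tt_star (Φ := fun p : ℝ × ℝ => om p.1 + om p.2) sg09_meas hH hB
  have hleft : ∀ x, ‖tr (μ.prod ν) (fun p : ℝ × ℝ => om p.1 + om p.2)
      (fun p : ℝ × ℝ => h₁ p.1 * h₂ p.2) x‖ₑ ^ 2 = (‖ex h₁ x‖ₑ * ‖ex h₂ x‖ₑ) ^ 2 := by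
    intro x
    rw [sg09_tr_eq, ← sg09_ex_eq s₁, ← sg09_ex_eq s₂, enorm_mul]
  simp only [hleft] at key
  refine key.trans ?_
  have hright : ∫⁻ p : ℝ × ℝ, ‖h₁ p.1 * h₂ p.2‖ₑ ^ 2 ∂(μ.prod ν) ≤ N2 h₁ * N2 h₂ := by
    have e1 : ∫⁻ p : ℝ × ℝ, ‖h₁ p.1 * h₂ p.2‖ₑ ^ 2 ∂(μ.prod ν) =
        (∫⁻ θ, ‖h₁ θ‖ₑ ^ 2 ∂μ) * (∫⁻ θ, ‖h₂ θ‖ₑ ^ 2 ∂ν) := by
      have a₁ : AEMeasurable (fun θ => ‖h₁ θ‖ₑ ^ 2) μ := i₁.aestronglyMeasurable.enorm.pow_const 2
      have a₂ : AEMeasurable (fun θ => ‖h₂ θ‖ₑ ^ 2) ν := i₂.aestronglyMeasurable.enorm.pow_const 2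
      rw [← lintegral_prod_mul a₁ a₂]
      refine lintegral_congr fun p => ?_
      rw [enorm_mul, mul_pow]
    rw [e1]
    unfold N2
    gcongr <;> exact Measure.restrict_le_self
  calc ENNReal.ofReal (2 * Real.pi) *
        (ENNReal.ofReal (1 / s) * (2 * ENNReal.ofReal (2 * Real.pi))) *
        ∫⁻ p : ℝ × ℝ, ‖h₁ p.1 * h₂ p.2‖ₑ ^ 2 ∂(μ.prod ν)
      ≤ ENNReal.ofReal (2 * Real.pi) *
        (ENNReal.ofReal (1 / s) * (2 * ENNReal.ofReal (2 * Real.pi))) *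
        (N2 h₁ * N2 h₂) := by gcongr
    _ = _ := by
      congr 1
      have h2 : (2 : ℝ≥0∞) = ENNReal.ofReal 2 := by simp
      rw [h2, ← ENNReal.ofReal_mul (by positivity), ← ENNReal.ofReal_mul (by positivity),
        ← ENNReal.ofReal_mul (by positivity)]
      congr 1
      field_simp

end Pool.Agent.Lib.MP_230119_an
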