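import Pool.Agent.Lib.MP_230119_an.SGDef2
import Pool.Agent.Lib.MP_230119_an.SG09
import Pool.Agent.Lib.MP_230119_an.SG10

set_option autoImplicit false

open MeasureTheory Set Filter Topology
open scoped ENNReal

namespace Pool.Agent.Lib.MP_230119_an

/-- the constant of the elementary inequality -/
def sg17_c (M : ℕ) : ℕ := 6 + 15 * M + 20 * M ^ 2 + 15 * M ^ 3 + 6 * M ^ 4 + M ^ 5

theorem sg17_pow (M : ℕ) (a y : ℝ≥0∞) (h : y ≤ M * a) :
    (a + y) ^ 6 ≤ a ^ 6 + (sg17_c M : ℝ≥0∞) * (a ^ 5 * y) := by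
  have h1 : (a + y) ^ 6 = a ^ 6 + y * (6 * a ^ 5 + 15 * (a ^ 4 * y) + 20 * (a ^ 3 * y ^ 2) +
      15 * (a ^ 2 * y ^ 3) + 6 * (a * y ^ 4) + y ^ 5) := by ring
  have h2 : y * (6 * a ^ 5 + 15 * (a ^ 4 * y) + 20 * (a ^ 3 * y ^ 2) +
      15 * (a ^ 2 * y ^ 3) + 6 * (a * y ^ 4) + y ^ 5) ≤
      y * (6 * a ^ 5 + 15 * (a ^ 4 * (M * a)) + 20 * (a ^ 3 * (M * a) ^ 2) +
      15 * (a ^ 2 * (M * a) ^ 3) + 6 * (a * (M * a) ^ 4) + (M * a) ^ 5) := by
    gcongr
  rw [h1]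
  refine add_le_add le_rfl (h2.trans (le_of_eq ?_))
  unfold sg17_c
  push_cast
  ring

theorem sg17_sum (M : ℕ) (x : Fin M → ℝ≥0∞) :
    (∑ j, x j) ^ 6 ≤ ∑ j, x j ^ 6 +
      (sg17_c M : ℝ≥0∞) * ∑ i, ∑ j ∈ Finset.univ.erase i, x i ^ 5 * x j := by
  rcases Nat.eq_zero_or_pos M with hM | hM
  · subst hM
    simp
  have : Nonempty (Fin M) := ⟨⟨0, hM⟩⟩
  obtain ⟨m, -, hm⟩ := Finset.exists_max_image (Finset.univ : Finset (Fin M)) x
    Finset.univ_nonempty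
  have h1 : ∑ j, x j = x m + ∑ j ∈ Finset.univ.erase m, x j :=
    (Finset.add_sum_erase _ _ (Finset.mem_univ m)).symm
  have h2 : ∑ j ∈ Finset.univ.erase m, x j ≤ M * x m := by
    calc ∑ j ∈ Finset.univ.erase m, x j ≤ ∑ _j ∈ Finset.univ.erase m, x m :=
          Finset.sum_le_sum fun j _ => hm j (Finset.mem_univ j)
      _ ≤ ∑ _j : Fin M, x m := Finset.sum_le_sum_of_subset (Finset.erase_subset _ _)
      _ = M * x m := by simp
  rw [h1]
  refine (sg17_pow M _ _ h2).trans ?_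
  refine add_le_add ?_ ?_
  · exact Finset.single_le_sum (f := fun j => x j ^ 6) (fun _ _ => zero_le) (Finset.mem_univ m)
  · rw [Finset.mul_sum]
    gcongr
    exact Finset.single_le_sum (f := fun i => ∑ j ∈ Finset.univ.erase i, x i ^ 5 * x j)
      (fun _ _ => zero_le) (Finset.mem_univ m)

theorem sg17_mul (a b : ℝ≥0∞) : a * b ≤ a ^ 2 + b ^ 2 := by
  rcases le_total a b with h | h
  · calc a * b ≤ b * b := by gcongr
      _ = b ^ 2 := by ring
      _ ≤ a ^ 2 + b ^ 2 := le_add_self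
  · calc a * b ≤ a * a := by gcongr
      _ = a ^ 2 := by ring
      _ ≤ a ^ 2 + b ^ 2 := le_self_add

theorem sum_separated (M : ℕ) {s : ℝ} (hs : 0 < s) :
    ∃ C : ℝ, 0 < C ∧ ∀ (S : Fin M → Set ℝ) (h : Fin M → ℝ → ℂ) (η : ℝ), 0 < η → η ≤ 1 →
      (∀ j, MeasurableSet (S j)) → (∀ j, MemLp (h j) 2 mc) → (∀ j θ, θ ∉ S j → h j θ = 0) →
      (∀ j k, j ≠ k → ∀ a ∈ S j, ∀ b ∈ S k, s ≤ |Real.sin (a - b)|) →
      (∀ j, N2 (h j) ≤ 4) → (∀ j x, ‖ex (h j) x‖ ≤ η) →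
      J (fun θ => ∑ j, h j θ) ≤ ∑ j, J (h j) + ENNReal.ofReal (C * η) := by
  obtain ⟨C0, hC0, hcr⟩ := crude
  set A : ℝ := (2 * Real.pi) ^ 2 * (2 / s) with hA
  have hA0 : 0 < A := by
    have := Real.pi_pos
    positivity
  set K : ℝ := A * 16 + C0 * 64 with hK
  have hK0 : 0 < K := by positivity
  refine ⟨(sg17_c M : ℝ) * ((M : ℝ) * (M * K)) + 1, by positivity, ?_⟩
  intro S h η hη _ hSm hmem hsupp hsep hN hsmall
  -- measurability
  have hint : ∀ j, Integrable (h j) mc := fun j => integrable_of_memLp (hmem j)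
  have hmeas : ∀ j, Measurable fun x => ‖ex (h j) x‖ₑ := fun j =>
    (continuous_ex (hint j)).measurable.enorm
  have hex : ∀ x, ex (fun θ => ∑ j, h j θ) x = ∑ j, ex (h j) x := fun x =>
    ex_sum Finset.univ h (fun j _ => hint j) x
  have hsm : ∀ j x, ‖ex (h j) x‖ₑ ≤ ENNReal.ofReal η := by
    intro j x
    rw [← ofReal_norm]
    exact ENNReal.ofReal_le_ofReal (hsmall j x)
  -- the mixed terms
  have hmix : ∀ i, ∀ j ∈ Finset.univ.erase i,
      ∫⁻ x, ‖ex (h i) x‖ₑ ^ 5 * ‖ex (h j) x‖ₑ ≤ ENNReal.ofReal η * ENNReal.ofReal K := by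
    intro i j hj
    have hji : j ≠ i := (Finset.mem_erase.mp hj).1
    have hp : ∀ x, ‖ex (h i) x‖ₑ ^ 5 * ‖ex (h j) x‖ₑ ≤
        ENNReal.ofReal η * ((‖ex (h i) x‖ₑ * ‖ex (h j) x‖ₑ) ^ 2 + ‖ex (h i) x‖ₑ ^ 6) := by
      intro x
      have h1 := sg17_mul (‖ex (h i) x‖ₑ * ‖ex (h j) x‖ₑ) (‖ex (h i) x‖ₑ ^ 3)
      calc ‖ex (h i) x‖ₑ ^ 5 * ‖ex (h j) x‖ₑ
          = ‖ex (h i) x‖ₑ * ((‖ex (h i) x‖ₑ * ‖ex (h j) x‖ₑ) * ‖ex (h i) x‖ₑ ^ 3) := by ring
        _ ≤ ENNReal.ofReal η * ((‖ex (h i) x‖ₑ * ‖ex (h j) x‖ₑ) ^ 2 + (‖ex (h i) x‖ₑ ^ 3) ^ 2) :=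
            mul_le_mul' (hsm i x) h1
        _ = _ := by ring
    calc ∫⁻ x, ‖ex (h i) x‖ₑ ^ 5 * ‖ex (h j) x‖ₑ
        ≤ ∫⁻ x, ENNReal.ofReal η *
            ((‖ex (h i) x‖ₑ * ‖ex (h j) x‖ₑ) ^ 2 + ‖ex (h i) x‖ₑ ^ 6) := lintegral_mono hp
      _ = ENNReal.ofReal η * ((∫⁻ x, (‖ex (h i) x‖ₑ * ‖ex (h j) x‖ₑ) ^ 2) + J (h i)) := by
          have hm2 : Measurable fun x => (‖ex (h i) x‖ₑ * ‖ex (h j) x‖ₑ) ^ 2 :=
            ((hmeas i).mul (hmeas j)).pow_const 2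
          have hm6 : Measurable fun x => ‖ex (h i) x‖ₑ ^ 6 := (hmeas i).pow_const 6
          have hm26 : Measurable fun x =>
            (‖ex (h i) x‖ₑ * ‖ex (h j) x‖ₑ) ^ 2 + ‖ex (h i) x‖ₑ ^ 6 := hm2.add hm6
          rw [lintegral_const_mul _ hm26, lintegral_add_left hm2]
          rfl
      _ ≤ ENNReal.ofReal η * (ENNReal.ofReal A * 16 + ENNReal.ofReal C0 * 64) := by
          have h2 := far_pair (hSm i) (hSm j) hs (hsep i j hji.symm) (hmem i) (hmem j)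
            (hsupp i) (hsupp j)
          have h3 : N2 (h i) * N2 (h j) ≤ 16 := by
            calc N2 (h i) * N2 (h j) ≤ 4 * 4 := mul_le_mul' (hN i) (hN j)
              _ = 16 := by norm_num
          have h4 : J (h i) ≤ ENNReal.ofReal C0 * 64 := by
            refine (hcr (h i) (hmem i)).trans ?_
            have : N2 (h i) ^ 3 ≤ 64 := by
              calc N2 (h i) ^ 3 ≤ 4 ^ 3 := by gcongr; exact hN i
                _ = 64 := by norm_num
            gcongr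
          refine mul_le_mul' le_rfl (add_le_add ?_ h4)
          exact h2.trans (mul_le_mul' le_rfl h3)
      _ = ENNReal.ofReal η * ENNReal.ofReal K := by
          rw [hK, ENNReal.ofReal_add (by positivity) (by positivity),
            ENNReal.ofReal_mul hA0.le, ENNReal.ofReal_mul hC0.le]
          norm_num
  -- the sum
  have hmain : J (fun θ => ∑ j, h j θ) ≤ ∑ j, J (h j) +
      (sg17_c M : ℝ≥0∞) * ∑ i : Fin M, ∑ _j ∈ Finset.univ.erase i,
        ENNReal.ofReal η * ENNReal.ofReal K := by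
    calc J (fun θ => ∑ j, h j θ) = ∫⁻ x, ‖∑ j, ex (h j) x‖ₑ ^ 6 := by
          unfold J
          simp only [hex]
      _ ≤ ∫⁻ x, (∑ j, ‖ex (h j) x‖ₑ ^ 6 + (sg17_c M : ℝ≥0∞) *
            ∑ i, ∑ j ∈ Finset.univ.erase i, ‖ex (h i) x‖ₑ ^ 5 * ‖ex (h j) x‖ₑ) := by
          refine lintegral_mono fun x => ?_
          refine le_trans ?_ (sg17_sum M fun j => ‖ex (h j) x‖ₑ)
          gcongr
          exact enorm_sum_le _ _
      _ = (∑ j, J (h j)) + (sg17_c M : ℝ≥0∞) *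
            ∑ i, ∑ j ∈ Finset.univ.erase i, ∫⁻ x, ‖ex (h i) x‖ₑ ^ 5 * ‖ex (h j) x‖ₑ := by
          have hm5 : ∀ i j, Measurable fun x => ‖ex (h i) x‖ₑ ^ 5 * ‖ex (h j) x‖ₑ :=
            fun i j => ((hmeas i).pow_const 5).mul (hmeas j)
          rw [lintegral_add_left (Finset.measurable_sum _ fun j _ => (hmeas j).pow_const 6),
            lintegral_finsetSum _ fun j _ => (hmeas j).pow_const 6,
            lintegral_const_mul _ (Finset.measurable_sum _ fun i _ =>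
              Finset.measurable_sum _ fun j _ => hm5 i j),
            lintegral_finsetSum _ fun i _ => Finset.measurable_sum _ fun j _ => hm5 i j]
          congr 2
          refine Finset.sum_congr rfl fun i _ => ?_
          rw [lintegral_finsetSum _ fun j _ => hm5 i j]
      _ ≤ _ := by
          gcongr with i _ j hj
          exact hmix i j hj
  refine hmain.trans (add_le_add le_rfl ?_)
  calc (sg17_c M : ℝ≥0∞) * ∑ i : Fin M, ∑ _j ∈ Finset.univ.erase i,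
        ENNReal.ofReal η * ENNReal.ofReal K
      ≤ (sg17_c M : ℝ≥0∞) * ∑ _i : Fin M, ∑ _j : Fin M,
        ENNReal.ofReal η * ENNReal.ofReal K := by
        gcongr with i _
        exact Finset.erase_subset _ _
    _ = (sg17_c M : ℝ≥0∞) * ((M : ℝ≥0∞) * ((M : ℝ≥0∞) *
          (ENNReal.ofReal η * ENNReal.ofReal K))) := by
        simp
    _ = ENNReal.ofReal ((sg17_c M : ℝ) * ((M : ℝ) * (M * (η * K)))) := by
        rw [ENNReal.ofReal_mul (by positivity), ENNReal.ofReal_mul (by positivity),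
          ENNReal.ofReal_mul (by positivity), ENNReal.ofReal_mul hη.le,
          ENNReal.ofReal_natCast, ENNReal.ofReal_natCast]
    _ ≤ ENNReal.ofReal (((sg17_c M : ℝ) * ((M : ℝ) * (M * K)) + 1) * η) := by
        refine ENNReal.ofReal_le_ofReal ?_
        nlinarith

end Pool.Agent.Lib.MP_230119_an
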