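import Pool.Agent.Lib.MP_230119_an.SGDef2

set_option autoImplicit false

open MeasureTheory Set Filter Topology
open scoped ENNReal

namespace Pool.Agent.Lib.MP_230119_an

theorem blk_meas (M L : ℕ) (s j : ℤ) : MeasurableSet (Blk M L s j) := by
  have h : Blk M L s j = ⋃ z : ℤ, {θ : ℝ | ((j + 2 * M * z) * L + 1 : ℝ) < θ * (M * L) / Real.pi - s ∧
      θ * (M * L) / Real.pi - s ≤ ((j + 2 * M * z + 1) * L : ℝ)} := by
    ext θ
    simp [Blk]
  rw [h]
  refine MeasurableSet.iUnion fun z => ?_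
  refine MeasurableSet.inter ?_ ?_
  · exact measurableSet_lt measurable_const
      (((measurable_id.mul_const _).div_const _).sub_const _)
  · exact measurableSet_le (((measurable_id.mul_const _).div_const _).sub_const _)
      measurable_const

theorem buf_meas (M L : ℕ) (s : ℤ) : MeasurableSet (Buf M L s) := by
  have h : Buf M L s = ⋃ z : ℤ, {θ : ℝ | ((z * L : ℝ)) < θ * (M * L) / Real.pi - s ∧
      θ * (M * L) / Real.pi - s ≤ (z * L + 1 : ℝ)} := by
    ext θ
    simp [Buf]
  rw [h]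
  refine MeasurableSet.iUnion fun z => ?_
  refine MeasurableSet.inter ?_ ?_
  · exact measurableSet_lt measurable_const
      (((measurable_id.mul_const _).div_const _).sub_const _)
  · exact measurableSet_le (((measurable_id.mul_const _).div_const _).sub_const _)
      measurable_const

/-- the base angle of a block -/
private noncomputable def sg18a_c (M L : ℕ) (s j : ℤ) : ℝ :=
  Real.pi * s / (M * L) + Real.pi * j / M

private lemma sg18a_repr {M L : ℕ} (hM : 7 ≤ M) (hL : 2 ≤ L) {s j : ℤ} {a : ℝ}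
    (ha : a ∈ Blk M L s j) : ∃ (u : ℝ) (z : ℤ), a = u + sg18a_c M L s j + z * (2 * Real.pi) ∧
      Real.pi / (M * L) < u ∧ u ≤ Real.pi / M := by
  obtain ⟨z, h1, h2⟩ := ha
  have hM' : (0 : ℝ) < M := by
    have : (7 : ℝ) ≤ M := by exact_mod_cast hM
    linarith
  have hL' : (0 : ℝ) < L := by
    have : (2 : ℝ) ≤ L := by exact_mod_cast hL
    linarith
  have hpi := Real.pi_pos
  have hML : (0 : ℝ) < M * L := mul_pos hM' hL'
  have hk : (0 : ℝ) < Real.pi / (M * L) := div_pos hpi hML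
  set t : ℝ := a * (M * L) / Real.pi - s with ht
  refine ⟨Real.pi / (M * L) * (t - (j + 2 * M * z) * L), z, ?_, ?_, ?_⟩
  · rw [ht]
    unfold sg18a_c
    field_simp
    ring
  · have : 1 < t - (j + 2 * M * z) * L := by linarith
    calc Real.pi / (M * L) = Real.pi / (M * L) * 1 := by ring
      _ < _ := by
        exact mul_lt_mul_of_pos_left this hk
  · have : t - (j + 2 * M * z) * L ≤ L := by
      have : ((j + 2 * M * z + 1) * L : ℝ) = (j + 2 * M * z) * L + L := by ring
      linarith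
    calc Real.pi / (M * L) * (t - (j + 2 * M * z) * L) ≤ Real.pi / (M * L) * L :=
          mul_le_mul_of_nonneg_left this hk.le
      _ = Real.pi / M := by field_simp

private lemma sg18a_om (x : ℝ) (z : ℤ) : om (x + z * (2 * Real.pi)) = om x := by
  simp [om, Real.cos_add_int_mul_two_pi, Real.sin_add_int_mul_two_pi]

private lemma sg18a_sq_sub (A B : ℝ) : sq (om A - om B) = 2 - 2 * Real.cos (A - B) := by
  simp only [sq, om, Prod.fst_sub, Prod.snd_sub, Real.cos_sub]
  have h1 := Real.sin_sq_add_cos_sq A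
  have h2 := Real.sin_sq_add_cos_sq B
  nlinarith

private lemma sg18a_close {A B δ : ℝ} (h : |A - B| ≤ δ) (hδ : δ ≤ 1 / 2) :
    sq (om A - om B) ≤ 1 / 4 := by
  rw [sg18a_sq_sub]
  have h1 := Real.one_sub_sq_div_two_le_cos (x := A - B)
  have h2 : (A - B) ^ 2 ≤ (1 / 2) ^ 2 := by
    rw [← sq_abs (A - B)]
    exact pow_le_pow_left₀ (abs_nonneg _) (h.trans hδ) 2
  linarith

private lemma sg18a_piM {M : ℕ} (hM : 7 ≤ M) : Real.pi / M ≤ 1 / 2 := by
  have hM' : (7 : ℝ) ≤ M := by exact_mod_cast hM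
  rw [div_le_div_iff₀ (by linarith) (by norm_num)]
  have := Real.pi_lt_d2
  linarith

private lemma sg18a_diff {M L : ℕ} {u v : ℝ}
    (hu : Real.pi / (M * L) < u ∧ u ≤ Real.pi / M) (hv : Real.pi / (M * L) < v ∧ v ≤ Real.pi / M) :
    |u - v| ≤ Real.pi / M - Real.pi / (M * L) := by
  rw [abs_le]
  constructor <;> linarith [hu.1, hu.2, hv.1, hv.2]

theorem blk_near {M L : ℕ} (hM : 7 ≤ M) (hL : 2 ≤ L) {s j : ℤ} {a b c : ℝ}
    (ha : a ∈ Blk M L s j) (hb : b ∈ Blk M L s j) (hc : c ∈ Blk M L s j) :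
    8 * Real.cos (Real.pi / (2 * M)) ^ 3 ≤ sq (om a + om b + om c) - 1 := by
  obtain ⟨u, z1, rfl, hu⟩ := sg18a_repr hM hL ha
  obtain ⟨v, z2, rfl, hv⟩ := sg18a_repr hM hL hb
  obtain ⟨w, z3, rfl, hw⟩ := sg18a_repr hM hL hc
  rw [sg18a_om, sg18a_om, sg18a_om]
  set c0 := sg18a_c M L s j
  have hM' : (7 : ℝ) ≤ M := by exact_mod_cast hM
  have hL' : (2 : ℝ) ≤ L := by exact_mod_cast hL
  have hpi := Real.pi_pos
  have hML : (0 : ℝ) < M * L := by positivity
  have hk : (0 : ℝ) < Real.pi / (M * L) := div_pos hpi hML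
  have e : sq (om (u + c0) + om (v + c0) + om (w + c0)) - 1 =
      8 * (Real.cos ((u - v) / 2) * Real.cos ((v - w) / 2) * Real.cos ((w - u) / 2)) := by
    have e1 : sq (om (u + c0) + om (v + c0) + om (w + c0)) - 1 =
        2 * (1 + Real.cos (u - v) + Real.cos (v - w) + Real.cos (w - u)) := by
      have hx : u - v = (u + c0) - (v + c0) := by ring
      have hy : v - w = (v + c0) - (w + c0) := by ring
      have hz : w - u = (w + c0) - (u + c0) := by ring
      rw [hx, hy, hz]
      simp only [sq, om, Prod.fst_add, Prod.snd_add, Real.cos_sub]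
      have h1 := Real.sin_sq_add_cos_sq (u + c0)
      have h2 := Real.sin_sq_add_cos_sq (v + c0)
      have h3 := Real.sin_sq_add_cos_sq (w + c0)
      nlinarith
    rw [e1]
    have e2 : w - u = -((u - v) + (v - w)) := by ring
    have e3 : (w - u) / 2 = -((u - v) / 2 + (v - w) / 2) := by ring
    rw [e3, e2, Real.cos_neg, Real.cos_neg, Real.cos_add ((u - v) / 2)]
    have e4 : u - v = 2 * ((u - v) / 2) := by ring
    have e5 : v - w = 2 * ((v - w) / 2) := by ring
    have e6 : u - v + (v - w) = 2 * ((u - v) / 2) + 2 * ((v - w) / 2) := by ring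
    rw [e6]
    set X := (u - v) / 2
    set Y := (v - w) / 2
    rw [e4, e5, Real.cos_add, Real.cos_two_mul, Real.cos_two_mul, Real.sin_two_mul, Real.sin_two_mul]
    have h1 := Real.sin_sq_add_cos_sq X
    have h2 := Real.sin_sq_add_cos_sq Y
    ring
  rw [e]
  have hc' : ∀ x : ℝ, |x| ≤ Real.pi / M → Real.cos (Real.pi / (2 * M)) ≤ Real.cos (x / 2) := by
    intro x hx
    rw [← Real.cos_abs (x / 2)]
    refine Real.cos_le_cos_of_nonneg_of_le_pi (abs_nonneg _) ?_ ?_
    · rw [div_le_iff₀ (by linarith)]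
      nlinarith
    · rw [abs_div, abs_two]
      calc |x| / 2 ≤ Real.pi / M / 2 := by linarith
        _ = Real.pi / (2 * M) := by field_simp
  have hpos : 0 ≤ Real.cos (Real.pi / (2 * M)) := by
    refine Real.cos_nonneg_of_mem_Icc ⟨?_, ?_⟩
    · have : 0 ≤ Real.pi / (2 * M) := by positivity
      linarith
    · rw [div_le_div_iff₀ (by linarith) (by norm_num)]
      nlinarith
  have d1 := (sg18a_diff hu hv)
  have d2 := (sg18a_diff hv hw)
  have d3 := (sg18a_diff hw hu)
  have g1 := hc' (u - v) (by linarith)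
  have g2 := hc' (v - w) (by linarith)
  have g3 := hc' (w - u) (by linarith)
  have : Real.cos (Real.pi / (2 * M)) ^ 3 ≤
      Real.cos ((u - v) / 2) * Real.cos ((v - w) / 2) * Real.cos ((w - u) / 2) := by
    calc Real.cos (Real.pi / (2 * M)) ^ 3 = Real.cos (Real.pi / (2 * M)) *
          Real.cos (Real.pi / (2 * M)) * Real.cos (Real.pi / (2 * M)) := by ring
      _ ≤ _ := by
        refine mul_le_mul (mul_le_mul g1 g2 hpos (hpos.trans g1)) g3 hpos ?_
        exact mul_nonneg (hpos.trans g1) (hpos.trans g2)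
  linarith

theorem blk_close {M L : ℕ} (hM : 7 ≤ M) (hL : 2 ≤ L) {s j : ℤ} {a b : ℝ}
    (ha : a ∈ Blk M L s j) (hb : b ∈ Blk M L s j) : sq (om a - om b) ≤ 1 / 4 := by
  obtain ⟨u, z1, rfl, hu⟩ := sg18a_repr hM hL ha
  obtain ⟨v, z2, rfl, hv⟩ := sg18a_repr hM hL hb
  rw [sg18a_om, sg18a_om]
  have hM' : (7 : ℝ) ≤ M := by exact_mod_cast hM
  have hL' : (2 : ℝ) ≤ L := by exact_mod_cast hL
  have hk : (0 : ℝ) < Real.pi / (M * L) := div_pos Real.pi_pos (by positivity)
  have d1 := sg18a_diff hu hv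
  refine sg18a_close (δ := Real.pi / M) ?_ (sg18a_piM hM)
  rw [add_sub_add_right_eq_sub]
  linarith

theorem blk_anti {M L : ℕ} (hM : 7 ≤ M) (hL : 2 ≤ L) {s j : ℤ} {a b : ℝ}
    (ha : a ∈ Blk M L s j) (hb : b ∈ Blk M L s (j + M)) : sq (om a + om b) ≤ 1 / 4 := by
  obtain ⟨u, z1, rfl, hu⟩ := sg18a_repr hM hL ha
  obtain ⟨v, z2, rfl, hv⟩ := sg18a_repr hM hL hb
  rw [sg18a_om, sg18a_om]
  have hM' : (7 : ℝ) ≤ M := by exact_mod_cast hM
  have hL' : (2 : ℝ) ≤ L := by exact_mod_cast hL
  have hk : (0 : ℝ) < Real.pi / (M * L) := div_pos Real.pi_pos (by positivity)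
  have e : v + sg18a_c M L s (j + M) = v + sg18a_c M L s j + Real.pi := by
    unfold sg18a_c
    push_cast
    have : (M : ℝ) ≠ 0 := by positivity
    field_simp
    ring
  have e2 : om (v + sg18a_c M L s (j + M)) = - om (v + sg18a_c M L s j) := by
    rw [e]
    simp [om, Real.cos_add_pi, Real.sin_add_pi]
  rw [e2, ← sub_eq_add_neg]
  have d1 := sg18a_diff hu hv
  refine sg18a_close (δ := Real.pi / M) ?_ (sg18a_piM hM)
  rw [add_sub_add_right_eq_sub]
  linarith

theorem blk_sep {M L : ℕ} (hM : 7 ≤ M) (hL : 2 ≤ L) {s j k : ℤ} (hjk : ¬ (M : ℤ) ∣ j - k)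
    {a b : ℝ} (ha : a ∈ Blk M L s j) (hb : b ∈ Blk M L s k) :
    Real.sin (Real.pi / (M * L)) ≤ |Real.sin (a - b)| := by
  obtain ⟨u, z1, rfl, hu⟩ := sg18a_repr hM hL ha
  obtain ⟨v, z2, rfl, hv⟩ := sg18a_repr hM hL hb
  have hM' : (7 : ℝ) ≤ M := by exact_mod_cast hM
  have hL' : (2 : ℝ) ≤ L := by exact_mod_cast hL
  have hpi := Real.pi_pos
  have hML : (0 : ℝ) < M * L := by positivity
  have hk : (0 : ℝ) < Real.pi / (M * L) := div_pos hpi hML
  have hMz : (M : ℤ) ≠ 0 := by
    have : (0 : ℤ) < M := by exact_mod_cast (by omega : 0 < M)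
    exact this.ne'
  set q1 : ℤ := (j - k) / M with hq1
  set r : ℤ := (j - k) % M with hr
  have hdiv : j - k = M * q1 + r := by
    have := Int.mul_ediv_add_emod (j - k) M
    rw [← hq1, ← hr] at this
    linarith
  have hr0 : 0 ≤ r := Int.emod_nonneg _ hMz
  have hrM : r < M := Int.emod_lt_of_pos _ (by exact_mod_cast (by omega : 0 < M))
  have hr1 : 1 ≤ r := by
    rcases hr0.lt_or_eq with h | h
    · omega
    · exfalso
      apply hjk
      exact Int.dvd_of_emod_eq_zero (by rw [← hr, ← h])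
  have hr1' : (1 : ℝ) ≤ r := by exact_mod_cast hr1
  have hrM' : (r : ℝ) + 1 ≤ M := by exact_mod_cast hrM
  have hjk' : (j : ℝ) - k = M * q1 + r := by exact_mod_cast hdiv
  have hMne : (M : ℝ) ≠ 0 := by positivity
  have e : u + sg18a_c M L s j + z1 * (2 * Real.pi) - (v + sg18a_c M L s k + z2 * (2 * Real.pi)) =
      (u - v + Real.pi * r / M) + ((q1 + 2 * (z1 - z2) : ℤ) : ℝ) * Real.pi := by
    unfold sg18a_c
    have : Real.pi * j / M - Real.pi * k / M = Real.pi * r / M + q1 * Real.pi := by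
      rw [← sub_div, ← mul_sub, hjk']
      field_simp
      ring
    push_cast
    linarith
  rw [e, Real.sin_add_int_mul_pi, abs_mul, abs_zpow, abs_neg, abs_one, one_zpow, one_mul]
  have d1 := abs_le.1 (sg18a_diff hu hv)
  have hA : Real.pi / M ≤ Real.pi * r / M := by
    apply div_le_div_of_nonneg_right _ (by linarith)
    nlinarith
  have hB : Real.pi * r / M ≤ Real.pi - Real.pi / M := by
    have : Real.pi - Real.pi / M = (Real.pi * (M - 1)) / M := by field_simp
    rw [this]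
    apply div_le_div_of_nonneg_right _ (by linarith)
    nlinarith
  have lo : Real.pi / (M * L) ≤ u - v + Real.pi * r / M := by linarith [d1.1]
  have hi : u - v + Real.pi * r / M ≤ Real.pi - Real.pi / (M * L) := by linarith [d1.2]
  have hsmall : Real.pi / (M * L) ≤ Real.pi / 2 := by
    apply div_le_div_of_nonneg_left hpi.le (by norm_num)
    nlinarith
  set y := u - v + Real.pi * r / M
  refine le_trans ?_ (le_abs_self _)
  rcases le_total y (Real.pi / 2) with h | h
  · exact Real.sin_le_sin_of_le_of_le_pi_div_two (by linarith) h lo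
  · rw [← Real.sin_pi_sub y]
    exact Real.sin_le_sin_of_le_of_le_pi_div_two (by linarith) (by linarith) (by linarith)

end Pool.Agent.Lib.MP_230119_an
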