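import Pool.Agent.Lib.MP_230119_an.SGDef2

set_option autoImplicit false

open MeasureTheory Set Filter Topology
open scoped ENNReal

namespace Pool.Agent.Lib.MP_230119_an

/-- the index of the cell of `θ` -/
private noncomputable def sg18b_cm (M L : ℕ) (θ : ℝ) : ℤ := ⌈θ * (M * L) / Real.pi⌉ - 1

private lemma sg18b_lt_iff (M L : ℕ) (θ : ℝ) (s a : ℤ) :
    (a : ℝ) < θ * (M * L) / Real.pi - s ↔ a ≤ sg18b_cm M L θ - s := by
  unfold sg18b_cm
  have h : (a : ℝ) < θ * (M * L) / Real.pi - s ↔ ((a + s : ℤ) : ℝ) < θ * (M * L) / Real.pi := by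
    push_cast
    exact lt_sub_iff_add_lt
  rw [h, ← Int.lt_ceil]
  omega

private lemma sg18b_le_iff (M L : ℕ) (θ : ℝ) (s a : ℤ) :
    θ * (M * L) / Real.pi - s ≤ (a : ℝ) ↔ sg18b_cm M L θ - s < a := by
  unfold sg18b_cm
  have h : θ * (M * L) / Real.pi - s ≤ (a : ℝ) ↔ θ * (M * L) / Real.pi ≤ ((a + s : ℤ) : ℝ) := by
    push_cast
    exact sub_le_iff_le_add
  rw [h, ← Int.ceil_le]
  omega

private lemma sg18b_buf_iff {M L : ℕ} (θ : ℝ) (s : ℤ) :
    θ ∈ Buf M L s ↔ (L : ℤ) ∣ sg18b_cm M L θ - s := by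
  unfold Buf
  simp only [mem_ofPred_eq]
  constructor
  · rintro ⟨z, h1, h2⟩
    have h1' : ((z * L : ℤ) : ℝ) < θ * (M * L) / Real.pi - s := by push_cast; exact h1
    have h2' : θ * (M * L) / Real.pi - s ≤ ((z * L + 1 : ℤ) : ℝ) := by push_cast; exact h2
    rw [sg18b_lt_iff] at h1'
    rw [sg18b_le_iff] at h2'
    exact ⟨z, by rw [mul_comm]; omega⟩
  · rintro ⟨z, hz⟩
    refine ⟨z, ?_, ?_⟩
    · have : ((z * L : ℤ) : ℝ) < θ * (M * L) / Real.pi - s := by
        rw [sg18b_lt_iff, hz, mul_comm]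
      push_cast at this; exact this
    · have : θ * (M * L) / Real.pi - s ≤ ((z * L + 1 : ℤ) : ℝ) := by
        rw [sg18b_le_iff, hz, mul_comm]
        omega
      push_cast at this; exact this

private lemma sg18b_blk_iff {M L : ℕ} (hL : 0 < L) (θ : ℝ) (s j : ℤ) :
    θ ∈ Blk M L s j ↔ ¬ (L : ℤ) ∣ sg18b_cm M L θ - s ∧
      (2 * M : ℤ) ∣ (sg18b_cm M L θ - s) / L - j := by
  have hL' : (0 : ℤ) < L := by exact_mod_cast hL
  unfold Blk
  simp only [mem_ofPred_eq]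
  set m := sg18b_cm M L θ with hm
  constructor
  · rintro ⟨z, h1, h2⟩
    have h1' : (((j + 2 * M * z) * L + 1 : ℤ) : ℝ) < θ * (M * L) / Real.pi - s := by
      push_cast; exact h1
    have h2' : θ * (M * L) / Real.pi - s ≤ (((j + 2 * M * z + 1) * L : ℤ) : ℝ) := by
      push_cast; exact h2
    rw [sg18b_lt_iff, ← hm] at h1'
    rw [sg18b_le_iff, ← hm] at h2'
    have hq : (m - s) / L = j + 2 * M * z := by
      rw [Int.ediv_eq_iff_of_pos hL']
      constructor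
      · linarith
      · linarith
    constructor
    · intro hd
      have h3 : (m - s) / L * L = m - s := Int.ediv_mul_cancel hd
      rw [hq] at h3
      omega
    · rw [hq]
      exact ⟨z, by ring⟩
  · rintro ⟨h1, z, hz⟩
    have hq : (m - s) / L = j + 2 * M * z := by linarith
    have h3 := Int.emod_nonneg (m - s) hL'.ne'
    have h4 := Int.emod_lt_of_pos (m - s) hL'
    have h5 := Int.emod_add_mul_ediv (m - s) L
    have h6 : (m - s) % L ≠ 0 := fun h => h1 (Int.dvd_of_emod_eq_zero h)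
    have h7 : 1 ≤ (m - s) % L := by omega
    rw [hq] at h5
    refine ⟨z, ?_, ?_⟩
    · have : (((j + 2 * M * z) * L + 1 : ℤ) : ℝ) < θ * (M * L) / Real.pi - s := by
        rw [sg18b_lt_iff, ← hm]
        nlinarith
      push_cast at this; exact this
    · have : θ * (M * L) / Real.pi - s ≤ (((j + 2 * M * z + 1) * L : ℤ) : ℝ) := by
        rw [sg18b_le_iff, ← hm]
        nlinarith
      push_cast at this; exact this

private lemma sg18b_cell_iff {M L : ℕ} (hM : 0 < M) (hL : 0 < L) (θ : ℝ) (i : ℕ) :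
    θ ∈ Cell M L i ↔ sg18b_cm M L θ = i := by
  have hpi := Real.pi_pos
  have hML : (0 : ℝ) < M * L := by positivity
  unfold Cell
  rw [mem_Ioc]
  have h1 : Real.pi * i / (M * L) < θ ↔ ((i : ℤ) : ℝ) < θ * (M * L) / Real.pi - (0 : ℤ) := by
    rw [div_lt_iff₀ hML, Int.cast_zero, sub_zero, lt_div_iff₀ hpi, mul_comm Real.pi]
    push_cast
    rfl
  have h2 : θ ≤ Real.pi * (i + 1) / (M * L) ↔
      θ * (M * L) / Real.pi - (0 : ℤ) ≤ ((i + 1 : ℤ) : ℝ) := by
    rw [le_div_iff₀ hML, Int.cast_zero, sub_zero, div_le_iff₀ hpi, mul_comm Real.pi]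
    push_cast
    rfl
  rw [h1, h2, sg18b_lt_iff, sg18b_le_iff]
  omega

theorem buf_part {M L : ℕ} (hM : 0 < M) (hL : 0 < L) (θ : ℝ) :
    ∃! s : ℕ, s < L ∧ θ ∈ Buf M L s := by
  have hL' : (0 : ℤ) < L := by exact_mod_cast hL
  set m := sg18b_cm M L θ with hm
  have h3 := Int.emod_nonneg m hL'.ne'
  have h4 := Int.emod_lt_of_pos m hL'
  refine ⟨(m % L).toNat, ⟨by omega, ?_⟩, ?_⟩
  · have e : (((m % L).toNat : ℕ) : ℤ) = m % L := Int.toNat_of_nonneg h3
    rw [e, sg18b_buf_iff, ← hm]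
    exact Int.dvd_self_sub_emod
  · rintro s ⟨hs, hs2⟩
    have hs3 : θ ∈ Buf M L (s : ℤ) := hs2
    rw [sg18b_buf_iff, ← hm] at hs3
    have h5 : m % L = (s : ℤ) % L := (Int.emod_emod_of_dvd m (dvd_refl _)).symm.trans <| by
      rw [Int.emod_emod_of_dvd m (dvd_refl _)]
      exact Int.emod_eq_emod_iff_emod_sub_eq_zero.2 (Int.emod_eq_zero_of_dvd hs3)
    have h6 : (s : ℤ) % L = s := Int.emod_eq_of_lt (by omega) (by omega)
    omega

theorem blk_part {M L : ℕ} (hM : 0 < M) (hL : 0 < L) (s : ℤ) (θ : ℝ) :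
    (θ ∈ Buf M L s ∧ ∀ j : ℤ, θ ∉ Blk M L s j) ∨
      (θ ∉ Buf M L s ∧ ∃! j : ℕ, j < 2 * M ∧ θ ∈ Blk M L s j) := by
  have hM' : (0 : ℤ) < 2 * M := by positivity
  set q := (sg18b_cm M L θ - s) / L with hq
  by_cases hd : (L : ℤ) ∣ sg18b_cm M L θ - s
  · left
    refine ⟨(sg18b_buf_iff θ s).2 hd, fun j hj => ?_⟩
    exact ((sg18b_blk_iff hL θ s j).1 hj).1 hd
  · right
    refine ⟨fun h => hd ((sg18b_buf_iff θ s).1 h), ?_⟩
    have h3 := Int.emod_nonneg q hM'.ne'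
    have h4 := Int.emod_lt_of_pos q hM'
    refine ⟨(q % (2 * M)).toNat, ⟨by omega, ?_⟩, ?_⟩
    · have e : (((q % (2 * M)).toNat : ℕ) : ℤ) = q % (2 * M) := Int.toNat_of_nonneg h3
      rw [e, sg18b_blk_iff hL, ← hq]
      exact ⟨hd, Int.dvd_self_sub_emod⟩
    · rintro j ⟨hj, hj2⟩
      have hj3 : θ ∈ Blk M L s (j : ℤ) := hj2
      rw [sg18b_blk_iff hL, ← hq] at hj3
      have h5 : q % (2 * M) = (j : ℤ) % (2 * M) :=
        Int.emod_eq_emod_iff_emod_sub_eq_zero.2 (Int.emod_eq_zero_of_dvd hj3.2)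
      have h6 : (j : ℤ) % (2 * M) = j := Int.emod_eq_of_lt (by omega) (by omega)
      omega

theorem cell_blk {M L : ℕ} (hM : 0 < M) (hL : 0 < L) (s j : ℤ) (i : ℕ) :
    Cell M L i ⊆ Blk M L s j ∨ Disjoint (Cell M L i) (Blk M L s j) := by
  by_cases h : ¬ (L : ℤ) ∣ (i : ℤ) - s ∧ (2 * M : ℤ) ∣ ((i : ℤ) - s) / L - j
  · left
    intro θ hθ
    rw [sg18b_cell_iff hM hL] at hθ
    rw [sg18b_blk_iff hL, hθ]
    exact h
  · right
    rw [Set.disjoint_left]
    intro θ hθ hθ2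
    rw [sg18b_cell_iff hM hL] at hθ
    rw [sg18b_blk_iff hL, hθ] at hθ2
    exact h hθ2

theorem cell_cover {M L : ℕ} (hM : 0 < M) (hL : 0 < L) {θ : ℝ} (hθ : θ ∈ Ioc 0 (2 * Real.pi)) :
    ∃! i : ℕ, i < 2 * M * L ∧ θ ∈ Cell M L i := by
  have hpi := Real.pi_pos
  have hML : (0 : ℝ) < M * L := by positivity
  have h1 : ((0 : ℤ) : ℝ) < θ * (M * L) / Real.pi - (0 : ℤ) := by
    rw [Int.cast_zero, sub_zero]
    have := hθ.1
    positivity
  have h2 : θ * (M * L) / Real.pi - (0 : ℤ) ≤ ((2 * M * L : ℤ) : ℝ) := by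
    rw [Int.cast_zero, sub_zero, div_le_iff₀ hpi]
    push_cast
    have := hθ.2
    nlinarith
  rw [sg18b_lt_iff] at h1
  rw [sg18b_le_iff] at h2
  have h0 : (((sg18b_cm M L θ).toNat : ℕ) : ℤ) = sg18b_cm M L θ := Int.toNat_of_nonneg (by omega)
  refine ⟨(sg18b_cm M L θ).toNat, ⟨?_, ?_⟩, ?_⟩
  · have : (((sg18b_cm M L θ).toNat : ℕ) : ℤ) < ((2 * M * L : ℕ) : ℤ) := by
      rw [h0]; push_cast; linarith
    exact_mod_cast this
  · rw [sg18b_cell_iff hM hL, h0]
  · rintro i ⟨_, hi⟩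
    rw [sg18b_cell_iff hM hL] at hi
    omega

private lemma sg18b_measurableSet_cell (M L i : ℕ) : MeasurableSet (Cell M L i) :=
  measurableSet_Ioc

theorem ex_blk_le {M L : ℕ} (hM : 0 < M) (hL : 0 < L) (s j : ℤ) {f : ℝ → ℂ} (hf : MemLp f 2 mc)
    {η : ℝ} (hη : 0 ≤ η) (h : ∀ i < 2 * M * L, ∀ x, ‖ex ((Cell M L i).indicator f) x‖ ≤ η)
    (x : ℝ × ℝ) : ‖ex ((Blk M L s j).indicator f) x‖ ≤ 2 * M * L * η := by
  classical
  set I : Finset ℕ := (Finset.range (2 * M * L)).filter fun i => Cell M L i ⊆ Blk M L s j with hI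
  have hsum : (Blk M L s j).indicator f =ᵐ[mc]
      fun θ => ∑ i ∈ I, (Cell M L i).indicator f θ := by
    unfold mc
    filter_upwards [ae_restrict_mem measurableSet_Ioc] with θ hθ
    obtain ⟨i, ⟨hi, hiθ⟩, huniq⟩ := cell_cover hM hL hθ
    by_cases hb : θ ∈ Blk M L s j
    · rw [indicator_of_mem hb]
      have hiI : i ∈ I := by
        rw [hI, Finset.mem_filter]
        refine ⟨Finset.mem_range.2 hi, ?_⟩
        rcases cell_blk hM hL s j i with h1 | h1
        · exact h1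
        · exact absurd hb (Set.disjoint_left.1 h1 hiθ)
      rw [Finset.sum_eq_single_of_mem i hiI]
      · rw [indicator_of_mem hiθ]
      · intro k hk hki
        rw [indicator_of_notMem]
        intro hkθ
        exact hki (huniq k ⟨Finset.mem_range.1 (Finset.mem_filter.1 hk).1, hkθ⟩)
    · rw [indicator_of_notMem hb]
      symm
      refine Finset.sum_eq_zero fun k hk => ?_
      rw [indicator_of_notMem]
      intro hkθ
      exact hb ((Finset.mem_filter.1 hk).2 hkθ)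
  rw [ex_congr hsum, ex_sum I _ fun i _ =>
    (integrable_of_memLp hf).indicator (sg18b_measurableSet_cell M L i)]
  refine (norm_sum_le _ _).trans ?_
  have h1 : ∑ i ∈ I, ‖ex ((Cell M L i).indicator f) x‖ ≤ ∑ i ∈ I, η :=
    Finset.sum_le_sum fun i hi => h i (Finset.mem_range.1 (Finset.mem_filter.1 hi).1) x
  refine h1.trans ?_
  rw [Finset.sum_const, nsmul_eq_mul]
  have h2 : I.card ≤ 2 * M * L := by
    refine (Finset.card_filter_le _ _).trans ?_
    rw [Finset.card_range]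
  have h3 : (I.card : ℝ) ≤ 2 * M * L := by exact_mod_cast h2
  exact mul_le_mul_of_nonneg_right h3 hη

end Pool.Agent.Lib.MP_230119_an
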