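import Pool.Agent.Lib.MP_230119_an.SGDef2
import Pool.Agent.Lib.MP_230119_an.SG10
import Pool.Agent.Lib.MP_230119_an.SG16
import Pool.Agent.Lib.MP_230119_an.SG17
import Pool.Agent.Lib.MP_230119_an.SG18a
import Pool.Agent.Lib.MP_230119_an.SG18b

set_option autoImplicit false

open MeasureTheory Set Filter Topology
open scoped ENNReal

namespace Pool.Agent.Lib.MP_230119_an

private lemma sg18c_six {x y t : ℝ} (hx : 0 ≤ x) (hy : 0 ≤ y) (ht : 0 < t) :
    (x + y) ^ 6 ≤ (1 + t) ^ 5 * x ^ 6 + (1 + 1 / t) ^ 5 * y ^ 6 := by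
  have h1 : 0 < 1 + t := by linarith
  have hcx : ConvexOn ℝ (Ici 0) fun x : ℝ => x ^ 6 := convexOn_pow 6
  have hx' : (1 + t) * x ∈ Ici (0 : ℝ) := mem_Ici.2 (by positivity)
  have hy' : (1 + 1 / t) * y ∈ Ici (0 : ℝ) := mem_Ici.2 (by positivity)
  have h := hcx.2 hx' hy' (by positivity : 0 ≤ 1 / (1 + t)) (by positivity : 0 ≤ t / (1 + t))
    (by field_simp)
  simp only [smul_eq_mul] at h
  have e1 : 1 / (1 + t) * ((1 + t) * x) + t / (1 + t) * ((1 + 1 / t) * y) = x + y := by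
    field_simp
    ring
  have e2 : 1 / (1 + t) * ((1 + t) * x) ^ 6 + t / (1 + t) * ((1 + 1 / t) * y) ^ 6
      = (1 + t) ^ 5 * x ^ 6 + (1 + 1 / t) ^ 5 * y ^ 6 := by
    have e3 : (1 + 1 / t) = (1 + t) / t := by field_simp; ring
    rw [e3]
    field_simp
  rw [e1, e2] at h
  exact h

private lemma sg18c_J {f b H : ℝ → ℂ} (hb : MemLp b 2 mc) (hH : MemLp H 2 mc)
    (e : f = H + b) {t : ℝ} (ht : 0 < t) :
    J f ≤ ENNReal.ofReal ((1 + t) ^ 5) * J H + ENNReal.ofReal ((1 + 1 / t) ^ 5) * J b := by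
  have ib := integrable_of_memLp hb
  have iH := integrable_of_memLp hH
  have p : ∀ x, ‖ex f x‖ₑ ^ 6 ≤ ENNReal.ofReal ((1 + t) ^ 5) * ‖ex H x‖ₑ ^ 6 +
      ENNReal.ofReal ((1 + 1 / t) ^ 5) * ‖ex b x‖ₑ ^ 6 := by
    intro x
    rw [e, ex_add iH ib]
    have e1 : ∀ z : ℂ, ‖z‖ₑ ^ 6 = ENNReal.ofReal (‖z‖ ^ 6) := fun z => by
      rw [ENNReal.ofReal_pow (norm_nonneg _), ofReal_norm]
    rw [e1, e1, e1, ← ENNReal.ofReal_mul (by positivity), ← ENNReal.ofReal_mul (by positivity),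
      ← ENNReal.ofReal_add (by positivity) (by positivity)]
    refine ENNReal.ofReal_le_ofReal ?_
    have h1 : ‖ex H x + ex b x‖ ^ 6 ≤ (‖ex H x‖ + ‖ex b x‖) ^ 6 := by
      gcongr
      exact norm_add_le _ _
    exact h1.trans (sg18c_six (norm_nonneg _) (norm_nonneg _) ht)
  have m1 : Measurable fun x => ‖ex H x‖ₑ ^ 6 := (continuous_ex iH).enorm.measurable.pow_const 6
  have m2 : Measurable fun x => ‖ex b x‖ₑ ^ 6 := (continuous_ex ib).enorm.measurable.pow_const 6
  unfold J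
  refine (lintegral_mono p).trans (le_of_eq ?_)
  rw [lintegral_add_left (m1.const_mul _), lintegral_const_mul _ m1, lintegral_const_mul _ m2]

private lemma sg18c_cube {ι : Type*} (s : Finset ι) (x : ι → ℝ≥0∞) :
    ∑ i ∈ s, x i ^ 3 ≤ (∑ i ∈ s, x i) ^ 3 := by
  calc ∑ i ∈ s, x i ^ 3 ≤ ∑ i ∈ s, x i * (∑ i ∈ s, x i) ^ 2 := by
        refine Finset.sum_le_sum fun i hi => ?_
        have h := Finset.single_le_sum (f := x) (fun _ _ => zero_le) hi
        calc x i ^ 3 = x i * x i ^ 2 := by ring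
          _ ≤ _ := by gcongr
    _ = (∑ i ∈ s, x i) ^ 3 := by rw [← Finset.sum_mul]; ring

private lemma sg18c_buf {M L : ℕ} (hM : 0 < M) (hL : 0 < L) {f : ℝ → ℂ} (hf : MemLp f 2 mc)
    (h4 : N2 f ≤ 4) : ∃ s : ℕ, N2 ((Buf M L s).indicator f) ≤ ENNReal.ofReal (4 / L) := by
  have hp : ∀ θ, ‖f θ‖ₑ ^ 2 = ∑ s ∈ Finset.range L, ‖(Buf M L s).indicator f θ‖ₑ ^ 2 := by
    intro θ
    obtain ⟨s, ⟨hs, hs'⟩, hu⟩ := buf_part hM hL θ
    rw [Finset.sum_eq_single s]
    · rw [indicator_of_mem hs']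
    · intro k hk hks
      have : θ ∉ Buf M L k := fun hh => hks (hu k ⟨Finset.mem_range.1 hk, hh⟩)
      rw [indicator_of_notMem this]
      simp
    · intro hh
      exact absurd (Finset.mem_range.2 hs) hh
  have hm : ∀ s : ℕ, AEMeasurable (fun θ => ‖(Buf M L s).indicator f θ‖ₑ ^ 2) mc := fun s =>
    ((hf.indicator (buf_meas M L s)).aestronglyMeasurable.enorm).pow_const 2
  have hsum : N2 f = ∑ s ∈ Finset.range L, N2 ((Buf M L s).indicator f) := by
    unfold N2
    rw [lintegral_congr hp, lintegral_finsetSum' _ fun s _ => hm s]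
  have hfin : ∀ s : ℕ, N2 ((Buf M L s).indicator f) ≠ ∞ := fun s =>
    N2_ne_top (hf.indicator (buf_meas M L s))
  have hle : ∑ s ∈ Finset.range L, (N2 ((Buf M L s).indicator f)).toReal ≤
      ∑ _s ∈ Finset.range L, (4 / L : ℝ) := by
    rw [← ENNReal.toReal_sum fun s _ => hfin s, ← hsum]
    have : (N2 f).toReal ≤ 4 := by
      have := ENNReal.toReal_mono (by norm_num) h4
      simpa using this
    refine this.trans (le_of_eq ?_)
    have hL' : (L : ℝ) ≠ 0 := by positivity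
    simp only [Finset.sum_const, Finset.card_range, nsmul_eq_mul]
    field_simp
  obtain ⟨s, -, hs⟩ := Finset.exists_le_of_sum_le ⟨0, Finset.mem_range.2 hL⟩ hle
  refine ⟨s, ?_⟩
  rw [← ENNReal.ofReal_toReal (hfin s)]
  exact ENNReal.ofReal_le_ofReal hs

/-- the block part -/
private lemma sg18c_blk {M L : ℕ} (hM : 0 < M) (hL : 0 < L) (s : ℤ) (f : ℝ → ℂ) (θ : ℝ) :
    (f θ = (∑ k ∈ Finset.range (2 * M), (Blk M L s k).indicator f θ)
      + (Buf M L s).indicator f θ) ∧
    (∑ k ∈ Finset.range (2 * M), ‖(Blk M L s k).indicator f θ‖ₑ ^ 2 ≤ ‖f θ‖ₑ ^ 2) ∧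
    (∀ j k : ℕ, j < 2 * M → k < 2 * M → j ≠ k →
      ‖(Blk M L s j).indicator f θ + (Blk M L s k).indicator f θ‖ₑ ≤ ‖f θ‖ₑ) := by
  rcases blk_part hM hL s θ with ⟨h1, h2⟩ | ⟨h1, j, ⟨hj, hj'⟩, hu⟩
  · refine ⟨?_, ?_, ?_⟩
    · rw [indicator_of_mem h1, Finset.sum_eq_zero, zero_add]
      intro k _
      rw [indicator_of_notMem (h2 k)]
    · rw [Finset.sum_eq_zero]
      · exact zero_le
      · intro k _
        rw [indicator_of_notMem (h2 k)]
        simp
    · intro j k _ _ _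
      rw [indicator_of_notMem (h2 k), indicator_of_notMem (h2 j)]
      simp
  · have hz : ∀ k : ℕ, k < 2 * M → k ≠ j → (Blk M L s k).indicator f θ = 0 := fun k hk hkj =>
      indicator_of_notMem (fun hh => hkj (hu k ⟨hk, hh⟩)) _
    refine ⟨?_, ?_, ?_⟩
    · rw [indicator_of_notMem h1, add_zero, Finset.sum_eq_single j, indicator_of_mem hj']
      · intro k hk hkj
        exact hz k (Finset.mem_range.1 hk) hkj
      · intro hh
        exact absurd (Finset.mem_range.2 hj) hh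
    · rw [Finset.sum_eq_single j, indicator_of_mem hj']
      · intro k hk hkj
        rw [hz k (Finset.mem_range.1 hk) hkj]
        simp
      · intro hh
        exact absurd (Finset.mem_range.2 hj) hh
    · intro i k hi hk hik
      by_cases hij : i = j
      · subst hij
        rw [hz k hk (Ne.symm hik), add_zero]
        exact enorm_indicator_le_enorm_self _ _
      · rw [hz i hi hij, zero_add]
        exact enorm_indicator_le_enorm_self _ _

/-- the constant of the pair estimate -/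
private noncomputable def sg18c_c (M : ℕ) : ℝ :=
  5 / 2 * ((2 * Real.pi) ^ 2 * (pm / (8 * Real.cos (Real.pi / (2 * M)) ^ 3)))

private lemma sg18c_lim : Tendsto sg18c_c atTop (𝓝 Kst) := by
  have h1 : Tendsto (fun M : ℕ => Real.pi / (2 * (M : ℝ))) atTop (𝓝 0) := by
    have : Tendsto (fun M : ℕ => 2 * (M : ℝ)) atTop atTop :=
      tendsto_natCast_atTop_atTop.const_mul_atTop (by norm_num)
    exact this.const_div_atTop _
  have h2 : Tendsto (fun M : ℕ => Real.cos (Real.pi / (2 * (M : ℝ)))) atTop (𝓝 1) := by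
    have := (Real.continuous_cos.tendsto 0).comp h1
    rw [Real.cos_zero] at this
    exact this
  have h3 : Tendsto (fun M : ℕ => 8 * Real.cos (Real.pi / (2 * (M : ℝ))) ^ 3) atTop (𝓝 8) := by
    have := (h2.pow 3).const_mul 8
    simpa using this
  have h4 : Tendsto (fun M : ℕ => pm / (8 * Real.cos (Real.pi / (2 * (M : ℝ))) ^ 3)) atTop
      (𝓝 (pm / 8)) := tendsto_const_nhds.div h3 (by norm_num)
  have h5 : Kst = 5 / 2 * ((2 * Real.pi) ^ 2 * (pm / 8)) := by
    unfold Kst pm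
    ring
  rw [h5]
  exact (h4.const_mul _).const_mul _

private lemma sg18c_M {δ : ℝ} (hδ : 0 < δ) : ∃ M : ℕ, 7 ≤ M ∧ 0 < sg18c_c M ∧
    sg18c_c M < Kst + δ := by
  have h1 := (sg18c_lim.eventually (lt_mem_nhds (by linarith [Kst_pos] : (0:ℝ) < Kst)))
  have h2 := (sg18c_lim.eventually (gt_mem_nhds (by linarith : Kst < Kst + δ)))
  obtain ⟨M, hM⟩ := ((h1.and h2).and (eventually_ge_atTop 7)).exists
  exact ⟨M, hM.2, hM.1.1, hM.1.2⟩

private lemma sg18c_t {c K : ℝ} (h : c < K) : ∃ t : ℝ, 0 < t ∧ (1 + t) ^ 5 * c < K := by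
  have hc : Tendsto (fun t : ℝ => (1 + t) ^ 5 * c) (𝓝[>] 0) (𝓝 ((1 + 0) ^ 5 * c)) := by
    have : Continuous fun t : ℝ => (1 + t) ^ 5 * c := by fun_prop
    exact (this.tendsto 0).mono_left nhdsWithin_le_nhds
  have h1 := hc.eventually (gt_mem_nhds (by simpa using h : (1 + 0) ^ 5 * c < K))
  obtain ⟨t, ht⟩ := (h1.and self_mem_nhdsWithin).exists
  exact ⟨t, ht.2, ht.1⟩

private lemma sg18c_L {D ε : ℝ} (hε : 0 < ε) : ∃ L : ℕ, 2 ≤ L ∧
    D * (4 / L) ^ 3 ≤ ε := by
  have h1 : Tendsto (fun L : ℕ => D * (4 / (L : ℝ)) ^ 3) atTop (𝓝 (D * 0 ^ 3)) := by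
    have : Tendsto (fun L : ℕ => 4 / (L : ℝ)) atTop (𝓝 0) :=
      tendsto_natCast_atTop_atTop.const_div_atTop _
    exact (this.pow 3).const_mul _
  have h2 := h1.eventually (gt_mem_nhds (by simpa using hε : D * 0 ^ 3 < ε))
  obtain ⟨L, hL⟩ := (h2.and (eventually_ge_atTop 2)).exists
  exact ⟨L, hL.2, hL.1.le⟩

theorem vanishing (ε : ℝ) (hε : 0 < ε) : ∃ M L : ℕ, 0 < M ∧ 0 < L ∧ ∃ η : ℝ, 0 < η ∧
    ∀ f : ℝ → ℂ, MemLp f 2 mc → N2 f ≤ 4 →
      (∀ i < 2 * M * L, ∀ x, ‖ex ((Cell M L i).indicator f) x‖ ≤ η) →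
      J f ≤ ENNReal.ofReal Kst * N2 f ^ 3 + ENNReal.ofReal ε := by
  obtain ⟨C0, hC0, hcr⟩ := crude
  obtain ⟨M, hM7, hc0, hcM⟩ := sg18c_M (δ := ε / 256) (by positivity)
  obtain ⟨t, ht, htc⟩ := sg18c_t hcM
  obtain ⟨L, hL2, hLe⟩ := sg18c_L (D := (1 + 1 / t) ^ 5 * C0) (ε := ε / 4) (by positivity)
  have hM : 0 < M := by omega
  have hL : 0 < L := by omega
  have hMr : (7 : ℝ) ≤ M := by exact_mod_cast hM7
  have hLr : (2 : ℝ) ≤ L := by exact_mod_cast hL2
  have hML : (14 : ℝ) ≤ M * L := by nlinarith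
  have hσ : 0 < Real.sin (Real.pi / (M * L)) := by
    refine Real.sin_pos_of_pos_of_lt_pi (by positivity) ?_
    rw [div_lt_iff₀ (by linarith)]
    nlinarith [Real.pi_pos]
  obtain ⟨C', hC', hsep⟩ := sum_separated M hσ
  set η' : ℝ := min 1 (ε / (4 * (1 + t) ^ 5 * C')) with hη'
  have hη'0 : 0 < η' := by positivity
  have hη'1 : η' ≤ 1 := min_le_left _ _
  have hη'2 : (1 + t) ^ 5 * (C' * η') ≤ ε / 4 := by
    have h1 : η' ≤ ε / (4 * (1 + t) ^ 5 * C') := min_le_right _ _
    have h2 : (0 : ℝ) < 4 * (1 + t) ^ 5 * C' := by positivity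
    rw [le_div_iff₀ h2] at h1
    linarith
  refine ⟨M, L, hM, hL, η' / (4 * M * L), by positivity, fun f hf h4 hcell => ?_⟩
  obtain ⟨s, hs⟩ := sg18c_buf hM hL hf h4
  -- abbreviations
  set b : ℝ → ℂ := (Buf M L s).indicator f with hb
  set G : ℕ → ℝ → ℂ := fun k => (Blk M L s k).indicator f with hG
  have mb : MemLp b 2 mc := hf.indicator (buf_meas M L s)
  have mG : ∀ k, MemLp (G k) 2 mc := fun k => hf.indicator (blk_meas M L s k)
  set h : Fin M → ℝ → ℂ := fun j => G j + G (j + M) with hh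
  have mh : ∀ j, MemLp (h j) 2 mc := fun j => (mG _).add (mG _)
  set H : ℝ → ℂ := fun θ => ∑ j, h j θ with hH
  have sumRange : ∀ (R : Type) [AddCommMonoid R] (u : ℕ → R),
      ∑ k ∈ Finset.range (2 * M), u k = ∑ j : Fin M, (u j + u (j + M)) := by
    intro R _ u
    rw [Fin.sum_univ_eq_sum_range (fun j => u j + u (j + M)) M, two_mul, Finset.sum_range_add,
      Finset.sum_add_distrib]
    congr 1
    refine Finset.sum_congr rfl fun j _ => ?_
    rw [add_comm]
  have hHG : ∀ θ, H θ = ∑ k ∈ Finset.range (2 * M), G k θ := by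
    intro θ
    rw [sumRange ℂ (fun k => G k θ)]
    rfl
  have mH : MemLp H 2 mc := memLp_finsetSum _ fun j _ => mh j
  have ef : f = H + b := by
    ext θ
    rw [Pi.add_apply, hHG]
    exact (sg18c_blk hM hL s f θ).1
  -- estimates on N2
  have hN : ∑ j : Fin M, (N2 (G j) + N2 (G (j + M))) ≤ N2 f := by
    rw [← sumRange ℝ≥0∞ (fun k => N2 (G k))]
    unfold N2
    rw [← lintegral_finsetSum' _ fun k _ => ((mG k).aestronglyMeasurable.enorm).pow_const 2]
    exact lintegral_mono fun θ => (sg18c_blk hM hL s f θ).2.1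
  have hN4 : ∀ j, N2 (h j) ≤ 4 := by
    intro j
    refine le_trans (lintegral_mono fun θ => ?_) h4
    have := (sg18c_blk hM hL s f θ).2.2 j (j + M) (by have := j.2; omega) (by have := j.2; omega)
      (by omega)
    exact pow_le_pow_left' this 2
  -- the sup bound
  have hsup : ∀ j x, ‖ex (h j) x‖ ≤ η' := by
    intro j x
    have hx : ∀ k : ℕ, ‖ex (G k) x‖ ≤ η' / 2 := by
      intro k
      have := ex_blk_le hM hL s k hf (by positivity : 0 ≤ η' / (4 * M * L)) hcell x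
      refine this.trans (le_of_eq ?_)
      have : (M : ℝ) ≠ 0 := by positivity
      have : (L : ℝ) ≠ 0 := by positivity
      field_simp
      ring
    have : ex (h j) x = ex (G j) x + ex (G (j + M)) x :=
      ex_add (integrable_of_memLp (mG _)) (integrable_of_memLp (mG _)) x
    rw [this]
    refine (norm_add_le _ _).trans ?_
    linarith [hx j, hx (j + M)]
  -- separation
  have hJH : J H ≤ ∑ j, J (h j) + ENNReal.ofReal (C' * η') := by
    refine hsep (fun j => Blk M L s j ∪ Blk M L s ((j : ℕ) + M : ℕ)) h η' hη'0 hη'1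
      (fun j => (blk_meas M L s _).union (blk_meas M L s _)) mh ?_ ?_ hN4 hsup
    · intro j θ hθ
      simp only [mem_union, not_or] at hθ
      show G j θ + G (j + M) θ = 0
      simp only [hG]
      rw [indicator_of_notMem hθ.1, indicator_of_notMem hθ.2, add_zero]
    · intro j k hjk a ha c hc
      have hjk' : ¬ (M : ℤ) ∣ (j : ℤ) - (k : ℤ) := by
        intro hd
        have h1 := j.2
        have h2 := k.2
        have h3 : (j : ℤ) - k = 0 := by
          refine Int.eq_zero_of_abs_lt_dvd hd ?_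
          rw [abs_lt]
          constructor <;> omega
        exact hjk (Fin.ext (by omega))
      rcases ha with ha | ha <;> rcases hc with hc | hc
      · exact blk_sep hM7 hL2 hjk' ha hc
      · refine blk_sep hM7 hL2 ?_ ha hc
        intro hd
        refine hjk' ?_
        push_cast at hd
        have := dvd_add hd (dvd_refl (M : ℤ))
        have e : (j : ℤ) - (k + M) + M = (j : ℤ) - k := by ring
        rwa [e] at this
      · refine blk_sep hM7 hL2 ?_ ha hc
        intro hd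
        refine hjk' ?_
        push_cast at hd
        have := dvd_sub hd (dvd_refl (M : ℤ))
        have e : (j : ℤ) + M - k - M = (j : ℤ) - k := by ring
        rwa [e] at this
      · refine blk_sep hM7 hL2 ?_ ha hc
        intro hd
        refine hjk' ?_
        push_cast at hd
        have e : (j : ℤ) + M - (k + M) = (j : ℤ) - k := by ring
        rwa [e] at hd
  -- pairs
  have hcosp : 0 < Real.cos (Real.pi / (2 * M)) := by
    refine Real.cos_pos_of_mem_Ioo ⟨?_, ?_⟩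
    · have : 0 < Real.pi / (2 * M) := by positivity
      linarith [Real.pi_pos]
    · rw [div_lt_div_iff₀ (by positivity) (by norm_num)]
      nlinarith [Real.pi_pos]
  have hpair : ∀ j : Fin M, J (h j) ≤ ENNReal.ofReal (sg18c_c M) *
      (N2 (G j) + N2 (G (j + M))) ^ 3 := by
    intro j
    refine pair_arc (S := Blk M L s j) (T := Blk M L s ((j : ℕ) + M : ℕ)) (blk_meas _ _ _ _)
      (blk_meas _ _ _ _) (by positivity)
      (fun a ha b hb c hc => blk_near hM7 hL2 ha hb hc)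
      (fun a ha b hb c hc => blk_near hM7 hL2 ha hb hc)
      (fun a ha b hb => blk_close hM7 hL2 ha hb) (fun a ha b hb => blk_close hM7 hL2 ha hb)
      (fun a ha b hb => ?_) (mG _) (mG _) (fun θ hθ => indicator_of_notMem hθ _)
      (fun θ hθ => indicator_of_notMem hθ _)
    refine blk_anti hM7 hL2 ha ?_
    simpa using hb
  have hsum3 : ∑ j, J (h j) ≤ ENNReal.ofReal (sg18c_c M) * N2 f ^ 3 := by
    calc ∑ j, J (h j) ≤ ∑ j : Fin M, ENNReal.ofReal (sg18c_c M) *
          (N2 (G j) + N2 (G (j + M))) ^ 3 := Finset.sum_le_sum fun j _ => hpair j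
      _ = ENNReal.ofReal (sg18c_c M) * ∑ j : Fin M, (N2 (G j) + N2 (G (j + M))) ^ 3 := by
        rw [Finset.mul_sum]
      _ ≤ ENNReal.ofReal (sg18c_c M) * (∑ j : Fin M, (N2 (G j) + N2 (G (j + M)))) ^ 3 := by
        gcongr
        exact sg18c_cube _ _
      _ ≤ _ := by gcongr
  have hJb : J b ≤ ENNReal.ofReal (C0 * (4 / L) ^ 3) := by
    refine (hcr b mb).trans ?_
    rw [ENNReal.ofReal_mul hC0.le, ENNReal.ofReal_pow (by positivity)]
    gcongr
  have hX : N2 f ^ 3 ≤ 64 := by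
    calc N2 f ^ 3 ≤ 4 ^ 3 := by gcongr
      _ = 64 := by norm_num
  calc J f ≤ ENNReal.ofReal ((1 + t) ^ 5) * J H + ENNReal.ofReal ((1 + 1 / t) ^ 5) * J b :=
        sg18c_J mb mH ef ht
    _ ≤ ENNReal.ofReal ((1 + t) ^ 5) * (ENNReal.ofReal (sg18c_c M) * N2 f ^ 3 +
          ENNReal.ofReal (C' * η')) + ENNReal.ofReal ((1 + 1 / t) ^ 5) *
          ENNReal.ofReal (C0 * (4 / L) ^ 3) := by
        gcongr
        exact hJH.trans (by gcongr)
    _ = ENNReal.ofReal ((1 + t) ^ 5 * sg18c_c M) * N2 f ^ 3 +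
          ENNReal.ofReal ((1 + t) ^ 5 * (C' * η')) +
          ENNReal.ofReal ((1 + 1 / t) ^ 5 * (C0 * (4 / L) ^ 3)) := by
        rw [ENNReal.ofReal_mul (by positivity : (0:ℝ) ≤ (1 + t) ^ 5),
          ENNReal.ofReal_mul (by positivity : (0:ℝ) ≤ (1 + t) ^ 5),
          ENNReal.ofReal_mul (by positivity : (0:ℝ) ≤ (1 + 1 / t) ^ 5), mul_add, mul_assoc]
    _ ≤ ENNReal.ofReal (Kst + ε / 256) * N2 f ^ 3 + ENNReal.ofReal (ε / 4) +
          ENNReal.ofReal (ε / 4) := by
        gcongr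
        linarith
    _ ≤ (ENNReal.ofReal Kst * N2 f ^ 3 + ENNReal.ofReal (ε / 4)) + ENNReal.ofReal (ε / 4) +
          ENNReal.ofReal (ε / 4) := by
        gcongr
        rw [ENNReal.ofReal_add Kst_pos.le (by positivity), add_mul]
        gcongr
        calc ENNReal.ofReal (ε / 256) * N2 f ^ 3 ≤ ENNReal.ofReal (ε / 256) * ENNReal.ofReal 64 := by
              gcongr
              simpa using hX
          _ = ENNReal.ofReal (ε / 4) := by
              rw [← ENNReal.ofReal_mul (by positivity)]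
              congr 1
              ring
    _ ≤ ENNReal.ofReal Kst * N2 f ^ 3 + ENNReal.ofReal ε := by
        rw [add_assoc, add_assoc]
        gcongr
        rw [← ENNReal.ofReal_add (by positivity) (by positivity),
          ← ENNReal.ofReal_add (by positivity) (by positivity)]
        refine ENNReal.ofReal_le_ofReal ?_
        linarith

end Pool.Agent.Lib.MP_230119_an
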