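import Pool.Agent.Lib.MP_230119_an.SGDef2

set_option autoImplicit false

open MeasureTheory Set Filter Topology
open scoped ENNReal

namespace Pool.Agent.Lib.MP_230119_an

theorem weak_compact (g : ℕ → HS) {B : ℝ} (hB : ∀ n, ‖g n‖ ≤ B) :
    ∃ φ : HS, ∃ σ : ℕ → ℕ, StrictMono σ ∧ WeakTo (fun n => g (σ n)) φ := by
  have : Fact ((1 : ℝ≥0∞) ≤ 2) := ⟨by norm_num⟩
  have : Fact ((2 : ℝ≥0∞) ≠ ∞) := ⟨by norm_num⟩
  have : IsSeparable mc := inferInstance
  have : TopologicalSpace.SeparableSpace HS := inferInstance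
  let T := InnerProductSpace.toDual ℂ HS
  let u : ℕ → WeakDual ℂ HS := fun n => StrongDual.toWeakDual (T (g n))
  have hu : ∀ n, u n ∈ WeakDual.toStrongDual ⁻¹' Metric.closedBall (0 : StrongDual ℂ HS) B := by
    intro n
    simp only [u, mem_preimage, Metric.mem_closedBall, dist_zero_right]
    exact (T.norm_map (g n)).le.trans (hB n)
  obtain ⟨a, -, σ, hσ, ha⟩ := WeakDual.isSeqCompact_closedBall ℂ HS 0 B hu
  refine ⟨T.symm (WeakDual.toStrongDual a), σ, hσ, fun v => ?_⟩
  have h1 : Tendsto (fun n => (u (σ n)) v) atTop (𝓝 (a v)) :=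
    (WeakBilin.tendsto_iff_forall_eval_tendsto _ ContinuousLinearMap.coe_injective).1 ha v
  have h2 : ∀ n, (u (σ n)) v = inner ℂ (g (σ n)) v := fun n => rfl
  have h3 : a v = inner ℂ (T.symm (WeakDual.toStrongDual a)) v := by
    rw [InnerProductSpace.toDual_symm_apply]
    rfl
  simp only [h2, h3] at h1
  have h4 := (Complex.continuous_conj.tendsto _).comp h1
  simp only [Function.comp_def, inner_conj_symm] at h4
  exact h4

end Pool.Agent.Lib.MP_230119_an
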