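import Pool.Agent.Lib.MP_230119_an.SGDef2
import Pool.Agent.Lib.MP_230119_an.SG21

set_option autoImplicit false

open MeasureTheory Set Filter Topology
open scoped ENNReal

namespace Pool.Agent.Lib.MP_230119_an

private lemma sg25_re {τ : HS → HS} (hτ : Sym τ) (a b : HS) :
    (inner ℂ (τ a) (τ b)).re = (inner ℂ a b).re := by
  have h1 := norm_add_sq (𝕜 := ℂ) (τ a) (τ b)
  have h2 := norm_add_sq (𝕜 := ℂ) a b
  rw [← hτ.add, hτ.norm, hτ.norm, hτ.norm] at h1
  simp only [RCLike.re_to_complex] at h1 h2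
  linarith

private lemma sg25_re' {τ : HS → HS} (hτ : Sym τ) (v w : HS) :
    (inner ℂ v (τ w)).re = (inner ℂ (τ v) w).re := by
  rw [← sg25_re hτ v (τ w), hτ.invol]

private lemma sg25_inner {τ : HS → HS} (hτ : Sym τ) (v w : HS) :
    inner ℂ v (τ w) = (((inner ℂ (τ v) w).re : ℝ) : ℂ) +
      (((inner ℂ (τ (Complex.I • v)) w).re : ℝ) : ℂ) * Complex.I := by
  rw [← sg25_re' hτ v w, ← sg25_re' hτ (Complex.I • v) w, inner_smul_left]
  apply Complex.ext
  · simp
  · simp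

theorem sym_weak {τ : HS → HS} (hτ : Sym τ) {g : ℕ → HS} {φ : HS} (h : WeakTo g φ) :
    WeakTo (fun n => τ (g n)) (τ φ) := by
  intro v
  have h1 := h (τ v)
  have h2 := h (τ (Complex.I • v))
  have h3 : ∀ w, inner ℂ v (τ w) = (((inner ℂ (τ v) w).re : ℝ) : ℂ) +
      (((inner ℂ (τ (Complex.I • v)) w).re : ℝ) : ℂ) * Complex.I := sg25_inner hτ v
  simp only [h3]
  have hr : Continuous fun z : ℂ => ((z.re : ℝ) : ℂ) := by fun_prop
  exact ((hr.tendsto _).comp h1).add (((hr.tendsto _).comp h2).mul_const _)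

theorem sym_sub {τ : HS → HS} (hτ : Sym τ) (g h : HS) : τ (g - h) = τ g - τ h := by
  have h1 : τ (-h) = - τ h := by
    have := hτ.smul (-1) h
    simpa using this
  rw [sub_eq_add_neg, hτ.add, h1, ← sub_eq_add_neg]

end Pool.Agent.Lib.MP_230119_an
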