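import Pool.Agent.Lib.MP_230119_an.SGDef2
import Pool.Agent.Lib.MP_230119_an.SG22
import Pool.Agent.Lib.MP_230119_an.SG24
import Pool.Agent.Lib.MP_230119_an.SG25

set_option autoImplicit false

open MeasureTheory Set Filter Topology
open scoped ENNReal

namespace Pool.Agent.Lib.MP_230119_an

private theorem sg26_bdd {u : ℕ → HS} {ρ : ℝ} (h : Tendsto (fun n => ‖u n‖ ^ 2) atTop (𝓝 ρ)) :
    ∃ B : ℝ, ∀ n, ‖u n‖ ≤ B := by
  obtain ⟨B, hB⟩ := h.bddAbove_range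
  refine ⟨B + 1, fun n => ?_⟩
  have h1 : ‖u n‖ ^ 2 ≤ B := hB ⟨n, rfl⟩
  nlinarith [sq_nonneg (‖u n‖ - 1), norm_nonneg (u n)]

private theorem sg26_weak_sub {u v : ℕ → HS} {φ ψ : HS} (hu : WeakTo u φ) (hv : WeakTo v ψ) :
    WeakTo (fun n => u n - v n) (φ - ψ) := by
  intro w
  simp only [inner_sub_right]
  exact (hu w).sub (hv w)

private theorem sg26_weak_comp {u : ℕ → HS} {φ : HS} (hu : WeakTo u φ) {σ : ℕ → ℕ}
    (hσ : StrictMono σ) : WeakTo (fun n => u (σ n)) φ :=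
  fun w => (hu w).comp hσ.tendsto_atTop

private theorem sg26_norm {x : ℕ → ℝ × ℝ} {g : ℕ → HS} {φ : HS} {ρ : ℝ}
    (hρ : Tendsto (fun n => ‖g n‖ ^ 2) atTop (𝓝 ρ))
    (h : WeakTo (fun n => Ty (x n) (g n)) φ) :
    Tendsto (fun n => ‖g n - Ty (-(x n)) φ‖ ^ 2) atTop (𝓝 (ρ - ‖φ‖ ^ 2)) := by
  have h1 : ∀ n, ‖g n - Ty (-(x n)) φ‖ ^ 2 =
      ‖g n‖ ^ 2 - 2 * RCLike.re (inner ℂ φ (Ty (x n) (g n))) + ‖φ‖ ^ 2 := by
    intro n
    rw [norm_sub_sq (𝕜 := ℂ), norm_Ty]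
    have h2 : RCLike.re (inner ℂ (g n) (Ty (-(x n)) φ)) =
        RCLike.re (inner ℂ φ (Ty (x n) (g n))) := by
      rw [inner_re_symm, inner_Ty, neg_neg]
    rw [h2]
  simp only [h1]
  have h2 : Tendsto (fun n => RCLike.re (inner ℂ φ (Ty (x n) (g n)))) atTop (𝓝 (‖φ‖ ^ 2)) := by
    have h3 := (RCLike.continuous_re.tendsto (inner ℂ φ φ)).comp (h φ)
    rw [inner_self_eq_norm_sq] at h3
    exact h3
  have h4 := (hρ.sub (h2.const_mul 2)).add_const (‖φ‖ ^ 2)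
  have h5 : ρ - 2 * ‖φ‖ ^ 2 + ‖φ‖ ^ 2 = ρ - ‖φ‖ ^ 2 := by ring
  rw [h5] at h4
  exact h4

private theorem sg26_coc {x y : ℕ → ℝ × ℝ} (c : ℝ) (hc : 0 < c) (h : ∀ n, ‖y n‖ = c * ‖x n‖)
    (hx : Tendsto x atTop (cocompact (ℝ × ℝ))) : Tendsto y atTop (cocompact (ℝ × ℝ)) := by
  rw [← Metric.cobounded_eq_cocompact, ← tendsto_norm_atTop_iff_cobounded] at hx ⊢
  simp only [h]
  exact hx.const_mul_atTop hc

theorem profile_step {τ : HS → HS} (hτ : Sym τ) {g : ℕ → HS} (hg : ∀ n, τ (g n) = g n)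
    (hw : WeakTo g 0) {ρ L : ℝ} (hρ : Tendsto (fun n => ‖g n‖ ^ 2) atTop (𝓝 ρ))
    (hL : Tendsto (fun n => Jr (g n)) atTop (𝓝 L)) {w : HS} {η : ℝ} (hη : 0 < η)
    {x : ℕ → ℝ × ℝ} (hx : ∀ n, η ≤ ‖inner ℂ w (Ty (x n) (g n))‖) :
    ∃ (r : ℕ → HS) (a L' : ℝ), (∀ n, τ (r n) = r n) ∧ WeakTo r 0 ∧
      Tendsto (fun n => ‖r n‖ ^ 2) atTop (𝓝 (ρ - 2 * a)) ∧
      Tendsto (fun n => Jr (r n)) atTop (𝓝 L') ∧ L ≤ L' + Kst * (2 * a) ^ 3 ∧
      η ^ 2 ≤ ‖w‖ ^ 2 * a := by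
  obtain ⟨B, hB⟩ := sg26_bdd hρ
  obtain ⟨φ, σ, hσ, hφ⟩ := weak_compact (fun n => Ty (x n) (g n))
    (B := B) (fun n => by rw [norm_Ty]; exact hB n)
  -- pass to the subsequence
  have hw' : WeakTo (fun n => g (σ n)) 0 := sg26_weak_comp hw hσ
  have hρ' : Tendsto (fun n => ‖g (σ n)‖ ^ 2) atTop (𝓝 ρ) := hρ.comp hσ.tendsto_atTop
  have hL' : Tendsto (fun n => Jr (g (σ n))) atTop (𝓝 L) := hL.comp hσ.tendsto_atTop
  have hηφ : η ≤ ‖inner ℂ w φ‖ :=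
    ge_of_tendsto (hφ w).norm (Eventually.of_forall fun n => hx (σ n))
  have hηφ2 : η ^ 2 ≤ ‖w‖ ^ 2 * ‖φ‖ ^ 2 := by
    have h1 : η ≤ ‖w‖ * ‖φ‖ := hηφ.trans (norm_inner_le_norm w φ)
    have h2 := pow_le_pow_left₀ hη.le h1 2
    rwa [mul_pow] at h2
  -- the translations go to infinity
  have hcoc : Tendsto (fun n => x (σ n)) atTop (cocompact (ℝ × ℝ)) := by
    by_contra hcon
    rw [(hasBasis_cocompact (X := ℝ × ℝ)).tendsto_right_iff] at hcon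
    push Not at hcon
    obtain ⟨K, hK, hK'⟩ := hcon
    have hfr : ∃ᶠ n in atTop, x (σ n) ∈ K := by
      simpa [Filter.Frequently] using hK'
    obtain ⟨y, -, κ, hκ, hy⟩ := hK.tendsto_subseq' hfr
    have h1 : WeakTo (fun n => Ty (x (σ (κ n))) (g (σ (κ n)))) 0 :=
      weak_shift (x := fun n => x (σ (κ n))) (g := fun n => g (σ (κ n))) hy
        (sg26_weak_comp hw' hκ) (fun n => hB _)
    have h2 : WeakTo (fun n => Ty (x (σ (κ n))) (g (σ (κ n)))) φ := sg26_weak_comp hφ hκ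
    have h3 := tendsto_nhds_unique (h1 w) (h2 w)
    rw [← h3, inner_zero_right, norm_zero] at hηφ
    linarith
  have hcoc1 : Tendsto (fun n => -(x (σ n))) atTop (cocompact (ℝ × ℝ)) :=
    sg26_coc 1 one_pos (fun n => by rw [norm_neg, one_mul]) hcoc
  have hcoc2 : Tendsto (fun n => -(x (σ n)) + -(x (σ n))) atTop (cocompact (ℝ × ℝ)) :=
    sg26_coc 2 two_pos (fun n => by
      rw [← two_smul ℝ (-(x (σ n))), norm_smul, norm_neg]
      norm_num) hcoc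
  -- the first profile
  have hg1n := sg26_norm (x := fun n => x (σ n)) (g := fun n => g (σ n)) hρ' hφ
  have hg1J := BL_Ty (x := fun n => x (σ n)) (g := fun n => g (σ n)) (fun n => hB (σ n)) hφ
  -- the weak limit of the reflected sequence
  have hτφ : WeakTo (fun n => Ty (-(x (σ n))) (g (σ n) - Ty (-(x (σ n))) φ)) (τ φ) := by
    have h1 := sym_weak hτ hφ
    have h2 : WeakTo (fun n => Ty (-(x (σ n)) + -(x (σ n))) φ) 0 := weak_Ty_zero hcoc2 φ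
    have h3 := sg26_weak_sub h1 h2
    rw [sub_zero] at h3
    have h4 : (fun n => τ (Ty (x (σ n)) (g (σ n))) - Ty (-(x (σ n)) + -(x (σ n))) φ) =
        fun n => Ty (-(x (σ n))) (g (σ n) - Ty (-(x (σ n))) φ) := by
      funext n
      rw [hτ.anti, hg, Ty_sub, Ty_Ty]
    rw [h4] at h3
    exact h3
  have hg2n := sg26_norm (x := fun n => -(x (σ n))) (g := fun n => g (σ n) - Ty (-(x (σ n))) φ)
    hg1n hτφ
  have hg2J := BL_Ty (x := fun n => -(x (σ n))) (g := fun n => g (σ n) - Ty (-(x (σ n))) φ)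
    (B := B + ‖φ‖) (fun n => by
      refine (norm_sub_le _ _).trans ?_
      rw [norm_Ty]
      linarith [hB (σ n)]) hτφ
  simp only [neg_neg] at hg2n hg2J
  refine ⟨fun n => g (σ n) - Ty (-(x (σ n))) φ - Ty (x (σ n)) (τ φ), ‖φ‖ ^ 2,
    L - Jr φ - Jr (τ φ), ?_, ?_, ?_, ?_, ?_, hηφ2⟩
  · intro n
    rw [sym_sub hτ, sym_sub hτ, hg, hτ.anti, hτ.anti, hτ.invol, neg_neg]
    exact sub_right_comm _ _ _
  · have h1 := sg26_weak_sub (sg26_weak_sub hw' (weak_Ty_zero hcoc1 φ)) (weak_Ty_zero hcoc (τ φ))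
    simpa using h1
  · have h1 : ρ - ‖φ‖ ^ 2 - ‖τ φ‖ ^ 2 = ρ - 2 * ‖φ‖ ^ 2 := by
      rw [hτ.norm]
      ring
    rw [h1] at hg2n
    exact hg2n
  · have h1 := (hL'.sub hg1J).sub hg2J
    refine h1.congr fun n => ?_
    ring
  · have h1 := Jr_le φ
    have h2 := Jr_le (τ φ)
    rw [hτ.norm] at h2
    have h3 : Kst * (2 * ‖φ‖ ^ 2) ^ 3 = 8 * (Kst * ‖φ‖ ^ 6) := by ring
    rw [h3]
    linarith

end Pool.Agent.Lib.MP_230119_an
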