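import Pool.Agent.Lib.MP_230119_an.SGDef2
import Pool.Agent.Lib.MP_230119_an.SG18c
import Pool.Agent.Lib.MP_230119_an.SG26

set_option autoImplicit false

open MeasureTheory Set Filter Topology
open scoped ENNReal

namespace Pool.Agent.Lib.MP_230119_an

private lemma sg27_cube {a b : ℝ} (ha : 0 ≤ a) (hb : 0 ≤ b) : a ^ 3 + b ^ 3 ≤ (a + b) ^ 3 := by
  have h1 : 0 ≤ a ^ 2 * b := by positivity
  have h2 : 0 ≤ a * b ^ 2 := by positivity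
  nlinarith

private lemma sg27_step {τ : HS → HS} (hτ : Sym τ) {ε : ℝ} (hε : 0 < ε) {M Lc : ℕ} {η : ℝ}
    (hη : 0 < η)
    (V : ∀ f : ℝ → ℂ, MemLp f 2 mc → N2 f ≤ 4 →
      (∀ i < 2 * M * Lc, ∀ x, ‖ex ((Cell M Lc i).indicator f) x‖ ≤ η) →
      J f ≤ ENNReal.ofReal Kst * N2 f ^ 3 + ENNReal.ofReal ε)
    (w : ℕ → HS) (hw : ∀ (i : ℕ) (g : HS) (x : ℝ × ℝ),
      ex ((Cell M Lc i).indicator (g : ℝ → ℂ)) x = inner ℂ (w i) (Ty x g))
    {W : ℝ} (hW : 0 < W) (hwW : ∀ i < 2 * M * Lc, ‖w i‖ ^ 2 ≤ W) :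
    ∀ (k : ℕ) (g : ℕ → HS), (∀ n, τ (g n) = g n) → WeakTo g 0 → ∀ (ρ L : ℝ),
      Tendsto (fun n => ‖g n‖ ^ 2) atTop (𝓝 ρ) → ρ ≤ 1 →
      Tendsto (fun n => Jr (g n)) atTop (𝓝 L) → ρ ≤ k * (2 * (η ^ 2 / W)) →
      L ≤ Kst * ρ ^ 3 + ε := by
  intro k
  induction k with
  | zero =>
    intro g hg hg0 ρ L hρ hρ1 hL hk
    by_cases hA : ∀ i < 2 * M * Lc, ∀ᶠ n in atTop, ∀ x, ‖ex ((Cell M Lc i).indicator (g n)) x‖ ≤ η
    · exact caseA V hρ hρ1 hL hε.le hA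
    · push Not at hA
      obtain ⟨i, hi, hfr⟩ := hA
      obtain ⟨r, a, L', -, -, hr, -, -, ha, -⟩ := caseB hτ hη w hw hW hwW hg hg0 hρ hL i hi hfr
      exfalso
      have h0 : 0 ≤ ρ - 2 * a := ge_of_tendsto' hr fun n => by positivity
      have : (0 : ℝ) < η ^ 2 / W := by positivity
      simp only [Nat.cast_zero, zero_mul] at hk
      linarith
  | succ k ih =>
    intro g hg hg0 ρ L hρ hρ1 hL hk
    by_cases hA : ∀ i < 2 * M * Lc, ∀ᶠ n in atTop, ∀ x, ‖ex ((Cell M Lc i).indicator (g n)) x‖ ≤ η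
    · exact caseA V hρ hρ1 hL hε.le hA
    · push Not at hA
      obtain ⟨i, hi, hfr⟩ := hA
      obtain ⟨r, a, L', hr1, hr2, hr, hr3, hr4, ha, ha0⟩ :=
        caseB hτ hη w hw hW hwW hg hg0 hρ hL i hi hfr
      have h0 : 0 ≤ ρ - 2 * a := ge_of_tendsto' hr fun n => by positivity
      have h1 := ih r hr1 hr2 (ρ - 2 * a) L' hr (by linarith) hr3 (by
        push_cast at hk
        linarith)
      have h2 := sg27_cube h0 (by linarith : (0 : ℝ) ≤ 2 * a)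
      have h3 : ρ - 2 * a + 2 * a = ρ := by ring
      rw [h3] at h2
      have h4 := mul_le_mul_of_nonneg_left h2 Kst_pos.le
      linarith
where
  caseA {ε : ℝ} {M Lc : ℕ} {η : ℝ}
      (V : ∀ f : ℝ → ℂ, MemLp f 2 mc → N2 f ≤ 4 →
        (∀ i < 2 * M * Lc, ∀ x, ‖ex ((Cell M Lc i).indicator f) x‖ ≤ η) →
        J f ≤ ENNReal.ofReal Kst * N2 f ^ 3 + ENNReal.ofReal ε)
      {g : ℕ → HS} {ρ L : ℝ} (hρ : Tendsto (fun n => ‖g n‖ ^ 2) atTop (𝓝 ρ)) (hρ1 : ρ ≤ 1)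
      (hL : Tendsto (fun n => Jr (g n)) atTop (𝓝 L)) (hε : 0 ≤ ε)
      (hA : ∀ i < 2 * M * Lc, ∀ᶠ n in atTop, ∀ x,
        ‖ex ((Cell M Lc i).indicator (g n)) x‖ ≤ η) : L ≤ Kst * ρ ^ 3 + ε := by
    have hA' : ∀ᶠ n in atTop, ∀ i ∈ Finset.range (2 * M * Lc), ∀ x,
        ‖ex ((Cell M Lc i).indicator (g n)) x‖ ≤ η := by
      rw [eventually_all_finset]
      intro i hi
      exact hA i (Finset.mem_range.mp hi)
    have h4 : ∀ᶠ n in atTop, ‖g n‖ ^ 2 < 4 := hρ.eventually_lt_const (by linarith)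
    have hlim : Tendsto (fun n => Kst * (‖g n‖ ^ 2) ^ 3 + ε) atTop (𝓝 (Kst * ρ ^ 3 + ε)) :=
      ((hρ.pow 3).const_mul Kst).add_const ε
    refine le_of_tendsto_of_tendsto hL hlim ?_
    filter_upwards [hA', h4] with n hn1 hn2
    have hn3 : N2 (g n) ≤ 4 := by
      rw [N2_HS]
      calc ENNReal.ofReal (‖g n‖ ^ 2) ≤ ENNReal.ofReal 4 := ENNReal.ofReal_le_ofReal hn2.le
        _ = 4 := by norm_num
    have h := V (g n) (Lp.memLp (g n)) hn3 fun i hi => hn1 i (Finset.mem_range.mpr hi)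
    have e1 : ENNReal.ofReal Kst * N2 (g n) ^ 3 + ENNReal.ofReal ε =
        ENNReal.ofReal (Kst * (‖g n‖ ^ 2) ^ 3 + ε) := by
      rw [N2_HS, ← ENNReal.ofReal_pow (by positivity), ← ENNReal.ofReal_mul Kst_pos.le,
        ← ENNReal.ofReal_add (mul_nonneg Kst_pos.le (by positivity)) hε]
    rw [e1, J_HS] at h
    exact (ENNReal.ofReal_le_ofReal_iff (add_nonneg (mul_nonneg Kst_pos.le (by positivity)) hε)).mp h
  caseB {τ : HS → HS} (hτ : Sym τ) {M Lc : ℕ} {η : ℝ} (hη : 0 < η)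
      (w : ℕ → HS) (hw : ∀ (i : ℕ) (g : HS) (x : ℝ × ℝ),
        ex ((Cell M Lc i).indicator (g : ℝ → ℂ)) x = inner ℂ (w i) (Ty x g))
      {W : ℝ} (hW : 0 < W) (hwW : ∀ i < 2 * M * Lc, ‖w i‖ ^ 2 ≤ W)
      {g : ℕ → HS} (hg : ∀ n, τ (g n) = g n) (hg0 : WeakTo g 0) {ρ L : ℝ}
      (hρ : Tendsto (fun n => ‖g n‖ ^ 2) atTop (𝓝 ρ))
      (hL : Tendsto (fun n => Jr (g n)) atTop (𝓝 L)) (i : ℕ) (hi : i < 2 * M * Lc)
      (hfr : ∃ᶠ n in atTop, ∃ x, η < ‖ex ((Cell M Lc i).indicator (g n)) x‖) :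
      ∃ (r : ℕ → HS) (a L' : ℝ), (∀ n, τ (r n) = r n) ∧ WeakTo r 0 ∧
        Tendsto (fun n => ‖r n‖ ^ 2) atTop (𝓝 (ρ - 2 * a)) ∧
        Tendsto (fun n => Jr (r n)) atTop (𝓝 L') ∧ L ≤ L' + Kst * (2 * a) ^ 3 ∧
        η ^ 2 / W ≤ a ∧ 0 < a := by
    obtain ⟨φ, hφ, hφ2⟩ := extraction_of_frequently_atTop hfr
    choose x hx using hφ2
    obtain ⟨r, a, L', h1, h2, h3, h4, h5, h6⟩ := profile_step hτ (g := fun n => g (φ n))
      (fun n => hg (φ n)) (fun v => (hg0 v).comp hφ.tendsto_atTop) (hρ.comp hφ.tendsto_atTop)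
      (hL.comp hφ.tendsto_atTop) (w := w i) hη (x := x) (fun n => by
        rw [← hw]
        exact (hx n).le)
    have ha : 0 < a := by
      by_contra hcon
      push Not at hcon
      have : ‖w i‖ ^ 2 * a ≤ 0 := mul_nonpos_of_nonneg_of_nonpos (by positivity) hcon
      have h7 : 0 < η ^ 2 := by positivity
      linarith
    refine ⟨r, a, L', h1, h2, h3, h4, h5, ?_, ha⟩
    rw [div_le_iff₀ hW]
    have := mul_le_mul_of_nonneg_right (hwW i hi) ha.le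
    linarith

theorem key_bound {τ : HS → HS} (hτ : Sym τ) {g : ℕ → HS} (hg : ∀ n, τ (g n) = g n)
    (hw : WeakTo g 0) {ρ L : ℝ} (hρ : Tendsto (fun n => ‖g n‖ ^ 2) atTop (𝓝 ρ)) (hρ1 : ρ ≤ 1)
    (hL : Tendsto (fun n => Jr (g n)) atTop (𝓝 L)) : L ≤ Kst * ρ ^ 3 := by
  refine le_of_forall_pos_le_add fun ε hε => ?_
  obtain ⟨M, Lc, -, -, η, hη, V⟩ := vanishing ε hε
  have hcell : ∀ i, MeasurableSet (Cell M Lc i) := fun i => measurableSet_Ioc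
  choose w hw' using fun i => ex_indicator_inner (hcell i)
  set W : ℝ := ∑ i ∈ Finset.range (2 * M * Lc), ‖w i‖ ^ 2 + 1 with hWdef
  have hW : 0 < W := by
    have : 0 ≤ ∑ i ∈ Finset.range (2 * M * Lc), ‖w i‖ ^ 2 := Finset.sum_nonneg fun i _ => by positivity
    linarith
  have hwW : ∀ i < 2 * M * Lc, ‖w i‖ ^ 2 ≤ W := by
    intro i hi
    have := Finset.single_le_sum (f := fun i => ‖w i‖ ^ 2) (fun i _ => by positivity)
      (Finset.mem_range.mpr hi)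
    linarith
  have hpos : (0 : ℝ) < 2 * (η ^ 2 / W) := by positivity
  obtain ⟨k, hk⟩ := exists_nat_ge (ρ / (2 * (η ^ 2 / W)))
  rw [div_le_iff₀ hpos] at hk
  exact sg27_step hτ hε hη V w hw' hW hwW k g hg hw ρ L hρ hρ1 hL hk

end Pool.Agent.Lib.MP_230119_an
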