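import Pool.Agent.Lib.MP_230119_an.SGDef2

set_option autoImplicit false

open MeasureTheory Set Filter Topology
open scoped ENNReal

namespace Pool.Agent.Lib.MP_230119_an

private theorem sg29_memLp (k : ℤ) :
    MemLp (fun θ : ℝ => Complex.exp (Complex.I * k * θ)) 2 mc := by
  refine MemLp.of_bound (C := 1) ?_ ?_
  · exact (by fun_prop : Continuous fun θ : ℝ => Complex.exp (Complex.I * k * θ)).aestronglyMeasurable
  · refine Eventually.of_forall fun θ => ?_
    have : Complex.I * k * θ = (((k : ℝ) * θ : ℝ) : ℂ) * Complex.I := by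
      push_cast
      ring
    rw [this, Complex.norm_exp_ofReal_mul_I]

/-- the monomials -/
private noncomputable def sg29_ek (k : ℤ) : HS := (sg29_memLp k).toLp _

private theorem sg29_inner (k : ℤ) (g : HS) :
    inner ℂ (sg29_ek k) g = ∫ θ, g θ * Complex.exp (-(Complex.I * k * θ)) ∂mc := by
  rw [L2.inner_def]
  refine integral_congr_ae ?_
  filter_upwards [(sg29_memLp k).coeFn_toLp] with θ hθ
  unfold sg29_ek
  rw [hθ, RCLike.inner_apply, ← Complex.exp_conj]
  congr 2
  simp only [map_mul, Complex.conj_I, Complex.conj_ofReal, map_intCast]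
  ring

private theorem sg29_eq_zero (g : HS) (h : ∀ k, inner ℂ (sg29_ek k) g = 0) : g = 0 := by
  have hpi : (0 : ℝ) < 2 * Real.pi := by positivity
  have hc : ∀ k : ℤ, fourierCoeffOn hpi (g : ℝ → ℂ) k = 0 := by
    intro k
    rw [fourierCoeffOn_eq_integral]
    have h1 : ∫ x in (0 : ℝ)..2 * Real.pi,
        fourier (-k) (x : AddCircle (2 * Real.pi - 0)) • g x =
        ∫ θ, g θ * Complex.exp (-(Complex.I * k * θ)) ∂mc := by
      rw [intervalIntegral.integral_of_le hpi.le]
      unfold mc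
      refine integral_congr_ae (Eventually.of_forall fun x => ?_)
      simp only [fourier_coe_apply, smul_eq_mul]
      rw [mul_comm]
      congr 2
      have : (Real.pi : ℂ) ≠ 0 := by exact_mod_cast Real.pi_ne_zero
      push_cast
      field_simp
      ring
    rw [h1, ← sg29_inner, h k, smul_zero]
  have hL2 : MemLp (g : ℝ → ℂ) 2 (volume.restrict (Ioc 0 (2 * Real.pi))) := Lp.memLp g
  have hs := hasSum_sq_fourierCoeffOn hpi hL2
  simp only [hc, norm_zero, ne_eq, OfNat.ofNat_ne_zero, not_false_eq_true, zero_pow] at hs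
  have h0 : (2 * Real.pi - 0)⁻¹ • ∫ x in (0 : ℝ)..2 * Real.pi, ‖g x‖ ^ 2 = 0 :=
    hs.unique hasSum_zero
  have h1 : ∫ x in (0 : ℝ)..2 * Real.pi, ‖g x‖ ^ 2 = 0 := by
    rcases smul_eq_zero.1 h0 with h2 | h2
    · rw [sub_zero] at h2
      exact absurd h2 (inv_ne_zero hpi.ne')
    · exact h2
  rw [intervalIntegral.integral_of_le hpi.le] at h1
  have h3 : ‖g‖ ^ 2 = 0 := by
    have h4 : (inner ℂ g g : ℂ) = ((∫ x, ‖g x‖ ^ 2 ∂mc : ℝ) : ℂ) := by
      rw [L2.inner_def, ← integral_complex_ofReal]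
      refine integral_congr_ae (Eventually.of_forall fun x => ?_)
      simp only
      rw [inner_self_eq_norm_sq_to_K]
      push_cast
      rfl
    have h5 : (∫ x, ‖g x‖ ^ 2 ∂mc : ℝ) = 0 := h1
    rw [h5, inner_self_eq_norm_sq_to_K] at h4
    have h6 : ((‖g‖ ^ 2 : ℝ) : ℂ) = 0 := by
      push_cast
      simpa using h4
    exact_mod_cast h6
  have h7 : ‖g‖ = 0 := by
    exact pow_eq_zero_iff (two_ne_zero) |>.1 h3
  exact norm_eq_zero.1 h7

private theorem sg29_dense :
    (Submodule.span ℂ (Set.range sg29_ek)).topologicalClosure = ⊤ := by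
  rw [Submodule.topologicalClosure_eq_top_iff, Submodule.eq_bot_iff]
  intro g hg
  apply sg29_eq_zero
  intro k
  exact (Submodule.mem_orthogonal _ _).1 hg _ (Submodule.subset_span ⟨k, rfl⟩)

theorem weak_of_gap {g : ℕ → HS} {B : ℝ} (hB : ∀ n, ‖g n‖ ≤ B) (hgap : ∀ n, GapH n (g n)) :
    WeakTo g 0 := by
  have hB0 : 0 ≤ B := (norm_nonneg _).trans (hB 0)
  have hspan : ∀ w ∈ Submodule.span ℂ (Set.range sg29_ek), ∃ N : ℕ, ∀ n ≥ N,
      inner ℂ w (g n) = (0 : ℂ) := by
    intro w hw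
    induction hw using Submodule.span_induction with
    | mem x hx =>
      obtain ⟨k, rfl⟩ := hx
      refine ⟨k.natAbs + 1, fun n hn => ?_⟩
      rw [sg29_inner]
      apply hgap n k
      rw [Int.abs_eq_natAbs]
      exact_mod_cast hn
    | zero => exact ⟨0, fun n _ => inner_zero_left _⟩
    | add x y _ _ hx hy =>
      obtain ⟨N₁, h₁⟩ := hx
      obtain ⟨N₂, h₂⟩ := hy
      refine ⟨max N₁ N₂, fun n hn => ?_⟩
      rw [inner_add_left, h₁ n ((le_max_left _ _).trans hn), h₂ n ((le_max_right _ _).trans hn),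
        add_zero]
    | smul a x _ hx =>
      obtain ⟨N, h⟩ := hx
      refine ⟨N, fun n hn => ?_⟩
      rw [inner_smul_left, h n hn, mul_zero]
  intro v
  rw [inner_zero_right, Metric.tendsto_atTop]
  intro ε hε
  have hv : v ∈ (Submodule.span ℂ (Set.range sg29_ek)).topologicalClosure := by
    rw [sg29_dense]
    trivial
  have hv' : v ∈ closure ((Submodule.span ℂ (Set.range sg29_ek) : Submodule ℂ HS) : Set HS) := hv
  obtain ⟨w, hw, hvw⟩ := Metric.mem_closure_iff.1 hv' (ε / (B + 1)) (by positivity)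
  obtain ⟨N, hN⟩ := hspan w hw
  refine ⟨N, fun n hn => ?_⟩
  rw [dist_zero_right]
  have h1 : (inner ℂ v (g n) : ℂ) = inner ℂ (v - w) (g n) := by
    rw [inner_sub_left, hN n hn, sub_zero]
  rw [h1]
  have h2 : ‖(inner ℂ (v - w) (g n) : ℂ)‖ ≤ ‖v - w‖ * ‖g n‖ := norm_inner_le_norm _ _
  rw [dist_eq_norm] at hvw
  calc ‖(inner ℂ (v - w) (g n) : ℂ)‖ ≤ ‖v - w‖ * ‖g n‖ := h2
    _ ≤ ‖v - w‖ * (B + 1) := by
        apply mul_le_mul_of_nonneg_left _ (norm_nonneg _)
        linarith [hB n]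
    _ < ε / (B + 1) * (B + 1) := by
        apply mul_lt_mul_of_pos_right hvw
        linarith
    _ = ε := by field_simp

end Pool.Agent.Lib.MP_230119_an
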