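import Pool.Agent.Lib.MP_230119_an.SGDef2

set_option autoImplicit false

open MeasureTheory Set Filter Topology
open scoped ENNReal

namespace Pool.Agent.Lib.MP_230119_an

private theorem sg30_real (a d b : ℝ) (ha : 0 ≤ a) (hd : 0 ≤ d) (h1 : b ≤ a * d)
    (h2 : -(a * d) ≤ b) :
    (a ^ 2 + 2 * b + d ^ 2) ^ 3 ≤ a ^ 6 + 6 * a ^ 4 * b + 57 * (a ^ 4 * d ^ 2 + d ^ 6) := by
  have hT : 0 ≤ d * (2 * a + d) := by positivity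
  have hs1 : 2 * b + d ^ 2 ≤ d * (2 * a + d) := by nlinarith
  have hs2 : -(d * (2 * a + d)) ≤ 2 * b + d ^ 2 := by nlinarith [mul_nonneg hd hd]
  have hsq : (2 * b + d ^ 2) ^ 2 ≤ (d * (2 * a + d)) ^ 2 := sq_le_sq' hs2 hs1
  have hcu : (2 * b + d ^ 2) ^ 3 ≤ (d * (2 * a + d)) ^ 3 := by
    rcases le_or_gt 0 (2 * b + d ^ 2) with h | h
    · exact pow_le_pow_left₀ h hs1 3
    · have e1 : (2 * b + d ^ 2) ^ 3 ≤ 0 := by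
        have : (2 * b + d ^ 2) ^ 3 = (2 * b + d ^ 2) ^ 2 * (2 * b + d ^ 2) := by ring
        rw [this]
        exact mul_nonpos_of_nonneg_of_nonpos (sq_nonneg _) h.le
      exact e1.trans (by positivity)
  have e1 : (a ^ 2 + 2 * b + d ^ 2) ^ 3 = a ^ 6 + 6 * a ^ 4 * b + 3 * a ^ 4 * d ^ 2 +
      3 * a ^ 2 * (2 * b + d ^ 2) ^ 2 + (2 * b + d ^ 2) ^ 3 := by ring
  have e2 : 3 * a ^ 2 * (2 * b + d ^ 2) ^ 2 ≤ 3 * a ^ 2 * (d * (2 * a + d)) ^ 2 :=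
    mul_le_mul_of_nonneg_left hsq (by positivity)
  have e3 : 3 * a ^ 4 * d ^ 2 + 3 * a ^ 2 * (d * (2 * a + d)) ^ 2 + (d * (2 * a + d)) ^ 3 ≤
      57 * (a ^ 4 * d ^ 2 + d ^ 6) := by
    have q1 : 0 ≤ (a * d) ^ 2 * (a - d) ^ 2 := by positivity
    have q2 : 0 ≤ d ^ 2 * (a ^ 2 - d ^ 2) ^ 2 := by positivity
    have q3 : 0 ≤ (d ^ 2) ^ 2 * (a - d) ^ 2 := by positivity
    have q4 : 0 ≤ a ^ 4 * d ^ 2 := by positivity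
    have q5 : 0 ≤ d ^ 6 := by positivity
    nlinarith [q1, q2, q3, q4, q5]
  rw [e1]
  linarith

theorem pointwise6 (u v : ℂ) : ‖u + v‖ ^ 6 ≤ ‖u‖ ^ 6 +
    6 * ‖u‖ ^ 4 * ((starRingEnd ℂ) u * v).re + 57 * (‖u‖ ^ 4 * ‖v‖ ^ 2 + ‖v‖ ^ 6) := by
  have h0 : ‖u + v‖ ^ 2 = ‖u‖ ^ 2 + 2 * ((starRingEnd ℂ) u * v).re + ‖v‖ ^ 2 := by
    rw [Complex.sq_norm, Complex.sq_norm, Complex.sq_norm, Complex.normSq_add]
    have : (u * (starRingEnd ℂ) v).re = ((starRingEnd ℂ) u * v).re := by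
      simp [Complex.mul_re]
    rw [this]
    ring
  have h1 : |((starRingEnd ℂ) u * v).re| ≤ ‖u‖ * ‖v‖ := by
    refine (Complex.abs_re_le_norm _).trans (le_of_eq ?_)
    rw [norm_mul, RCLike.norm_conj]
  have h2 := abs_le.1 h1
  have h3 : ‖u + v‖ ^ 6 = (‖u + v‖ ^ 2) ^ 3 := by ring
  rw [h3, h0]
  exact sg30_real _ _ _ (norm_nonneg _) (norm_nonneg _) h2.2 h2.1

end Pool.Agent.Lib.MP_230119_an
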