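import Pool.Agent.Lib.MP_230119_an.SGDef2
import Pool.Agent.Lib.MP_230119_an.SG21

set_option autoImplicit false

open MeasureTheory Set Filter Topology
open scoped ENNReal

namespace Pool.Agent.Lib.MP_230119_an

/-- rotation of the plane -/
private noncomputable def sg31_R (α : ℝ) (x : ℝ × ℝ) : ℝ × ℝ :=
  (Real.cos α * x.1 - Real.sin α * x.2, Real.sin α * x.1 + Real.cos α * x.2)

private lemma sg31_mp (α : ℝ) : MeasurePreserving (sg31_R α) volume volume := by
  have h1 := Complex.volume_preserving_equiv_real_prod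
  have h2 := (rotation (Circle.exp α)).measurePreserving
  have h := h1.comp (h2.comp h1.symm)
  have e : sg31_R α = (⇑Complex.measurableEquivRealProd ∘ ⇑(rotation (Circle.exp α)) ∘
      ⇑Complex.measurableEquivRealProd.symm) := by
    funext x
    simp only [Function.comp, Complex.measurableEquivRealProd_apply,
      Complex.measurableEquivRealProd_symm_apply, rotation_apply, Circle.coe_exp]
    rw [Complex.exp_mul_I, ← Complex.ofReal_cos, ← Complex.ofReal_sin]
    simp only [sg31_R, Complex.mul_re, Complex.mul_im, Complex.add_re, Complex.add_im,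
      Complex.ofReal_re, Complex.ofReal_im, Complex.I_re, Complex.I_im]
    ext <;> simp <;> ring
  rw [e]
  exact h

private lemma sg31_cont : Continuous fun p : ℝ × (ℝ × ℝ) => sg31_R p.1 p.2 := by
  unfold sg31_R
  fun_prop

private lemma sg31_ph (α θ : ℝ) (x : ℝ × ℝ) : ph (sg31_R α x) (om θ) = ph x (om (θ - α)) := by
  unfold ph
  congr 1
  have : dt (sg31_R α x) (om θ) = dt x (om (θ - α)) := by
    simp only [dt, om, sg31_R, Real.cos_sub, Real.sin_sub]
    ring
  rw [this]

private lemma sg31_int (h : ℝ → ℂ) : ∫ θ, h θ ∂mc = ∫ θ in (0:ℝ)..(2 * Real.pi), h θ := by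
  rw [intervalIntegral.integral_of_le (by positivity)]
  rfl

private lemma sg31_per (x : ℝ × ℝ) : Function.Periodic (fun θ => ph x (om θ)) (2 * Real.pi) := by
  intro θ
  simp [om, Real.cos_add_two_pi, Real.sin_add_two_pi]

private lemma sg31_one (x : ℝ × ℝ) : ex oneH x = ∫ θ, ph x (om θ) ∂mc := by
  have h : (oneH : ℝ → ℂ) =ᵐ[mc] fun _ => (1 : ℂ) := (memLp_const (1 : ℂ)).coeFn_toLp
  rw [ex_congr h]
  simp [ex, tr]

private lemma sg31_shift (x : ℝ × ℝ) (α : ℝ) :
    ∫ θ, ph x (om (θ - α)) ∂mc = ∫ θ, ph x (om θ) ∂mc := by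
  rw [sg31_int, sg31_int, intervalIntegral.integral_comp_sub_right (fun θ => ph x (om θ))]
  have h := (sg31_per x).intervalIntegral_add_eq (0 - α) 0
  rw [zero_add] at h
  rw [← h]
  congr 1
  ring

private lemma sg31_refl (x : ℝ × ℝ) (θ : ℝ) :
    ∫ α, ph x (om (θ - α)) ∂mc = ∫ α, ph x (om α) ∂mc := by
  rw [sg31_int, sg31_int, intervalIntegral.integral_comp_sub_left (fun θ => ph x (om θ))]
  have h := (sg31_per x).intervalIntegral_add_eq (θ - 2 * Real.pi) 0
  rw [zero_add] at h
  rw [← h]
  congr 1
  ring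

private lemma sg31_exone (α : ℝ) (x : ℝ × ℝ) : ex oneH (sg31_R α x) = ex oneH x := by
  rw [sg31_one, sg31_one, ← sg31_shift x α]
  refine integral_congr_ae (Eventually.of_forall fun θ => ?_)
  exact sg31_ph α θ x

private lemma sg31_avg {g : HS} (hg : ∫ θ, g θ ∂mc = 0) (x : ℝ × ℝ) :
    ∫ α, ex g (sg31_R α x) ∂mc = 0 := by
  have hgi : Integrable (g : ℝ → ℂ) mc := integrable_of_memLp (Lp.memLp g)
  have e1 : ∀ α, ex g (sg31_R α x) = ∫ θ, g θ * ph x (om (θ - α)) ∂mc := by
    intro α
    unfold ex tr
    refine integral_congr_ae (Eventually.of_forall fun θ => ?_)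
    simp only [sg31_ph]
  simp_rw [e1]
  have hint : Integrable (fun p : ℝ × ℝ => g p.2 * ph x (om (p.2 - p.1))) (mc.prod mc) := by
    have h1 : Integrable (fun p : ℝ × ℝ => (1 : ℂ) * g p.2) (mc.prod mc) :=
      (integrable_const (1 : ℂ)).mul_prod hgi
    simp only [one_mul] at h1
    refine h1.mul_bdd (c := 1) ?_ (Eventually.of_forall fun y => (norm_ph _ _).le)
    exact ((continuous_ph_right x).comp (continuous_om.comp
      (continuous_snd.sub continuous_fst))).aestronglyMeasurable
  rw [integral_integral_swap hint]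
  simp_rw [integral_const_mul, sg31_refl]
  rw [integral_mul_const, hg, zero_mul]

private lemma sg31_ineq {a b : ℝ} (ha : 0 ≤ a) (hb : 0 ≤ b) : a ^ 5 * b ≤ a ^ 6 + b ^ 6 := by
  rcases le_total b a with h | h
  · have : a ^ 5 * b ≤ a ^ 5 * a := mul_le_mul_of_nonneg_left h (by positivity)
    have h6 : 0 ≤ b ^ 6 := by positivity
    nlinarith
  · have h5 : a ^ 5 ≤ b ^ 5 := pow_le_pow_left₀ ha h 5
    have : a ^ 5 * b ≤ b ^ 5 * b := mul_le_mul_of_nonneg_right h5 hb
    have h6 : 0 ≤ a ^ 6 := by positivity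
    nlinarith

theorem linear_term {g : HS} (hg : ∫ θ, g θ ∂mc = 0) :
    Integrable (fun x => ‖ex oneH x‖ ^ 4 * ((starRingEnd ℂ) (ex oneH x) * ex g x).re) ∧
    ∫ x, ‖ex oneH x‖ ^ 4 * ((starRingEnd ℂ) (ex oneH x) * ex g x).re = 0 := by
  set F : ℝ × ℝ → ℂ := fun x => ((‖ex oneH x‖ ^ 4 : ℝ) : ℂ) * (starRingEnd ℂ) (ex oneH x) with hF
  have hFc : Continuous F := by
    have := continuous_ex_HS oneH
    exact (Complex.continuous_ofReal.comp (this.norm.pow 4)).mul (Complex.continuous_conj.comp this)
  have hGc : Continuous (ex (g : ℝ → ℂ)) := continuous_ex_HS g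
  have hFn : ∀ x, ‖F x‖ = ‖ex oneH x‖ ^ 5 := by
    intro x
    simp only [hF, norm_mul, Complex.norm_real, norm_pow, norm_norm, RCLike.norm_conj]
    ring
  have hI : Integrable (fun x => F x * ex g x) := by
    refine ((Jr_eq_integral oneH).1.add (Jr_eq_integral g).1).mono'
      (hFc.mul hGc).aestronglyMeasurable (Eventually.of_forall fun x => ?_)
    rw [norm_mul, hFn]
    exact sg31_ineq (norm_nonneg _) (norm_nonneg _)
  have hre : ∀ x, ‖ex oneH x‖ ^ 4 * ((starRingEnd ℂ) (ex oneH x) * ex g x).re =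
      (F x * ex g x).re := by
    intro x
    simp only [hF, mul_assoc]
    rw [Complex.re_ofReal_mul]
  have hFR : ∀ α x, F (sg31_R α x) = F x := by
    intro α x
    simp only [hF, sg31_exone]
  have hzero : ∫ x, F x * ex g x = 0 := by
    have hmap : ∀ α, ∀ G : ℝ × ℝ → ℂ, Continuous G → ∫ x, G (sg31_R α x) = ∫ x, G x := by
      intro α G hG
      rw [← integral_map (sg31_mp α).measurable.aemeasurable hG.aestronglyMeasurable,
        (sg31_mp α).map_eq]
    have hrot : ∀ α, ∫ x, F x * ex g (sg31_R α x) = ∫ x, F x * ex g x := by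
      intro α
      have h := hmap α (fun x => F x * ex g x) (hFc.mul hGc)
      simp only [hFR] at h
      exact h
    have hcont : Continuous fun p : ℝ × (ℝ × ℝ) => F p.2 * ex g (sg31_R p.1 p.2) :=
      (hFc.comp continuous_snd).mul (hGc.comp sg31_cont)
    have hprod : Integrable (fun p : ℝ × (ℝ × ℝ) => F p.2 * ex g (sg31_R p.1 p.2))
        (mc.prod volume) := by
      rw [integrable_prod_iff hcont.aestronglyMeasurable]
      constructor
      · refine Eventually.of_forall fun α => ?_
        have h := (sg31_mp α).integrable_comp_of_integrable hI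
        refine h.congr (Eventually.of_forall fun x => ?_)
        simp only [Function.comp, hFR]
      · have hn : ∀ α, ∫ x, ‖F x * ex g (sg31_R α x)‖ = ∫ x, ‖F x * ex g x‖ := by
          intro α
          have h : ∫ x, ‖F (sg31_R α x) * ex g (sg31_R α x)‖ = ∫ x, ‖F x * ex g x‖ := by
            rw [← integral_map (f := fun x => ‖F x * ex g x‖)
              (sg31_mp α).measurable.aemeasurable (hFc.mul hGc).norm.aestronglyMeasurable,
              (sg31_mp α).map_eq]
          simpa only [hFR] using h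
        simp_rw [hn]
        exact integrable_const _
    have hsw := integral_integral_swap (f := fun (α : ℝ) (x : ℝ × ℝ) => F x * ex g (sg31_R α x))
      hprod
    simp_rw [hrot, integral_const_mul, sg31_avg hg, mul_zero, integral_zero] at hsw
    rw [integral_const] at hsw
    have hm : (mc.real univ) ≠ 0 := by
      have : mc.real univ = 2 * Real.pi := by
        unfold mc
        simp [measureReal_def, Real.pi_pos.le]
      rw [this]
      positivity
    rcases smul_eq_zero.1 hsw with h | h
    · exact absurd h hm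
    · exact h
  constructor
  · simp_rw [hre]
    exact hI.re
  · simp_rw [hre]
    have h := integral_re hI
    have h' : ∫ x, (F x * ex g x).re = (∫ x, F x * ex g x).re := h
    rw [h', hzero]
    simp

end Pool.Agent.Lib.MP_230119_an
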