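import Pool.Agent.Lib.MP_230119_an.SGDef2
import Pool.Agent.Lib.MP_230119_an.SG21
import Pool.Agent.Lib.MP_230119_an.SG23
import Pool.Agent.Lib.MP_230119_an.Mg.G010

set_option autoImplicit false

open MeasureTheory Set Filter Topology
open scoped ENNReal

namespace Pool.Agent.Lib.MP_230119_an

theorem sg32_young {K : ℝ} (hK : 0 < K) {a b : ℝ} (ha : 0 ≤ a) (hb : 0 ≤ b) :
    a ^ 4 * b ^ 2 ≤ K * a ^ 6 + b ^ 6 / K ^ 2 := by
  have h6 : 0 ≤ b ^ 6 / K ^ 2 := by positivity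
  have h7 : 0 ≤ K * a ^ 6 := by positivity
  by_cases h : b ^ 2 ≤ K * a ^ 2
  · have h1 : a ^ 4 * b ^ 2 ≤ a ^ 4 * (K * a ^ 2) := mul_le_mul_of_nonneg_left h (by positivity)
    have h2 : a ^ 4 * (K * a ^ 2) = K * a ^ 6 := by ring
    linarith
  · push Not at h
    have h1 : (K * a ^ 2) ^ 2 ≤ (b ^ 2) ^ 2 := pow_le_pow_left₀ (by positivity) h.le 2
    have h2 : (K * a ^ 2) ^ 2 * b ^ 2 ≤ (b ^ 2) ^ 2 * b ^ 2 :=
      mul_le_mul_of_nonneg_right h1 (by positivity)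
    have h3 : a ^ 4 * b ^ 2 ≤ b ^ 6 / K ^ 2 := by
      rw [le_div_iff₀ (by positivity)]
      linarith [h2, show (K * a ^ 2) ^ 2 * b ^ 2 = a ^ 4 * b ^ 2 * K ^ 2 by ring,
        show (b ^ 2) ^ 2 * b ^ 2 = b ^ 6 by ring]
    linarith

theorem quad_small {h : ℕ → HS} (hw : WeakTo h 0) {B : ℝ} (hB : ∀ n, ‖h n‖ ≤ B) :
    Tendsto (fun n => ∫ x, ‖ex oneH x‖ ^ 4 * ‖ex (h n) x‖ ^ 2) atTop (𝓝 0) := by
  have hB0 : 0 ≤ B := (norm_nonneg _).trans (hB 0)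
  have hK0 := Kst_pos
  have h1c : Continuous (ex (oneH : ℝ → ℂ)) := continuous_ex_HS oneH
  have hnc : ∀ n, Continuous (ex (h n : ℝ → ℂ)) := fun n => continuous_ex_HS (h n)
  obtain ⟨i1, -⟩ := Jr_eq_integral oneH
  have i2 : ∀ n, Integrable (fun x => ‖ex (h n) x‖ ^ 6) := fun n => (Jr_eq_integral (h n)).1
  have hJ : ∀ n, ∫ x, ‖ex (h n) x‖ ^ 6 ≤ 4 * Kst * B ^ 6 := by
    intro n
    rw [← (Jr_eq_integral (h n)).2]
    refine (Jr_le _).trans ?_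
    exact mul_le_mul_of_nonneg_left (pow_le_pow_left₀ (norm_nonneg _) (hB n) 6) (by positivity)
  have hF0 : ∀ n x, 0 ≤ ‖ex oneH x‖ ^ 4 * ‖ex (h n) x‖ ^ 2 := fun n x => by positivity
  have iF : ∀ n, Integrable (fun x => ‖ex oneH x‖ ^ 4 * ‖ex (h n) x‖ ^ 2) := by
    intro n
    refine Integrable.mono' (g := fun x => 1 * ‖ex oneH x‖ ^ 6 + ‖ex (h n) x‖ ^ 6 / 1 ^ 2)
      ((i1.const_mul 1).add ((i2 n).div_const _)) ?_ (Eventually.of_forall fun x => ?_)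
    · exact ((h1c.norm.pow 4).mul ((hnc n).norm.pow 2)).aestronglyMeasurable
    · rw [Real.norm_of_nonneg (hF0 n x)]
      exact sg32_young one_pos (norm_nonneg _) (norm_nonneg _)
  have hex : ∀ x, Tendsto (fun n => ex (h n) x) atTop (𝓝 0) := by
    intro x
    have h1 := weak_ex hw x
    have h2 : ex ((0 : HS) : ℝ → ℂ) x = 0 := by
      have h3 := ex_smul_HS 0 (0 : HS) x
      rwa [zero_smul, zero_mul] at h3
    rwa [h2] at h1
  rw [Metric.tendsto_atTop]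
  intro ε hε
  set M : ℝ := 4 * Kst * B ^ 6 with hM
  have hM0 : 0 ≤ M := by positivity
  set K : ℝ := 2 * (M + 1) / ε + 1 with hK
  have hK1 : 1 ≤ K := by
    have : 0 ≤ 2 * (M + 1) / ε := by positivity
    linarith
  have hKp : 0 < K := by linarith
  have hMK : M / K ^ 2 < ε / 2 := by
    rw [div_lt_iff₀ (by positivity)]
    have e1 : K ≤ K ^ 2 := by nlinarith
    have e2 : 2 * (M + 1) / ε * ε = 2 * (M + 1) := by field_simp
    have e3 : K * ε = 2 * (M + 1) + ε := by rw [hK, add_mul, e2, one_mul]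
    have e4 : K * ε ≤ K ^ 2 * ε := mul_le_mul_of_nonneg_right e1 hε.le
    nlinarith
  set W : ℕ → ℝ × ℝ → ℝ := fun n x =>
    max (‖ex oneH x‖ ^ 4 * ‖ex (h n) x‖ ^ 2 - ‖ex (h n) x‖ ^ 6 / K ^ 2) 0 with hW
  have hWc : ∀ n, Continuous (W n) := by
    intro n
    have := hnc n
    exact (((h1c.norm.pow 4).mul ((hnc n).norm.pow 2)).sub
      (((hnc n).norm.pow 6).div_const _)).max continuous_const
  have hWle : ∀ n x, ‖W n x‖ ≤ K * ‖ex oneH x‖ ^ 6 := by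
    intro n x
    have hx : 0 ≤ W n x := le_max_right _ _
    rw [Real.norm_of_nonneg hx]
    refine max_le ?_ (by positivity)
    have := sg32_young hKp (norm_nonneg (ex oneH x)) (norm_nonneg (ex (h n) x))
    linarith
  have hWl : Tendsto (fun n => ∫ x, W n x) atTop (𝓝 (∫ _ : ℝ × ℝ, (0 : ℝ))) := by
    refine tendsto_integral_of_dominated_convergence (fun x => K * ‖ex oneH x‖ ^ 6)
      (fun n => (hWc n).aestronglyMeasurable) (i1.const_mul K)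
      (fun n => Eventually.of_forall (hWle n)) (Eventually.of_forall fun x => ?_)
    have e1 := (hex x).norm
    have e2 : Tendsto (fun n => ‖ex oneH x‖ ^ 4 * ‖ex (h n) x‖ ^ 2 - ‖ex (h n) x‖ ^ 6 / K ^ 2)
        atTop (𝓝 (‖ex oneH x‖ ^ 4 * ‖(0 : ℂ)‖ ^ 2 - ‖(0 : ℂ)‖ ^ 6 / K ^ 2)) :=
      ((e1.pow 2).const_mul _).sub ((e1.pow 6).div_const _)
    have e3 := e2.max (tendsto_const_nhds (x := (0 : ℝ)))
    simpa using e3
  rw [integral_zero] at hWl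
  obtain ⟨N, hN⟩ := (Metric.tendsto_atTop.1 hWl) (ε / 2) (by positivity)
  refine ⟨N, fun n hn => ?_⟩
  have h1 := hN n hn
  rw [Real.dist_eq, sub_zero] at h1 ⊢
  have h2 : 0 ≤ ∫ x, ‖ex oneH x‖ ^ 4 * ‖ex (h n) x‖ ^ 2 := integral_nonneg (hF0 n)
  rw [abs_of_nonneg h2]
  have iW : Integrable (W n) :=
    Integrable.mono' (i1.const_mul K) (hWc n).aestronglyMeasurable
      (Eventually.of_forall (hWle n))
  have h3 : ∫ x, ‖ex oneH x‖ ^ 4 * ‖ex (h n) x‖ ^ 2 ≤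
      ∫ x, (W n x + ‖ex (h n) x‖ ^ 6 / K ^ 2) := by
    refine integral_mono (iF n) (iW.add ((i2 n).div_const _)) fun x => ?_
    have : ‖ex oneH x‖ ^ 4 * ‖ex (h n) x‖ ^ 2 - ‖ex (h n) x‖ ^ 6 / K ^ 2 ≤ W n x :=
      le_max_left _ _
    simp only
    linarith
  rw [integral_add iW ((i2 n).div_const _), integral_div] at h3
  have h4 : (∫ x, ‖ex (h n) x‖ ^ 6) / K ^ 2 ≤ M / K ^ 2 :=
    div_le_div_of_nonneg_right (hJ n) (by positivity)
  have h5 := le_abs_self (∫ x, W n x)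
  linarith

end Pool.Agent.Lib.MP_230119_an
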