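import Pool.Agent.Lib.MP_230119_an.SGDef2
import Pool.Agent.Lib.MP_230119_an.SG29
import Pool.Agent.Lib.MP_230119_an.SG30
import Pool.Agent.Lib.MP_230119_an.SG31
import Pool.Agent.Lib.MP_230119_an.SG32
import Pool.Agent.Lib.MP_230119_an.SG33

set_option autoImplicit false

open MeasureTheory Set Filter Topology
open scoped ENNReal

namespace Pool.Agent.Lib.MP_230119_an

theorem sg34_gap_smul {N : ℕ} {g : HS} (hg : GapH N g) (c : ℂ) : GapH N (c • g) := by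
  intro n hn
  have h1 : ∫ θ, (c • g : HS) θ * Complex.exp (-(Complex.I * n * θ)) ∂mc =
      ∫ θ, c * (g θ * Complex.exp (-(Complex.I * n * θ))) ∂mc := by
    refine integral_congr_ae ?_
    filter_upwards [Lp.coeFn_smul c g] with θ h
    rw [h]
    simp only [Pi.smul_apply, smul_eq_mul]
    ring
  rw [h1, integral_const_mul, hg n hn, mul_zero]

theorem sg34_mean_zero {N : ℕ} (hN : 1 ≤ N) {g : HS} (hg : GapH N g) : ∫ θ, g θ ∂mc = 0 := by
  have h := hg 0 (by simpa using (by omega : 0 < N))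
  simpa using h

theorem sg34_int_split {a b d e : ℝ × ℝ → ℝ} (ha : Integrable a) (hb : Integrable b)
    (hd : Integrable d) (he : Integrable e) (k l : ℝ) :
    Integrable (fun x => a x + k * b x + 57 * (l * d x + e x)) ∧
    ∫ x, (a x + k * b x + 57 * (l * d x + e x)) =
      (∫ x, a x) + k * (∫ x, b x) + 57 * (l * (∫ x, d x) + ∫ x, e x) := by
  have h1 : Integrable (fun x => a x + k * b x) := ha.add (hb.const_mul k)
  have h2 : Integrable (fun x => l * d x + e x) := (hd.const_mul l).add he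
  refine ⟨h1.add (h2.const_mul 57), ?_⟩
  rw [integral_add h1 (h2.const_mul 57), integral_add ha (hb.const_mul k), integral_const_mul,
    integral_const_mul, integral_add (hd.const_mul l) he, integral_const_mul]

theorem sg34_young {a b : ℝ} (ha : 0 ≤ a) (hb : 0 ≤ b) : a ^ 4 * b ^ 2 ≤ a ^ 6 + b ^ 6 := by
  rcases le_total a b with h | h
  · have h1 : a ^ 4 ≤ b ^ 4 := pow_le_pow_left₀ ha h 4
    nlinarith [mul_le_mul_of_nonneg_right h1 (sq_nonneg b), pow_nonneg ha 6]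
  · have h1 : b ^ 2 ≤ a ^ 2 := pow_le_pow_left₀ hb h 2
    nlinarith [mul_le_mul_of_nonneg_left h1 (pow_nonneg ha 4), pow_nonneg hb 6]

theorem sg34_quad_int (g : HS) : Integrable (fun x => ‖ex oneH x‖ ^ 4 * ‖ex g x‖ ^ 2) := by
  refine ((Jr_eq_integral oneH).1.add (Jr_eq_integral g).1).mono' ?_
    (Eventually.of_forall fun x => ?_)
  · exact (((continuous_ex_HS oneH).norm.pow 4).mul
      ((continuous_ex_HS g).norm.pow 2)).aestronglyMeasurable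
  · rw [Real.norm_of_nonneg (by positivity)]
    exact sg34_young (norm_nonneg _) (norm_nonneg _)

theorem sg34_expand (c : ℂ) {g : HS} (hg : ∫ θ, g θ ∂mc = 0) :
    Jr (c • oneH + g) ≤ ‖c‖ ^ 6 * Lam +
      57 * (‖c‖ ^ 4 * (∫ x, ‖ex oneH x‖ ^ 4 * ‖ex g x‖ ^ 2) + Jr g) := by
  have hlin : ∫ θ, ((starRingEnd ℂ) c • g : HS) θ ∂mc = 0 := by
    have h1 : ∫ θ, ((starRingEnd ℂ) c • g : HS) θ ∂mc = ∫ θ, (starRingEnd ℂ) c * g θ ∂mc := by
      refine integral_congr_ae ?_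
      filter_upwards [Lp.coeFn_smul ((starRingEnd ℂ) c) g] with θ h
      rw [h]
      simp only [Pi.smul_apply, smul_eq_mul]
    rw [h1, integral_const_mul, hg, mul_zero]
  obtain ⟨hl1, hl2⟩ := linear_term hlin
  have hJ := Jr_eq_integral (c • oneH + g)
  have hJ1 := Jr_eq_integral (c • oneH)
  have hJg := Jr_eq_integral g
  have hq := sg34_quad_int g
  rw [hJ.2]
  have hbound : ∀ x, ‖ex ((c • oneH + g : HS) : ℝ → ℂ) x‖ ^ 6 ≤
      ‖ex ((c • oneH : HS) : ℝ → ℂ) x‖ ^ 6 +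
      6 * ‖c‖ ^ 4 * (‖ex oneH x‖ ^ 4 * ((starRingEnd ℂ) (ex oneH x) *
        ex (((starRingEnd ℂ) c • g : HS) : ℝ → ℂ) x).re) +
      57 * (‖c‖ ^ 4 * (‖ex oneH x‖ ^ 4 * ‖ex g x‖ ^ 2) + ‖ex g x‖ ^ 6) := by
    intro x
    rw [ex_add_HS, ex_smul_HS, ex_smul_HS]
    have := pointwise6 (c * ex oneH x) (ex g x)
    refine this.trans (le_of_eq ?_)
    rw [norm_mul, map_mul]
    have e1 : (starRingEnd ℂ) c * (starRingEnd ℂ) (ex oneH x) * ex g x =
      (starRingEnd ℂ) (ex oneH x) * ((starRingEnd ℂ) c * ex g x) := by ring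
    rw [e1]
    ring
  obtain ⟨hint, heq⟩ := sg34_int_split hJ1.1 hl1 hq hJg.1 (6 * ‖c‖ ^ 4) (‖c‖ ^ 4)
  refine (integral_mono hJ.1 hint hbound).trans (le_of_eq ?_)
  rw [heq, hl2, ← hJ1.2, ← hJg.2, Jr_oneH]
  ring

theorem limit_zero {c : ℕ → ℂ} {g : ℕ → HS} (hgap : ∀ n, GapH n (g n)) (hne : ∀ n, g n ≠ 0)
    (hn : ∀ n, 2 * Real.pi * ‖c n‖ ^ 2 + ‖g n‖ ^ 2 = 1)
    (h0 : Tendsto (fun n => ‖g n‖) atTop (𝓝 0)) :
    ∀ᶠ n in atTop, Jr (c n • oneH + g n) < Cc := by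
  have hpi : 3 < Real.pi := Real.pi_gt_three
  have hCc : 0 < Cc := Kst_pos.trans Kst_lt_Cc
  -- the normalised sequence
  have hgn : ∀ n, 0 < ‖g n‖ := fun n => norm_pos_iff.2 (hne n)
  set h : ℕ → HS := fun n => ((‖g n‖⁻¹ : ℝ) : ℂ) • g n with hh
  have hhn : ∀ n, ‖h n‖ ≤ 1 := by
    intro n
    simp only [hh, norm_smul, Complex.norm_real, norm_inv, norm_norm]
    rw [inv_mul_cancel₀ (hgn n).ne']
  have hw : WeakTo h 0 := weak_of_gap hhn fun n => sg34_gap_smul (hgap n) _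
  have hε := quad_small hw hhn
  have hgh : ∀ n, g n = ((‖g n‖ : ℝ) : ℂ) • h n := by
    intro n
    simp only [hh, smul_smul]
    rw [← Complex.ofReal_mul, mul_inv_cancel₀ (hgn n).ne']
    simp
  have hquad : ∀ n, ∫ x, ‖ex oneH x‖ ^ 4 * ‖ex (g n) x‖ ^ 2 =
      ‖g n‖ ^ 2 * ∫ x, ‖ex oneH x‖ ^ 4 * ‖ex (h n) x‖ ^ 2 := by
    intro n
    rw [← integral_const_mul]
    refine integral_congr_ae (Eventually.of_forall fun x => ?_)
    have : ex (g n) x = ((‖g n‖ : ℝ) : ℂ) * ex (h n) x := by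
      conv_lhs => rw [hgh n]
      exact ex_smul_HS _ _ _
    simp only [this, norm_mul, Complex.norm_real, norm_norm]
    ring
  -- smallness
  have hA : Tendsto (fun n => ‖g n‖ ^ 2) atTop (𝓝 0) := by
    simpa using h0.pow 2
  have hsmall : Tendsto (fun n => 57 * ((∫ x, ‖ex oneH x‖ ^ 4 * ‖ex (h n) x‖ ^ 2) +
      4 * Kst * (‖g n‖ ^ 2) ^ 2)) atTop (𝓝 (57 * (0 + 4 * Kst * 0 ^ 2))) :=
    (hε.add ((hA.pow 2).const_mul _)).const_mul _
  have hz : (57 : ℝ) * (0 + 4 * Kst * 0 ^ 2) = 0 := by ring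
  rw [hz] at hsmall
  have e1 : ∀ᶠ n in atTop, 57 * ((∫ x, ‖ex oneH x‖ ^ 4 * ‖ex (h n) x‖ ^ 2) +
      4 * Kst * (‖g n‖ ^ 2) ^ 2) < 3 / 4 * Cc := hsmall.eventually_lt_const (by positivity)
  have e2 : ∀ᶠ n in atTop, ‖g n‖ ^ 2 < 1 / 2 := hA.eventually_lt_const (by norm_num)
  filter_upwards [e1, e2, eventually_ge_atTop 1] with n h1 h2 h3
  have hexp := sg34_expand (c n) (sg34_mean_zero h3 (hgap n))
  rw [hquad n] at hexp
  have hJ := Jr_le (g n)
  have hnn := hn n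
  have hApos : 0 < ‖g n‖ ^ 2 := by have := hgn n; positivity
  have hLam : Lam = Cc * (2 * Real.pi) ^ 3 := by
    unfold Cc
    field_simp
  set A : ℝ := ‖g n‖ ^ 2 with hAdef
  set C2 : ℝ := ‖c n‖ ^ 2 with hC2
  set I : ℝ := ∫ x, ‖ex oneH x‖ ^ 4 * ‖ex (h n) x‖ ^ 2 with hI
  have hIn : 0 ≤ I := integral_nonneg fun x => by positivity
  have hC2n : 0 ≤ C2 := by positivity
  have hC4 : ‖c n‖ ^ 4 = C2 ^ 2 := by rw [hC2]; ring
  have hC6 : ‖c n‖ ^ 6 = C2 ^ 3 := by rw [hC2]; ring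
  have hG6 : ‖g n‖ ^ 6 = A ^ 3 := by rw [hAdef]; ring
  rw [hC4, hC6] at hexp
  rw [hG6] at hJ
  have ha : 2 * Real.pi * C2 = 1 - A := by linarith
  have hC1 : C2 ≤ 1 := by nlinarith
  have hC21 : C2 ^ 2 ≤ 1 := by nlinarith
  -- main term
  have hmain : C2 ^ 3 * Lam = Cc * (1 - A) ^ 3 := by
    rw [hLam, ← ha]; ring
  rw [hmain] at hexp
  have hrest : 57 * (C2 ^ 2 * (A * I) + Jr (g n)) ≤
      A * (57 * (I + 4 * Kst * A ^ 2)) := by
    have h5 : C2 ^ 2 * (A * I) ≤ A * I := by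
      have : 0 ≤ A * I := by positivity
      nlinarith
    nlinarith
  have hcube : Cc * (1 - A) ^ 3 + 3 / 4 * Cc * A ≤ Cc := by
    have hAA : 0 ≤ A * (9 / 4 - 3 * A + A ^ 2) := by
      have : 0 ≤ 9 / 4 - 3 * A + A ^ 2 := by nlinarith
      positivity
    have h7 : (1 - A) ^ 3 + 3 / 4 * A = 1 - A * (9 / 4 - 3 * A + A ^ 2) := by ring
    nlinarith
  have hlt : A * (57 * (I + 4 * Kst * A ^ 2)) < A * (3 / 4 * Cc) :=
    mul_lt_mul_of_pos_left h1 hApos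
  linarith

end Pool.Agent.Lib.MP_230119_an
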