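import Pool.Agent.Lib.MP_230119_an.SGDef2
import Pool.Agent.Lib.MP_230119_an.SG27
import Pool.Agent.Lib.MP_230119_an.SG34

set_option autoImplicit false

open MeasureTheory Set Filter Topology
open scoped ENNReal

namespace Pool.Agent.Lib.MP_230119_an

theorem sg35_gap_mono {N n : ℕ} (h : n ≤ N) {g : HS} (hg : GapH N g) : GapH n g := by
  intro k hk
  exact hg k (hk.trans_le (by exact_mod_cast h))

theorem sg35_gap_smul {N : ℕ} (t : ℂ) {g : HS} (hg : GapH N g) : GapH N (t • g) := by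
  intro k hk
  have h := hg k hk
  have h2 : ∫ θ, (t • g : HS) θ * Complex.exp (-(Complex.I * k * θ)) ∂mc =
      ∫ θ, t * (g θ * Complex.exp (-(Complex.I * k * θ))) ∂mc := by
    refine integral_congr_ae ?_
    filter_upwards [Lp.coeFn_smul t g] with θ hθ
    rw [hθ]
    simp only [Pi.smul_apply, smul_eq_mul]
    ring
  rw [h2, integral_const_mul, h, mul_zero]

theorem sg35_weak_sub {g : ℕ → HS} {φ : HS} (h : WeakTo g φ) {σ : ℕ → ℕ} (hσ : StrictMono σ) :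
    WeakTo (fun n => g (σ n)) φ := fun v => (h v).comp hσ.tendsto_atTop

theorem sg35_core {P : ℂ → HS → Prop}
    (hP : ∀ t : ℝ, 0 < t → ∀ c g, P c g → P ((t : ℂ) * c) ((t : ℂ) • g))
    (hbad : ∀ N : ℕ, ∃ (c : ℂ) (g : HS), P c g ∧ GapH N g ∧ g ≠ 0 ∧
      Cc * (2 * Real.pi * ‖c‖ ^ 2 + ‖g‖ ^ 2) ^ 3 ≤ Jr (c • oneH + g)) :
    ∃ (c : ℕ → ℂ) (g : ℕ → HS) (c₀ : ℂ) (A L : ℝ), (∀ n, P (c n) (g n)) ∧ WeakTo g 0 ∧
      Tendsto c atTop (𝓝 c₀) ∧ Tendsto (fun n => ‖g n‖ ^ 2) atTop (𝓝 A) ∧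
      Tendsto (fun n => Jr (g n)) atTop (𝓝 L) ∧ 0 < A ∧ 2 * Real.pi * ‖c₀‖ ^ 2 + A = 1 ∧
      Cc ≤ Cc * (2 * Real.pi * ‖c₀‖ ^ 2) ^ 3 + L ∧ L ≤ 4 * Kst * A ^ 3 := by
  have hpi := Real.pi_pos
  -- normalised violating pairs
  have hbad' : ∀ N : ℕ, ∃ (c : ℂ) (g : HS), P c g ∧ GapH N g ∧ g ≠ 0 ∧
      2 * Real.pi * ‖c‖ ^ 2 + ‖g‖ ^ 2 = 1 ∧ Cc ≤ Jr (c • oneH + g) := by
    intro N
    obtain ⟨c, g, h1, h2, h3, h4⟩ := hbad N
    have hg0 : 0 < ‖g‖ := norm_pos_iff.2 h3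
    set s : ℝ := 2 * Real.pi * ‖c‖ ^ 2 + ‖g‖ ^ 2 with hs
    have hs0 : 0 < s := by positivity
    have hsq : Real.sqrt s ^ 2 = s := Real.sq_sqrt hs0.le
    have hsq0 : 0 < Real.sqrt s := Real.sqrt_pos.2 hs0
    set t : ℝ := (Real.sqrt s)⁻¹ with ht
    have ht0 : 0 < t := inv_pos.2 hsq0
    have hts : t ^ 2 * s = 1 := by
      rw [ht, inv_pow, hsq]
      exact inv_mul_cancel₀ hs0.ne'
    have hnt : ‖(t : ℂ)‖ = t := by
      rw [Complex.norm_real, Real.norm_of_nonneg ht0.le]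
    refine ⟨(t : ℂ) * c, (t : ℂ) • g, hP t ht0 c g h1, sg35_gap_smul _ h2, ?_, ?_, ?_⟩
    · exact smul_ne_zero (by exact_mod_cast ht0.ne') h3
    · rw [norm_mul, norm_smul, hnt]
      have : 2 * Real.pi * (t * ‖c‖) ^ 2 + (t * ‖g‖) ^ 2 = t ^ 2 * s := by
        rw [hs]; ring
      rw [this, hts]
    · have e : ((t : ℂ) * c) • oneH + (t : ℂ) • g = (t : ℂ) • (c • oneH + g) := by
        rw [smul_add, smul_smul]
      rw [e, Jr_smul, hnt]
      have h5 : t ^ 6 * (Cc * s ^ 3) ≤ t ^ 6 * Jr (c • oneH + g) :=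
        mul_le_mul_of_nonneg_left h4 (by positivity)
      have h6 : t ^ 6 * (Cc * s ^ 3) = Cc * (t ^ 2 * s) ^ 3 := by ring
      rw [h6, hts] at h5
      linarith
  choose c g h1 h2 h3 h4 h5 using hbad'
  have hg1 : ∀ n, ‖g n‖ ^ 2 ≤ 1 := by
    intro n
    have := h4 n
    have h6 : 0 ≤ 2 * Real.pi * ‖c n‖ ^ 2 := by positivity
    linarith
  have hg1' : ∀ n, ‖g n‖ ≤ 1 := by
    intro n
    have := hg1 n
    nlinarith [norm_nonneg (g n)]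
  have hc1 : ∀ n, ‖c n‖ ≤ 1 := by
    intro n
    have h6 := h4 n
    have h7 : 0 ≤ ‖g n‖ ^ 2 := by positivity
    have h8 : ‖c n‖ ^ 2 ≤ 1 := by
      have : 1 ≤ 2 * Real.pi := by linarith [Real.pi_gt_three]
      nlinarith [sq_nonneg ‖c n‖]
    nlinarith [norm_nonneg (c n)]
  have hJ : ∀ n, |Jr (g n)| ≤ 4 * Kst := by
    intro n
    rw [abs_of_nonneg (Jr_nonneg _)]
    refine (Jr_le _).trans ?_
    have h6 : ‖g n‖ ^ 6 ≤ 1 := pow_le_one₀ (norm_nonneg _) (hg1' n)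
    have := Kst_pos
    nlinarith
  -- a convergent subsequence
  set x : ℕ → ℂ × ℝ × ℝ := fun n => (c n, ‖g n‖ ^ 2, Jr (g n)) with hx
  have hxb : ∀ n, x n ∈ Metric.closedBall (0 : ℂ × ℝ × ℝ) (max 1 (4 * Kst)) := by
    intro n
    rw [mem_closedBall_zero_iff]
    simp only [hx, Prod.norm_def]
    refine max_le ((hc1 n).trans (le_max_left _ _)) (max_le ?_ ?_)
    · rw [Real.norm_of_nonneg (by positivity)]
      exact (hg1 n).trans (le_max_left _ _)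
    · rw [Real.norm_eq_abs]
      exact (hJ n).trans (le_max_right _ _)
  obtain ⟨⟨c₀, A, L⟩, -, σ, hσ, hlim⟩ := tendsto_subseq_of_bounded
    (Metric.isBounded_closedBall) hxb
  have l1 : Tendsto (fun n => c (σ n)) atTop (𝓝 c₀) :=
    (continuous_fst.tendsto _).comp hlim
  have l2 : Tendsto (fun n => ‖g (σ n)‖ ^ 2) atTop (𝓝 A) :=
    ((continuous_fst.comp continuous_snd).tendsto _).comp hlim
  have l3 : Tendsto (fun n => Jr (g (σ n))) atTop (𝓝 L) :=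
    ((continuous_snd.comp continuous_snd).tendsto _).comp hlim
  have hgap : ∀ n, GapH n (g (σ n)) := fun n => sg35_gap_mono (hσ.le_apply) (h2 (σ n))
  have hw : WeakTo (fun n => g (σ n)) 0 := weak_of_gap (fun n => hg1' (σ n)) hgap
  have hsum : 2 * Real.pi * ‖c₀‖ ^ 2 + A = 1 := by
    have h6 : Tendsto (fun n => 2 * Real.pi * ‖c (σ n)‖ ^ 2 + ‖g (σ n)‖ ^ 2) atTop
        (𝓝 (2 * Real.pi * ‖c₀‖ ^ 2 + A)) := ((l1.norm.pow 2).const_mul _).add l2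
    have h7 : Tendsto (fun n => 2 * Real.pi * ‖c (σ n)‖ ^ 2 + ‖g (σ n)‖ ^ 2) atTop (𝓝 1) := by
      simp only [h4]
      exact tendsto_const_nhds
    exact tendsto_nhds_unique h6 h7
  have hA0 : 0 ≤ A := ge_of_tendsto' l2 fun n => by positivity
  have hA : 0 < A := by
    rcases hA0.eq_or_lt with h6 | h6
    · exfalso
      rw [← h6] at l2
      have h7 : Tendsto (fun n => ‖g (σ n)‖) atTop (𝓝 0) := by
        have := l2.sqrt
        simpa [Real.sqrt_sq (norm_nonneg _)] using this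
      have h8 := limit_zero (c := fun n => c (σ n)) hgap (fun n => h3 _) (fun n => h4 _) h7
      obtain ⟨n, hn⟩ := h8.exists
      exact absurd (h5 (σ n)) (not_le.2 hn)
    · exact h6
  refine ⟨fun n => c (σ n), fun n => g (σ n), c₀, A, L, fun n => h1 _, hw, l1, l2, l3, hA, hsum,
    ?_, ?_⟩
  · have h6 := limit_pos l1 hw (fun n => hg1' (σ n)) l3
    have h7 := ge_of_tendsto' h6 fun n => h5 (σ n)
    have h8 : Cc * (2 * Real.pi * ‖c₀‖ ^ 2) ^ 3 = ‖c₀‖ ^ 6 * Lam := by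
      unfold Cc
      field_simp
    rw [h8]
    exact h7
  · have h6 : Tendsto (fun n => 4 * Kst * (‖g (σ n)‖ ^ 2) ^ 3) atTop (𝓝 (4 * Kst * A ^ 3)) :=
      (l2.pow 3).const_mul _
    refine le_of_tendsto_of_tendsto' l3 h6 fun n => ?_
    refine (Jr_le _).trans (le_of_eq ?_)
    ring

theorem core_sym {τ : HS → HS} (hτ : Sym τ) :
    ∃ N : ℕ, ∀ (c : ℂ) (g : HS), τ g = g → GapH N g → g ≠ 0 →
      Jr (c • oneH + g) < Cc * (2 * Real.pi * ‖c‖ ^ 2 + ‖g‖ ^ 2) ^ 3 := by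
  by_contra hcon
  push Not at hcon
  obtain ⟨c, g, c₀, A, L, h1, hw, -, l2, l3, hA, hsum, h4, h5⟩ :=
    sg35_core (P := fun _ g => τ g = g)
      (fun t _ c g h => by
        change τ ((t : ℂ) • g) = (t : ℂ) • g
        rw [hτ.smul, h])
      (fun N => by
        obtain ⟨c, g, h1, h2, h3, h4⟩ := hcon N
        exact ⟨c, g, h1, h2, h3, h4⟩)
  have hpi := Real.pi_pos
  set a : ℝ := 2 * Real.pi * ‖c₀‖ ^ 2 with ha
  have ha0 : 0 ≤ a := by positivity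
  have h6 := key_bound hτ h1 hw l2 (by linarith) l3
  have h7 := Kst_lt_Cc
  have hC : 0 < Cc := Kst_pos.trans h7
  have h8 : Kst * A ^ 3 < Cc * A ^ 3 := mul_lt_mul_of_pos_right h7 (by positivity)
  have h9 : Cc = Cc * (a + A) ^ 3 := by rw [hsum]; ring
  have h10 : 0 ≤ Cc * (3 * a ^ 2 * A + 3 * a * A ^ 2) := by positivity
  have h11 : Cc * (a + A) ^ 3 = Cc * a ^ 3 + Cc * A ^ 3 + Cc * (3 * a ^ 2 * A + 3 * a * A ^ 2) := by
    ring
  linarith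

theorem core_mean : ∃ N : ℕ, ∀ (c : ℂ) (g : HS), ‖g‖ ^ 2 ≤ 2 * (2 * Real.pi * ‖c‖ ^ 2) →
      GapH N g → g ≠ 0 →
      Jr (c • oneH + g) < Cc * (2 * Real.pi * ‖c‖ ^ 2 + ‖g‖ ^ 2) ^ 3 := by
  by_contra hcon
  push Not at hcon
  obtain ⟨c, g, c₀, A, L, h1, -, l1, l2, -, hA, hsum, h4, h5⟩ :=
    sg35_core (P := fun c g => ‖g‖ ^ 2 ≤ 2 * (2 * Real.pi * ‖c‖ ^ 2))
      (fun t ht c g h => by
        change ‖(t : ℂ) • g‖ ^ 2 ≤ 2 * (2 * Real.pi * ‖(t : ℂ) * c‖ ^ 2)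
        have hnt : ‖(t : ℂ)‖ = t := by
          rw [Complex.norm_real, Real.norm_of_nonneg ht.le]
        rw [norm_smul, norm_mul, hnt, mul_pow, mul_pow]
        have : t ^ 2 * ‖g‖ ^ 2 ≤ t ^ 2 * (2 * (2 * Real.pi * ‖c‖ ^ 2)) :=
          mul_le_mul_of_nonneg_left h (by positivity)
        linarith)
      (fun N => by
        obtain ⟨c, g, h1, h2, h3, h4⟩ := hcon N
        exact ⟨c, g, h1, h2, h3, h4⟩)
  have hpi := Real.pi_pos
  set a : ℝ := 2 * Real.pi * ‖c₀‖ ^ 2 with ha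
  have ha0 : 0 ≤ a := by positivity
  have hAa : A ≤ 2 * a :=
    le_of_tendsto_of_tendsto' l2 (((l1.norm.pow 2).const_mul _).const_mul _) h1
  have h7 := four_Kst_lt
  have hC : 0 < Cc := by have := Kst_pos; linarith
  have h8 : 4 * Kst * A ^ 3 < Cc * (13 / 4 * A ^ 3) := by
    have hA3 : 0 < A ^ 3 := by positivity
    nlinarith
  have h9 : Cc = Cc * (a + A) ^ 3 := by rw [hsum]; ring
  have h10 : 13 / 4 * A ^ 3 ≤ 3 * a ^ 2 * A + 3 * a * A ^ 2 + A ^ 3 := by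
    have e1 : A ^ 2 ≤ 4 * a ^ 2 := by nlinarith
    have e2 : A ^ 2 * A ≤ 4 * a ^ 2 * A := mul_le_mul_of_nonneg_right e1 hA.le
    have e3 : A ^ 2 * A ≤ A ^ 2 * (2 * a) := mul_le_mul_of_nonneg_left hAa (by positivity)
    nlinarith
  have h12 : Cc * (13 / 4 * A ^ 3) ≤ Cc * (3 * a ^ 2 * A + 3 * a * A ^ 2 + A ^ 3) :=
    mul_le_mul_of_nonneg_left h10 hC.le
  have h11 : Cc * (a + A) ^ 3 = Cc * a ^ 3 + Cc * (3 * a ^ 2 * A + 3 * a * A ^ 2 + A ^ 3) := by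
    ring
  linarith

end Pool.Agent.Lib.MP_230119_an
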