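import Pool.Agent.Lib.MP_230119_an.SGDef2
import Pool.Agent.Lib.MP_230119_an.SG21

set_option autoImplicit false

open MeasureTheory Set Filter Topology
open scoped ENNReal

namespace Pool.Agent.Lib.MP_230119_an

/-- complex conjugation -/
noncomputable def tauConj (g : HS) : HS :=
  (show MemLp (fun θ => (starRingEnd ℂ) (g θ)) 2 mc from (Lp.memLp g).star).toLp _

theorem memLp_comp_ap (ε : ℂ) (g : HS) : MemLp (fun θ => ε * g (ap θ)) 2 mc :=
  ((Lp.memLp g).comp_measurePreserving measurePreserving_ap).const_mul ε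

/-- `ε` times the reflection `ω ↦ -ω` -/
noncomputable def tauRefl (ε : ℂ) (g : HS) : HS := (memLp_comp_ap ε g).toLp _

theorem sg36_coe_tauConj (g : HS) :
    (tauConj g : ℝ → ℂ) =ᵐ[mc] fun θ => (starRingEnd ℂ) (g θ) := by
  unfold tauConj
  exact MemLp.coeFn_toLp _

theorem sg36_coe_tauRefl (ε : ℂ) (g : HS) :
    (tauRefl ε g : ℝ → ℂ) =ᵐ[mc] fun θ => ε * g (ap θ) := by
  unfold tauRefl
  exact MemLp.coeFn_toLp _

theorem sg36_ae_ap {p : ℝ → Prop} (h : ∀ᵐ θ ∂mc, p θ) : ∀ᵐ θ ∂mc, p (ap θ) :=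
  measurePreserving_ap.quasiMeasurePreserving.ae h

theorem sg36_ae_ap_ap : ∀ᵐ θ ∂mc, ap (ap θ) = θ := by
  unfold mc
  filter_upwards [ae_restrict_mem measurableSet_Ioc] with θ hθ
  exact ap_ap hθ

theorem sym_tauConj : Sym tauConj where
  add g h := by
    refine Lp.ext ?_
    filter_upwards [sg36_coe_tauConj (g + h), sg36_coe_tauConj g, sg36_coe_tauConj h,
      Lp.coeFn_add g h, Lp.coeFn_add (tauConj g) (tauConj h)] with θ h1 h2 h3 h4 h5
    rw [h1, h5, h4]
    simp only [Pi.add_apply, map_add, h2, h3]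
  smul t g := by
    refine Lp.ext ?_
    filter_upwards [sg36_coe_tauConj ((t : ℂ) • g), sg36_coe_tauConj g,
      Lp.coeFn_smul (t : ℂ) g, Lp.coeFn_smul (t : ℂ) (tauConj g)] with θ h1 h2 h3 h4
    rw [h1, h3, h4]
    simp only [Pi.smul_apply, smul_eq_mul, map_mul, Complex.conj_ofReal, h2]
  norm g := by
    rw [Lp.norm_def, Lp.norm_def]
    congr 1
    refine eLpNorm_congr_norm_ae ?_
    filter_upwards [sg36_coe_tauConj g] with θ h1
    rw [h1, RCLike.norm_conj]
  invol g := by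
    refine Lp.ext ?_
    filter_upwards [sg36_coe_tauConj (tauConj g), sg36_coe_tauConj g] with θ h1 h2
    rw [h1, h2, Complex.conj_conj]
  anti y g := by
    refine Lp.ext ?_
    filter_upwards [sg36_coe_tauConj (Ty y g), sg36_coe_tauConj g, coeFn_Ty y g,
      coeFn_Ty (-y) (tauConj g)] with θ h1 h2 h3 h4
    rw [h1, h3, h4, h2, map_mul, ph_neg_left]

theorem sym_tauRefl {ε : ℂ} (hε : ε = 1 ∨ ε = -1) : Sym (tauRefl ε) where
  add g h := by
    refine Lp.ext ?_
    filter_upwards [sg36_coe_tauRefl ε (g + h), sg36_coe_tauRefl ε g, sg36_coe_tauRefl ε h,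
      sg36_ae_ap (Lp.coeFn_add g h), Lp.coeFn_add (tauRefl ε g) (tauRefl ε h)]
      with θ h1 h2 h3 h4 h5
    rw [h1, h5, h4]
    simp only [Pi.add_apply, h2, h3]
    ring
  smul t g := by
    refine Lp.ext ?_
    filter_upwards [sg36_coe_tauRefl ε ((t : ℂ) • g), sg36_coe_tauRefl ε g,
      sg36_ae_ap (Lp.coeFn_smul (t : ℂ) g), Lp.coeFn_smul (t : ℂ) (tauRefl ε g)]
      with θ h1 h2 h3 h4
    rw [h1, h3, h4]
    simp only [Pi.smul_apply, smul_eq_mul, h2]
    ring
  norm g := by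
    have hn : ‖ε‖ = 1 := by rcases hε with h | h <;> simp [h]
    rw [Lp.norm_def, Lp.norm_def]
    congr 1
    rw [← eLpNorm_comp_measurePreserving (Lp.aestronglyMeasurable g) measurePreserving_ap]
    refine eLpNorm_congr_norm_ae ?_
    filter_upwards [sg36_coe_tauRefl ε g] with θ h1
    rw [h1, norm_mul, hn, one_mul, Function.comp_apply]
  invol g := by
    have hn : ε * ε = 1 := by rcases hε with h | h <;> simp [h]
    refine Lp.ext ?_
    filter_upwards [sg36_coe_tauRefl ε (tauRefl ε g), sg36_ae_ap (sg36_coe_tauRefl ε g),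
      sg36_ae_ap_ap] with θ h1 h2 h3
    rw [h1, h2, h3, ← mul_assoc, hn, one_mul]
  anti y g := by
    refine Lp.ext ?_
    filter_upwards [sg36_coe_tauRefl ε (Ty y g), sg36_coe_tauRefl ε g, sg36_ae_ap (coeFn_Ty y g),
      coeFn_Ty (-y) (tauRefl ε g)] with θ h1 h2 h3 h4
    rw [h1, h3, h4, h2, om_ap, ph_neg_right, ph_neg_left]
    ring

end Pool.Agent.Lib.MP_230119_an
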