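import Pool.Agent.Lib.MP_230119_an.SGDef2
import Pool.Agent.Lib.MP_230119_an.Mg.G016
import Pool.Agent.Lib.MP_230119_an.SG21
import Pool.Agent.Lib.MP_230119_an.SG33
import Pool.Agent.Lib.MP_230119_an.SG35
import Pool.Agent.Lib.MP_230119_an.SG36

set_option autoImplicit false

open MeasureTheory Set Filter Topology
open scoped ENNReal

namespace Pool.Agent.Lib.MP_230119_an

/-- the bound of the problem -/
def Bd (f : ℝ → ℂ) : Prop :=
  J f ≤ J (fun _ => (1 : ℂ)) * (N2 f / ENNReal.ofReal (2 * Real.pi)) ^ 3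

/-- equality in the bound of the problem -/
def BdEq (f : ℝ → ℂ) : Prop :=
  J f = J (fun _ => (1 : ℂ)) * (N2 f / ENNReal.ofReal (2 * Real.pi)) ^ 3

/-- no Fourier modes `1 ≤ |n| < N` -/
def Gap (N : ℕ) (f : ℝ → ℂ) : Prop :=
  ∀ n : ℤ, n ≠ 0 → |n| < N → ∫ θ, f θ * Complex.exp (-(Complex.I * n * θ)) ∂mc = 0

lemma J_congr {f g : ℝ → ℂ} (h : f =ᵐ[mc] g) : J f = J g := by
  unfold J
  simp only [ex_congr h]

lemma N2_congr {f g : ℝ → ℂ} (h : f =ᵐ[mc] g) : N2 f = N2 g := by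
  unfold N2
  refine lintegral_congr_ae ?_
  filter_upwards [h] with θ hθ
  rw [hθ]

lemma coeFn_oneH : (oneH : ℝ → ℂ) =ᵐ[mc] fun _ => (1 : ℂ) :=
  (memLp_const (1 : ℂ)).coeFn_toLp

lemma inner_oneH (g : HS) : inner ℂ oneH g = ∫ θ, g θ ∂mc := by
  rw [L2.inner_def]
  refine integral_congr_ae ?_
  filter_upwards [coeFn_oneH] with θ hθ
  rw [hθ]
  simp

lemma Lam_eq : J (fun _ => (1 : ℂ)) = ENNReal.ofReal Lam :=
  (ENNReal.ofReal_toReal J_one_ne_top).symm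

lemma bd_of {f : ℝ → ℂ} (hf : MemLp f 2 mc) {c : ℂ} {g : HS} (hF : hf.toLp f = c • oneH + g)
    (h0 : ∫ θ, g θ ∂mc = 0)
    (h : g ≠ 0 → Jr (c • oneH + g) < Cc * (2 * Real.pi * ‖c‖ ^ 2 + ‖g‖ ^ 2) ^ 3) :
    Bd f ∧ (BdEq f → g = 0) := by
  have hfF : (hf.toLp f : ℝ → ℂ) =ᵐ[mc] f := hf.coeFn_toLp
  have hJ : J f = ENNReal.ofReal (Jr (c • oneH + g)) := by
    rw [← J_congr hfF, hF, ← J_HS]
  have hpi : 0 < 2 * Real.pi := by positivity
  have hnorm : ‖c • oneH + g‖ ^ 2 = 2 * Real.pi * ‖c‖ ^ 2 + ‖g‖ ^ 2 := by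
    have horth : inner ℂ (c • oneH) g = 0 := by
      rw [inner_smul_left, inner_oneH, h0, mul_zero]
    have := norm_add_pow_two (𝕜 := ℂ) (c • oneH) g
    rw [horth] at this
    rw [this, norm_smul, mul_pow, norm_oneH]
    simp
    ring
  have hN : N2 f = ENNReal.ofReal (2 * Real.pi * ‖c‖ ^ 2 + ‖g‖ ^ 2) := by
    rw [← N2_congr hfF, hF, N2_HS, hnorm]
  set X := 2 * Real.pi * ‖c‖ ^ 2 + ‖g‖ ^ 2 with hX
  have hX0 : 0 ≤ X := by positivity
  have hR : J (fun _ => (1 : ℂ)) * (N2 f / ENNReal.ofReal (2 * Real.pi)) ^ 3 =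
      ENNReal.ofReal (Cc * X ^ 3) := by
    rw [hN, Lam_eq, ← ENNReal.ofReal_div_of_pos hpi, ← ENNReal.ofReal_pow (by positivity),
      ← ENNReal.ofReal_mul (by unfold Lam; exact ENNReal.toReal_nonneg)]
    congr 1
    unfold Cc
    field_simp
  unfold Bd BdEq
  rw [hR, hJ]
  by_cases hg : g = 0
  · refine ⟨?_, fun _ => hg⟩
    refine ENNReal.ofReal_le_ofReal (le_of_eq ?_)
    rw [hX, hg, add_zero, Jr_oneH, norm_zero]
    unfold Cc
    field_simp
    ring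
  · have h' := h hg
    refine ⟨ENNReal.ofReal_le_ofReal h'.le, fun he => ?_⟩
    exfalso
    rw [ENNReal.ofReal_eq_ofReal_iff (Jr_nonneg _) (by
      have : 0 ≤ Lam := by unfold Lam; exact ENNReal.toReal_nonneg
      unfold Cc; positivity)] at he
    exact absurd he h'.ne

lemma integral_mc_exp {n : ℤ} (hn : n ≠ 0) :
    ∫ θ : ℝ, Complex.exp (-(Complex.I * n * θ)) ∂mc = 0 := by
  unfold mc
  rw [← intervalIntegral.integral_of_le (by positivity)]
  have hc : -(Complex.I * n) ≠ 0 := by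
    rw [neg_ne_zero]
    exact mul_ne_zero Complex.I_ne_zero (by exact_mod_cast hn)
  have h := integral_exp_mul_complex (a := 0) (b := 2 * Real.pi) hc
  have h2 : ∀ θ : ℝ, Complex.exp (-(Complex.I * n * θ)) = Complex.exp (-(Complex.I * n) * θ) := by
    intro θ
    congr 1
    ring
  simp only [h2]
  rw [h]
  have h3 : Complex.exp (-(Complex.I * n) * ((2 * Real.pi : ℝ) : ℂ)) = 1 := by
    rw [Complex.exp_eq_one_iff]
    exact ⟨-n, by push_cast; ring⟩
  rw [h3]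
  simp

lemma mc_univ : (mc Set.univ).toReal = 2 * Real.pi := by
  unfold mc
  rw [Measure.restrict_apply_univ, Real.volume_Ioc, sub_zero, ENNReal.toReal_ofReal (by positivity)]

/-- mean value -/
noncomputable def mean (f : ℝ → ℂ) : ℂ := (∫ θ, f θ ∂mc) / (2 * Real.pi : ℝ)

/-- the oscillating part -/
noncomputable def osc {f : ℝ → ℂ} (hf : MemLp f 2 mc) : HS := hf.toLp f - mean f • oneH

lemma osc_coe {f : ℝ → ℂ} (hf : MemLp f 2 mc) :
    (osc hf : ℝ → ℂ) =ᵐ[mc] fun θ => f θ - mean f := by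
  unfold osc
  filter_upwards [Lp.coeFn_sub (hf.toLp f) (mean f • oneH), hf.coeFn_toLp,
    Lp.coeFn_smul (mean f) oneH, coeFn_oneH] with θ h1 h2 h3 h4
  rw [h1, Pi.sub_apply, h2, h3, Pi.smul_apply, h4, smul_eq_mul, mul_one]

lemma decomp {f : ℝ → ℂ} (hf : MemLp f 2 mc) : hf.toLp f = mean f • oneH + osc hf := by
  unfold osc; abel

lemma integral_osc_exp {f : ℝ → ℂ} (hf : MemLp f 2 mc) (n : ℤ) :
    ∫ θ, (osc hf : ℝ → ℂ) θ * Complex.exp (-(Complex.I * n * θ)) ∂mc =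
      ∫ θ, f θ * Complex.exp (-(Complex.I * n * θ)) ∂mc -
        mean f * ∫ θ : ℝ, Complex.exp (-(Complex.I * n * θ)) ∂mc := by
  have he : ∀ θ : ℝ, ‖Complex.exp (-(Complex.I * n * θ))‖ = 1 := by
    intro θ
    have : -(Complex.I * n * θ) = ((-(n * θ) : ℝ) : ℂ) * Complex.I := by push_cast; ring
    rw [this, Complex.norm_exp_ofReal_mul_I]
  have hm : Continuous fun θ : ℝ => Complex.exp (-(Complex.I * n * θ)) := by fun_prop
  have h1 : Integrable (fun θ => f θ * Complex.exp (-(Complex.I * n * θ))) mc :=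
    (integrable_of_memLp hf).mul_bdd (c := 1) hm.aestronglyMeasurable
      (Eventually.of_forall fun θ => (he θ).le)
  have h2 : Integrable (fun θ : ℝ => Complex.exp (-(Complex.I * n * θ))) mc :=
    (integrable_const (1 : ℂ)).mono hm.aestronglyMeasurable
      (Eventually.of_forall fun θ => by rw [he]; simp)
  rw [← integral_const_mul, ← integral_sub h1 (h2.const_mul _)]
  refine integral_congr_ae ?_
  filter_upwards [osc_coe hf] with θ hθ
  rw [hθ]
  ring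

lemma integral_osc {f : ℝ → ℂ} (hf : MemLp f 2 mc) : ∫ θ, (osc hf : ℝ → ℂ) θ ∂mc = 0 := by
  have h := integral_osc_exp hf 0
  simp only [Int.cast_zero, mul_zero, zero_mul, neg_zero, Complex.exp_zero, mul_one] at h
  rw [h, integral_const, measureReal_def, mc_univ]
  unfold mean
  have : ((2 * Real.pi : ℝ) : ℂ) ≠ 0 := by
    exact_mod_cast (by positivity : (2 * Real.pi : ℝ) ≠ 0)
  rw [Complex.real_smul, mul_one, div_mul_cancel₀ _ this, sub_self]

lemma gapH_osc {f : ℝ → ℂ} (hf : MemLp f 2 mc) {N : ℕ} (h : Gap N f) : GapH N (osc hf) := by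
  intro n hn
  by_cases h0 : n = 0
  · subst h0
    have := integral_osc hf
    simpa using this
  · rw [integral_osc_exp, h n h0 hn, integral_mc_exp h0]
    simp

lemma mean_ne {f : ℝ → ℂ} (hf : MemLp f 2 mc) (h : osc hf = 0) : ∃ c : ℂ, ∀ᵐ θ ∂mc, f θ = c := by
  refine ⟨mean f, ?_⟩
  have h1 := osc_coe hf
  rw [h] at h1
  filter_upwards [h1, Lp.coeFn_zero ℂ 2 mc] with θ h2 h3
  have h4 : (0 : ℂ) = f θ - mean f := by rw [← h2, h3]; rfl
  exact (sub_eq_zero.1 h4.symm)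

/-- real case -/
lemma tauConj_osc {f : ℝ → ℂ} (hf : MemLp f 2 mc) (h : ∀ᵐ θ ∂mc, (f θ).im = 0) :
    tauConj (osc hf) = osc hf := by
  have hmean : (mean f).im = 0 := by
    have h1 : ∫ θ, f θ ∂mc = ((∫ θ, (f θ).re ∂mc : ℝ) : ℂ) := by
      rw [← integral_complex_ofReal]
      refine integral_congr_ae ?_
      filter_upwards [h] with θ hθ
      exact Complex.ext (by simp) (by simp [hθ])
    unfold mean
    rw [h1, ← Complex.ofReal_div, Complex.ofReal_im]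
  apply Lp.ext
  have h2 : (tauConj (osc hf) : ℝ → ℂ) =ᵐ[mc] fun θ => (starRingEnd ℂ) ((osc hf : ℝ → ℂ) θ) :=
    MemLp.coeFn_toLp _
  filter_upwards [h2, osc_coe hf, h] with θ h3 h4 h5
  rw [h3, h4]
  exact Complex.conj_eq_iff_im.2 (by simp [h5, hmean])

lemma tauRefl_osc {f : ℝ → ℂ} (hf : MemLp f 2 mc) {ε : ℂ} (hε : ε = 1 ∨ ε = -1)
    (h : ∀ᵐ θ ∂mc, f (ap θ) = ε * f θ) : tauRefl ε (osc hf) = osc hf := by
  have hε2 : ε * ε = 1 := by rcases hε with rfl | rfl <;> ring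
  have hmean : ε * mean f = mean f := by
    have h1 : ∫ θ, f θ ∂mc = ∫ θ, f (ap θ) ∂mc := by
      conv_lhs => rw [← measurePreserving_ap.map_eq]
      rw [integral_map measurable_ap.aemeasurable]
      rw [measurePreserving_ap.map_eq]
      exact hf.aestronglyMeasurable
    have h2 : ∫ θ, f (ap θ) ∂mc = ε * ∫ θ, f θ ∂mc := by
      rw [← integral_const_mul]
      exact integral_congr_ae h
    unfold mean
    rw [← mul_div_assoc, ← h2, ← h1]
  apply Lp.ext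
  have h2 : (tauRefl ε (osc hf) : ℝ → ℂ) =ᵐ[mc] fun θ => ε * ((osc hf : ℝ → ℂ) (ap θ)) :=
    MemLp.coeFn_toLp _
  have h6 := measurePreserving_ap.quasiMeasurePreserving.ae_eq_comp (osc_coe hf)
  filter_upwards [h2, osc_coe hf, h, h6] with θ h3 h4 h5 h7
  have h8 : (osc hf : ℝ → ℂ) (ap θ) = f (ap θ) - mean f := h7
  rw [h3, h4, h8, h5, mul_sub, ← mul_assoc, hε2, one_mul, hmean]

/-- real-valued functions with a spectral gap -/
lemma case_real {N : ℕ} (hN : ∀ (c : ℂ) (g : HS), tauConj g = g → GapH N g → g ≠ 0 →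
      Jr (c • oneH + g) < Cc * (2 * Real.pi * ‖c‖ ^ 2 + ‖g‖ ^ 2) ^ 3)
    {f : ℝ → ℂ} (hf : MemLp f 2 mc) (hg : Gap N f) (h : ∀ᵐ θ ∂mc, (f θ).im = 0) :
    Bd f ∧ (BdEq f → ∃ c : ℂ, ∀ᵐ θ ∂mc, f θ = c) := by
  obtain ⟨h1, h2⟩ := bd_of hf (decomp hf) (integral_osc hf) fun hne =>
    hN _ _ (tauConj_osc hf h) (gapH_osc hf hg) hne
  exact ⟨h1, fun he => mean_ne hf (h2 he)⟩

lemma Bd_smul {f : ℝ → ℂ} {ζ : ℂ} (hζ : ζ ≠ 0) : (Bd (ζ • f) ↔ Bd f) ∧ (BdEq (ζ • f) ↔ BdEq f) := by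
  have hJ : J (ζ • f) = ‖ζ‖ₑ ^ 6 * J f := by
    unfold J
    rw [← lintegral_const_mul' _ _ (by finiteness)]
    refine lintegral_congr fun x => ?_
    rw [ex_smul, enorm_mul, mul_pow]
  have hN : N2 (ζ • f) = ‖ζ‖ₑ ^ 2 * N2 f := by
    unfold N2
    rw [← lintegral_const_mul' _ _ (by finiteness)]
    refine lintegral_congr fun x => ?_
    rw [Pi.smul_apply, smul_eq_mul, enorm_mul, mul_pow]
  have h6 : ‖ζ‖ₑ ^ 6 ≠ 0 := pow_ne_zero _ (by simpa using hζ)
  have h6' : ‖ζ‖ₑ ^ 6 ≠ ∞ := by finiteness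
  have hR : J (fun _ => (1 : ℂ)) * (N2 (ζ • f) / ENNReal.ofReal (2 * Real.pi)) ^ 3 =
      ‖ζ‖ₑ ^ 6 * (J (fun _ => (1 : ℂ)) * (N2 f / ENNReal.ofReal (2 * Real.pi)) ^ 3) := by
    rw [hN, mul_div_assoc, mul_pow, ← pow_mul]
    ring
  unfold Bd BdEq
  rw [hR, hJ]
  exact ⟨ENNReal.mul_le_mul_iff_right h6 h6', ENNReal.mul_right_inj h6 h6'⟩

theorem final : ∃ N : ℕ, ∀ f : ℝ → ℂ, MemLp f 2 mc →
    (Gap N f →
      ((∃ ζ : ℂ, ζ ≠ 0 ∧ ∀ᵐ θ ∂mc, (ζ * f θ).im = 0) ∨ (∀ᵐ θ ∂mc, f (ap θ) = f θ) ∨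
        (∀ᵐ θ ∂mc, f (ap θ) = - f θ) ∨
        2 * Real.pi * ∫ θ, ‖f θ‖ ^ 2 ∂mc ≤ 3 * ‖∫ θ, f θ ∂mc‖ ^ 2) →
      Bd f ∧ (BdEq f → ∃ c : ℂ, ∀ᵐ θ ∂mc, f θ = c)) ∧
    (Gap N (fun θ => (sharp f θ : ℂ)) →
      Bd f ∧ (BdEq f → ∃ c : ℝ, ∀ᵐ θ ∂mc, sharp f θ = c)) := by
  obtain ⟨N1, h1⟩ := core_sym sym_tauConj
  obtain ⟨N2', h2⟩ := core_sym (sym_tauRefl (ε := 1) (Or.inl rfl))
  obtain ⟨N3, h3⟩ := core_sym (sym_tauRefl (ε := -1) (Or.inr rfl))
  obtain ⟨N4, h4⟩ := core_mean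
  have gmono : ∀ {N M : ℕ}, N ≤ M → ∀ {f : ℝ → ℂ}, Gap M f → Gap N f := by
    intro N M hNM f h n hn hnN
    exact h n hn (lt_of_lt_of_le hnN (by exact_mod_cast hNM))
  set N := max (max N1 N2') (max N3 N4) with hNdef
  have e1 : N1 ≤ N := (le_max_left _ _).trans (le_max_left _ _)
  have e2 : N2' ≤ N := (le_max_right _ _).trans (le_max_left _ _)
  have e3 : N3 ≤ N := (le_max_left _ _).trans (le_max_right _ _)
  have e4 : N4 ≤ N := (le_max_right _ _).trans (le_max_right _ _)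
  refine ⟨N, fun f hf => ⟨fun hg hcase => ?_, fun hg => ?_⟩⟩
  · rcases hcase with ⟨ζ, hζ, hr⟩ | he | ho | hm
    · have hf' : MemLp (ζ • f) 2 mc := hf.const_smul ζ
      have hg' : Gap N1 (ζ • f) := by
        intro n hn hnN
        have := gmono e1 hg n hn hnN
        simp only [Pi.smul_apply, smul_eq_mul, mul_assoc]
        rw [integral_const_mul]
        simp only [← mul_assoc]
        rw [this, mul_zero]
      obtain ⟨b1, b2⟩ := case_real h1 hf' hg' (by simpa using hr)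
      obtain ⟨s1, s2⟩ := Bd_smul (f := f) hζ
      refine ⟨s1.1 b1, fun he => ?_⟩
      obtain ⟨c, hc⟩ := b2 (s2.2 he)
      refine ⟨ζ⁻¹ * c, ?_⟩
      filter_upwards [hc] with θ hθ
      rw [← hθ, Pi.smul_apply, smul_eq_mul, ← mul_assoc, inv_mul_cancel₀ hζ, one_mul]
    · obtain ⟨b1, b2⟩ := bd_of hf (decomp hf) (integral_osc hf) fun hne =>
        h2 _ _ (tauRefl_osc hf (Or.inl rfl) (by simpa using he)) (gapH_osc hf (gmono e2 hg)) hne
      exact ⟨b1, fun he => mean_ne hf (b2 he)⟩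
    · obtain ⟨b1, b2⟩ := bd_of hf (decomp hf) (integral_osc hf) fun hne =>
        h3 _ _ (tauRefl_osc hf (Or.inr rfl) (by simpa using ho)) (gapH_osc hf (gmono e3 hg)) hne
      exact ⟨b1, fun he => mean_ne hf (b2 he)⟩
    · obtain ⟨b1, b2⟩ := bd_of hf (decomp hf) (integral_osc hf) fun hne => by
        refine h4 _ _ ?_ (gapH_osc hf (gmono e4 hg)) hne
        -- `‖g‖² ≤ 2 · 2π|c|²`
        have hpi : 0 < 2 * Real.pi := by positivity
        have hnorm : ‖hf.toLp f‖ ^ 2 = 2 * Real.pi * ‖mean f‖ ^ 2 + ‖osc hf‖ ^ 2 := by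
          have horth : inner ℂ (mean f • oneH) (osc hf) = 0 := by
            rw [inner_smul_left, inner_oneH, integral_osc, mul_zero]
          have := norm_add_pow_two (𝕜 := ℂ) (mean f • oneH) (osc hf)
          rw [horth, ← decomp hf] at this
          rw [this, norm_smul, mul_pow, norm_oneH]
          simp
          ring
        have hfn : ‖hf.toLp f‖ ^ 2 = ∫ θ, ‖f θ‖ ^ 2 ∂mc := by
          have h5 := @inner_self_eq_norm_sq_to_K ℂ HS _ _ _ (hf.toLp f)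
          rw [L2.inner_def] at h5
          have h6 : ∫ θ, inner ℂ ((hf.toLp f : ℝ → ℂ) θ) ((hf.toLp f : ℝ → ℂ) θ) ∂mc =
              ((∫ θ, ‖f θ‖ ^ 2 ∂mc : ℝ) : ℂ) := by
            rw [← integral_complex_ofReal]
            refine integral_congr_ae ?_
            filter_upwards [hf.coeFn_toLp] with θ hθ
            rw [hθ, inner_self_eq_norm_sq_to_K]
            push_cast
            rfl
          rw [h6] at h5
          have h7 := congrArg Complex.re h5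
          rw [Complex.ofReal_re] at h7
          rw [h7]
          norm_cast
        have hmean : ‖∫ θ, f θ ∂mc‖ ^ 2 = (2 * Real.pi) ^ 2 * ‖mean f‖ ^ 2 := by
          unfold mean
          rw [norm_div, Complex.norm_real, Real.norm_of_nonneg hpi.le]
          field_simp
        rw [← hfn, hnorm, hmean] at hm
        have : 2 * Real.pi * (2 * Real.pi * ‖mean f‖ ^ 2 + ‖osc hf‖ ^ 2) ≤
          2 * Real.pi * (3 * (2 * Real.pi * ‖mean f‖ ^ 2)) := by nlinarith [hm]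
        have := le_of_mul_le_mul_left this hpi
        linarith
      exact ⟨b1, fun he => mean_ne hf (b2 he)⟩
  · have hs := memLp_sharp hf
    obtain ⟨b1, b2⟩ := case_real h1 hs (gmono e1 hg) (Eventually.of_forall fun θ => by simp)
    have hle := J_le_sharp hf
    refine ⟨hle.trans (by unfold Bd at b1; rwa [N2_sharp hf] at b1), fun he => ?_⟩
    unfold BdEq at he
    have hE : BdEq (fun θ => (sharp f θ : ℂ)) := by
      unfold BdEq
      refine le_antisymm b1 ?_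
      rw [N2_sharp hf, ← he]
      exact hle
    obtain ⟨c, hc⟩ := b2 hE
    refine ⟨c.re, ?_⟩
    filter_upwards [hc] with θ hθ
    rw [← hθ, Complex.ofReal_re]

end Pool.Agent.Lib.MP_230119_an
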