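import Mathlib
import Pool.Agent.Lib.MP_230119_an.SG37

/-!
# Constants as extremisers for the endpoint Stein-Tomas inequality on the circle: complex-valued
functions with a spectral gap and a substantial mean
-/

set_option autoImplicit false

open MeasureTheory Set
open scoped ENNReal

namespace Pool.Agent.Results.MP_230119_an.LargeMean

/-- The Fourier extension of `f σ`, where `σ` is arc length on the unit circle and `f` is a function
of the angle `θ ∈ (0, 2π]`. -/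
noncomputable def extension (f : ℝ → ℂ) (x : ℝ × ℝ) : ℂ :=
  ∫ θ in Ioc 0 (2 * Real.pi),
    f θ * Complex.exp (-(Complex.I * (((x.1 * Real.cos θ + x.2 * Real.sin θ : ℝ)) : ℂ)))

/-- There is `N₀` such that constants maximise `‖(fσ)^‖₆ / ‖f‖₂` among all complex-valued `f ∈ L²`
without Fourier modes `n`, `1 ≤ |n| < N₀`, for which at least one third of the `L²` norm squared is
carried by the mean: `|∫ f|² ≥ (2π/3) ∫ |f|²`; among these only constants are maximisers. -/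
theorem result : ∃ N₀ : ℕ, ∀ f : ℝ → ℂ,
    MemLp f 2 (volume.restrict (Ioc 0 (2 * Real.pi))) →
    (∀ n : ℤ, n ≠ 0 → |n| < N₀ →
      ∫ θ in Ioc 0 (2 * Real.pi), f θ * Complex.exp (-(Complex.I * n * θ)) = 0) →
    2 * Real.pi * ∫ θ in Ioc 0 (2 * Real.pi), ‖f θ‖ ^ 2 ≤
      3 * ‖∫ θ in Ioc 0 (2 * Real.pi), f θ‖ ^ 2 →
    (∫⁻ x : ℝ × ℝ, ‖extension f x‖ₑ ^ 6) ≤
      (∫⁻ x : ℝ × ℝ, ‖extension (fun _ => 1) x‖ₑ ^ 6) *
        ((∫⁻ θ in Ioc 0 (2 * Real.pi), ‖f θ‖ₑ ^ 2) / ENNReal.ofReal (2 * Real.pi)) ^ 3 ∧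
    ((∫⁻ x : ℝ × ℝ, ‖extension f x‖ₑ ^ 6) =
      (∫⁻ x : ℝ × ℝ, ‖extension (fun _ => 1) x‖ₑ ^ 6) *
        ((∫⁻ θ in Ioc 0 (2 * Real.pi), ‖f θ‖ₑ ^ 2) / ENNReal.ofReal (2 * Real.pi)) ^ 3 →
      ∃ c : ℂ, ∀ᵐ θ ∂(volume.restrict (Ioc 0 (2 * Real.pi))), f θ = c) := by
  obtain ⟨N, hN⟩ := Pool.Agent.Lib.MP_230119_an.final
  exact ⟨N, fun f hf hg hm => (hN f hf).1 hg (Or.inr (Or.inr (Or.inr hm)))⟩

end Pool.Agent.Results.MP_230119_an.LargeMean
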