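import Mathlib
import Pool.Agent.Lib.MP_230119_an.SG37

/-!
# Constants as extremisers for the endpoint Stein-Tomas inequality on the circle: conditions on the
modulus only

There is an absolute `N₀` such that the conjectured sharp endpoint Stein-Tomas inequality on the
circle holds for every complex-valued square integrable `f` (no condition on its phase) whose
antipodally symmetrised modulus has no Fourier modes of degree `1, ..., N₀ - 1`.
-/

set_option autoImplicit false

open MeasureTheory Set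
open scoped ENNReal

namespace Pool.Agent.Results.MP_230119_an.ModulusGap

/-- The Fourier extension of `f σ`, where `σ` is arc length on the unit circle and `f` is a function
of the angle `θ ∈ (0, 2π]`. -/
noncomputable def extension (f : ℝ → ℂ) (x : ℝ × ℝ) : ℂ :=
  ∫ θ in Ioc 0 (2 * Real.pi),
    f θ * Complex.exp (-(Complex.I * (((x.1 * Real.cos θ + x.2 * Real.sin θ : ℝ)) : ℂ)))

/-- The antipodal map of the circle, in terms of the angle `θ ∈ (0, 2π]`. -/
noncomputable def antipode (θ : ℝ) : ℝ := if θ ≤ Real.pi then θ + Real.pi else θ - Real.pi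

/-- The antipodally symmetrised modulus `√((|f(ω)|² + |f(-ω)|²) / 2)`. -/
noncomputable def symModulus (f : ℝ → ℂ) (θ : ℝ) : ℝ :=
  Real.sqrt ((‖f θ‖ ^ 2 + ‖f (antipode θ)‖ ^ 2) / 2)

/-- There is `N₀` such that the sharp inequality with the constant of the constant functions holds
for all complex-valued `f ∈ L²` for which the Fourier coefficients of the symmetrised modulus of
order `n` vanish for `1 ≤ |n| < N₀`; equality forces the symmetrised modulus to be constant. -/
theorem result : ∃ N₀ : ℕ, ∀ f : ℝ → ℂ,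
    MemLp f 2 (volume.restrict (Ioc 0 (2 * Real.pi))) →
    (∀ n : ℤ, n ≠ 0 → |n| < N₀ → ∫ θ in Ioc 0 (2 * Real.pi),
      (symModulus f θ : ℂ) * Complex.exp (-(Complex.I * n * θ)) = 0) →
    (∫⁻ x : ℝ × ℝ, ‖extension f x‖ₑ ^ 6) ≤
      (∫⁻ x : ℝ × ℝ, ‖extension (fun _ => 1) x‖ₑ ^ 6) *
        ((∫⁻ θ in Ioc 0 (2 * Real.pi), ‖f θ‖ₑ ^ 2) / ENNReal.ofReal (2 * Real.pi)) ^ 3 ∧
    ((∫⁻ x : ℝ × ℝ, ‖extension f x‖ₑ ^ 6) =
      (∫⁻ x : ℝ × ℝ, ‖extension (fun _ => 1) x‖ₑ ^ 6) *
        ((∫⁻ θ in Ioc 0 (2 * Real.pi), ‖f θ‖ₑ ^ 2) / ENNReal.ofReal (2 * Real.pi)) ^ 3 →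
      ∃ c : ℝ, ∀ᵐ θ ∂(volume.restrict (Ioc 0 (2 * Real.pi))), symModulus f θ = c) := by
  obtain ⟨N, hN⟩ := Pool.Agent.Lib.MP_230119_an.final
  exact ⟨N, fun f hf hg => (hN f hf).2 hg⟩

end Pool.Agent.Results.MP_230119_an.ModulusGap
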