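import Mathlib
import Pool.Agent.Lib.MP_230119_an.SG37

/-!
# Constants as extremisers for the endpoint Stein-Tomas inequality on the circle: spectral gap

There is an absolute `N₀` such that the conjectured sharp endpoint Stein-Tomas inequality on the
circle holds for every square integrable `f` which is real-valued up to a constant factor, or even,
or odd, and has no Fourier modes of degree `1, ..., N₀ - 1`; equality holds only for constants.
-/

set_option autoImplicit false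

open MeasureTheory Set
open scoped ENNReal

namespace Pool.Agent.Results.MP_230119_an.SpectralGap

/-- The Fourier extension of `f σ`, where `σ` is arc length on the unit circle and `f` is a function
of the angle `θ ∈ (0, 2π]`. -/
noncomputable def extension (f : ℝ → ℂ) (x : ℝ × ℝ) : ℂ :=
  ∫ θ in Ioc 0 (2 * Real.pi),
    f θ * Complex.exp (-(Complex.I * (((x.1 * Real.cos θ + x.2 * Real.sin θ : ℝ)) : ℂ)))

/-- `f` has no Fourier modes `n` with `1 ≤ |n| < N`. -/
def HasGap (N : ℕ) (f : ℝ → ℂ) : Prop :=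
  ∀ n : ℤ, n ≠ 0 → |n| < N →
    ∫ θ in Ioc 0 (2 * Real.pi), f θ * Complex.exp (-(Complex.I * n * θ)) = 0

/-- The antipodal map of the circle, in terms of the angle `θ ∈ (0, 2π]`. -/
noncomputable def antipode (θ : ℝ) : ℝ := if θ ≤ Real.pi then θ + Real.pi else θ - Real.pi

/-- There is `N₀` such that constants maximise the ratio `‖(fσ)^‖₆ / ‖f‖₂` among all square
integrable `f` on the circle which are real-valued up to a constant factor, or even, or odd, and
have no Fourier modes `n` with `1 ≤ |n| < N₀`; among these only constants are maximisers. -/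
theorem result : ∃ N₀ : ℕ, ∀ f : ℝ → ℂ,
    MemLp f 2 (volume.restrict (Ioc 0 (2 * Real.pi))) → HasGap N₀ f →
    ((∃ ζ : ℂ, ζ ≠ 0 ∧ ∀ᵐ θ ∂(volume.restrict (Ioc 0 (2 * Real.pi))), (ζ * f θ).im = 0) ∨
      (∀ᵐ θ ∂(volume.restrict (Ioc 0 (2 * Real.pi))), f (antipode θ) = f θ) ∨
      (∀ᵐ θ ∂(volume.restrict (Ioc 0 (2 * Real.pi))), f (antipode θ) = -f θ)) →
    (∫⁻ x : ℝ × ℝ, ‖extension f x‖ₑ ^ 6) ≤
      (∫⁻ x : ℝ × ℝ, ‖extension (fun _ => 1) x‖ₑ ^ 6) *
        ((∫⁻ θ in Ioc 0 (2 * Real.pi), ‖f θ‖ₑ ^ 2) / ENNReal.ofReal (2 * Real.pi)) ^ 3 ∧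
    ((∫⁻ x : ℝ × ℝ, ‖extension f x‖ₑ ^ 6) =
      (∫⁻ x : ℝ × ℝ, ‖extension (fun _ => 1) x‖ₑ ^ 6) *
        ((∫⁻ θ in Ioc 0 (2 * Real.pi), ‖f θ‖ₑ ^ 2) / ENNReal.ofReal (2 * Real.pi)) ^ 3 →
      ∃ c : ℂ, ∀ᵐ θ ∂(volume.restrict (Ioc 0 (2 * Real.pi))), f θ = c) := by
  obtain ⟨N, hN⟩ := Pool.Agent.Lib.MP_230119_an.final
  refine ⟨N, fun f hf hg hc => ?_⟩
  refine (hN f hf).1 hg ?_
  rcases hc with h | h | h
  · exact Or.inl h
  · exact Or.inr (Or.inl h)
  · exact Or.inr (Or.inr (Or.inl h))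

end Pool.Agent.Results.MP_230119_an.SpectralGap
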