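import Mathlib

/-!
# Definitions for the spectral gap theorem for the endpoint Stein-Tomas inequality on the circle
-/

set_option autoImplicit false

open MeasureTheory Set Filter Topology
open scoped ENNReal

namespace Pool.Agent.Lib.MP_230119_an

/-- The unit vector with angle `θ`. -/
noncomputable def om (θ : ℝ) : ℝ × ℝ := (Real.cos θ, Real.sin θ)

/-- The squared Euclidean length (the norm of `ℝ × ℝ` is the sup norm). -/
def sq (v : ℝ × ℝ) : ℝ := v.1 ^ 2 + v.2 ^ 2

/-- The Euclidean inner product. -/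
def dt (x v : ℝ × ℝ) : ℝ := x.1 * v.1 + x.2 * v.2

/-- The character `e^{-i x·v}`. -/
noncomputable def ph (x v : ℝ × ℝ) : ℂ := Complex.exp (-(Complex.I * ((dt x v : ℝ) : ℂ)))

/-- Arc length on the circle, parametrised by `(0, 2π]`. -/
noncomputable def mc : Measure ℝ := volume.restrict (Ioc 0 (2 * Real.pi))

/-- The general transform `∫ H(y) e^{-i x·Φ(y)} dν(y)`. -/
noncomputable def tr {α : Type*} [MeasurableSpace α] (ν : Measure α) (Φ : α → ℝ × ℝ)
    (H : α → ℂ) (x : ℝ × ℝ) : ℂ := ∫ y, H y * ph x (Φ y) ∂ν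

/-- The Fourier extension of `f`. -/
noncomputable def ex (f : ℝ → ℂ) (x : ℝ × ℝ) : ℂ := tr mc om f x

/-- The Gaussian kernel `R² e^{-R²|v|²/2}` (total mass `2π`). -/
noncomputable def gk (R : ℝ) (v : ℝ × ℝ) : ℝ := R ^ 2 * Real.exp (-(R ^ 2 * sq v / 2))

/-- The Gaussian weight `e^{-|x|²/(2R²)}`. -/
noncomputable def gw (R : ℝ) (x : ℝ × ℝ) : ℝ := Real.exp (-(sq x / (2 * R ^ 2)))

/-- The sixth power of the `L⁶` norm of the extension. -/
noncomputable def J (f : ℝ → ℂ) : ℝ≥0∞ := ∫⁻ x, ‖ex f x‖ₑ ^ 6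

/-- The squared `L²` norm. -/
noncomputable def N2 (f : ℝ → ℂ) : ℝ≥0∞ := ∫⁻ θ, ‖f θ‖ₑ ^ 2 ∂mc

/-- The antipodal map of `(0, 2π]`. -/
noncomputable def ap (θ : ℝ) : ℝ := if θ ≤ Real.pi then θ + Real.pi else θ - Real.pi

/-- The density of the two-fold convolution of arc length. -/
noncomputable def kap (Z : ℝ × ℝ) : ℝ≥0∞ :=
  if sq Z < 4 then ENNReal.ofReal (4 / Real.sqrt (sq Z * (4 - sq Z))) else 0

/-- The six-linear form. -/
noncomputable def L6 (R : ℝ) (u : Fin 6 → ℝ → ℝ≥0∞) : ℝ≥0∞ :=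
  ∫⁻ θ : Fin 6 → ℝ, (∏ i, u i (θ i)) * ENNReal.ofReal (gk R (∑ i, om (θ i)))
    ∂(Measure.pi fun _ => mc)

/-- The threshold `K* = (2π)² 5π/√3`. -/
noncomputable def Kst : ℝ := (2 * Real.pi) ^ 2 * (5 * Real.pi / Real.sqrt 3)

/-- The maximum `16π/√3` of `(|Y|²-1) σ*σ*σ(Y)`. -/
noncomputable def pm : ℝ := 16 * Real.pi / Real.sqrt 3

/-! ### Basic facts -/

lemma pm_pos : 0 < pm := by unfold pm; positivity

lemma Kst_pos : 0 < Kst := by unfold Kst; positivity

@[fun_prop]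
lemma continuous_om : Continuous om := by unfold om; fun_prop

@[fun_prop]
lemma continuous_sq : Continuous sq := by unfold sq; fun_prop

lemma continuous_dt : Continuous fun p : (ℝ × ℝ) × (ℝ × ℝ) => dt p.1 p.2 := by
  unfold dt; fun_prop

lemma continuous_ph : Continuous fun p : (ℝ × ℝ) × (ℝ × ℝ) => ph p.1 p.2 := by
  unfold ph
  have := continuous_dt
  fun_prop

lemma continuous_ph_right (x : ℝ × ℝ) : Continuous fun v => ph x v :=
  continuous_ph.comp (continuous_const.prodMk continuous_id)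

lemma continuous_ph_left (v : ℝ × ℝ) : Continuous fun x => ph x v :=
  continuous_ph.comp (continuous_id.prodMk continuous_const)

lemma norm_ph (x v : ℝ × ℝ) : ‖ph x v‖ = 1 := by
  unfold ph
  rw [← mul_neg, mul_comm, ← Complex.ofReal_neg]
  exact Complex.norm_exp_ofReal_mul_I _

lemma ph_add_right (x v w : ℝ × ℝ) : ph x (v + w) = ph x v * ph x w := by
  unfold ph
  rw [← Complex.exp_add]
  congr 1
  simp only [dt, Prod.fst_add, Prod.snd_add]
  push_cast
  ring

lemma ph_add_left (x y v : ℝ × ℝ) : ph (x + y) v = ph x v * ph y v := by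
  unfold ph
  rw [← Complex.exp_add]
  congr 1
  simp only [dt, Prod.fst_add, Prod.snd_add]
  push_cast
  ring

lemma ph_zero_left (v : ℝ × ℝ) : ph 0 v = 1 := by
  simp [ph, dt]

lemma ph_neg_right (x v : ℝ × ℝ) : ph x (-v) = (starRingEnd ℂ) (ph x v) := by
  unfold ph
  rw [← Complex.exp_conj]
  congr 1
  simp only [dt, Prod.fst_neg, Prod.snd_neg, map_neg, map_mul, Complex.conj_I, Complex.conj_ofReal]
  push_cast
  ring

lemma ph_neg_left (x v : ℝ × ℝ) : ph (-x) v = (starRingEnd ℂ) (ph x v) := by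
  unfold ph
  rw [← Complex.exp_conj]
  congr 1
  simp only [dt, Prod.fst_neg, Prod.snd_neg, map_neg, map_mul, Complex.conj_I, Complex.conj_ofReal]
  push_cast
  ring

lemma sq_nonneg' (v : ℝ × ℝ) : 0 ≤ sq v := by unfold sq; positivity

lemma sq_neg (v : ℝ × ℝ) : sq (-v) = sq v := by simp [sq]

lemma sq_om (θ : ℝ) : sq (om θ) = 1 := by
  simp [sq, om, Real.cos_sq_add_sin_sq]

lemma gk_nonneg (R : ℝ) (v : ℝ × ℝ) : 0 ≤ gk R v := by unfold gk; positivity

lemma gk_neg (R : ℝ) (v : ℝ × ℝ) : gk R (-v) = gk R v := by simp [gk, sq_neg]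

lemma gw_pos (R : ℝ) (v : ℝ × ℝ) : 0 < gw R v := by unfold gw; positivity

lemma continuous_gk (R : ℝ) : Continuous (gk R) := by unfold gk; fun_prop

lemma continuous_gw (R : ℝ) : Continuous (gw R) := by unfold gw; fun_prop

instance : IsFiniteMeasure mc := by unfold mc; infer_instance

lemma om_ap {θ : ℝ} : om (ap θ) = - om θ := by
  unfold ap om
  split_ifs <;> simp [Real.cos_add_pi, Real.sin_add_pi, Real.cos_sub_pi, Real.sin_sub_pi]

/-- The definition of `ex` as in the frozen statement. -/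
lemma ex_eq (f : ℝ → ℂ) (x : ℝ × ℝ) : ex f x = ∫ θ in Ioc 0 (2 * Real.pi),
    f θ * Complex.exp (-(Complex.I * (((x.1 * Real.cos θ + x.2 * Real.sin θ : ℝ)) : ℂ))) := rfl

lemma integrable_of_memLp {f : ℝ → ℂ} (hf : MemLp f 2 mc) : Integrable f mc :=
  hf.integrable (by norm_num)

lemma ex_congr {f g : ℝ → ℂ} (h : f =ᵐ[mc] g) (x : ℝ × ℝ) : ex f x = ex g x := by
  unfold ex tr
  refine integral_congr_ae ?_
  filter_upwards [h] with θ hθ
  rw [hθ]

lemma integrable_tr {α : Type*} [MeasurableSpace α] {ν : Measure α} {Φ : α → ℝ × ℝ}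
    (hΦ : Measurable Φ) {H : α → ℂ} (hH : Integrable H ν) (x : ℝ × ℝ) :
    Integrable (fun y => H y * ph x (Φ y)) ν := by
  refine hH.mul_bdd (c := 1) ?_ (Eventually.of_forall fun y => (norm_ph _ _).le)
  exact ((continuous_ph_right x).measurable.comp hΦ).aestronglyMeasurable

lemma norm_tr_le {α : Type*} [MeasurableSpace α] {ν : Measure α} {Φ : α → ℝ × ℝ}
    {H : α → ℂ} (x : ℝ × ℝ) : ‖tr ν Φ H x‖ ≤ ∫ y, ‖H y‖ ∂ν := by
  unfold tr
  refine (norm_integral_le_integral_norm _).trans (le_of_eq ?_)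
  simp only [norm_mul, norm_ph, mul_one]

lemma continuous_tr {α : Type*} [MeasurableSpace α] {ν : Measure α} {Φ : α → ℝ × ℝ}
    (hΦ : Measurable Φ) {H : α → ℂ} (hH : Integrable H ν) : Continuous (tr ν Φ H) := by
  unfold tr
  refine continuous_of_dominated (bound := fun y => ‖H y‖)
    (fun x => (integrable_tr hΦ hH x).aestronglyMeasurable) (fun x => Eventually.of_forall fun y => ?_)
    hH.norm (Eventually.of_forall fun y => ?_)
  · rw [norm_mul, norm_ph, mul_one]
  · exact continuous_const.mul (continuous_ph_left _)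

lemma continuous_ex {f : ℝ → ℂ} (hf : Integrable f mc) : Continuous (ex f) :=
  continuous_tr continuous_om.measurable hf

lemma ex_add {f g : ℝ → ℂ} (hf : Integrable f mc) (hg : Integrable g mc) (x : ℝ × ℝ) :
    ex (f + g) x = ex f x + ex g x := by
  unfold ex tr
  rw [← integral_add (integrable_tr continuous_om.measurable hf x)
    (integrable_tr continuous_om.measurable hg x)]
  refine integral_congr_ae (Eventually.of_forall fun y => ?_)
  simp only [Pi.add_apply]
  ring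

lemma ex_smul (c : ℂ) (f : ℝ → ℂ) (x : ℝ × ℝ) : ex (c • f) x = c * ex f x := by
  unfold ex tr
  rw [← integral_const_mul]
  refine integral_congr_ae (Eventually.of_forall fun y => ?_)
  simp only [Pi.smul_apply, smul_eq_mul]
  ring

lemma ex_sum {ι : Type*} (s : Finset ι) (f : ι → ℝ → ℂ) (hf : ∀ i ∈ s, Integrable (f i) mc)
    (x : ℝ × ℝ) : ex (fun θ => ∑ i ∈ s, f i θ) x = ∑ i ∈ s, ex (f i) x := by
  unfold ex tr
  rw [← integral_finsetSum s fun i hi => integrable_tr continuous_om.measurable (hf i hi) x]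
  refine integral_congr_ae (Eventually.of_forall fun y => ?_)
  simp only [Finset.sum_mul]

lemma N2_ne_top {f : ℝ → ℂ} (hf : MemLp f 2 mc) : N2 f ≠ ∞ := by
  have h := hf.eLpNorm_ne_top
  unfold N2
  have h2 : eLpNorm f 2 mc ^ (2 : ℝ) = ∫⁻ θ, ‖f θ‖ₑ ^ (2 : ℝ) ∂mc := by
    rw [eLpNorm_eq_lintegral_rpow_enorm_toReal (by norm_num) (by norm_num)]
    rw [← ENNReal.rpow_mul]
    norm_num
  have h3 : ∫⁻ θ, ‖f θ‖ₑ ^ 2 ∂mc = eLpNorm f 2 mc ^ (2 : ℝ) := by
    rw [h2]
    refine lintegral_congr fun θ => ?_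
    norm_cast
  rw [h3]
  exact ENNReal.rpow_ne_top_of_nonneg (by norm_num) h

end Pool.Agent.Lib.MP_230119_an
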