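import Pool.Agent.Lib.MP_230119_an.Mg.G010
import Pool.Agent.Lib.MP_230119_an.Mg.G013

/-!
# Polar coordinates and periodic integrals
-/

set_option autoImplicit false

open MeasureTheory Set Filter Topology
open scoped ENNReal

namespace Pool.Agent.Lib.MP_230119_an

theorem mc_eq (F : ℝ → ℝ) : ∫ t, F t ∂mc = ∫ t in (0 : ℝ)..(2 * Real.pi), F t := by
  rw [intervalIntegral.integral_of_le (by positivity)]
  rfl

theorem mc_shift {F : ℝ → ℝ} (hF : Function.Periodic F (2 * Real.pi)) (a : ℝ) :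
    ∫ t, F (t + a) ∂mc = ∫ t, F t ∂mc := by
  rw [mc_eq, mc_eq, intervalIntegral.integral_comp_add_right F a]
  have h := hF.intervalIntegral_add_eq a 0
  rw [zero_add] at h
  rw [zero_add, ← h, add_comm a]

theorem mc_eq_sym {F : ℝ → ℝ} (hF : Function.Periodic F (2 * Real.pi)) :
    ∫ t in Ioo (-Real.pi) Real.pi, F t = ∫ t, F t ∂mc := by
  have hpi := Real.pi_pos
  rw [mc_eq, ← integral_Ioc_eq_integral_Ioo, ← intervalIntegral.integral_of_le (by linarith)]
  have h := hF.intervalIntegral_add_eq (-Real.pi) 0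
  rw [zero_add] at h
  rw [← h]
  congr 1
  ring

theorem sq_polar (s t : ℝ) : sq (s * Real.cos t, s * Real.sin t) = s ^ 2 := by
  unfold sq
  have h := Real.cos_sq_add_sin_sq t
  calc (s * Real.cos t) ^ 2 + (s * Real.sin t) ^ 2
      = s ^ 2 * (Real.cos t ^ 2 + Real.sin t ^ 2) := by ring
    _ = s ^ 2 := by rw [h, mul_one]

theorem int_sq_sub {g : ℝ → ℝ} (hg : IntegrableOn g (Ioi 0)) :
    IntegrableOn (fun s : ℝ => s * g (s ^ 2)) (Ioi 0) := by
  have h := (integrableOn_Ioi_comp_rpow_iff' g (p := 2) (by norm_num)).2 hg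
  refine h.congr_fun (fun s hs => ?_) measurableSet_Ioi
  simp only [smul_eq_mul]
  rw [show (2 : ℝ) - 1 = 1 by norm_num, Real.rpow_one, Real.rpow_two]

theorem planar_integrable {g : ℝ → ℝ} (hg : IntegrableOn g (Ioi 0)) (hgm : Measurable g) :
    Integrable fun w : ℝ × ℝ => g (sq w) := by
  refine ⟨(hgm.comp continuous_sq.measurable).aestronglyMeasurable, ?_⟩
  unfold HasFiniteIntegral
  rw [← lintegral_comp_polarCoord_symm]
  have e : ∀ p : ℝ × ℝ, ENNReal.ofReal p.1 • ‖g (sq (polarCoord.symm p))‖ₑ =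
      (fun s : ℝ => ENNReal.ofReal s * ‖g (s ^ 2)‖ₑ) p.1 * (fun _ : ℝ => (1 : ℝ≥0∞)) p.2 := by
    intro p
    rw [polarCoord_symm_apply, sq_polar]
    simp
  simp only [e]
  rw [polarCoord_target, Measure.volume_eq_prod, ← Measure.prod_restrict]
  have hm : Measurable fun s : ℝ => ENNReal.ofReal s * ‖g (s ^ 2)‖ₑ := by fun_prop
  rw [lintegral_prod_mul (f := fun s : ℝ => ENNReal.ofReal s * ‖g (s ^ 2)‖ₑ)
    (g := fun _ : ℝ => (1 : ℝ≥0∞)) hm.aemeasurable aemeasurable_const]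
  refine ENNReal.mul_lt_top ?_ ?_
  · have h := (int_sq_sub hg).hasFiniteIntegral
    unfold HasFiniteIntegral at h
    refine lt_of_le_of_lt (le_of_eq ?_) h
    refine setLIntegral_congr_fun measurableSet_Ioi fun s hs => ?_
    simp only
    rw [enorm_mul]
    congr 1
    rw [← ofReal_norm, Real.norm_of_nonneg (le_of_lt hs)]
  · simp

theorem planar_polar {φ : ℝ × ℝ → ℝ} (hφ : Continuous φ) {C : ℝ} (hC : ∀ w, |φ w| ≤ C)
    {g : ℝ → ℝ} (hg : IntegrableOn g (Ioi 0)) :
    ∫ w : ℝ × ℝ, φ w * g (sq w) = 1 / 2 * ∫ y in Ioi (0 : ℝ),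
      (∫ t, φ (Real.sqrt y * Real.cos t, Real.sqrt y * Real.sin t) ∂mc) * g y := by
  rw [← integral_comp_polarCoord_symm]
  have e : ∀ p : ℝ × ℝ, p.1 • (φ (polarCoord.symm p) * g (sq (polarCoord.symm p))) =
      (p.1 * g (p.1 ^ 2) * 1) * φ (p.1 * Real.cos p.2, p.1 * Real.sin p.2) := by
    intro p
    rw [polarCoord_symm_apply, sq_polar, smul_eq_mul]
    ring
  simp only [e]
  rw [polarCoord_target, Measure.volume_eq_prod, ← Measure.prod_restrict]
  have hint : Integrable (fun p : ℝ × ℝ => (p.1 * g (p.1 ^ 2) * 1) *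
      φ (p.1 * Real.cos p.2, p.1 * Real.sin p.2))
      ((volume.restrict (Ioi (0 : ℝ))).prod (volume.restrict (Ioo (-Real.pi) Real.pi))) := by
    refine Integrable.mul_bdd (c := C) ?_ ?_ ?_
    · exact (int_sq_sub hg).mul_prod (integrable_const (1 : ℝ))
    · have : Continuous fun p : ℝ × ℝ => φ (p.1 * Real.cos p.2, p.1 * Real.sin p.2) :=
        hφ.comp (by fun_prop)
      exact this.aestronglyMeasurable
    · exact Eventually.of_forall fun p => hC _
  rw [integral_prod _ hint]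
  have h1 : ∀ s : ℝ, ∫ t in Ioo (-Real.pi) Real.pi, s * g (s ^ 2) * 1 *
      φ (s * Real.cos t, s * Real.sin t) =
      s * g (s ^ 2) * ∫ t, φ (s * Real.cos t, s * Real.sin t) ∂mc := by
    intro s
    rw [integral_const_mul, mul_one]
    congr 1
    refine mc_eq_sym fun t => ?_
    rw [Real.cos_add_two_pi, Real.sin_add_two_pi]
  simp only [h1]
  have h2 := integral_comp_rpow_Ioi_of_pos (p := 2) (by norm_num)
    (g := fun y : ℝ => (∫ t, φ (Real.sqrt y * Real.cos t, Real.sqrt y * Real.sin t) ∂mc) * g y)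
  rw [← h2, ← integral_const_mul]
  refine setIntegral_congr_fun measurableSet_Ioi fun s hs => ?_
  have hs' : (0 : ℝ) ≤ s := le_of_lt hs
  simp only [smul_eq_mul]
  rw [show (2 : ℝ) - 1 = 1 by norm_num, Real.rpow_one, Real.rpow_two, Real.sqrt_sq hs']
  ring

end Pool.Agent.Lib.MP_230119_an
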