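import Pool.Agent.Lib.MP_230119_an.ST04a

/-!
# The planar law of the sum of three unit vectors
-/

set_option autoImplicit false

open MeasureTheory Set Filter Topology
open scoped ENNReal

namespace Pool.Agent.Lib.MP_230119_an

theorem m3_eq : m3 = volume.restrict (Ioc 0 (2 * Real.pi) ×ˢ (Ioc 0 (2 * Real.pi) ×ˢ
    Ioc 0 (2 * Real.pi))) := by
  unfold m3 mc
  rw [Measure.prod_restrict, Measure.prod_restrict, Measure.volume_eq_prod, Measure.volume_eq_prod]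

theorem m3_ae_cube : ∀ᵐ p ∂m3, p ∈ Icc (0 : ℝ) (2 * Real.pi) ×ˢ (Icc (0 : ℝ) (2 * Real.pi) ×ˢ
    Icc (0 : ℝ) (2 * Real.pi)) := by
  rw [m3_eq]
  filter_upwards [ae_restrict_mem (μ := volume) (measurableSet_Ioc.prod
    (measurableSet_Ioc.prod measurableSet_Ioc))] with p hp
  exact ⟨Ioc_subset_Icc_self hp.1, Ioc_subset_Icc_self hp.2.1, Ioc_subset_Icc_self hp.2.2⟩

theorem m3_integrable {F : ℝ × ℝ × ℝ → ℝ} (hF : Continuous F) : Integrable F m3 := by
  have hK : IsCompact (Icc (0 : ℝ) (2 * Real.pi) ×ˢ (Icc (0 : ℝ) (2 * Real.pi) ×ˢ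
    Icc (0 : ℝ) (2 * Real.pi))) := isCompact_Icc.prod (isCompact_Icc.prod isCompact_Icc)
  obtain ⟨C, hC⟩ := hK.exists_bound_of_continuousOn hF.continuousOn
  refine Integrable.of_bound hF.aestronglyMeasurable C ?_
  filter_upwards [m3_ae_cube] with p hp
  exact hC p hp

theorem m2_integrable {F : ℝ × ℝ → ℝ} (hF : Continuous F) : Integrable F (mc.prod mc) := by
  have hK : IsCompact (Icc (0 : ℝ) (2 * Real.pi) ×ˢ Icc (0 : ℝ) (2 * Real.pi)) :=
    isCompact_Icc.prod isCompact_Icc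
  obtain ⟨C, hC⟩ := hK.exists_bound_of_continuousOn hF.continuousOn
  refine Integrable.of_bound hF.aestronglyMeasurable C ?_
  have e : mc.prod mc = volume.restrict (Ioc 0 (2 * Real.pi) ×ˢ Ioc 0 (2 * Real.pi)) := by
    unfold mc
    rw [Measure.prod_restrict, Measure.volume_eq_prod]
  rw [e]
  filter_upwards [ae_restrict_mem (μ := volume) (measurableSet_Ioc.prod measurableSet_Ioc)] with p hp
  exact hC p ⟨Ioc_subset_Icc_self hp.1, Ioc_subset_Icc_self hp.2⟩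

theorem m4_integrable {F : ℝ × (ℝ × ℝ × ℝ) → ℝ} (hF : Continuous F) :
    Integrable F (mc.prod m3) := by
  have hK : IsCompact (Icc (0 : ℝ) (2 * Real.pi) ×ˢ (Icc (0 : ℝ) (2 * Real.pi) ×ˢ
    (Icc (0 : ℝ) (2 * Real.pi) ×ˢ Icc (0 : ℝ) (2 * Real.pi)))) :=
    isCompact_Icc.prod (isCompact_Icc.prod (isCompact_Icc.prod isCompact_Icc))
  obtain ⟨C, hC⟩ := hK.exists_bound_of_continuousOn hF.continuousOn
  refine Integrable.of_bound hF.aestronglyMeasurable C ?_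
  have e : mc.prod m3 = volume.restrict (Ioc 0 (2 * Real.pi) ×ˢ (Ioc 0 (2 * Real.pi) ×ˢ
      (Ioc 0 (2 * Real.pi) ×ˢ Ioc 0 (2 * Real.pi)))) := by
    rw [m3_eq]
    unfold mc
    rw [Measure.prod_restrict]
    rfl
  rw [e]
  filter_upwards [ae_restrict_mem (μ := volume) (measurableSet_Ioc.prod (measurableSet_Ioc.prod
    (measurableSet_Ioc.prod measurableSet_Ioc)))] with p hp
  exact hC p ⟨Ioc_subset_Icc_self hp.1, Ioc_subset_Icc_self hp.2.1, Ioc_subset_Icc_self hp.2.2.1,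
    Ioc_subset_Icc_self hp.2.2.2⟩

theorem m3_iter {F : ℝ × ℝ × ℝ → ℝ} (hF : Continuous F) :
    ∫ p, F p ∂m3 = ∫ a, ∫ b, ∫ c, F (a, b, c) ∂mc ∂mc ∂mc := by
  unfold m3
  rw [integral_prod _ (by have := m3_integrable hF; unfold m3 at this; exact this)]
  refine integral_congr_ae (Eventually.of_forall fun a => ?_)
  simp only
  rw [integral_prod _ (m2_integrable (F := fun q => F (a, q)) (by fun_prop))]

/-- rotation invariance -/
theorem m3_shift {F : ℝ × ℝ × ℝ → ℝ} (hF : Continuous F)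
    (h1 : ∀ a b c, F (a + 2 * Real.pi, b, c) = F (a, b, c))
    (h2 : ∀ a b c, F (a, b + 2 * Real.pi, c) = F (a, b, c))
    (h3 : ∀ a b c, F (a, b, c + 2 * Real.pi) = F (a, b, c)) (t : ℝ) :
    ∫ p : ℝ × ℝ × ℝ, F (p.1 + t, p.2.1 + t, p.2.2 + t) ∂m3 = ∫ p, F p ∂m3 := by
  rw [m3_iter (F := fun p : ℝ × ℝ × ℝ => F (p.1 + t, p.2.1 + t, p.2.2 + t)) (by fun_prop),
    m3_iter hF]
  simp only
  have e3 : ∀ a b, ∫ c, F (a, b, c + t) ∂mc = ∫ c, F (a, b, c) ∂mc := fun a b =>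
    mc_shift (F := fun c => F (a, b, c)) (fun c => h3 a b c) t
  have e2 : ∀ a, ∫ b, ∫ c, F (a, b + t, c) ∂mc ∂mc = ∫ b, ∫ c, F (a, b, c) ∂mc ∂mc := fun a =>
    mc_shift (F := fun b => ∫ c, F (a, b, c) ∂mc) (fun b => by simp only [h2]) t
  have e1 : ∫ a, ∫ b, ∫ c, F (a + t, b, c) ∂mc ∂mc ∂mc = ∫ a, ∫ b, ∫ c, F (a, b, c) ∂mc ∂mc ∂mc :=
    mc_shift (F := fun a => ∫ b, ∫ c, F (a, b, c) ∂mc ∂mc) (fun a => by simp only [h1]) t
  simp only [e3, e2, e1]

/-- the sum of three unit vectors -/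
noncomputable def SS (p : ℝ × ℝ × ℝ) : ℝ × ℝ := om p.1 + om p.2.1 + om p.2.2

@[fun_prop]
theorem continuous_SS : Continuous SS := by
  unfold SS
  have := continuous_om
  fun_prop

theorem sq_SS (p : ℝ × ℝ × ℝ) : sq (SS p) = 1 + rho p.1 p.2.1 p.2.2 := sq_three _ _ _

theorem SS_shift (p : ℝ × ℝ × ℝ) : ∃ α : ℝ, ∀ t : ℝ,
    SS (p.1 + t, p.2.1 + t, p.2.2 + t) =
      (Real.sqrt (1 + rho p.1 p.2.1 p.2.2) * Real.cos (t + α),
        Real.sqrt (1 + rho p.1 p.2.1 p.2.2) * Real.sin (t + α)) := by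
  obtain ⟨z, hz⟩ : ∃ z : ℂ, z = ⟨(SS p).1, (SS p).2⟩ := ⟨_, rfl⟩
  refine ⟨Complex.arg z, fun t => ?_⟩
  have hn : ‖z‖ = Real.sqrt (1 + rho p.1 p.2.1 p.2.2) := by
    rw [← sq_SS, Complex.norm_eq_sqrt_sq_add_sq, hz]
    rfl
  have h1 := Complex.norm_mul_cos_arg z
  have h2 := Complex.norm_mul_sin_arg z
  rw [hn] at h1 h2
  have e1 : z.re = Real.cos p.1 + Real.cos p.2.1 + Real.cos p.2.2 := by
    rw [hz]; rfl
  have e2 : z.im = Real.sin p.1 + Real.sin p.2.1 + Real.sin p.2.2 := by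
    rw [hz]; rfl
  rw [e1] at h1
  rw [e2] at h2
  refine Prod.ext ?_ ?_
  · simp only [SS, om, Prod.fst_add, Real.cos_add]
    linear_combination (-Real.cos t) * h1 + Real.sin t * h2
  · simp only [SS, om, Prod.snd_add, Real.sin_add]
    linear_combination (-Real.cos t) * h2 - Real.sin t * h1

theorem SS_avg {φ : ℝ × ℝ → ℝ} (p : ℝ × ℝ × ℝ) :
    ∫ t, φ (SS (p.1 + t, p.2.1 + t, p.2.2 + t)) ∂mc =
      ∫ t, φ (Real.sqrt (1 + rho p.1 p.2.1 p.2.2) * Real.cos t,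
        Real.sqrt (1 + rho p.1 p.2.1 p.2.2) * Real.sin t) ∂mc := by
  obtain ⟨α, hα⟩ := SS_shift p
  simp only [hα]
  exact mc_shift (F := fun t => φ (Real.sqrt (1 + rho p.1 p.2.1 p.2.2) * Real.cos t,
        Real.sqrt (1 + rho p.1 p.2.1 p.2.2) * Real.sin t))
    (fun t => by simp only [Real.cos_add_two_pi, Real.sin_add_two_pi]) α

/-- the extension of the density in the variable `y = x + 1` -/
noncomputable def gx (g : ℝ → ℝ) (y : ℝ) : ℝ := if y ≤ 9 then g (y - 1) else 0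

theorem measurable_gx {g : ℝ → ℝ} (hg : Measurable g) : Measurable (gx g) := by
  unfold gx
  exact Measurable.ite measurableSet_Iic (by fun_prop) (by fun_prop)

theorem gx_shift {g : ℝ → ℝ} (F : ℝ → ℝ) :
    ∫ y in Ioi (0 : ℝ), F (y - 1) * gx g y = ∫ x in Icc (-1 : ℝ) 8, F x * g x := by
  rw [integral_Icc_eq_integral_Ioc, ← intervalIntegral.integral_of_le (by norm_num)]
  have h := intervalIntegral.integral_comp_sub_right (a := 0) (b := 9) (fun x => F x * g x) 1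
  rw [show (0 : ℝ) - 1 = -1 by norm_num, show (9 : ℝ) - 1 = 8 by norm_num] at h
  rw [← h, intervalIntegral.integral_of_le (by norm_num)]
  have e : ∀ y : ℝ, F (y - 1) * gx g y = (Iic (9 : ℝ)).indicator (fun y => F (y - 1) * g (y - 1)) y := by
    intro y
    unfold gx
    by_cases hy : y ≤ 9
    · rw [if_pos hy, indicator_of_mem (by exact hy)]
    · rw [if_neg hy, indicator_of_notMem (by exact hy), mul_zero]
  simp only [e]
  rw [setIntegral_indicator measurableSet_Iic]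
  rfl

theorem integrable_gx {g : ℝ → ℝ} (hg : IntegrableOn g (Icc (-1 : ℝ) 8)) :
    IntegrableOn (gx g) (Ioi 0) := by
  have h1 : IntervalIntegrable g volume (-1) 8 := by
    rw [intervalIntegrable_iff_integrableOn_Ioc_of_le (by norm_num)]
    exact hg.mono_set Ioc_subset_Icc_self
  have h2 := h1.comp_sub_right 1
  rw [show (-1 : ℝ) + 1 = 0 by norm_num, show (8 : ℝ) + 1 = 9 by norm_num,
    intervalIntegrable_iff_integrableOn_Ioc_of_le (by norm_num)] at h2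
  have e : gx g = (Iic (9 : ℝ)).indicator (fun y => g (y - 1)) := by
    funext y
    unfold gx
    by_cases hy : y ≤ 9
    · rw [if_pos hy, indicator_of_mem (by exact hy)]
    · rw [if_neg hy, indicator_of_notMem (by exact hy)]
  rw [e]
  unfold IntegrableOn
  rw [integrable_indicator_iff measurableSet_Iic]
  unfold IntegrableOn
  rw [Measure.restrict_restrict measurableSet_Iic, inter_comm]
  exact h2

/-- the planar law -/
theorem law_planar {D : ℝ × ℝ × ℝ → ℝ} (hD : Continuous D)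
    (h1 : ∀ a b c, D (a + 2 * Real.pi, b, c) = D (a, b, c))
    (h2 : ∀ a b c, D (a, b + 2 * Real.pi, c) = D (a, b, c))
    (h3 : ∀ a b c, D (a, b, c + 2 * Real.pi) = D (a, b, c))
    (hs : ∀ a b c t, D (a + t, b + t, c + t) = D (a, b, c))
    {g : ℝ → ℝ} {c0 : ℝ} (hg : IntegrableOn g (Icc (-1 : ℝ) 8))
    (hlaw : ∀ φ : ℝ → ℝ, Continuous φ → ∫ p : ℝ × ℝ × ℝ, D p * φ (rho p.1 p.2.1 p.2.2) ∂m3 =
      c0 * ∫ x in Icc (-1 : ℝ) 8, φ x * g x)
    {φ : ℝ × ℝ → ℝ} (hφ : Continuous φ) {C : ℝ} (hC : ∀ w, |φ w| ≤ C) :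
    ∫ p, D p * φ (SS p) ∂m3 = c0 / Real.pi * ∫ w : ℝ × ℝ, φ w * gx g (sq w) := by
  have hpi := Real.pi_pos
  have hA : ∀ t : ℝ, ∫ p : ℝ × ℝ × ℝ, D p * φ (SS (p.1 + t, p.2.1 + t, p.2.2 + t)) ∂m3 =
      ∫ p, D p * φ (SS p) ∂m3 := by
    intro t
    have hc : Continuous fun p => D p * φ (SS p) := by fun_prop
    have hom : ∀ x : ℝ, om (x + 2 * Real.pi) = om x := by
      intro x
      unfold om
      rw [Real.cos_add_two_pi, Real.sin_add_two_pi]
    have h := m3_shift (F := fun p => D p * φ (SS p)) hc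
      (fun a b c => by simp only [SS, h1, hom]) (fun a b c => by simp only [SS, h2, hom])
      (fun a b c => by simp only [SS, h3, hom]) t
    rw [← h]
    refine integral_congr_ae (Eventually.of_forall fun p => ?_)
    simp only [hs]
  have h4 : ∫ t, (∫ p : ℝ × ℝ × ℝ, D p * φ (SS (p.1 + t, p.2.1 + t, p.2.2 + t)) ∂m3) ∂mc =
      2 * Real.pi * ∫ p, D p * φ (SS p) ∂m3 := by
    simp only [hA]
    rw [integral_const, smul_eq_mul]
    congr 1
    unfold mc
    simp [Measure.real]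
    positivity
  rw [integral_integral_swap (f := fun (t : ℝ) (p : ℝ × ℝ × ℝ) =>
    D p * φ (SS (p.1 + t, p.2.1 + t, p.2.2 + t)))
    (m4_integrable (F := fun q : ℝ × (ℝ × ℝ × ℝ) =>
      D q.2 * φ (SS (q.2.1 + q.1, q.2.2.1 + q.1, q.2.2.2 + q.1))) (by fun_prop))] at h4
  have h5 : ∀ p : ℝ × ℝ × ℝ, ∫ t, D p * φ (SS (p.1 + t, p.2.1 + t, p.2.2 + t)) ∂mc =
      D p * (fun x : ℝ => ∫ t, φ (Real.sqrt (1 + x) * Real.cos t, Real.sqrt (1 + x) * Real.sin t) ∂mc)
        (rho p.1 p.2.1 p.2.2) := by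
    intro p
    rw [integral_const_mul, SS_avg]
  simp only [h5] at h4
  have hΦ : Continuous fun x : ℝ => ∫ t, φ (Real.sqrt (1 + x) * Real.cos t,
      Real.sqrt (1 + x) * Real.sin t) ∂mc := by
    simp only [mc_eq]
    refine intervalIntegral.continuous_parametric_intervalIntegral_of_continuous' ?_ _ _
    unfold Function.uncurry
    fun_prop
  rw [hlaw _ hΦ] at h4
  rw [planar_polar hφ hC (integrable_gx hg)]
  have h6 := gx_shift (g := g) (fun x : ℝ => ∫ t, φ (Real.sqrt (1 + x) * Real.cos t,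
      Real.sqrt (1 + x) * Real.sin t) ∂mc)
  have h7 : ∀ y : ℝ, 1 + (y - 1) = y := fun y => by ring
  simp only [h7] at h6
  rw [h6]
  field_simp
  linarith

end Pool.Agent.Lib.MP_230119_an
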