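import Pool.Agent.Lib.MP_230119_an.ST04b

/-!
# Approximate identities and uniform bounds
-/

set_option autoImplicit false

open MeasureTheory Set Filter Topology
open scoped ENNReal

namespace Pool.Agent.Lib.MP_230119_an

theorem integrable_gk {R : ℝ} (hR : 0 < R) : Integrable (gk R) := by
  refine ⟨(continuous_gk R).aestronglyMeasurable, ?_⟩
  unfold HasFiniteIntegral
  have e : ∀ v, ‖gk R v‖ₑ = ENNReal.ofReal (gk R v) := fun v => by
    rw [← ofReal_norm, Real.norm_of_nonneg (gk_nonneg _ _)]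
  simp only [e]
  rw [lintegral_gk hR]
  exact ENNReal.ofReal_lt_top

theorem integral_gk {R : ℝ} (hR : 0 < R) : ∫ v : ℝ × ℝ, gk R v = 2 * Real.pi := by
  rw [integral_eq_lintegral_of_nonneg_ae (Eventually.of_forall fun v => gk_nonneg _ _)
    (continuous_gk R).aestronglyMeasurable, lintegral_gk hR, ENNReal.toReal_ofReal (by positivity)]

theorem integral_gk_add {R : ℝ} (hR : 0 < R) (v : ℝ × ℝ) :
    ∫ w : ℝ × ℝ, gk R (v + w) = 2 * Real.pi := by
  rw [integral_add_left_eq_self (gk R) v, integral_gk hR]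

theorem integrable_gk_add {R : ℝ} (hR : 0 < R) (v : ℝ × ℝ) :
    Integrable fun w : ℝ × ℝ => gk R (v + w) := (integrable_gk hR).comp_add_left v

theorem norm_sq_le_sq (x : ℝ × ℝ) : ‖x‖ ^ 2 ≤ sq x := by
  rw [Prod.norm_def]
  unfold sq
  rcases max_cases ‖x.1‖ ‖x.2‖ with ⟨h, _⟩ | ⟨h, _⟩ <;> rw [h, Real.norm_eq_abs, sq_abs]
  · nlinarith [sq_nonneg x.2]
  · nlinarith [sq_nonneg x.1]

theorem approx_id {F : ℝ × ℝ → ℝ} (hF : Integrable F) {v : ℝ × ℝ} (hc : ContinuousAt F (-v)) :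
    Tendsto (fun n : ℕ => ∫ w, gk ((n : ℝ) + 1) (v + w) * F w) atTop (𝓝 (2 * Real.pi * F (-v))) := by
  have hpi := Real.pi_pos
  have h1 : ∀ x : ℝ × ℝ, 0 ≤ (2 * Real.pi)⁻¹ * gk 1 x := fun x =>
    mul_nonneg (by positivity) (gk_nonneg _ _)
  have h2 : ∫ x : ℝ × ℝ, (2 * Real.pi)⁻¹ * gk 1 x = 1 := by
    rw [integral_const_mul, integral_gk one_pos]
    field_simp
  have h3 : Tendsto (fun x : ℝ × ℝ => ‖x‖ ^ Module.finrank ℝ (ℝ × ℝ) * ((2 * Real.pi)⁻¹ * gk 1 x))
      (Bornology.cobounded (ℝ × ℝ)) (𝓝 0) := by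
    have hfr : Module.finrank ℝ (ℝ × ℝ) = 2 := by simp
    rw [hfr]
    have h4 : Tendsto (fun x : ℝ × ℝ => ‖x‖ ^ 2 / 2) (Bornology.cobounded (ℝ × ℝ)) atTop :=
      ((tendsto_pow_atTop (by norm_num)).comp tendsto_norm_cobounded_atTop).atTop_div_const
        (by norm_num)
    have h5 := ((Real.tendsto_pow_mul_exp_neg_atTop_nhds_zero 1).comp h4).const_mul
      ((2 * Real.pi)⁻¹ * 2)
    rw [mul_zero] at h5
    refine squeeze_zero (fun x => mul_nonneg (by positivity) (h1 x)) (fun x => ?_) h5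
    simp only [Function.comp, pow_one]
    unfold gk
    rw [one_pow, one_mul, one_mul]
    have h6 : Real.exp (-(sq x / 2)) ≤ Real.exp (-(‖x‖ ^ 2 / 2)) := by
      apply Real.exp_le_exp.2
      linarith [norm_sq_le_sq x]
    calc ‖x‖ ^ 2 * ((2 * Real.pi)⁻¹ * Real.exp (-(sq x / 2)))
        ≤ ‖x‖ ^ 2 * ((2 * Real.pi)⁻¹ * Real.exp (-(‖x‖ ^ 2 / 2))) := by gcongr
      _ = (2 * Real.pi)⁻¹ * 2 * (‖x‖ ^ 2 / 2 * Real.exp (-(‖x‖ ^ 2 / 2))) := by ring
  have h4 := tendsto_integral_comp_smul_smul_of_integrable' (μ := (volume : Measure (ℝ × ℝ)))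
    h1 h2 h3 hF hc
  have h5 : Tendsto (fun n : ℕ => ((n : ℝ) + 1)) atTop atTop :=
    tendsto_atTop_add_const_right _ _ tendsto_natCast_atTop_atTop
  have h6 := (h4.comp h5).const_mul (2 * Real.pi)
  refine h6.congr fun n => ?_
  simp only [Function.comp]
  rw [← integral_const_mul]
  refine integral_congr_ae (Eventually.of_forall fun w => ?_)
  simp only
  have hfr : Module.finrank ℝ (ℝ × ℝ) = 2 := by simp
  rw [hfr]
  have e : ((n : ℝ) + 1) ^ 2 * gk 1 (((n : ℝ) + 1) • (-v - w)) = gk ((n : ℝ) + 1) (v + w) := by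
    unfold gk sq
    simp only [Prod.smul_fst, Prod.smul_snd, Prod.fst_sub, Prod.snd_sub, Prod.fst_neg,
      Prod.snd_neg, Prod.fst_add, Prod.snd_add, smul_eq_mul, one_pow, one_mul]
    congr 2
    ring
  rw [smul_eq_mul, ← e]
  field_simp

theorem sq_mul_gk_le {R : ℝ} (z : ℝ × ℝ) : sq z * gk R z ≤ 1 := by
  have hz := sq_nonneg' z
  obtain ⟨t, ht⟩ : ∃ t : ℝ, t = R ^ 2 * sq z / 2 := ⟨_, rfl⟩
  have ht0 : 0 ≤ t := by rw [ht]; positivity
  have e : sq z * gk R z = 2 * t * Real.exp (-t) := by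
    unfold gk
    rw [ht]
    ring
  rw [e]
  have h := Real.quadratic_le_exp_of_nonneg ht0
  rw [Real.exp_neg, ← div_eq_mul_inv, div_le_one (Real.exp_pos _)]
  nlinarith [sq_nonneg (t - 1)]

theorem rho_split {v w : ℝ × ℝ} (hv : sq v ≤ 9) (hw : sq w ≤ 9) :
    (sq v - 1) ^ 2 ≤ 2 * (sq w - 1) ^ 2 + 72 * sq (v + w) := by
  have h1 : (sq v - sq w) ^ 2 ≤ 36 * sq (v + w) := by
    have e1 : (sq v - sq w) ^ 2 ≤ sq (v - w) * sq (v + w) := by
      unfold sq
      simp only [Prod.fst_add, Prod.snd_add, Prod.fst_sub, Prod.snd_sub]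
      nlinarith [sq_nonneg ((v.1 - w.1) * (v.2 + w.2) - (v.2 - w.2) * (v.1 + w.1))]
    have e2 : sq (v - w) ≤ 36 := by
      have : sq (v - w) ≤ 2 * (sq v + sq w) := by
        unfold sq
        simp only [Prod.fst_sub, Prod.snd_sub]
        nlinarith [sq_nonneg (v.1 + w.1), sq_nonneg (v.2 + w.2)]
      linarith
    exact e1.trans (mul_le_mul_of_nonneg_right e2 (sq_nonneg' _))
  nlinarith [sq_nonneg ((sq w - 1) - (sq v - sq w))]

/-- the smoothed density -/
noncomputable def Ga (D : ℝ × ℝ × ℝ → ℝ) (R : ℝ) (v : ℝ × ℝ) : ℝ :=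
  ∫ p, D p * gk R (v + SS p) ∂m3

theorem xlog_bound {x : ℝ} (hx : x ≠ 0) (h1 : -1 ≤ x) (h8 : x ≤ 8) :
    x ^ 2 * (1 + |Real.log x|) ≤ 584 := by
  have hx0 : 0 < |x| := abs_pos.2 hx
  have h2 : |x| ≤ 8 := abs_le.2 ⟨by linarith, h8⟩
  have h3 : |Real.log x| ≤ |x| + |x|⁻¹ := by
    rw [← Real.log_abs, abs_le]
    constructor
    · have := Real.log_le_sub_one_of_pos (inv_pos.2 hx0)
      rw [Real.log_inv] at this
      linarith
    · have := Real.log_le_sub_one_of_pos hx0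
      have := inv_pos.2 hx0
      linarith
  have h4 : x ^ 2 = |x| ^ 2 := (sq_abs x).symm
  rw [h4]
  calc |x| ^ 2 * (1 + |Real.log x|) ≤ |x| ^ 2 * (1 + (|x| + |x|⁻¹)) := by gcongr
    _ = |x| ^ 2 + |x| ^ 3 + |x| := by
      field_simp
      ring
    _ ≤ 8 ^ 2 + 8 ^ 3 + 8 := by gcongr
    _ = 584 := by norm_num

section
variable {G u : ℝ → ℝ} {c0 : ℝ}

theorem integrable_G (h : LawData G u c0) : IntegrableOn G (Icc (-1 : ℝ) 8) := by
  obtain ⟨C, hC⟩ := h.bdG
  have h1 : IntegrableOn (fun x => C * (1 + |Real.log x|)) (Icc (-1 : ℝ) 8) := by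
    have h2 : IntervalIntegrable Real.log volume (-1) 8 := intervalIntegral.intervalIntegrable_log'
    rw [intervalIntegrable_iff_integrableOn_Icc_of_le (by norm_num)] at h2
    have h3 : IntegrableOn (fun _ : ℝ => (1 : ℝ)) (Icc (-1 : ℝ) 8) := by
      exact integrableOn_const (by simp)
    exact (h3.add h2.abs).const_mul C
  refine Integrable.mono' h1 h.measG.aestronglyMeasurable ?_
  have h0 : ∀ᵐ x : ℝ, x ≠ 0 := by
    rw [ae_iff]
    simp
  filter_upwards [ae_restrict_mem measurableSet_Icc, ae_restrict_of_ae h0] with x hx hx0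
  exact hC x hx hx0

/-- the density for `DD` -/
noncomputable def gD (G u : ℝ → ℝ) (x : ℝ) : ℝ := u x + 3 / 4 * x * (x - 8) * G x

theorem measurable_gD (h : LawData G u c0) : Measurable (gD G u) := by
  have h1 := h.measG
  have h2 := h.measu
  unfold gD
  fun_prop

theorem integrable_gD (h : LawData G u c0) : IntegrableOn (gD G u) (Icc (-1 : ℝ) 8) := by
  obtain ⟨C, hC⟩ := h.bdu
  have h1 : IntegrableOn u (Icc (-1 : ℝ) 8) := by
    refine Measure.integrableOn_of_bounded (M := C) (by simp) h.measu.aestronglyMeasurable ?_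
    filter_upwards [ae_restrict_mem measurableSet_Icc] with x hx
    exact hC x hx
  have h2 : IntegrableOn (fun x => 3 / 4 * x * (x - 8) * G x) (Icc (-1 : ℝ) 8) := by
    refine (integrable_G h).continuousOn_mul ?_ isCompact_Icc
    fun_prop
  exact h1.add h2

theorem Ga_eq_G (h : LawData G u c0) {φ : ℝ × ℝ → ℝ} (hφ : Continuous φ) {C : ℝ}
    (hC : ∀ w, |φ w| ≤ C) :
    ∫ p, φ (SS p) ∂m3 = c0 / Real.pi * ∫ w : ℝ × ℝ, φ w * gx G (sq w) := by
  have h1 := law_planar (D := fun _ => 1) continuous_const (fun _ _ _ => rfl) (fun _ _ _ => rfl)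
    (fun _ _ _ => rfl) (fun _ _ _ _ => rfl) (integrable_G h) (c0 := c0)
    (fun φ hφ => by simp only [one_mul]; exact h.law1 φ hφ) hφ hC
  simpa only [one_mul] using h1

theorem DD_per (a b c : ℝ) : DD (a + 2 * Real.pi) b c = DD a b c ∧
    DD a (b + 2 * Real.pi) c = DD a b c ∧ DD a b (c + 2 * Real.pi) = DD a b c := by
  unfold DD
  simp only [Real.sin_sub, Real.sin_add_two_pi, Real.cos_add_two_pi]
  exact ⟨trivial, trivial, trivial⟩

theorem DD_shift (a b c t : ℝ) : DD (a + t) (b + t) (c + t) = DD a b c := by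
  unfold DD
  simp only [add_sub_add_right_eq_sub]

theorem Ga_eq_D (h : LawData G u c0) {φ : ℝ × ℝ → ℝ} (hφ : Continuous φ) {C : ℝ}
    (hC : ∀ w, |φ w| ≤ C) :
    ∫ p : ℝ × ℝ × ℝ, DD p.1 p.2.1 p.2.2 * φ (SS p) ∂m3 =
      c0 / Real.pi * ∫ w : ℝ × ℝ, φ w * gx (gD G u) (sq w) := by
  exact law_planar (D := fun p => DD p.1 p.2.1 p.2.2) continuous_DD
    (fun a b c => (DD_per a b c).1) (fun a b c => (DD_per a b c).2.1)
    (fun a b c => (DD_per a b c).2.2) (fun a b c t => DD_shift a b c t) (integrable_gD h)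
    (c0 := c0) (fun φ hφ => h.law2 φ hφ) hφ hC

theorem gk_le (R : ℝ) (v : ℝ × ℝ) : |gk R v| ≤ R ^ 2 := by
  rw [abs_of_nonneg (gk_nonneg _ _)]
  unfold gk
  have h1 : Real.exp (-(R ^ 2 * sq v / 2)) ≤ 1 := by
    rw [Real.exp_le_one_iff]
    have := mul_nonneg (pow_two_nonneg R) (sq_nonneg' v)
    linarith
  nlinarith [pow_two_nonneg R]

theorem cont_gx {g : ℝ → ℝ} {x : ℝ} (hx : x < 8) (hg : ContinuousAt g x) {v : ℝ × ℝ}
    (hv : sq v = 1 + x) : ContinuousAt (fun w : ℝ × ℝ => gx g (sq w)) (-v) := by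
  have h1 : (fun w : ℝ × ℝ => gx g (sq w)) =ᶠ[𝓝 (-v)] fun w => g (sq w - 1) := by
    have h2 : ∀ᶠ w in 𝓝 (-v), sq w < 9 := by
      refine continuous_sq.continuousAt.eventually (Iio_mem_nhds ?_)
      rw [sq_neg, hv]
      linarith
    filter_upwards [h2] with w hw
    unfold gx
    rw [if_pos hw.le]
  refine ContinuousAt.congr ?_ h1.symm
  refine ContinuousAt.comp (f := fun w : ℝ × ℝ => sq w - 1) ?_ ?_
  · rw [sq_neg, hv, add_sub_cancel_left]
    exact hg
  · exact (continuous_sq.sub continuous_const).continuousAt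

theorem Ga_tendsto (h : LawData G u c0) {v : ℝ × ℝ} {x : ℝ} (hv : sq v = 1 + x)
    (hx : x ∈ Ioo (-1 : ℝ) 8) (hx0 : x ≠ 0) :
    Tendsto (fun n : ℕ => Ga (fun _ => 1) ((n : ℝ) + 1) v) atTop (𝓝 (2 * c0 * G x)) := by
  have hpi := Real.pi_pos
  have h1 := approx_id (planar_integrable (integrable_gx (integrable_G h))
    (measurable_gx h.measG)) (cont_gx hx.2 (h.contG x hx hx0) hv)
  have h2 := h1.const_mul (c0 / Real.pi)
  have e : c0 / Real.pi * (2 * Real.pi * gx G (sq (-v))) = 2 * c0 * G x := by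
    rw [sq_neg, hv]
    unfold gx
    rw [if_pos (by linarith [hx.2]), add_sub_cancel_left]
    field_simp
  rw [e] at h2
  refine h2.congr fun n => ?_
  unfold Ga
  simp only [one_mul]
  exact (Ga_eq_G h (φ := fun w => gk ((n : ℝ) + 1) (v + w))
    ((continuous_gk _).comp (by fun_prop)) (fun w => gk_le _ _)).symm

theorem GaD_tendsto (h : LawData G u c0) {v : ℝ × ℝ} {x : ℝ} (hv : sq v = 1 + x)
    (hx : x ∈ Ioo (-1 : ℝ) 8) (hx0 : x ≠ 0) :
    Tendsto (fun n : ℕ => Ga (fun p => DD p.1 p.2.1 p.2.2) ((n : ℝ) + 1) v) atTop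
      (𝓝 (2 * c0 * gD G u x)) := by
  have hpi := Real.pi_pos
  have hcD : ContinuousAt (gD G u) x := by
    have h1 := h.contG x hx hx0
    have h2 := h.contu x hx hx0
    unfold gD
    fun_prop
  have h1 := approx_id (planar_integrable (integrable_gx (integrable_gD h))
    (measurable_gx (measurable_gD h))) (cont_gx hx.2 hcD hv)
  have h2 := h1.const_mul (c0 / Real.pi)
  have e : c0 / Real.pi * (2 * Real.pi * gx (gD G u) (sq (-v))) = 2 * c0 * gD G u x := by
    rw [sq_neg, hv]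
    unfold gx
    rw [if_pos (by linarith [hx.2]), add_sub_cancel_left]
    field_simp
  rw [e] at h2
  refine h2.congr fun n => ?_
  unfold Ga
  exact (Ga_eq_D h (φ := fun w => gk ((n : ℝ) + 1) (v + w))
    ((continuous_gk _).comp (by fun_prop)) (fun w => gk_le _ _)).symm

theorem Ga_nonneg {D : ℝ × ℝ × ℝ → ℝ} (hD : ∀ p, 0 ≤ D p) (R : ℝ) (v : ℝ × ℝ) :
    0 ≤ Ga D R v := integral_nonneg fun p => mul_nonneg (hD p) (gk_nonneg _ _)

/-- the uniform bound -/
theorem Ga_bound (h : LawData G u c0) : ∃ B : ℝ, 0 ≤ B ∧ ∀ R : ℝ, 0 < R → ∀ v : ℝ × ℝ,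
    sq v ≤ 9 → (sq v - 1) ^ 2 * Ga (fun _ => 1) R v ≤ B := by
  have hpi := Real.pi_pos
  obtain ⟨C, hC⟩ := h.bdG
  have hM : ∀ y : ℝ, 0 ≤ y → |(min y 9 - 1) ^ 2 * gx G y| ≤ |C| * 584 := by
    intro y hy
    unfold gx
    by_cases h9 : y ≤ 9
    · rw [if_pos h9, min_eq_left h9]
      by_cases h0 : y - 1 = 0
      · rw [h0]
        simp
      · have h1 := hC (y - 1) ⟨by linarith, by linarith⟩ h0
        have h2 := xlog_bound h0 (by linarith) (by linarith)
        rw [abs_mul, abs_of_nonneg (sq_nonneg (y - 1))]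
        have h3 : C * (1 + |Real.log (y - 1)|) ≤ |C| * (1 + |Real.log (y - 1)|) :=
          mul_le_mul_of_nonneg_right (le_abs_self C) (by positivity)
        calc (y - 1) ^ 2 * |G (y - 1)| ≤ (y - 1) ^ 2 * (|C| * (1 + |Real.log (y - 1)|)) := by
              gcongr
              exact h1.trans h3
          _ = |C| * ((y - 1) ^ 2 * (1 + |Real.log (y - 1)|)) := by ring
          _ ≤ |C| * 584 := by gcongr
    · rw [if_neg h9, mul_zero, abs_zero]
      positivity
  have hc0 := h.c0_pos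
  refine ⟨2 * (c0 / Real.pi * (|C| * 584 * (2 * Real.pi))) + 72 * m3.real univ, by positivity,
    fun R hR v hv => ?_⟩
  have hc1 : Continuous fun w : ℝ × ℝ => gk R (v + w) := (continuous_gk R).comp (by fun_prop)
  have hc2 : Continuous fun w : ℝ × ℝ => (min (sq w) 9 - 1) ^ 2 * gk R (v + w) := by fun_prop
  have hb2 : ∀ w : ℝ × ℝ, |(min (sq w) 9 - 1) ^ 2 * gk R (v + w)| ≤ 64 * R ^ 2 := by
    intro w
    rw [abs_mul, abs_of_nonneg (sq_nonneg (min (sq w) 9 - 1))]
    have h1 := gk_le R (v + w)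
    have h2 : 0 ≤ min (sq w) 9 := le_min (sq_nonneg' w) (by norm_num)
    have h3 : min (sq w) 9 ≤ 9 := min_le_right _ _
    have h4 : (min (sq w) 9 - 1) ^ 2 ≤ 64 := by nlinarith
    exact mul_le_mul h4 h1 (abs_nonneg _) (by norm_num)
  have e1 := Ga_eq_G h (φ := fun w : ℝ × ℝ => (min (sq w) 9 - 1) ^ 2 * gk R (v + w)) hc2 hb2
  have h1 : ∫ p, (min (sq (SS p)) 9 - 1) ^ 2 * gk R (v + SS p) ∂m3 ≤
      c0 / Real.pi * (|C| * 584 * (2 * Real.pi)) := by
    rw [e1]
    have h2 : ∫ w : ℝ × ℝ, (min (sq w) 9 - 1) ^ 2 * gk R (v + w) * gx G (sq w) ≤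
        ∫ w : ℝ × ℝ, |C| * 584 * gk R (v + w) := by
      refine integral_mono_ae ?_ ((integrable_gk_add hR v).const_mul _)
        (Eventually.of_forall fun w => ?_)
      · have h3 := planar_integrable (integrable_gx (integrable_G h)) (measurable_gx h.measG)
        exact h3.bdd_mul (c := 64 * R ^ 2) hc2.aestronglyMeasurable (Eventually.of_forall hb2)
      · simp only
        have h3 := hM (sq w) (sq_nonneg' w)
        have h4 := le_abs_self ((min (sq w) 9 - 1) ^ 2 * gx G (sq w))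
        calc (min (sq w) 9 - 1) ^ 2 * gk R (v + w) * gx G (sq w)
            = ((min (sq w) 9 - 1) ^ 2 * gx G (sq w)) * gk R (v + w) := by ring
          _ ≤ |C| * 584 * gk R (v + w) :=
            mul_le_mul_of_nonneg_right (h4.trans h3) (gk_nonneg _ _)
    rw [integral_const_mul, integral_gk_add hR] at h2
    gcongr
  have hcS : Continuous fun p : ℝ × ℝ × ℝ => gk R (v + SS p) :=
    (continuous_gk R).comp (continuous_const.add continuous_SS)
  have hcm : Continuous fun p : ℝ × ℝ × ℝ => (min (sq (SS p)) 9 - 1) ^ 2 :=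
    (((continuous_sq.comp continuous_SS).min continuous_const).sub continuous_const).pow 2
  have h2 : (sq v - 1) ^ 2 * Ga (fun _ => 1) R v ≤
      2 * ∫ p, (min (sq (SS p)) 9 - 1) ^ 2 * gk R (v + SS p) ∂m3 + 72 * ∫ _p, (1 : ℝ) ∂m3 := by
    unfold Ga
    rw [← integral_const_mul, ← integral_const_mul, ← integral_const_mul, ← integral_add]
    · refine integral_mono (m3_integrable ?_) (m3_integrable ?_) fun p => ?_
      · exact continuous_const.mul (continuous_const.mul hcS)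
      · exact (continuous_const.mul (hcm.mul hcS)).add continuous_const
      · simp only [one_mul, mul_one]
        have hw : sq (SS p) ≤ 9 := by
          rw [sq_SS]
          linarith [rho_le p.1 p.2.1 p.2.2]
        rw [min_eq_left hw]
        have h3 := rho_split hv hw
        have h4 := sq_mul_gk_le (R := R) (v + SS p)
        have h5 := gk_nonneg R (v + SS p)
        nlinarith [mul_le_mul_of_nonneg_right h3 h5]
    · exact m3_integrable (continuous_const.mul (hcm.mul hcS))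
    · exact m3_integrable continuous_const
  have h3 : ∫ _p, (1 : ℝ) ∂m3 = m3.real univ := by simp
  rw [h3] at h2
  linarith

end

end Pool.Agent.Lib.MP_230119_an
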